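import Mathlib
import Pool.Agent.Lib.H55P.TD

/-! # H55W: construction of Hecke characters -/

open NumberField IsDedekindDomain

namespace H55W

open H55P (IQ IsHecke)

variable {F : Type} [Field F] [NumberField F] [IQ F]

theorem hb_one {M : Ideal (𝓞 F)} : IsCoprime (Ideal.span {(1 : 𝓞 F)}) M := by
  rw [Ideal.span_singleton_one, ← Ideal.one_eq_top]
  exact isCoprime_one_left

theorem hb_mul {M : Ideal (𝓞 F)} {x y : 𝓞 F} (hx : IsCoprime (Ideal.span {x}) M) (hy : IsCoprime (Ideal.span {y}) M) :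
    IsCoprime (Ideal.span {x * y}) M := by
  rw [← Ideal.span_singleton_mul_span_singleton]
  exact hx.mul_left hy

/-- The Hecke character given by a function on the elements. -/
theorem exists_hecke (M : Ideal (𝓞 F)) (h0 : M ≠ ⊥) (h1 : M ≠ ⊤) (f : 𝓞 F → 𝓞 F)
    (hu : ∀ x, IsCoprime (Ideal.span {x}) M → IsUnit (f x))
    (hm : ∀ x y, IsCoprime (Ideal.span {x}) M → IsCoprime (Ideal.span {y}) M → f (x * y) = f x * f y)
    (hi : ∀ u x : 𝓞 F, IsUnit u → IsCoprime (Ideal.span {x}) M → f (u * x) * u = f x)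
    (hp : ∀ x y, IsCoprime (Ideal.span {x}) M → IsCoprime (Ideal.span {y}) M → x - y ∈ M → f x = f y) :
    ∃ ψ : Ideal (𝓞 F) →*₀ 𝓞 F, IsHecke M ψ ∧ ∀ x, IsCoprime (Ideal.span {x}) M → ψ (Ideal.span {x}) = f x * x := by
  classical
  set g : Ideal (𝓞 F) → 𝓞 F := fun J => Submodule.IsPrincipal.generator J with hg
  have hgs : ∀ J : Ideal (𝓞 F), Ideal.span {g J} = J := fun J => Ideal.span_singleton_generator J
  have hw : ∀ x y : 𝓞 F, Ideal.span {x} = Ideal.span {y} → IsCoprime (Ideal.span {x}) M → f x * x = f y * y := by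
    intro x y hxy hx
    obtain ⟨u, hu'⟩ := Ideal.span_singleton_eq_span_singleton.1 hxy
    have h2 := hi u x u.isUnit hx
    rw [← hu', mul_comm x, ← mul_assoc, h2]
  set G : Ideal (𝓞 F) → 𝓞 F := fun J => if IsCoprime J M then f (g J) * g J else 0 with hG
  have hGx : ∀ x, IsCoprime (Ideal.span {x}) M → G (Ideal.span {x}) = f x * x := by
    intro x hx
    simp only [hG]
    rw [if_pos hx]
    exact hw _ _ (hgs _) (by rw [hgs]; exact hx)
  have hf1 : f 1 = 1 := by
    have h2 := hm 1 1 hb_one hb_one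
    rw [mul_one] at h2
    obtain ⟨w, hw1⟩ := hu 1 hb_one
    rw [← hw1] at h2 ⊢
    have h3 : w = w * w := by exact_mod_cast h2
    have h4 : w = 1 := by
      have := mul_left_cancel (a := w) (b := 1) (c := w) (by rw [mul_one]; exact h3)
      exact this.symm
    rw [h4]
    rfl
  have hbot : ¬ IsCoprime (⊥ : Ideal (𝓞 F)) M := by
    intro h
    apply h1
    rw [Ideal.isCoprime_iff_sup_eq, bot_sup_eq] at h
    exact h
  refine ⟨⟨⟨G, ?_⟩, ?_, ?_⟩, ⟨h0, h1, ?_, ?_, ?_⟩, hGx⟩
  · show G 0 = 0
    simp only [hG]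
    exact if_neg hbot
  · show G 1 = 1
    rw [Ideal.one_eq_top, ← Ideal.span_singleton_one, hGx 1 hb_one, hf1, one_mul]
  · intro I J
    show G (I * J) = G I * G J
    by_cases hI : IsCoprime I M
    · by_cases hJ : IsCoprime J M
      · have e1 : G I = f (g I) * g I := by simp only [hG]; rw [if_pos hI]
        have e2 : G J = f (g J) * g J := by simp only [hG]; rw [if_pos hJ]
        have hI' : IsCoprime (Ideal.span {g I}) M := by rw [hgs]; exact hI
        have hJ' : IsCoprime (Ideal.span {g J}) M := by rw [hgs]; exact hJ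
        have e3 : I * J = Ideal.span {g I * g J} := by
          rw [← Ideal.span_singleton_mul_span_singleton, hgs, hgs]
        rw [e3, hGx _ (hb_mul hI' hJ'), hm _ _ hI' hJ', e1, e2]
        ring
      · have e2 : G J = 0 := by simp only [hG]; rw [if_neg hJ]
        have e3 : G (I * J) = 0 := by
          simp only [hG]
          rw [if_neg fun h => hJ (IsCoprime.mul_left_iff.1 h).2]
        rw [e2, e3, mul_zero]
    · have e2 : G I = 0 := by simp only [hG]; rw [if_neg hI]
      have e3 : G (I * J) = 0 := by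
        simp only [hG]
        rw [if_neg fun h => hI (IsCoprime.mul_left_iff.1 h).1]
      rw [e2, e3, zero_mul]
  · intro J hJ
    show Ideal.span {G J} = J
    have e1 : G J = f (g J) * g J := by simp only [hG]; rw [if_pos hJ]
    rw [e1, ← Ideal.span_singleton_mul_span_singleton, hgs,
      Ideal.span_singleton_eq_top.2 (hu _ (by rw [hgs]; exact hJ)), ← Ideal.one_eq_top, one_mul]
  · intro J hJ
    show G J = 0
    simp only [hG]
    rw [if_neg hJ]
  · intro x y hx hy hxy
    show G _ * y = G _ * x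
    rw [hGx x hx, hGx y hy, hp x y hx hy hxy]
    ring

/-- A multiplicative function which is 1 on the elements congruent to 1 modulo M is periodic modulo M. -/
theorem per_of_one {R : Type} [CommRing R] {M : Ideal R} {κ : R → R}
    (hm : ∀ x y, IsCoprime (Ideal.span {x}) M → IsCoprime (Ideal.span {y}) M → κ (x * y) = κ x * κ y)
    (h1 : ∀ x, x - 1 ∈ M → κ x = 1) {x y : R} (hx : IsCoprime (Ideal.span {x}) M)
    (hy : IsCoprime (Ideal.span {y}) M) (h : x - y ∈ M) : κ x = κ y := by
  obtain ⟨a, ha, b, hb, hab⟩ := Ideal.isCoprime_iff_exists.1 hx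
  obtain ⟨z, rfl⟩ := Ideal.mem_span_singleton.1 ha
  have hxz : x * z - 1 ∈ M := by
    have : x * z - 1 = -b := by rw [← hab]; ring
    rw [this]
    exact M.neg_mem hb
  have hyz : y * z - 1 ∈ M := by
    have : y * z - 1 = (x * z - 1) - z * (x - y) := by ring
    rw [this]
    exact M.sub_mem hxz (M.mul_mem_left _ h)
  have hz : IsCoprime (Ideal.span {z}) M := by
    rw [Ideal.isCoprime_iff_exists]
    exact ⟨x * z, Ideal.mem_span_singleton.2 ⟨x, by ring⟩, b, hb, hab⟩
  have e1 := h1 _ hxz
  have e2 := h1 _ hyz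
  rw [hm x z hx hz] at e1
  rw [hm y z hy hz] at e2
  calc κ x = κ x * (κ y * κ z) := by rw [e2, mul_one]
    _ = κ y * (κ x * κ z) := by ring
    _ = κ y := by rw [e1, mul_one]

end H55W
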