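import Mathlib
import Pool.Agent.Lib.H13D.MD
import Pool.Agent.Lib.H55K.EX1

/-! # H55W: y^2 + y = x^3 is a global minimal equation -/

open NumberField IsDedekindDomain WeierstrassCurve H55K.TQ

namespace H55W

theorem ezm_disc : EZ.Δ = -27 := by
  simp only [EZ, WeierstrassCurve.Δ, WeierstrassCurve.b₂, WeierstrassCurve.b₄, WeierstrassCurve.b₆, WeierstrassCurve.b₈]
  norm_num

theorem ezm_min : H13D.MinZ EZ := by
  intro l hl hd C hC
  rw [ezm_disc] at hd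
  have h3 : l = 3 := by
    have h1 : (l : ℤ) ∣ 3 ^ 3 := by
      have := (dvd_neg (a := (l : ℤ)) (b := 27)).1 hd
      norm_num
      exact this
    have h2 : l ∣ 3 ^ 3 := by exact_mod_cast h1
    exact (Nat.prime_dvd_prime_iff_eq hl Nat.prime_three).1 (hl.dvd_of_dvd_pow h2)
  subst h3
  have hF : Fact (Nat.Prime 3) := ⟨Nat.prime_three⟩
  have hn := hC.num
  have hden := hC.den
  rw [WeierstrassCurve.variableChange_Δ] at hn hden
  have hΔ : (EZ⁄ℚ).Δ = -27 := by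
    have := EZ.map_Δ (algebraMap ℤ ℚ)
    rw [ezm_disc] at this
    rw [show (EZ⁄ℚ) = EZ.map (algebraMap ℤ ℚ) from rfl, this]
    norm_num
  rw [hΔ] at hn hden
  obtain ⟨q, hq⟩ : ∃ q : ℚ, ((C.u⁻¹ : ℚˣ) : ℚ) ^ 12 * -27 = q := ⟨_, rfl⟩
  rw [hq] at hn hden
  have h0 : padicValRat 3 q = 0 := by
    rw [padicValRat_def, padicValInt.eq_zero_of_not_dvd (by exact_mod_cast hn), padicValNat.eq_zero_of_not_dvd hden]
    simp
  have h1 : padicValRat 3 q = 12 * padicValRat 3 ((C.u⁻¹ : ℚˣ) : ℚ) + 3 := by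
    rw [← hq, padicValRat.mul (pow_ne_zero _ (Units.ne_zero _)) (by norm_num), padicValRat.pow]
    have h2 : padicValRat 3 (-27 : ℚ) = 3 := by
      rw [padicValRat.neg]
      have h4 : (27 : ℚ) = ((3 : ℕ) : ℚ) ^ 3 := by norm_num
      rw [h4, padicValRat.pow, padicValRat.self (by norm_num)]
      norm_num
    rw [h2]
    norm_num
  omega

theorem ezm_per : ∃ Om : ℂ, H55P.Per H55B.F (-(H55P.eF H55B.F (EZ⁄(H55B.O)).c₄) / 48) (-(H55P.eF H55B.F (EZ⁄(H55B.O)).c₆) / 864) Om :=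
  ⟨H55P.OmE, ex_base.data.per⟩

end H55W
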