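import Mathlib

/-! # H55W: the Hecke characters of the curves with complex multiplication by the integers of the fields of discriminant -3, -4, -8: power residue characters -/

namespace H55W

/-- κ is the character x ↦ (n/x) of order m of the ring R: defined for x prime to c, periodic modulo k, trivial on the units and given by Euler's criterion
at the prime elements which do not divide c and m. -/
structure PRC (R : Type) [CommRing R] (m : ℕ) (n c k : ℤ) (κ : R → R) : Prop where
  root : ∀ x, IsCoprime x (c : R) → κ x ^ m = 1
  mul : ∀ x y, IsCoprime x (c : R) → IsCoprime y (c : R) → κ (x * y) = κ x * κ y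
  per : ∀ x y, IsCoprime x (c : R) → IsCoprime y (c : R) → (k : R) ∣ x - y → κ x = κ y
  unit : ∀ u, IsUnit u → κ u = 1
  euler : ∀ π : R, Prime π → ¬ π ∣ (c : R) → ¬ π ∣ (m : R) →
    π ∣ (n : R) ^ ((Nat.card (R ⧸ Ideal.span {π}) - 1) / m) - κ π

end H55W
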