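import Mathlib
import Pool.Agent.Lib.H35T.R5
import Pool.Agent.Lib.H55W.D

/-! # H55W, part C (cubic residue characters), file C1: factorisation of the Eisenstein integers prime to 3 and the symbol (n/x) -/

open NumberField IsDedekindDomain

namespace H55W

open H55B (O om gen Nm cj Prim gen_spec gen_prime gen_dvd_iff absNorm_gen exists_gen_eq exists_unit_prim)
open H35T (sym3 jac3 sym3_mul sym3_congr sym3_cube sym3_spec)

/-- l is the multiset of the prime ideals of x. -/
def Fac (x : O) (l : Multiset (HeightOneSpectrum O)) : Prop :=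
  (∀ v ∈ l, (3 : O) ∉ v.asIdeal) ∧ Associated (l.map gen).prod x

theorem c1_prim (l : Multiset (HeightOneSpectrum O)) (hl : ∀ v ∈ l, (3 : O) ∉ v.asIdeal) :
    Prim (l.map gen).prod := by
  induction l using Multiset.induction_on with
  | empty => rw [Multiset.map_zero, Multiset.prod_zero]; exact H55B.prim_one
  | cons u l ih =>
    rw [Multiset.map_cons, Multiset.prod_cons]
    exact H55B.Prim.mul (gen_spec u (hl u (Multiset.mem_cons_self u l))).2
      (ih fun v hv => hl v (Multiset.mem_cons_of_mem hv))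

theorem fac_exists {x : O} (h : IsCoprime x 3) : ∃ l, Fac x l := by
  obtain ⟨u, hu⟩ := exists_unit_prim h
  obtain ⟨l, hl, hp⟩ := H35T.factor _ hu
  refine ⟨l, hl, ?_⟩
  rw [← hp]
  exact (associated_unit_mul_left x u u.isUnit)

theorem fac_unique {x : O} {l l' : Multiset (HeightOneSpectrum O)} (h : Fac x l) (h' : Fac x l') : l = l' :=
  H35T.R4_uniq l l' h.1 h'.1
    (H55B.Prim.eq_of_associated (c1_prim l h.1) (c1_prim l' h'.1) (h.2.trans h'.2.symm))

theorem fac_mul {x y : O} {l l' : Multiset (HeightOneSpectrum O)} (h : Fac x l) (h' : Fac y l') :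
    Fac (x * y) (l + l') := by
  refine ⟨fun v hv => ?_, ?_⟩
  · rcases Multiset.mem_add.1 hv with hv | hv
    · exact h.1 v hv
    · exact h'.1 v hv
  · rw [Multiset.map_add, Multiset.prod_add]
    exact h.2.mul_mul h'.2

theorem fac_assoc {x y : O} {l : Multiset (HeightOneSpectrum O)} (h : Fac x l) (hxy : Associated x y) :
    Fac y l := ⟨h.1, h.2.trans hxy⟩

theorem fac_unit {u : O} (hu : IsUnit u) : Fac u 0 := by
  refine ⟨fun v hv => absurd hv (Multiset.notMem_zero v), ?_⟩
  rw [Multiset.map_zero, Multiset.prod_zero]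
  exact (associated_one_iff_isUnit.2 hu).symm

theorem fac_mem {x : O} {l : Multiset (HeightOneSpectrum O)} (h : Fac x l) {v : HeightOneSpectrum O}
    (hv : v ∈ l) : x ∈ v.asIdeal := by
  have h1 : gen v ∣ (l.map gen).prod := Multiset.dvd_prod (Multiset.mem_map_of_mem _ hv)
  exact (gen_dvd_iff v (h.1 v hv) x).1 (h1.trans h.2.dvd)

theorem fac_not {x y : O} {l : Multiset (HeightOneSpectrum O)} (h : Fac x l) (hxy : IsCoprime x y)
    {v : HeightOneSpectrum O} (hv : v ∈ l) : y ∉ v.asIdeal := by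
  intro hy
  obtain ⟨a, b, hab⟩ := hxy
  apply v.isPrime.ne_top
  rw [Ideal.eq_top_iff_one, ← hab]
  exact v.asIdeal.add_mem (v.asIdeal.mul_mem_left _ (fac_mem h hv)) (v.asIdeal.mul_mem_left _ hy)

theorem fac_prime {π : O} (hp : Prime π) (h3 : ¬ π ∣ 3) : ∃ v : HeightOneSpectrum O,
    (3 : O) ∉ v.asIdeal ∧ Fac π {v} ∧ v.asIdeal = Ideal.span {π} := by
  have hc : IsCoprime π 3 := (hp.irreducible.coprime_iff_not_dvd).2 h3
  obtain ⟨u, hu⟩ := exists_unit_prim hc
  have ha : Associated π (u * π) := (associated_unit_mul_right π u u.isUnit)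
  have hp' : Prime (u * π) := ha.prime hp
  obtain ⟨v, hv, hg⟩ := exists_gen_eq hp' hu
  refine ⟨v, hv, ⟨fun w hw => ?_, ?_⟩, ?_⟩
  · rw [Multiset.mem_singleton] at hw
    rw [hw]
    exact hv
  · rw [Multiset.map_singleton, Multiset.prod_singleton, hg]
    exact ha.symm
  · rw [(gen_spec v hv).1, hg]
    exact Ideal.span_singleton_eq_span_singleton.2 ha.symm

theorem jac_add (l l' : Multiset (HeightOneSpectrum O)) (x : O) : jac3 (l + l') x = jac3 l x * jac3 l' x := by
  unfold jac3
  rw [Multiset.map_add, Multiset.prod_add]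

theorem jac_zero (x : O) : jac3 0 x = 1 := by
  unfold jac3
  rw [Multiset.map_zero, Multiset.prod_zero]

theorem jac_cube {x y : O} {l : Multiset (HeightOneSpectrum O)} (h : Fac x l) (hxy : IsCoprime x y) :
    jac3 l y ^ 3 = 1 := H35T.R4_cube fun v hv => sym3_cube (h.1 v hv) (fac_not h hxy hv)

theorem jac_congr {x y z : O} {l : Multiset (HeightOneSpectrum O)} (h : Fac x l) (hyz : x ∣ y - z) :
    jac3 l y = jac3 l z := by
  unfold jac3
  congr 1
  apply Multiset.map_congr rfl
  intro v hv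
  exact sym3_congr (h.1 v hv) (v.asIdeal.mem_of_dvd hyz (fac_mem h hv))

open Classical in
/-- The cubic symbol (n/x) for x prime to 3. -/
noncomputable def cub (n : O) (x : O) : O := if h : ∃ l, Fac x l then jac3 h.choose n else 1

theorem cub_eq {x : O} {l : Multiset (HeightOneSpectrum O)} (h : Fac x l) (n : O) : cub n x = jac3 l n := by
  have hex : ∃ l, Fac x l := ⟨l, h⟩
  unfold cub
  rw [dif_pos hex, fac_unique hex.choose_spec h]

theorem cub_mulx {x y n : O} (hx : IsCoprime x 3) (hy : IsCoprime y 3) :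
    cub n (x * y) = cub n x * cub n y := by
  obtain ⟨l, hl⟩ := fac_exists hx
  obtain ⟨l', hl'⟩ := fac_exists hy
  rw [cub_eq hl, cub_eq hl', cub_eq (fac_mul hl hl'), jac_add]

theorem cub_muln {x n m : O} (hx : IsCoprime x 3) : cub (n * m) x = cub n x * cub m x := by
  obtain ⟨l, hl⟩ := fac_exists hx
  rw [cub_eq hl, cub_eq hl, cub_eq hl]
  exact H35T.R5_mul hl.1 n m

theorem cub_one {x : O} (hx : IsCoprime x 3) : cub 1 x = 1 := by
  obtain ⟨l, hl⟩ := fac_exists hx
  rw [cub_eq hl]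
  exact H35T.R5_one hl.1

theorem cub_neg {x n : O} (hx : IsCoprime x 3) : cub (-n) x = cub n x := by
  obtain ⟨l, hl⟩ := fac_exists hx
  rw [cub_eq hl, cub_eq hl]
  exact H35T.R5_neg hl.1 n

theorem cub_unit {u n : O} (hu : IsUnit u) : cub n u = 1 := by
  rw [cub_eq (fac_unit hu), jac_zero]

theorem cub_assoc {x y n : O} (h : Associated x y) : cub n x = cub n y := by
  by_cases hx : ∃ l, Fac x l
  · obtain ⟨l, hl⟩ := hx
    rw [cub_eq hl, cub_eq (fac_assoc hl h)]
  · have hy : ¬ ∃ l, Fac y l := fun ⟨l, hl⟩ => hx ⟨l, fac_assoc hl h.symm⟩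
    unfold cub
    rw [dif_neg hx, dif_neg hy]

theorem cub_cube {x n : O} (hx : IsCoprime x 3) (hn : IsCoprime x n) : cub n x ^ 3 = 1 := by
  obtain ⟨l, hl⟩ := fac_exists hx
  rw [cub_eq hl]
  exact jac_cube hl hn

theorem cub_congr {x n m : O} (h : x ∣ n - m) : cub n x = cub m x := by
  by_cases hx : ∃ l, Fac x l
  · obtain ⟨l, hl⟩ := hx
    rw [cub_eq hl, cub_eq hl, jac_congr hl h]
  · unfold cub
    rw [dif_neg hx, dif_neg hx]

theorem cub_euler {π n : O} (hp : Prime π) (h3 : ¬ π ∣ 3) (hn : ¬ π ∣ n) :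
    π ∣ n ^ ((Nat.card (O ⧸ Ideal.span {π}) - 1) / 3) - cub n π := by
  obtain ⟨v, hv, hF, hI⟩ := fac_prime hp h3
  have h1 : cub n π = sym3 v n := by
    rw [cub_eq hF]
    unfold jac3
    rw [Multiset.map_singleton, Multiset.prod_singleton]
  have h2 : n ∉ v.asIdeal := by
    rw [hI, Ideal.mem_span_singleton]
    exact hn
  have h4 := (sym3_spec hv h2).1
  have h5 : Ideal.absNorm v.asIdeal = Nat.card (O ⧸ Ideal.span {π}) := by
    rw [hI, Ideal.absNorm_apply, Submodule.cardQuot_apply]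
  rw [h5, hI, Ideal.mem_span_singleton] at h4
  rw [h1]
  exact h4

end H55W
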