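import Mathlib
import Pool.Agent.Lib.H55W.C1

/-! # H55W, part C (cubic residue characters), file C2: cubic reciprocity for primary elements up to sign; rational integers -/

open NumberField IsDedekindDomain

namespace H55W

open H55B (O om gen Nm cj Prim gen_spec gen_prime gen_dvd_iff absNorm_gen exists_gen_eq exists_unit_prim om_rel)
open H35T (sym3 jac3 sym3_mul sym3_congr sym3_cube sym3_spec)

/-- Primary up to sign. -/
def PM (a : O) : Prop := Prim a ∨ Prim (-a)

theorem pm_neg {a : O} (h : PM a) : PM (-a) := by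
  rcases h with h | h
  · right; rw [neg_neg]; exact h
  · left; exact h

theorem pm_cop {a : O} (h : PM a) : IsCoprime a 3 := by
  rcases h with h | h
  · exact h.coprime
  · exact (IsCoprime.neg_left_iff _ _).1 h.coprime

theorem recip_prim {a b : O} (ha : Prim a) (hb : Prim b) (hab : IsCoprime a b) : cub b a = cub a b := by
  obtain ⟨l, hl⟩ := fac_exists ha.coprime
  obtain ⟨l', hl'⟩ := fac_exists hb.coprime
  have e1 : (l.map gen).prod = a := H55B.Prim.eq_of_associated (c1_prim l hl.1) ha hl.2
  have e2 : (l'.map gen).prod = b := H55B.Prim.eq_of_associated (c1_prim l' hl'.1) hb hl'.2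
  rw [cub_eq hl, cub_eq hl']
  have h1 : jac3 l b = (l.map fun u => (l'.map fun v => sym3 u (gen v)).prod).prod := by
    unfold jac3
    congr 1
    apply Multiset.map_congr rfl
    intro u hu
    rw [← e2]
    exact H35T.R4_prod (hl.1 u hu) l'
  have h2 : jac3 l' a = (l'.map fun v => (l.map fun u => sym3 v (gen u)).prod).prod := by
    unfold jac3
    congr 1
    apply Multiset.map_congr rfl
    intro v hv
    rw [← e1]
    exact H35T.R4_prod (hl'.1 v hv) l
  rw [h1, h2, Multiset.prod_map_prod_map]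
  congr 1
  apply Multiset.map_congr rfl
  intro v hv
  congr 1
  apply Multiset.map_congr rfl
  intro u hu
  refine H35T.recip_all v u (hl'.1 v hv) (hl.1 u hu) ?_
  rintro rfl
  exact fac_not hl hab hu (fac_mem hl' hv)

theorem recip_pm {a b : O} (ha : PM a) (hb : PM b) (hab : IsCoprime a b) : cub b a = cub a b := by
  have key : ∀ {a b : O}, Prim a → PM b → IsCoprime a b → cub b a = cub a b := by
    intro a b ha hb hab
    rcases hb with hb | hb
    · exact recip_prim ha hb hab
    · have h1 := recip_prim ha hb hab.neg_right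
      rw [cub_neg ha.coprime] at h1
      rw [h1]
      exact cub_assoc (Associated.neg_left (Associated.refl b))
  rcases ha with ha | ha
  · exact key ha hb hab
  · have h1 := key ha hb hab.neg_left
    rw [cub_neg (pm_cop hb)] at h1
    rw [← h1]
    exact cub_assoc (Associated.neg_right (Associated.refl a))

theorem pm_int {n : ℤ} (h : ¬ (3 : ℤ) ∣ n) : PM (n : O) := by
  have h1 : n % 3 = 1 ∨ n % 3 = 2 := by omega
  rcases h1 with h1 | h1
  · left
    refine ⟨((n / 3 : ℤ) : O), ?_⟩
    have h2 : n - 1 = 3 * (n / 3) := by omega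
    have h3 := congrArg (Int.cast : ℤ → O) h2
    push_cast at h3
    exact h3
  · right
    refine ⟨((-(n / 3) - 1 : ℤ) : O), ?_⟩
    have h2 : -n - 1 = 3 * (-(n / 3) - 1) := by omega
    have h3 := congrArg (Int.cast : ℤ → O) h2
    push_cast at h3 ⊢
    exact h3

theorem cop_int {a b : ℤ} (h : IsCoprime a b) : IsCoprime (a : O) (b : O) := by
  have := h.map (Int.castRingHom O)
  simpa using this

theorem cop_int3 {n : ℤ} (h : ¬ (3 : ℤ) ∣ n) : IsCoprime (n : O) 3 := pm_cop (pm_int h)

theorem cj_int (n : ℤ) : cj (n : O) = (n : O) := map_intCast cj n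

theorem cub_cj {x n : O} (hx : IsCoprime x 3) : cub (cj n) (cj x) = cj (cub n x) := by
  obtain ⟨l, hl⟩ := fac_exists hx
  have hσ : ∀ u : HeightOneSpectrum O, ∃ u' : HeightOneSpectrum O, (3 : O) ∉ u.asIdeal →
      (3 : O) ∉ u'.asIdeal ∧ gen u' = cj (gen u) ∧ ∀ x : O, sym3 u' (cj x) = cj (sym3 u x) := by
    intro u
    by_cases h : (3 : O) ∉ u.asIdeal
    · obtain ⟨u', hu'⟩ := H35T.exists_conj u h
      exact ⟨u', fun _ => hu'⟩
    · exact ⟨u, fun h' => absurd h' h⟩
  choose σ hσ using hσ
  have hF : Fac (cj x) (l.map σ) := by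
    refine ⟨fun w hw => ?_, ?_⟩
    · obtain ⟨u, hu, rfl⟩ := Multiset.mem_map.1 hw
      exact (hσ u (hl.1 u hu)).1
    · have h1 : ((l.map σ).map gen).prod = cj (l.map gen).prod := by
        rw [map_multiset_prod, Multiset.map_map, Multiset.map_map]
        congr 1
        apply Multiset.map_congr rfl
        intro u hu
        exact (hσ u (hl.1 u hu)).2.1
      rw [h1]
      exact hl.2.map cj
  rw [cub_eq hl, cub_eq hF]
  unfold jac3
  rw [map_multiset_prod, Multiset.map_map, Multiset.map_map]
  congr 1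
  apply Multiset.map_congr rfl
  intro u hu
  exact (hσ u (hl.1 u hu)).2.2 n

theorem cub_int {a b : ℤ} (ha : ¬ (3 : ℤ) ∣ a) (hab : IsCoprime a b) : cub (b : O) (a : O) = 1 := by
  have h1 := cub_cj (n := (b : O)) (cop_int3 ha)
  rw [cj_int, cj_int] at h1
  exact H35T.R4_fixed h1 (cub_cube (cop_int3 ha) (cop_int hab))

/-- (n/x) = 1 for x = 1 modulo 3 n, n prime to 3. -/
theorem cub_per0 {n : ℤ} (hn : ¬ (3 : ℤ) ∣ n) {x : O} (hx : Prim x) (h : (n : O) ∣ x - 1) : cub (n : O) x = 1 := by
  have hcop : IsCoprime x (n : O) := by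
    obtain ⟨c, hc⟩ := h
    exact ⟨1, -c, by linear_combination hc⟩
  rw [recip_pm (Or.inl hx) (pm_int hn) hcop, cub_congr h, cub_one (cop_int3 hn)]

end H55W
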