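import Mathlib
import Pool.Agent.Lib.H55W.C2

/-! # H55W, part C (cubic residue characters), file C3: the supplementary laws; (3/x) = 1 for x = 1 modulo 9 -/

open NumberField IsDedekindDomain

namespace H55W

open H55B (O om gen Nm cj Prim gen_spec gen_prime gen_dvd_iff absNorm_gen exists_gen_eq exists_unit_prim om_rel Nm_mul Nm_repr)
open H35T (sym3 jac3 sym3_mul sym3_congr sym3_cube sym3_spec)

theorem om3 : om ^ 3 = 1 := H35T.r1_om3

/-- (om/x) = om^k with k = (N x - 1)/3 modulo 3. -/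
theorem cub_om {x : O} (hx : IsCoprime x 3) : ∃ k : ℕ, cub om x = om ^ k ∧
    ∃ m : ℤ, (Nm x : ℤ) = 1 + 3 * k + 9 * m := by
  obtain ⟨l, hl⟩ := fac_exists hx
  obtain ⟨k, hk, m, hm⟩ := H35T.R5_om l hl.1
  refine ⟨k, ?_, m, ?_⟩
  · rw [cub_eq hl, hk]
  · rw [← hm]
    obtain ⟨u, hu⟩ := hl.2
    rw [← hu, Nm_mul, H55B.Nm_eq_one.2 u.isUnit, mul_one]

theorem Nm_int (n : ℤ) : (Nm (n : O) : ℤ) = n ^ 2 := by
  have h := Nm_repr n 0
  have h1 : (n : O) + ((0 : ℤ) : O) * om = (n : O) := by push_cast; ring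
  rw [h1] at h
  rw [h]
  ring

theorem om_pow_eq {k k' : ℕ} (h : (3 : ℤ) ∣ (k : ℤ) - k') : om ^ k = om ^ k' := by
  have h1 : k % 3 = k' % 3 := by omega
  rw [← Nat.div_add_mod k 3, ← Nat.div_add_mod k' 3, pow_add, pow_add, pow_mul, pow_mul, om3, one_pow, one_pow,
    h1]

/-- The symbol ((1 - om)/c) for a rational integer c. -/
theorem cub_lam_int {c : ℤ} (hc : ¬ (3 : ℤ) ∣ c) : cub (1 - om) (c : O) = cub om (c : O) ^ 2 := by
  have hc3 := cop_int3 hc
  have hco : IsCoprime (c : O) (1 - om) := by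
    apply hc3.of_isCoprime_of_dvd_right
    refine ⟨1 - om ^ 2, ?_⟩
    linear_combination om_rel - om3
  have h1 : cub (1 - om) (c : O) ^ 3 = 1 := cub_cube hc3 hco
  have h2 : cub (1 - om) (c : O) ^ 2 = cub om (c : O) := by
    have e : (1 - om) * (1 - om) = -(((3 : ℤ) : O) * om) := by
      push_cast
      linear_combination om_rel
    have h3 : cub (((3 : ℤ) : O)) (c : O) = 1 := by
      apply cub_int hc
      have : IsCoprime (c : ℤ) (3 : ℤ) := by
        rw [isCoprime_comm]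
        exact (Int.prime_three.coprime_iff_not_dvd).2 hc
      exact this
    rw [pow_two, ← cub_muln hc3, e, cub_neg hc3, cub_muln hc3, h3, one_mul]
  calc cub (1 - om) (c : O) = cub (1 - om) (c : O) ^ 3 * cub (1 - om) (c : O) := by rw [h1, one_mul]
    _ = (cub (1 - om) (c : O) ^ 2) ^ 2 := by ring
    _ = cub om (c : O) ^ 2 := by rw [h2]

/-- The supplementary law for 1 - om. -/
theorem cub_lam {x : O} (hx : (9 : O) ∣ x - 1) : cub (1 - om) x = 1 := by
  obtain ⟨z, hz⟩ := hx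
  obtain ⟨z1, z2, rfl⟩ := H55B.exists_repr z
  set a : ℤ := 1 + 9 * z1 with ha
  set b : ℤ := 9 * z2 with hb
  have hx : x = (a : O) + (b : O) * om := by
    rw [ha, hb]
    push_cast
    linear_combination hz
  have ha0 : a ≠ 0 := by omega
  obtain ⟨d, a', b', hd0, hd, hcop⟩ : ∃ d a' b' : ℤ, a = d * a' ∧ b = d * b' ∧ IsCoprime a' b' := by
    have hg : 0 < Int.gcd a b := Int.gcd_pos_of_ne_zero_left b ha0
    obtain ⟨a', ha'⟩ := Int.gcd_dvd_left a b
    obtain ⟨b', hb'⟩ := Int.gcd_dvd_right a b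
    refine ⟨(Int.gcd a b : ℤ), a', b', ha', hb', ?_⟩
    rw [Int.isCoprime_iff_gcd_eq_one]
    have h1 := Int.gcd_div_gcd_div_gcd (i := a) (j := b) hg
    rw [Int.ediv_eq_of_eq_mul_right (by exact_mod_cast hg.ne') ha',
      Int.ediv_eq_of_eq_mul_right (by exact_mod_cast hg.ne') hb'] at h1
    exact h1
  have hd3 : ¬ (3 : ℤ) ∣ d := fun h => by
    have h1 : (3 : ℤ) ∣ a := hd0 ▸ h.mul_right a'
    omega
  have ha3 : ¬ (3 : ℤ) ∣ a' := fun h => by
    have h1 : (3 : ℤ) ∣ a := hd0 ▸ h.mul_left d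
    omega
  have hb9 : (9 : ℤ) ∣ b' := by
    have h1 : (9 : ℤ) ∣ d * b' := hd ▸ ⟨z2, hb⟩
    have h2 : IsCoprime (9 : ℤ) d := by
      have h3 : IsCoprime (3 : ℤ) d := (Int.prime_three.coprime_iff_not_dvd).2 hd3
      have h4 := h3.pow_left (m := 2)
      norm_num at h4
      exact h4
    exact h2.dvd_of_dvd_mul_left h1
  obtain ⟨b0, hb0⟩ := hb9
  have hab3 : ¬ (3 : ℤ) ∣ a' + b' := by omega
  set x' : O := (a' : O) + (b' : O) * om with hx'
  have hxx : x = (d : O) * x' := by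
    rw [hx, hx', hd0, hd]
    push_cast
    ring
  have hx'P : PM x' := by
    rcases pm_int ha3 with h | h
    · left
      obtain ⟨t, ht⟩ := h
      refine ⟨t + ((3 * b0 : ℤ) : O) * om, ?_⟩
      rw [hx', hb0]
      push_cast
      linear_combination ht
    · right
      obtain ⟨t, ht⟩ := h
      refine ⟨t - ((3 * b0 : ℤ) : O) * om, ?_⟩
      rw [hx', hb0]
      push_cast
      linear_combination ht
  have hc' : IsCoprime (a' : O) (b' : O) := cop_int hcop
  have homu : IsUnit om := ⟨H55B.Z3_omU, rfl⟩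
  have hx'a : IsCoprime x' (a' : O) := by
    obtain ⟨s, t, hst⟩ := hc'
    refine ⟨t * om ^ 2, s - t * om ^ 2, ?_⟩
    rw [hx']
    linear_combination hst + t * (b' : O) * om3
  have hab' : IsCoprime (a' : O) ((a' + b' : ℤ) : O) := by
    push_cast
    obtain ⟨s, t, hst⟩ := hc'
    exact ⟨s - t, t, by linear_combination hst⟩
  have hxab : IsCoprime x' ((a' + b' : ℤ) : O) := by
    have h1 : IsCoprime ((a' + b' : ℤ) : O) ((1 - om) * (a' : O)) := by
      refine IsCoprime.mul_right ?_ hab'.symm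
      apply (cop_int3 hab3).of_isCoprime_of_dvd_right
      refine ⟨1 - om ^ 2, ?_⟩
      linear_combination om_rel - om3
    obtain ⟨s, t, hst⟩ := h1
    refine ⟨t, s - t * om, ?_⟩
    rw [hx']
    push_cast at hst ⊢
    linear_combination hst
  -- the symbols
  have hx3 : IsCoprime x' 3 := pm_cop hx'P
  have s1 : cub (1 - om) x = cub om (d : O) ^ 2 * cub (1 - om) x' := by
    rw [hxx, cub_mulx (cop_int3 hd3) hx3, cub_lam_int hd3]
  have s2 : cub (1 - om) x' * cub (a' : O) x' = cub ((a' + b' : ℤ) : O) x' * cub om x' := by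
    rw [← cub_muln hx3, ← cub_muln hx3, ← cub_neg (n := ((a' + b' : ℤ) : O) * om) hx3]
    apply cub_congr
    refine ⟨1, ?_⟩
    rw [hx']
    push_cast
    ring
  have s3 : cub (a' : O) x' = cub om (a' : O) := by
    rw [recip_pm hx'P (pm_int ha3) hx'a, cub_congr (m := (b' : O) * om) ⟨1, by rw [hx']; ring⟩,
      cub_muln (cop_int3 ha3), cub_int ha3 hcop, one_mul]
  have s4 : cub ((a' + b' : ℤ) : O) x' = cub om ((a' + b' : ℤ) : O) ^ 2 := by
    have hco : IsCoprime (a' + b') a' := by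
      obtain ⟨s, t, hst⟩ := hcop
      exact ⟨t, s - t, by linear_combination hst⟩
    rw [recip_pm hx'P (pm_int hab3) hxab, cub_congr (m := (a' : O) * (1 - om))
      ⟨om, by rw [hx']; push_cast; ring⟩, cub_muln (cop_int3 hab3), cub_int hab3 hco, one_mul,
      cub_lam_int hab3]
  obtain ⟨kd, hkd, md, hmd⟩ := cub_om (cop_int3 hd3)
  obtain ⟨ka, hka, ma, hma⟩ := cub_om (cop_int3 ha3)
  obtain ⟨ks, hks, ms, hms⟩ := cub_om (cop_int3 hab3)
  obtain ⟨kx, hkx, mx, hmx⟩ := cub_om hx3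
  rw [Nm_int] at hmd hma hms
  rw [hx', Nm_repr] at hmx
  rw [s3, s4, hka, hks, hkx] at s2
  rw [hkd] at s1
  have e1 : (3 : ℤ) ∣ (ks : ℤ) - ka := by
    have : 3 * ((ks : ℤ) - ka) = 9 * (2 * a' * b0 + 9 * b0 ^ 2 - ms + ma) := by
      rw [hb0] at hms
      linear_combination -hms + hma
    omega
  have e2 : (3 : ℤ) ∣ (kx : ℤ) - ka := by
    have : 3 * ((kx : ℤ) - ka) = 9 * (-a' * b0 + 9 * b0 ^ 2 - mx + ma) := by
      rw [hb0] at hmx
      linear_combination -hmx + hma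
    omega
  have e3 : (3 : ℤ) ∣ (kd : ℤ) + ka := by
    have h1 : d * a' = 1 + 9 * z1 := by rw [← hd0]
    have h2 : (d * a') ^ 2 = (1 + 3 * kd + 9 * md) * (1 + 3 * ka + 9 * ma) := by
      rw [← hmd, ← hma]
      ring
    rw [h1] at h2
    have h3 : 3 * ((kd : ℤ) + ka) = 9 * (2 * z1 + 9 * z1 ^ 2 - ma - md - kd * ka - 3 * kd * ma - 3 * md * ka - 9 * md * ma) := by
      linear_combination -h2
    omega
  have e4 : om ^ ks = om ^ ka := om_pow_eq e1
  have e5 : om ^ kx = om ^ ka := om_pow_eq e2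
  have e6 : om ^ (kd + ka) = 1 := by
    rw [om_pow_eq (k' := 0) (by push_cast; simpa using e3), pow_zero]
  rw [e4, e5] at s2
  have e7 : cub (1 - om) x' = (om ^ ka) ^ 2 := by
    have h1 : (om ^ ka) ^ 3 = 1 := by rw [← pow_mul, mul_comm, pow_mul, om3, one_pow]
    linear_combination (om ^ ka) ^ 2 * s2 + ((om ^ ka) ^ 2 - cub (1 - om) x') * h1
  rw [s1, e7, ← mul_pow, ← pow_add, e6, one_pow]

/-- The supplementary law for 3. -/
theorem cub_three {x : O} (hx : (9 : O) ∣ x - 1) : cub 3 x = 1 := by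
  have hP : Prim x := by
    obtain ⟨z, hz⟩ := hx
    exact ⟨3 * z, by linear_combination hz⟩
  have h3 := hP.coprime
  have e : (3 : O) = -(om ^ 2 * ((1 - om) * (1 - om))) := by
    linear_combination (om ^ 2 - 3 * om + 3) * om_rel
  have ho : cub om x = 1 := by
    obtain ⟨k, hk, m, hm⟩ := cub_om h3
    obtain ⟨j, hj⟩ := H35T.R5_norm9 (a := x) (by
      obtain ⟨z, hz⟩ := hx
      exact ⟨-(om ^ 2 * (om - 1)) * z, by
        rw [hz]
        linear_combination 3 * z * (om ^ 2 - 3 * om + 3) * om_rel⟩)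
    rw [hj] at hm
    rw [hk, om_pow_eq (k' := 0) (by push_cast; omega), pow_zero]
  have hl := cub_lam hx
  conv_lhs => rw [e]
  rw [cub_neg h3, cub_muln h3, cub_muln h3, hl, pow_two, cub_muln h3, ho]
  ring

end H55W
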