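import Mathlib
import Pool.Agent.Lib.H55W.C3

/-! # H55W, part C (cubic residue characters), file C4: periodicity of (n/x), the cubic residue characters of the Eisenstein integers and of
every quadratic field with a cube root of unity -/

open NumberField IsDedekindDomain

namespace H55W

open H55B (O om)

theorem cub_pow {x n : O} (hx : IsCoprime x 3) (a : ℕ) : cub (n ^ a) x = cub n x ^ a := by
  induction a with
  | zero => rw [pow_zero, pow_zero, cub_one hx]
  | succ a ih => rw [pow_succ, pow_succ, cub_muln hx, ih]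

/-- (n/x) = 1 for x = 1 modulo 9 n. -/
theorem cub_per1 {n : ℤ} (hn : n ≠ 0) {x : O} (h : ((9 * n : ℤ) : O) ∣ x - 1) : cub (n : O) x = 1 := by
  obtain ⟨m, hm0, hnm⟩ := (Int.finiteMultiplicity_iff.2 ⟨by norm_num, hn⟩ :
    FiniteMultiplicity (3 : ℤ) n).exists_eq_pow_mul_and_not_dvd
  obtain ⟨a, hm⟩ : ∃ a : ℕ, n = 3 ^ a * m := ⟨_, hm0⟩
  have h9 : (9 : O) ∣ x - 1 := by
    refine dvd_trans ⟨(n : O), ?_⟩ h
    push_cast
    ring
  have hP : H55B.Prim x := by
    obtain ⟨z, hz⟩ := h9
    exact ⟨3 * z, by linear_combination hz⟩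
  have hmx : (m : O) ∣ x - 1 := by
    refine dvd_trans ⟨9 * 3 ^ a, ?_⟩ h
    rw [hm]
    push_cast
    ring
  have e : (n : O) = (3 : O) ^ a * (m : O) := by
    rw [hm]
    push_cast
    ring
  rw [e, cub_muln hP.coprime, cub_pow hP.coprime, cub_three h9, one_pow, one_mul]
  exact cub_per0 hnm hP hmx

theorem cub_O (n : ℤ) (hn : n ≠ 0) : ∃ κ : H55B.O → H55B.O, PRC H55B.O 3 n (3 * n) (27 * n) κ := by
  have h3 : ∀ x : O, IsCoprime x ((3 * n : ℤ) : O) → IsCoprime x 3 ∧ IsCoprime x (n : O) := by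
    intro x hx
    push_cast at hx
    exact ⟨hx.of_mul_right_left, hx.of_mul_right_right⟩
  refine ⟨cub (n : O), ⟨?_, ?_, ?_, ?_, ?_⟩⟩
  · intro x hx
    exact cub_cube (h3 x hx).1 (h3 x hx).2
  · intro x y hx hy
    exact cub_mulx (h3 x hx).1 (h3 y hy).1
  · intro x y hx hy hxy
    have hc : IsCoprime x ((27 * n : ℤ) : O) := by
      refine (hx.pow_right (n := 3)).of_isCoprime_of_dvd_right ⟨(n : O) ^ 2, ?_⟩
      push_cast
      ring
    obtain ⟨z, w, hzw⟩ := hc
    have hz3 : IsCoprime z 3 := ⟨x, w * (9 * n), by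
      push_cast at hzw
      linear_combination hzw⟩
    have h1 : cub (n : O) (x * z) = 1 := by
      apply cub_per1 hn
      refine ⟨-3 * w, ?_⟩
      push_cast at hzw ⊢
      linear_combination hzw
    have h2 : cub (n : O) (y * z) = 1 := by
      apply cub_per1 hn
      obtain ⟨t, ht⟩ := hxy
      refine ⟨-3 * w - 3 * t * z, ?_⟩
      push_cast at hzw ht ⊢
      linear_combination hzw - z * ht
    rw [cub_mulx (h3 x hx).1 hz3] at h1
    rw [cub_mulx (h3 y hy).1 hz3] at h2
    have h4 : cub (n : O) z ≠ 0 := fun h0 => by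
      rw [h0, mul_zero] at h1
      exact zero_ne_one h1
    exact mul_right_cancel₀ h4 (h1.trans h2.symm)
  · intro u hu
    exact cub_unit hu
  · intro π hπ hc h3π
    have hn' : ¬ π ∣ (n : O) := fun h => hc (by push_cast; exact h.mul_left 3)
    have h3' : ¬ π ∣ (3 : O) := fun h => hc (by push_cast; exact h.mul_right _)
    exact cub_euler hπ h3' hn'

/-- Transport along an isomorphism of rings. -/
theorem prc_transport {R S : Type} [CommRing R] [CommRing S] (e : R ≃+* S) {m : ℕ} {n c k : ℤ} {κ : S → S}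
    (h : PRC S m n c k κ) : PRC R m n c k (fun x => e.symm (κ (e x))) := by
  have hcop : ∀ x : R, IsCoprime x (c : R) → IsCoprime (e x) (c : S) := by
    intro x hx
    have := hx.map (e : R →+* S)
    simpa using this
  refine ⟨?_, ?_, ?_, ?_, ?_⟩
  · intro x hx
    show (e.symm (κ (e x))) ^ m = 1
    rw [← map_pow, h.root _ (hcop x hx), map_one]
  · intro x y hx hy
    show e.symm (κ (e (x * y))) = e.symm (κ (e x)) * e.symm (κ (e y))
    rw [map_mul, h.mul _ _ (hcop x hx) (hcop y hy), map_mul]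
  · intro x y hx hy hxy
    show e.symm (κ (e x)) = e.symm (κ (e y))
    rw [h.per _ _ (hcop x hx) (hcop y hy)]
    have := map_dvd e hxy
    rwa [map_sub, map_intCast] at this
  · intro u hu
    show e.symm (κ (e u)) = 1
    rw [h.unit _ (hu.map e), map_one]
  · intro π hπ hc hm
    have hπ' : Prime (e π) := (MulEquiv.prime_iff (e : R ≃* S)).2 hπ
    have hc' : ¬ e π ∣ (c : S) := by
      rw [← map_intCast e, map_dvd_iff]
      exact hc
    have hm' : ¬ e π ∣ (m : S) := by
      rw [← map_natCast e, map_dvd_iff]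
      exact hm
    have h1 := h.euler _ hπ' hc' hm'
    have hcard : Nat.card (S ⧸ Ideal.span {e π}) = Nat.card (R ⧸ Ideal.span {π}) := by
      refine (Nat.card_congr (Ideal.quotientEquiv (Ideal.span {π}) (Ideal.span {e π}) e ?_).toEquiv).symm
      rw [Ideal.map_span, Set.image_singleton]
      rfl
    rw [hcard] at h1
    have h2 := map_dvd e.symm h1
    rw [map_sub, map_pow, map_intCast, RingEquiv.symm_apply_apply] at h2
    exact h2

theorem cub_F (F : Type) [Field F] [NumberField F] (hdeg : Module.finrank ℚ F = 2) (w : 𝓞 F) (hw : w ^ 2 + w + 1 = 0)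
    (n : ℤ) (hn : n ≠ 0) : ∃ κ : 𝓞 F → 𝓞 F, PRC (𝓞 F) 3 n (3 * n) (27 * n) κ := by
  obtain ⟨κ, hκ⟩ := cub_O n hn
  have hwF : (w : F) ^ 2 + (w : F) + 1 = 0 := by
    have := congrArg (algebraMap (𝓞 F) F) hw
    simpa using this
  have hirr : Irreducible (Polynomial.cyclotomic 3 ℚ) := Polynomial.cyclotomic.irreducible_rat (by norm_num)
  let pb := H55B.zeta_spec.powerBasis ℚ
  have hmin : minpoly ℚ pb.gen = Polynomial.X ^ 2 + Polynomial.X + 1 := by
    rw [← Polynomial.cyclotomic_three, IsPrimitiveRoot.powerBasis_gen]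
    exact (H55B.zeta_spec.minpoly_eq_cyclotomic_of_irreducible hirr).symm
  have hev : Polynomial.aeval (w : F) (minpoly ℚ pb.gen) = 0 := by
    rw [hmin, map_add, map_add, map_pow, Polynomial.aeval_X, map_one]
    exact hwF
  let f : H55B.F →ₐ[ℚ] F := pb.lift (w : F) hev
  have hfin : Module.finrank ℚ H55B.F = Module.finrank ℚ F := by
    rw [hdeg, IsCyclotomicExtension.finrank (n := 3) H55B.F hirr]
    rfl
  have hinj : Function.Injective f := f.toRingHom.injective
  have hsurj : Function.Surjective f :=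
    (LinearMap.injective_iff_surjective_of_finrank_eq_finrank (f := f.toLinearMap) hfin).1 hinj
  let g : H55B.F ≃ₐ[ℚ] F := AlgEquiv.ofBijective f ⟨hinj, hsurj⟩
  let G : 𝓞 F ≃+* H55B.O := RingOfIntegers.mapRingEquiv g.symm.toRingEquiv
  exact ⟨_, prc_transport G hκ⟩

end H55W
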