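import Mathlib
import Pool.Agent.Lib.H55K.D1

/-! # H55W: the Eisenstein integers in a field F -/

open NumberField IsDedekindDomain

namespace H55W

open H55P (IQ embF eF Nm)
open H55K (cj)

/-- w is a primitive cube root of unity in the integers of F and every integer is a + b w. -/
structure EI {F : Type} [Field F] [NumberField F] (w : 𝓞 F) : Prop where
  sq : w ^ 2 + w + 1 = 0
  rep : ∀ x : 𝓞 F, ∃ a b : ℤ, x = (a : 𝓞 F) + (b : 𝓞 F) * w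

variable {F : Type} [Field F] [NumberField F] [IQ F] {w : 𝓞 F}

/-- Chunk E3 (S). w^3 = 1, w ≠ 1. -/
theorem ei_root (h : EI w) : IsPrimitiveRoot w 3 := by
  have h3 : w ^ 3 = 1 := by linear_combination (w - 1) * h.sq
  have h1 : w ≠ 1 := by
    intro h1
    have h2 := h.sq
    rw [h1] at h2
    have h4 : (3 : 𝓞 F) = 0 := by linear_combination h2
    have h5 : ((3 : ℕ) : 𝓞 F) = 0 := by exact_mod_cast h4
    exact absurd (Nat.cast_eq_zero.1 h5) (by norm_num)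
  have h5 := orderOf_eq_prime (hp := ⟨Nat.prime_three⟩) h3 h1
  have h6 := IsPrimitiveRoot.orderOf w
  rwa [h5] at h6

/-- Chunk E3 (S). cj w is a root of X^2 + X + 1 = (X - w)(X + 1 + w); if cj w = w then eF w is real with w^2 + w + 1 = 0: impossible. Nm (a + b w) = a^2 - ab + b^2 (mul_cj, cj_int). -/
theorem ei_nm (h : EI w) (a b : ℤ) : cj w = -1 - w ∧ ((Nm ((a : 𝓞 F) + (b : 𝓞 F) * w) : ℕ) : ℤ) = a ^ 2 - a * b + b ^ 2 := by
  have hc : cj w = -1 - w := by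
    have h1 : (cj w) ^ 2 + cj w + 1 = 0 := by
      have h2 := congrArg cj h.sq
      rwa [map_add, map_add, map_pow, map_one, map_zero] at h2
    have h3 : (cj w - w) * (cj w + w + 1) = 0 := by linear_combination h1 - h.sq
    rcases mul_eq_zero.1 h3 with h4 | h4
    · exfalso
      have h5 : cj w = w := sub_eq_zero.1 h4
      have h6 := H55K.e_cj w
      rw [h5] at h6
      have h7 : (eF F w).im = 0 := Complex.conj_eq_iff_im.1 h6.symm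
      have h8 := congrArg (eF F) h.sq
      rw [map_add, map_add, map_pow, map_one, map_zero] at h8
      have h9 := congrArg Complex.re h8
      simp [pow_two, h7] at h9
      nlinarith [sq_nonneg ((eF F w).re + 1 / 2)]
    · linear_combination h4
  refine ⟨hc, ?_⟩
  have h1 := H55K.mul_cj ((a : 𝓞 F) + (b : 𝓞 F) * w)
  rw [map_add, map_mul, H55K.cj_int, H55K.cj_int, hc] at h1
  have h2 : ((((Nm ((a : 𝓞 F) + (b : 𝓞 F) * w) : ℕ) : ℤ)) : 𝓞 F) = ((a ^ 2 - a * b + b ^ 2 : ℤ) : 𝓞 F) := by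
    push_cast
    rw [← h1]
    linear_combination -(b : 𝓞 F) ^ 2 * h.sq
  exact_mod_cast h2

theorem e3_nmu {u : 𝓞 F} (hu : IsUnit u) : Nm u = 1 := by
  unfold Nm
  rw [Ideal.span_singleton_eq_top.2 hu, Ideal.absNorm_top]

theorem e3_six (h : EI w) {u : 𝓞 F} (hu : IsUnit u) : ∃ a b : ℤ, u = (a : 𝓞 F) + (b : 𝓞 F) * w ∧
    ((a = 1 ∧ b = 0) ∨ (a = -1 ∧ b = 0) ∨ (a = 0 ∧ b = 1) ∨ (a = 0 ∧ b = -1) ∨ (a = 1 ∧ b = 1) ∨ (a = -1 ∧ b = -1)) := by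
  obtain ⟨a, b, hab⟩ := h.rep u
  refine ⟨a, b, hab, ?_⟩
  have h1 := (ei_nm h a b).2
  rw [← hab, e3_nmu hu] at h1
  push_cast at h1
  have ha1 : a ≤ 1 := by nlinarith [sq_nonneg (2 * b - a)]
  have ha2 : -1 ≤ a := by nlinarith [sq_nonneg (2 * b - a)]
  have hb1 : b ≤ 1 := by nlinarith [sq_nonneg (2 * a - b)]
  have hb2 : -1 ≤ b := by nlinarith [sq_nonneg (2 * a - b)]
  clear hab
  interval_cases a <;> interval_cases b <;> norm_num at h1 <;> norm_num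

theorem e3_wu (h : EI w) : IsUnit w := IsUnit.of_mul_eq_one (-1 - w) (by linear_combination -h.sq)

/-- Chunk E3 (S/M). A unit has Nm u = 1: a^2 - ab + b^2 = 1: (2a - b)^2 + 3b^2 = 4: six solutions, u = η w^i. -/
theorem ei_unit (h : EI w) {u : 𝓞 F} (hu : IsUnit u) : ∃ (η : 𝓞 F) (i : ℕ), (η = 1 ∨ η = -1) ∧ u = η * w ^ i := by
  obtain ⟨a, b, hab, h1⟩ := e3_six h hu
  rcases h1 with ⟨rfl, rfl⟩ | ⟨rfl, rfl⟩ | ⟨rfl, rfl⟩ | ⟨rfl, rfl⟩ | ⟨rfl, rfl⟩ | ⟨rfl, rfl⟩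
  · exact ⟨1, 0, Or.inl rfl, by rw [hab]; push_cast; ring⟩
  · exact ⟨-1, 0, Or.inr rfl, by rw [hab]; push_cast; ring⟩
  · exact ⟨1, 1, Or.inl rfl, by rw [hab]; push_cast; ring⟩
  · exact ⟨-1, 1, Or.inr rfl, by rw [hab]; push_cast; ring⟩
  · exact ⟨-1, 2, Or.inr rfl, by rw [hab]; push_cast; linear_combination h.sq⟩
  · exact ⟨1, 2, Or.inl rfl, by rw [hab]; push_cast; linear_combination -h.sq⟩

/-- Chunk E3 (S/M). c = a + b w modulo 3; 1 - w divides c iff 3 divides a + b (a + b w = a + b - b (1 - w), and 1 - w divides 3). If 3 does not divide a + b there are six classes modulo 3: (a, b) = (1,0), (2,0), (0,1), (0,2), (2,2), (1,1) (mod 3), i.e. 1, -1, w, -w, -1-w = w^2, 1 + w = -w^2. -/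
theorem ei_mod3 (h : EI w) {c : 𝓞 F} (hc : ¬ (1 - w) ∣ c) : ∃ u : 𝓞 F, IsUnit u ∧ 3 ∣ c - u := by
  obtain ⟨a, b, hab⟩ := h.rep c
  have h3 : ¬ (3 : ℤ) ∣ a + b := by
    rintro ⟨m, hm⟩
    apply hc
    have h4 : ((a + b : ℤ) : 𝓞 F) = ((3 * m : ℤ) : 𝓞 F) := by rw [hm]
    push_cast at h4
    refine ⟨(2 + w) * m - b, ?_⟩
    rw [hab]
    linear_combination h4 + (m : 𝓞 F) * h.sq
  have hwu := e3_wu h
  have key : ∀ r s : ℤ, a % 3 = r → b % 3 = s → ∀ u : 𝓞 F, (3 : 𝓞 F) ∣ (r : 𝓞 F) + (s : 𝓞 F) * w - u → 3 ∣ c - u := by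
    intro r s hr hs u hu
    have h5 : a = 3 * (a / 3) + r := by rw [← hr]; exact (Int.mul_ediv_add_emod a 3).symm
    have h6 : b = 3 * (b / 3) + s := by rw [← hs]; exact (Int.mul_ediv_add_emod b 3).symm
    have h7 : (a : 𝓞 F) = 3 * ((a / 3 : ℤ) : 𝓞 F) + (r : 𝓞 F) := by
      conv_lhs => rw [h5]
      push_cast
      ring
    have h8 : (b : 𝓞 F) = 3 * ((b / 3 : ℤ) : 𝓞 F) + (s : 𝓞 F) := by
      conv_lhs => rw [h6]
      push_cast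
      ring
    have h9 : c - u = 3 * (((a / 3 : ℤ) : 𝓞 F) + ((b / 3 : ℤ) : 𝓞 F) * w) + ((r : 𝓞 F) + (s : 𝓞 F) * w - u) := by
      rw [hab, h7, h8]
      ring
    rw [h9]
    exact dvd_add (dvd_mul_right _ _) hu
  have hcases : (a % 3 = 1 ∧ b % 3 = 0) ∨ (a % 3 = 2 ∧ b % 3 = 0) ∨ (a % 3 = 0 ∧ b % 3 = 1) ∨
      (a % 3 = 0 ∧ b % 3 = 2) ∨ (a % 3 = 1 ∧ b % 3 = 1) ∨ (a % 3 = 2 ∧ b % 3 = 2) := by omega
  rcases hcases with ⟨h1, h2⟩ | ⟨h1, h2⟩ | ⟨h1, h2⟩ | ⟨h1, h2⟩ | ⟨h1, h2⟩ | ⟨h1, h2⟩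
  · exact ⟨1, isUnit_one, key _ _ h1 h2 _ ⟨0, by push_cast; ring⟩⟩
  · exact ⟨-1, isUnit_one.neg, key _ _ h1 h2 _ ⟨1, by push_cast; ring⟩⟩
  · exact ⟨w, hwu, key _ _ h1 h2 _ ⟨0, by push_cast; ring⟩⟩
  · exact ⟨-w, hwu.neg, key _ _ h1 h2 _ ⟨w, by push_cast; ring⟩⟩
  · exact ⟨-w ^ 2, (hwu.pow 2).neg, key _ _ h1 h2 _ ⟨0, by push_cast; linear_combination h.sq⟩⟩
  · exact ⟨w ^ 2, hwu.pow 2, key _ _ h1 h2 _ ⟨1 + w, by push_cast; linear_combination -h.sq⟩⟩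

/-- Chunk E3 (S). The units η w^i - 1: 3 divides it only if it is 0 (9 divides the norm; the norms of -2, w - 1, -w - 1, w^2 - 1, -w^2 - 1 are 4, 3, 1, 3, 1). -/
theorem ei_uniq (h : EI w) {u : 𝓞 F} (hu : IsUnit u) (h3 : 3 ∣ u - 1) : u = 1 := by
  obtain ⟨a, b, hab, h1⟩ := e3_six h hu
  obtain ⟨z, hz⟩ := h3
  have h2 : ((Nm (u - 1) : ℕ) : ℤ) = 9 * ((Nm z : ℕ) : ℤ) := by
    rw [hz, H55K.Nm_mul]
    have h4 : Nm (3 : 𝓞 F) = 9 := by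
      have h5 := H55K.Nm_nat (F := F) 3
      push_cast at h5
      rw [h5]
    rw [h4]
    push_cast
    ring
  have h5 : u - 1 = ((a - 1 : ℤ) : 𝓞 F) + (b : 𝓞 F) * w := by
    rw [hab]
    push_cast
    ring
  rw [h5, (ei_nm h (a - 1) b).2] at h2
  rcases h1 with ⟨rfl, rfl⟩ | ⟨rfl, rfl⟩ | ⟨rfl, rfl⟩ | ⟨rfl, rfl⟩ | ⟨rfl, rfl⟩ | ⟨rfl, rfl⟩
  · rw [hab]
    push_cast
    ring
  all_goals
    exfalso
    omega

/-- Chunk E3 (S). x prime to 3: 1 - w does not divide x (it divides 3 and is not a unit: norm 3), ei_mod3 for x: 3 | x - u, so 3 | u⁻¹ x - 1. -/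
theorem ei_ex (h : EI w) {x : 𝓞 F} (hx : IsCoprime x 3) : ∃ u : 𝓞 F, IsUnit u ∧ 3 ∣ u * x - 1 := by
  have h1 : ¬ (1 - w) ∣ x := by
    intro h2
    have h3 : (1 - w) ∣ (3 : 𝓞 F) := ⟨2 + w, by linear_combination h.sq⟩
    have h4 : IsUnit (1 - w) := hx.isUnit_of_dvd' h2 h3
    have h5 := (ei_nm h 1 (-1)).2
    have h6 : ((1 : ℤ) : 𝓞 F) + ((-1 : ℤ) : 𝓞 F) * w = 1 - w := by
      push_cast
      ring
    rw [h6, e3_nmu h4] at h5
    norm_num at h5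
  obtain ⟨u, hu, h2⟩ := ei_mod3 h h1
  obtain ⟨v, hv⟩ := hu.exists_left_inv
  refine ⟨v, IsUnit.of_mul_eq_one u hv, ?_⟩
  have h3 : v * x - 1 = v * (x - u) := by linear_combination hv
  rw [h3]
  exact h2.mul_left v

end H55W
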