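import Mathlib

/-! # H55W, part F: functions which define Hecke characters -/

open NumberField IsDedekindDomain

namespace H55W

/-- The conditions of exists_hecke on the function f. -/
structure HF {F : Type} [Field F] [NumberField F] (M : Ideal (𝓞 F)) (f : 𝓞 F → 𝓞 F) : Prop where
  un : ∀ x, IsCoprime (Ideal.span {x}) M → IsUnit (f x)
  mul : ∀ x y, IsCoprime (Ideal.span {x}) M → IsCoprime (Ideal.span {y}) M → f (x * y) = f x * f y
  inv : ∀ u x : 𝓞 F, IsUnit u → IsCoprime (Ideal.span {x}) M → f (u * x) * u = f x
  per : ∀ x y, IsCoprime (Ideal.span {x}) M → IsCoprime (Ideal.span {y}) M → x - y ∈ M → f x = f y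

end H55W
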