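import Mathlib
import Pool.Agent.Lib.H55K.D1

/-! # H55W, part Q: quadratic characters (n / norm) on the integers of an imaginary quadratic field -/

open NumberField IsDedekindDomain

namespace H55W

open H55P (IQ embF eF Nm)
open H55K (cj)

variable {F : Type} [Field F] [NumberField F] [IQ F]

/-- Chunk Q1 (S). Nat.card of the quotient (Ideal.absNorm_apply, Submodule.cardQuot_apply). -/
theorem nm_card (x : 𝓞 F) : Nat.card (𝓞 F ⧸ Ideal.span {x}) = Nm x := by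
  unfold Nm
  rw [Ideal.absNorm_apply, Submodule.cardQuot_apply]

theorem q1_unit {z : 𝓞 F} (h : Nm z = 1) : IsUnit z := by
  have h1 : Ideal.span {z} = ⊤ := Ideal.absNorm_eq_one_iff.1 h
  exact Ideal.span_singleton_eq_top.1 h1

theorem q1_dvd_prime {π : 𝓞 F} (hπ : Prime π) (n : ℕ) : n ≠ 0 → π ∣ (n : 𝓞 F) → ∃ p : ℕ, p.Prime ∧ π ∣ (p : 𝓞 F) := by
  induction n using induction_on_primes with
  | zero => exact fun h => absurd rfl h
  | one =>
    intro _ h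
    rw [Nat.cast_one] at h
    exact absurd (isUnit_of_dvd_one h) hπ.not_unit
  | prime_mul p a hp ih =>
    intro h0 h
    rw [Nat.cast_mul] at h
    rcases hπ.dvd_or_dvd h with h1 | h1
    · exact ⟨p, hp, h1⟩
    · exact ih (right_ne_zero_of_mul h0) h1

/-- Chunk Q1 (S/M). π divides a rational prime p (a prime element divides the natural number Nm π = π cj π, so one of its prime factors): p = π z, p^2 = Nm p = Nm π Nm z (Nm_nat, Nm_mul): Nm π = p or p^2 (Nm π ≠ 1). If Nm π = p^2 then z is a unit. -/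
theorem pi_types {π : 𝓞 F} (hπ : Prime π) : ∃ p : ℕ, p.Prime ∧ π ∣ (p : 𝓞 F) ∧ (Nm π = p ∨ (Nm π = p ^ 2 ∧ Associated π (p : 𝓞 F))) := by
  have h0 : Nm π ≠ 0 := fun h => hπ.ne_zero (H55P.Nm_eq_zero.1 h)
  have h1 : Nm π ≠ 1 := fun h => hπ.not_unit (q1_unit h)
  obtain ⟨p, hp, hd⟩ := q1_dvd_prime hπ (Nm π) h0 ⟨cj π, (H55K.mul_cj π).symm⟩
  refine ⟨p, hp, hd, ?_⟩
  obtain ⟨z, hz⟩ := hd
  have h2 : p ^ 2 = Nm π * Nm z := by
    rw [← H55K.Nm_mul, ← hz, H55K.Nm_nat]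
  obtain ⟨k, hk, hk2⟩ := (Nat.dvd_prime_pow hp).1 (Dvd.intro _ h2.symm)
  have hk3 : k = 0 ∨ k = 1 ∨ k = 2 := by omega
  rcases hk3 with rfl | rfl | rfl
  · exact absurd (by rw [hk2, pow_zero]) h1
  · left
    rw [hk2, pow_one]
  · right
    refine ⟨hk2, ?_⟩
    rw [hk2] at h2
    have h3 : Nm z = 1 := by
      have h4 : 0 < p ^ 2 := pow_pos hp.pos 2
      nlinarith
    rw [hz]
    exact associated_mul_unit_right π z (q1_unit h3)

/-- Chunk Q1 (S). A rational integer divisible by the rational integer m ≠ 0 in 𝓞 F is divisible in ℤ: the quotient is a rational number, integral over ℤ; or: norms are not enough; use IsIntegrallyClosed ℤ (Rat), or the basis H55P.bF; (Algebra.. Int.. ) . -/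
theorem int_dvd {a b : ℤ} (h : (a : 𝓞 F) ∣ (b : 𝓞 F)) : a ∣ b := by
  obtain ⟨z, hz⟩ := h
  by_cases ha : a = 0
  · rw [ha, Int.cast_zero, zero_mul] at hz
    have h1 : b = 0 := by exact_mod_cast hz
    rw [h1]
    exact dvd_zero a
  have haQ : (a : ℚ) ≠ 0 := by exact_mod_cast ha
  have haF : (a : F) ≠ 0 := by exact_mod_cast ha
  have h1 : algebraMap ℚ F ((b : ℚ) / a) = (z : F) := by
    have h2 : ((b : 𝓞 F) : F) = ((a : 𝓞 F) : F) * (z : F) := by
      rw [hz]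
      rfl
    rw [map_div₀, map_intCast, map_intCast, div_eq_iff haF]
    have h3 : ((b : 𝓞 F) : F) = (b : F) := map_intCast _ _
    have h4 : ((a : 𝓞 F) : F) = (a : F) := map_intCast _ _
    rw [h3, h4] at h2
    rw [h2, mul_comm]
  have h2 : IsIntegral ℤ ((b : ℚ) / a) := by
    rw [← isIntegral_algebraMap_iff (algebraMap ℚ F).injective, h1]
    exact z.2
  obtain ⟨m, hm⟩ := IsIntegrallyClosed.isIntegral_iff.1 h2
  refine ⟨m, ?_⟩
  have h3 : (m : ℚ) = b / a := hm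
  rw [eq_div_iff haQ] at h3
  have h4 : ((m * a : ℤ) : ℚ) = (b : ℚ) := by
    push_cast
    exact h3
  have h5 : m * a = b := by exact_mod_cast h4
  rw [← h5, mul_comm]

/-- Chunk Q1 (M). EULER'S CRITERION. p from pi_types, p odd (π does not divide 2), p does not divide n. Nm π = p: jacobiSym n p = legendreSym p n is congruent to n^((p-1)/2) modulo p (legendreSym.eq_pow in ZMod p; ZMod.intCast_zmod_eq_zero_iff..): cast to 𝓞 F, π divides p.
Nm π = p^2: jacobiSym n (p^2) = (jacobiSym n p)^2 = 1 (p does not divide n), n^((p^2-1)/2) = (n^(p-1))^((p+1)/2) is 1 modulo p (Fermat). -/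
theorem euler_nm {π : 𝓞 F} (hπ : Prime π) (h2 : ¬ π ∣ 2) {n : ℤ} (hn : ¬ π ∣ (n : 𝓞 F)) :
    π ∣ (n : 𝓞 F) ^ ((Nm π - 1) / 2) - ((jacobiSym n (Nm π) : ℤ) : 𝓞 F) := by
  obtain ⟨p, hp, hd, hN⟩ := pi_types hπ
  have hp2 : p ≠ 2 := by
    rintro rfl
    exact h2 (by exact_mod_cast hd)
  have hodd : p % 2 = 1 := hp.eq_two_or_odd.resolve_left hp2
  have hfact : Fact p.Prime := ⟨hp⟩
  have hpn : ¬ (p : ℤ) ∣ n := by
    rintro ⟨m, rfl⟩
    apply hn
    push_cast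
    exact hd.mul_right _
  have hnz : (n : ZMod p) ≠ 0 := fun h => hpn ((ZMod.intCast_zmod_eq_zero_iff_dvd n p).1 h)
  have hgcd : n.gcd p = 1 := by
    rw [Int.gcd_comm]
    exact Int.isCoprime_iff_gcd_eq_one.1 ((Nat.prime_iff_prime_int.1 hp).coprime_iff_not_dvd.2 hpn)
  have key : ∀ (N : ℕ) (J : ℤ), (p : ℤ) ∣ n ^ N - J → π ∣ (n : 𝓞 F) ^ N - ((J : ℤ) : 𝓞 F) := by
    rintro N J ⟨m, hm⟩
    have h1 : (n : 𝓞 F) ^ N - ((J : ℤ) : 𝓞 F) = ((n ^ N - J : ℤ) : 𝓞 F) := by push_cast; ring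
    rw [h1, hm]
    push_cast
    exact hd.mul_right _
  rcases hN with hN | ⟨hN, -⟩
  · rw [hN]
    refine key _ _ ?_
    rw [← ZMod.intCast_zmod_eq_zero_iff_dvd, ← jacobiSym.legendreSym.to_jacobiSym]
    push_cast
    rw [legendreSym.eq_pow]
    have h3 : (p - 1) / 2 = p / 2 := by omega
    rw [h3, sub_self]
  · rw [hN]
    refine key _ _ ?_
    rw [jacobiSym.pow_right, jacobiSym.sq_one hgcd]
    rw [← ZMod.intCast_zmod_eq_zero_iff_dvd]
    push_cast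
    obtain ⟨m, hm⟩ : ∃ m, p = 2 * m + 1 := ⟨p / 2, by omega⟩
    have h3 : (p ^ 2 - 1) / 2 = (p - 1) * (m + 1) := by
      have h4 : p ^ 2 - 1 = 2 * ((p - 1) * (m + 1)) := by
        rw [hm]
        have h5 : (2 * m + 1) ^ 2 = 4 * m ^ 2 + 4 * m + 1 := by ring
        rw [h5]
        have h6 : 2 * ((2 * m + 1 - 1) * (m + 1)) = 4 * m ^ 2 + 4 * m := by
          rw [Nat.add_sub_cancel]
          ring
        omega
      rw [h4, Nat.mul_div_cancel_left _ (by norm_num)]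
    rw [h3, pow_mul, ZMod.pow_card_sub_one_eq_one hnz, one_pow, sub_self]

/-- Chunk Q1 (S). x is prime to c in 𝓞 F implies Nm x prime to c in ℤ: a x + b c = 1, conjugate and multiply: (a x + b c)(cj a cj x + cj b c) = 1: Nm(x) z + c z' = 1, so a prime number l dividing Nm x and c divides 1 in 𝓞 F (int_dvd). -/
theorem nm_cop {x : 𝓞 F} {c : ℤ} (h : IsCoprime x (c : 𝓞 F)) : IsCoprime ((Nm x : ℕ) : ℤ) c := by
  obtain ⟨a, b, hab⟩ := h
  rw [Int.isCoprime_iff_gcd_eq_one]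
  obtain ⟨g, hg⟩ : ∃ g : ℕ, g = Int.gcd ((Nm x : ℕ) : ℤ) c := ⟨_, rfl⟩
  rw [← hg]
  obtain ⟨s, hs⟩ : (g : ℤ) ∣ ((Nm x : ℕ) : ℤ) := by rw [hg]; exact Int.gcd_dvd_left ..
  obtain ⟨t, ht⟩ : (g : ℤ) ∣ c := by rw [hg]; exact Int.gcd_dvd_right ..
  have h1 : (((g : ℤ) : ℤ) : 𝓞 F) ∣ ((1 : ℤ) : 𝓞 F) := by
    have h2 := congrArg cj hab
    rw [map_add, map_mul, map_mul, H55K.cj_int, map_one] at h2
    have h3 := H55K.mul_cj x
    have h4 : ((Nm x : ℕ) : 𝓞 F) = ((g : ℤ) : 𝓞 F) * (s : 𝓞 F) := by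
      have h5 : (((Nm x : ℕ) : ℤ) : 𝓞 F) = (((g : ℤ) * s : ℤ) : 𝓞 F) := by rw [hs]
      push_cast at h5 ⊢
      exact h5
    have h6 : (c : 𝓞 F) = ((g : ℤ) : 𝓞 F) * (t : 𝓞 F) := by
      rw [ht]
      push_cast
      ring
    refine ⟨s * (a * cj a) + t * (a * x * cj b + b * cj a * cj x + b * cj b * c), ?_⟩
    push_cast at h4 h6 ⊢
    have h7 : (a * x + b * c) * (cj a * cj x + cj b * c) = 1 := by rw [hab, h2, one_mul]
    have h8 : (a * x + b * c) * (cj a * cj x + cj b * c) = (x * cj x) * (a * cj a) +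
      (c : 𝓞 F) * (a * x * cj b + b * cj a * cj x + b * cj b * c) := by ring
    rw [h7, h3] at h8
    linear_combination h8 + (a * cj a) * h4 + (a * x * cj b + b * cj a * cj x + b * cj b * c) * h6
  have h9 := int_dvd h1
  exact Nat.dvd_one.1 (by exact_mod_cast h9)

/-- Chunk Q1 (S). x cj x - y cj y = (x - y) cj x + y cj (x - y) is divisible by k (cj_int); int_dvd. -/
theorem nm_per {x y : 𝓞 F} {k : ℤ} (h : (k : 𝓞 F) ∣ x - y) : k ∣ ((Nm x : ℕ) : ℤ) - ((Nm y : ℕ) : ℤ) := by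
  obtain ⟨z, hz⟩ := h
  apply int_dvd (F := F)
  have h1 := H55K.mul_cj x
  have h2 := H55K.mul_cj y
  have h3 := congrArg cj hz
  rw [map_sub, map_mul, H55K.cj_int] at h3
  refine ⟨z * cj x + y * cj z, ?_⟩
  push_cast
  rw [← h1, ← h2]
  linear_combination cj x * hz + y * h3

/-- Chunk Q1 (S). absNorm of the top ideal. -/
theorem nm_unit {u : 𝓞 F} (hu : IsUnit u) : Nm u = 1 := by
  unfold Nm
  rw [Ideal.span_singleton_eq_top.2 hu, Ideal.absNorm_top]

end H55W
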