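import Mathlib
import Pool.Agent.Lib.H55W.D
import Pool.Agent.Lib.H55W.Q1

/-! # H55W, part Q: quadratic characters -/

open NumberField IsDedekindDomain

namespace H55W

open H55P (IQ embF eF Nm)
open H55K (cj)

variable {F : Type} [Field F] [NumberField F] [IQ F]

theorem q2a_gcd {a b : ℤ} (h : IsCoprime a b) : Int.gcd b a = 1 := by
  rw [Int.gcd_comm]
  exact Int.isCoprime_iff_gcd_eq_one.1 h

theorem q2a_odd {n : ℤ} {x : 𝓞 F} (h : IsCoprime x ((2 * n : ℤ) : 𝓞 F)) : Odd (Nm x) := by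
  have h1 := nm_cop h
  have h2 : IsCoprime ((Nm x : ℕ) : ℤ) (2 : ℤ) := h1.of_mul_right_left
  rw [Int.isCoprime_iff_gcd_eq_one] at h2
  rw [← Nat.not_even_iff_odd]
  intro he
  obtain ⟨k, hk⟩ := he
  rw [hk] at h2
  have h3 : (2 : ℤ) ∣ Int.gcd ((k + k : ℕ) : ℤ) 2 := by
    refine Int.dvd_coe_gcd ⟨k, by push_cast; ring⟩ (dvd_refl _)
  rw [h2] at h3
  norm_num at h3

theorem q2a_gcdn {n : ℤ} {x : 𝓞 F} (h : IsCoprime x ((2 * n : ℤ) : 𝓞 F)) : Int.gcd n (Nm x : ℕ) = 1 := by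
  have h1 := nm_cop h
  exact q2a_gcd h1.of_mul_right_right

/-- Chunk Q2A (M). κ x = jacobiSym n (Nm x). root: 1 or -1 (jacobiSym.eq_one_or_neg_one, nm_cop: Nm x is prime to 2n); mul: Nm_mul, jacobiSym.mul_right; unit: nm_unit; per: Nm x is congruent to Nm y modulo 8n (nm_per), both odd, jacobiSym.mod_right (J(a | b) depends on b modulo 4|a|); euler: nm_card, euler_nm. -/
theorem quad_any {n : ℤ} (hn : n ≠ 0) : ∃ κ : 𝓞 F → 𝓞 F, PRC (𝓞 F) 2 n (2 * n) (8 * n) κ ∧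
    ∀ x, IsCoprime x (((2 * n : ℤ)) : 𝓞 F) → κ x = 1 ∨ κ x = -1 := by
  have hval : ∀ x : 𝓞 F, IsCoprime x (((2 * n : ℤ)) : 𝓞 F) →
      ((jacobiSym n (Nm x) : ℤ) : 𝓞 F) = 1 ∨ ((jacobiSym n (Nm x) : ℤ) : 𝓞 F) = -1 := by
    intro x hx
    rcases jacobiSym.eq_one_or_neg_one (q2a_gcdn hx) with h1 | h1
    · left
      rw [h1, Int.cast_one]
    · right
      rw [h1, Int.cast_neg, Int.cast_one]
  refine ⟨fun x => ((jacobiSym n (Nm x) : ℤ) : 𝓞 F), ⟨?_, ?_, ?_, ?_, ?_⟩, hval⟩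
  · intro x hx
    rcases hval x hx with h1 | h1
    · simp only [h1, one_pow]
    · simp only [h1]
      norm_num
  · intro x y hx hy
    show ((jacobiSym n (Nm (x * y)) : ℤ) : 𝓞 F) = ((jacobiSym n (Nm x) : ℤ) : 𝓞 F) * ((jacobiSym n (Nm y) : ℤ) : 𝓞 F)
    have h1 : Nm x ≠ 0 := fun h => by have := q2a_odd hx; rw [h] at this; exact absurd this (by decide)
    have h2 : Nm y ≠ 0 := fun h => by have := q2a_odd hy; rw [h] at this; exact absurd this (by decide)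
    rw [H55K.Nm_mul, jacobiSym.mul_right' n h1 h2, Int.cast_mul]
  · intro x y hx hy hxy
    show ((jacobiSym n (Nm x) : ℤ) : 𝓞 F) = ((jacobiSym n (Nm y) : ℤ) : 𝓞 F)
    have h1 := nm_per hxy
    rw [jacobiSym.mod_right n (q2a_odd hx), jacobiSym.mod_right n (q2a_odd hy)]
    have h2 : Nm x % (4 * n.natAbs) = Nm y % (4 * n.natAbs) := by
      have h3 : ((4 * n.natAbs : ℕ) : ℤ) ∣ ((Nm x : ℕ) : ℤ) - ((Nm y : ℕ) : ℤ) := by
        refine dvd_trans ?_ h1
        push_cast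
        refine dvd_trans (mul_dvd_mul_left 4 (b := |n|) (c := n) ((abs_dvd n n).2 (dvd_refl n))) ⟨2, by ring⟩
      have h4 : (Nm y : ℤ) ≡ (Nm x : ℤ) [ZMOD ((4 * n.natAbs : ℕ) : ℤ)] := Int.modEq_iff_dvd.2 h3
      exact ((Int.natCast_modEq_iff).1 h4).symm
    rw [h2]
  · intro u hu
    show ((jacobiSym n (Nm u) : ℤ) : 𝓞 F) = 1
    rw [nm_unit hu, jacobiSym.one_right, Int.cast_one]
  · intro π hπ hc hm
    rw [nm_card]
    refine euler_nm hπ (fun h => hm (by exact_mod_cast h)) fun h => hc ?_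
    rw [Int.cast_mul]
    exact Dvd.dvd.mul_left h _

/-- Chunk Q2A (S/M). The primary unit. n0 is not a unit in the group of units in the sense of huniq. pr x = the unit u with n0 | u x - 1 if there is one, 1 otherwise (classical). Uniqueness: n0 | u x - 1, n0 | u' x - 1: u x ≡ u' x, x is invertible modulo n0 (u x ≡ 1), so n0 | u - u', n0 | u u'^(-1) - 1, huniq. -/
theorem exists_pr {R : Type} [CommRing R] (n0 : R) (hex : ∀ x : R, IsCoprime x n0 → ∃ u, IsUnit u ∧ n0 ∣ u * x - 1)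
    (huniq : ∀ u : R, IsUnit u → n0 ∣ u - 1 → u = 1) : ∃ pr : R → R,
    (∀ x, IsCoprime x n0 → IsUnit (pr x) ∧ n0 ∣ pr x * x - 1) ∧
    (∀ x y, IsCoprime x n0 → IsCoprime y n0 → pr (x * y) = pr x * pr y) ∧
    (∀ u x, IsUnit u → IsCoprime x n0 → pr (u * x) * u = pr x) ∧
    (∀ x y, IsCoprime x n0 → IsCoprime y n0 → n0 ∣ x - y → pr x = pr y) ∧
    ∀ u x, IsUnit u → IsCoprime x n0 → n0 ∣ u * x - 1 → pr x = u := by
  classical
  have key : ∀ {u u' x : R}, IsUnit u → IsUnit u' → n0 ∣ u * x - 1 → n0 ∣ u' * x - 1 → u = u' := by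
    intro u u' x hu hu' h1 h2
    obtain ⟨v, hv⟩ := hu'.exists_left_inv
    have hvu : IsUnit v := IsUnit.of_mul_eq_one _ hv
    have h3 : n0 ∣ u * v - 1 := by
      have h4 : u * v - 1 = v * (u' * (u * x - 1) - u * (u' * x - 1)) := by
        linear_combination hv
      rw [h4]
      exact Dvd.dvd.mul_left (dvd_sub (Dvd.dvd.mul_left h1 _) (Dvd.dvd.mul_left h2 _)) _
    have h5 := huniq (u * v) (hu.mul hvu) h3
    calc u = u * (v * u') := by rw [hv, mul_one]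
      _ = (u * v) * u' := by ring
      _ = u' := by rw [h5, one_mul]
  set pr : R → R := fun x => if h : ∃ u, IsUnit u ∧ n0 ∣ u * x - 1 then h.choose else 1 with hpr
  have h1 : ∀ x, IsCoprime x n0 → IsUnit (pr x) ∧ n0 ∣ pr x * x - 1 := by
    intro x hx
    have h := hex x hx
    rw [hpr]
    simp only [dif_pos h]
    exact h.choose_spec
  refine ⟨pr, h1, ?_, ?_, ?_, ?_⟩
  · intro x y hx hy
    obtain ⟨a1, a2⟩ := h1 x hx
    obtain ⟨b1, b2⟩ := h1 y hy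
    obtain ⟨c1, c2⟩ := h1 (x * y) (hx.mul_left hy)
    refine key c1 (a1.mul b1) c2 ?_
    have h4 : pr x * pr y * (x * y) - 1 = (pr x * x - 1) * (pr y * y) + (pr y * y - 1) := by ring
    rw [h4]
    exact dvd_add (Dvd.dvd.mul_right a2 _) b2
  · intro u x hu hx
    obtain ⟨a1, a2⟩ := h1 x hx
    obtain ⟨c1, c2⟩ := h1 (u * x) ((isCoprime_mul_unit_left_left hu x n0).2 hx)
    refine key (c1.mul hu) a1 ?_ a2
    rwa [mul_assoc]
  · intro x y hx hy hxy
    obtain ⟨a1, a2⟩ := h1 x hx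
    obtain ⟨b1, b2⟩ := h1 y hy
    refine key a1 b1 a2 ?_
    have h4 : pr y * x - 1 = pr y * (x - y) + (pr y * y - 1) := by ring
    rw [h4]
    exact dvd_add (Dvd.dvd.mul_left hxy _) b2
  · intro u x hu hx h
    obtain ⟨a1, a2⟩ := h1 x hx
    exact key a1 hu a2 h

end H55W
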