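import Mathlib
import Pool.Agent.Lib.H55W.D
import Pool.Agent.Lib.H55W.Q1

/-! # H55W, part Q: quadratic characters -/

open NumberField IsDedekindDomain

namespace H55W

open H55P (IQ embF eF Nm)
open H55K (cj)

variable {F : Type} [Field F] [NumberField F] [IQ F]

/-- Chunk Q2B (S/M). Quadratic reciprocity: n ≡ 1 mod 4 (n may be negative), N odd natural: J(n | N) = J(N | |n|). n > 0: jacobiSym.quadratic_reciprocity_one_mod_four (n natural, 1 mod 4). n < 0: |n| = 3 mod 4, J(n | N) = J(-1 | N) J(|n| | N), J(-1 | N) = χ₄ N (jacobiSym.at_neg_one), jacobiSym.quadratic_reciprocity / quadratic_reciprocity_three_mod_four: cases N mod 4. Common factors: both 0. -/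
theorem jac_recip {n : ℤ} (hn : n % 4 = 1) {N : ℕ} (hN : N % 2 = 1) : jacobiSym n N = jacobiSym (N : ℤ) n.natAbs := by
  have hNo : Odd N := Nat.odd_iff.2 hN
  rcases le_or_gt 0 n with h0 | h0
  · obtain ⟨m, rfl⟩ := Int.eq_ofNat_of_zero_le h0
    rw [Int.natAbs_natCast]
    exact jacobiSym.quadratic_reciprocity_one_mod_four (by omega) hNo
  · obtain ⟨m, hm⟩ : ∃ m : ℕ, n = -(m : ℤ) := ⟨n.natAbs, by omega⟩
    subst hm
    have hm3 : m % 4 = 3 := by omega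
    rw [Int.natAbs_neg, Int.natAbs_natCast, jacobiSym.neg _ hNo]
    have hN4 : N % 4 = 1 ∨ N % 4 = 3 := by omega
    rcases hN4 with h1 | h1
    · rw [ZMod.χ₄_nat_one_mod_four h1, one_mul]
      exact jacobiSym.quadratic_reciprocity_one_mod_four' (Nat.odd_iff.2 (by omega)) h1
    · rw [ZMod.χ₄_nat_three_mod_four h1, jacobiSym.quadratic_reciprocity_three_mod_four hm3 h1]
      ring

/-- Chunk Q2B (M). κ x = jacobiSym (Nm x) |n|. root, mul (jacobiSym.mul_left), unit (jacobiSym.one_left), per (jacobiSym.mod_left', nm_per), euler: π does not divide 2 and n: jac_recip (Nm π is odd: pi_types), euler_nm. κ 2 = jacobiSym 4 |n| = (jacobiSym 2 |n|)^2 = 1 (n odd; Nm 2 = 4: Nm_nat). -/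
theorem quad_odd {n : ℤ} (hn : n % 4 = 1) : ∃ κ : 𝓞 F → 𝓞 F, PRC (𝓞 F) 2 n n n κ ∧
    (∀ x, IsCoprime x ((n : ℤ) : 𝓞 F) → κ x = 1 ∨ κ x = -1) ∧ κ 2 = 1 := by
  have hgcd : ∀ x : 𝓞 F, IsCoprime x ((n : ℤ) : 𝓞 F) → Int.gcd ((Nm x : ℕ) : ℤ) (n.natAbs : ℕ) = 1 := by
    intro x hx
    have h1 := Int.isCoprime_iff_gcd_eq_one.1 (nm_cop hx)
    unfold Int.gcd at h1 ⊢
    rw [Int.natAbs_natCast n.natAbs]
    exact h1
  have hval : ∀ x : 𝓞 F, IsCoprime x ((n : ℤ) : 𝓞 F) →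
      ((jacobiSym (Nm x : ℕ) n.natAbs : ℤ) : 𝓞 F) = 1 ∨ ((jacobiSym (Nm x : ℕ) n.natAbs : ℤ) : 𝓞 F) = -1 := by
    intro x hx
    rcases jacobiSym.eq_one_or_neg_one (hgcd x hx) with h1 | h1
    · left
      rw [h1, Int.cast_one]
    · right
      rw [h1, Int.cast_neg, Int.cast_one]
  refine ⟨fun x => ((jacobiSym (Nm x : ℕ) n.natAbs : ℤ) : 𝓞 F), ⟨?_, ?_, ?_, ?_, ?_⟩, hval, ?_⟩
  · intro x hx
    rcases hval x hx with h1 | h1
    · simp only [h1, one_pow]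
    · simp only [h1]
      norm_num
  · intro x y hx hy
    show ((jacobiSym (Nm (x * y) : ℕ) n.natAbs : ℤ) : 𝓞 F) =
      ((jacobiSym (Nm x : ℕ) n.natAbs : ℤ) : 𝓞 F) * ((jacobiSym (Nm y : ℕ) n.natAbs : ℤ) : 𝓞 F)
    rw [H55K.Nm_mul, Nat.cast_mul, jacobiSym.mul_left, Int.cast_mul]
  · intro x y hx hy hxy
    show ((jacobiSym (Nm x : ℕ) n.natAbs : ℤ) : 𝓞 F) = ((jacobiSym (Nm y : ℕ) n.natAbs : ℤ) : 𝓞 F)
    have h1 := nm_per hxy
    have h2 : ((Nm x : ℕ) : ℤ) % (n.natAbs : ℤ) = ((Nm y : ℕ) : ℤ) % (n.natAbs : ℤ) := by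
      have h3 : ((Nm y : ℕ) : ℤ) ≡ ((Nm x : ℕ) : ℤ) [ZMOD (n.natAbs : ℤ)] :=
        Int.modEq_iff_dvd.2 (Int.natAbs_dvd.2 h1)
      exact h3.symm
    rw [jacobiSym.mod_left' h2]
  · intro u hu
    show ((jacobiSym (Nm u : ℕ) n.natAbs : ℤ) : 𝓞 F) = 1
    rw [nm_unit hu, Nat.cast_one, jacobiSym.one_left, Int.cast_one]
  · intro π hπ hc hm
    rw [nm_card]
    have hm' : ¬ π ∣ 2 := fun h => hm (by exact_mod_cast h)
    obtain ⟨p, hp, hpd, hN⟩ := pi_types hπ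
    have hp2 : p ≠ 2 := by
      rintro rfl
      exact hm' (by exact_mod_cast hpd)
    have hodd : Nm π % 2 = 1 := by
      rcases hN with hN | ⟨hN, -⟩
      · rw [hN]
        exact Nat.odd_iff.1 (hp.odd_of_ne_two hp2)
      · rw [hN]
        exact Nat.odd_iff.1 (hp.odd_of_ne_two hp2).pow
    have h1 := euler_nm hπ hm' hc
    rw [jac_recip hn hodd] at h1
    exact h1
  · show ((jacobiSym (Nm (2 : 𝓞 F) : ℕ) n.natAbs : ℤ) : 𝓞 F) = 1
    have h1 := H55K.Nm_nat (F := F) 2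
    rw [Nat.cast_ofNat] at h1
    have h2 : Int.gcd (2 : ℤ) (n.natAbs : ℕ) = 1 := by
      have h3 : Nat.Coprime 2 n.natAbs := by
        rw [Nat.coprime_two_left]
        exact Nat.odd_iff.2 (by omega)
      exact h3
    rw [h1, show (((2 ^ 2 : ℕ) : ℕ) : ℤ) = (2 : ℤ) ^ 2 by norm_num, jacobiSym.sq_one' h2, Int.cast_one]

end H55W
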