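import Mathlib
import Pool.Agent.Lib.H55W.FD
import Pool.Agent.Lib.H55W.E3
import Pool.Agent.Lib.H55W.Q2A
import Pool.Agent.Lib.H55W.Q2B

/-! # H55W, part F: the function defining the Hecke character, discriminant -3 -/

open NumberField IsDedekindDomain

namespace H55W

open H55P (IQ embF eF Nm)
open H55K (cj)

variable {F : Type} [Field F] [NumberField F] [IQ F] {w : 𝓞 F}

/-- Chunk F3 (S). IsCoprime (span {x}) (span {y}) iff IsCoprime x y (Ideal.isCoprime_span_singleton_iff); powers, divisors. -/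
theorem cop_of {x : 𝓞 F} {D : ℤ} {c : 𝓞 F} {j : ℕ} (hc : c ∣ ((D : ℤ) : 𝓞 F) ^ j) (hx : IsCoprime (Ideal.span {x}) (Ideal.span {((D : ℤ) : 𝓞 F) ^ 3})) :
    IsCoprime x c := by
  rw [Ideal.isCoprime_span_singleton_iff] at hx
  have h1 : IsCoprime x ((D : ℤ) : 𝓞 F) := (IsCoprime.pow_right_iff (by norm_num)).1 hx
  exact (h1.pow_right (n := j)).of_isCoprime_of_dvd_right hc

omit [IQ F] in
theorem f3_pc {γ a : 𝓞 F} (hγ : Prime γ) (h : ¬ γ ∣ a) : IsCoprime γ a := by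
  have hp : (Ideal.span {γ}).IsPrime := (Ideal.span_singleton_prime hγ.ne_zero).2 hγ
  have hm : (Ideal.span {γ}).IsMaximal := hp.isMaximal (by
    rw [Ne, Ideal.span_singleton_eq_bot]
    exact hγ.ne_zero)
  obtain ⟨y, i, hi, hyi⟩ := hm.exists_inv (x := a) (by rwa [Ideal.mem_span_singleton])
  obtain ⟨z, rfl⟩ := Ideal.mem_span_singleton.1 hi
  exact ⟨z, y, by rw [← hyi]; ring⟩

omit [NumberField F] [IQ F] in
theorem f3_uc {u c : 𝓞 F} (hu : IsUnit u) : IsCoprime u c := by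
  obtain ⟨v, hv⟩ := hu.exists_left_inv
  exact ⟨v, 0, by rw [hv]; ring⟩

omit [NumberField F] [IQ F] in
theorem f3_diff {z z' : 𝓞 F} (hz : z ^ 3 = 1) (hz' : z' ^ 3 = 1) (hne : z ≠ z') : z - z' ∣ 3 := by
  have h1 : (z - z') * (z ^ 2 + z * z' + z' ^ 2) = 0 := by linear_combination hz - hz'
  have h2 := (mul_eq_zero.1 h1).resolve_left (sub_ne_zero.2 hne)
  refine ⟨-((z - z') * z ^ 2 * z' ^ 2), ?_⟩
  linear_combination (-3) * z' ^ 3 * hz - 3 * hz' + z ^ 2 * z' ^ 2 * h2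

/-- Euler's criterion for a quadratic character. -/
theorem f3_eu {γ η : 𝓞 F} {b' c k : ℤ} {κ : 𝓞 F → 𝓞 F} (hκ : PRC (𝓞 F) 2 b' c k κ)
    (hκ1 : ∀ x, IsCoprime x ((c : ℤ) : 𝓞 F) → κ x = 1 ∨ κ x = -1) (hγ : Prime γ) (g2 : ¬ γ ∣ 2)
    (gc : ¬ γ ∣ ((c : ℤ) : 𝓞 F)) (hη : η = 1 ∨ η = -1) (h : γ ∣ (b' : 𝓞 F) ^ ((Nm γ - 1) / 2) - η) : κ γ = η := by
  have hk := hκ.euler γ hγ gc (by rw [Nat.cast_ofNat]; exact g2)
  rw [nm_card] at hk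
  have hd : γ ∣ κ γ - η := by
    have := dvd_sub h hk
    have e : ((b' : 𝓞 F) ^ ((Nm γ - 1) / 2) - η) - ((b' : 𝓞 F) ^ ((Nm γ - 1) / 2) - κ γ) = κ γ - η := by ring
    rwa [e] at this
  rcases hκ1 γ (f3_pc hγ gc) with g | g <;> rcases hη with rfl | rfl
  · exact g
  · rw [g] at hd
    have e : (1 : 𝓞 F) - -1 = 2 := by ring
    rw [e] at hd
    exact absurd hd g2
  · rw [g] at hd
    have e : (-1 : 𝓞 F) - 1 = -2 := by ring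
    rw [e, dvd_neg] at hd
    exact absurd hd g2
  · exact g

/-- A prime element which divides 2 is 2 times a unit. -/
theorem f3_two (hw : EI w) {γ : 𝓞 F} (hγ : Prime γ) (h : γ ∣ 2) : ∃ u : 𝓞 F, IsUnit u ∧ 2 = γ * u := by
  obtain ⟨z, hz⟩ := h
  refine ⟨z, ?_, hz⟩
  obtain ⟨a, b, hab⟩ := hw.rep γ
  have h1 := (ei_nm hw a b).2
  rw [← hab] at h1
  have h2 := (ei_nm hw 2 0).2
  have e2 : ((2 : ℤ) : 𝓞 F) + ((0 : ℤ) : 𝓞 F) * w = 2 := by push_cast; ring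
  rw [e2, hz, H55K.Nm_mul] at h2
  push_cast at h2
  have h3 : Nm γ * Nm z = 4 := by
    have : ((Nm γ * Nm z : ℕ) : ℤ) = 4 := by push_cast; rw [h2]
    exact_mod_cast this
  have hne1 : Nm γ ≠ 1 := by
    intro hc
    apply hγ.not_isUnit
    rw [Nm, Ideal.absNorm_eq_one_iff, Ideal.span_singleton_eq_top] at hc
    exact hc
  have hne2 : Nm γ ≠ 2 := by
    intro hc
    rw [hc] at h1
    push_cast at h1
    have ha : a % 2 = 0 ∨ a % 2 = 1 := by omega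
    have hb : b % 2 = 0 ∨ b % 2 = 1 := by omega
    have hab2 : (a ^ 2 - a * b + b ^ 2) % 4 = 2 := by rw [← h1]; norm_num
    rcases ha with ha | ha <;> rcases hb with hb | hb
    · obtain ⟨c, rfl⟩ : ∃ c, a = 2 * c := ⟨a / 2, by omega⟩
      obtain ⟨d, rfl⟩ : ∃ d, b = 2 * d := ⟨b / 2, by omega⟩
      have : (2 * c) ^ 2 - 2 * c * (2 * d) + (2 * d) ^ 2 = 4 * (c ^ 2 - c * d + d ^ 2) := by ring
      rw [this] at hab2
      omega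
    · obtain ⟨c, rfl⟩ : ∃ c, a = 2 * c := ⟨a / 2, by omega⟩
      obtain ⟨d, rfl⟩ : ∃ d, b = 2 * d + 1 := ⟨b / 2, by omega⟩
      have : (2 * c) ^ 2 - 2 * c * (2 * d + 1) + (2 * d + 1) ^ 2 = 2 * (2 * c ^ 2 - c * (2 * d + 1) + 2 * d ^ 2 + 2 * d) + 1 := by ring
      rw [this] at hab2
      omega
    · obtain ⟨c, rfl⟩ : ∃ c, a = 2 * c + 1 := ⟨a / 2, by omega⟩
      obtain ⟨d, rfl⟩ : ∃ d, b = 2 * d := ⟨b / 2, by omega⟩
      have : (2 * c + 1) ^ 2 - (2 * c + 1) * (2 * d) + (2 * d) ^ 2 = 2 * (2 * c ^ 2 + 2 * c - (2 * c + 1) * d + 2 * d ^ 2) + 1 := by ring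
      rw [this] at hab2
      omega
    · obtain ⟨c, rfl⟩ : ∃ c, a = 2 * c + 1 := ⟨a / 2, by omega⟩
      obtain ⟨d, rfl⟩ : ∃ d, b = 2 * d + 1 := ⟨b / 2, by omega⟩
      have : (2 * c + 1) ^ 2 - (2 * c + 1) * (2 * d + 1) + (2 * d + 1) ^ 2 =
          2 * (2 * c ^ 2 + 2 * c - 2 * c * d - c - d + 2 * d ^ 2 + 2 * d) + 1 := by ring
      rw [this] at hab2
      omega
  have hd : Nm γ ∣ 4 := ⟨_, h3.symm⟩
  have hle := Nat.le_of_dvd (by norm_num) hd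
  have h4 : Nm γ = 4 := by
    interval_cases hN : Nm γ
    · omega
    · exact absurd rfl hne1
    · exact absurd rfl hne2
    · omega
    · rfl
  rw [h4] at h3
  have h5 : Nm z = 1 := by omega
  rw [Nm, Ideal.absNorm_eq_one_iff, Ideal.span_singleton_eq_top] at h5
  exact h5

/-- Chunk F3 (M). pr from exists_pr (n0 = 3: ei_ex, ei_uniq), κ₂ from quad_any (b' even: c = 2b', k = 8b') or quad_odd (b' odd, b' = 1 mod 4: c = k = b'). f x = pr x * κ₃ x * κ₂ x. x prime to M is prime to D = -27 b'^2 (cop_of), so to 3, 3 b', and to 2 b' if b' is even; elements of M are divisible by 27 b', by 3, and by 8 b' if b' is even (D^3 = -27^3 b'^6).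
un: κ₃^3 = 1, κ₂^2 = 1. mul, per: clear. inv: κ (u x) = κ u κ x = κ x (PRC.unit; a unit is prime to everything). The last statement: π = γ a prime, N = Nm γ (nm_card): pr γ = η ζ^2 =: u (exists_pr: u γ ≡ η ζ^2 η ζ = ζ^3 η^2 = 1 mod 3; ζ^3 = 1: ei_root); κ₃ γ = ζ: γ divides b'^((N-1)/3) - κ₃ γ (PRC.euler; γ does not divide 3 b' and 3) and b'^((N-1)/3) - ζ, so γ divides κ₃ γ - ζ; both are cube roots of 1
(powers of w: κ₃^3 = 1), and differences of different ones divide 3 (compare H35T.mu3_inj): κ₃ γ = ζ. κ₂ γ = η: if γ does not divide 2: the same with b'^((N-1)/2) (differences divide 2). If γ divides 2: γ does not divide b', so b' is odd, b' = 1 mod 4, η = 1; 2 is a prime element (the norm a^2 - ab + b^2 is never 2), γ = unit times 2, κ₂ γ = κ₂ 2 = 1. So f γ = η ζ^2 ζ η = 1. -/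
theorem exists_f3 (hw : EI w) {b' : ℤ} (hb : b' ≠ 0) (h4 : b' % 2 = 1 → b' % 4 = 1) {κ₃ : 𝓞 F → 𝓞 F}
    (hκ : PRC (𝓞 F) 3 b' (3 * b') (27 * b') κ₃) {D : ℤ} (hD : D = -27 * b' ^ 2) :
    ∃ f : 𝓞 F → 𝓞 F, HF (Ideal.span {((D : ℤ) : 𝓞 F) ^ 3}) f ∧ ∀ γ η ζ : 𝓞 F, Prime γ → ¬ γ ∣ ((D : ℤ) : 𝓞 F) → (3 : 𝓞 F) ∣ γ - η * ζ →
      (η = 1 ∨ η = -1) → (∃ i : ℕ, ζ = w ^ i) → γ ∣ (b' : 𝓞 F) ^ ((Nm γ - 1) / 3) - ζ →
      (¬ γ ∣ 2 → γ ∣ (b' : 𝓞 F) ^ ((Nm γ - 1) / 2) - η) → (γ ∣ 2 → b' % 4 = 1 → η = 1) → f γ = 1 := by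
  have hDc : ((D : ℤ) : 𝓞 F) = -27 * (b' : 𝓞 F) ^ 2 := by rw [hD]; push_cast; ring
  have hw3 : w ^ 3 = 1 := (ei_root hw).pow_eq_one
  have hwu : ∀ i : ℕ, IsUnit (w ^ i) := by
    intro i
    refine IsUnit.pow i (IsUnit.of_mul_eq_one (w ^ 2) ?_)
    rw [← hw3]
    ring
  obtain ⟨pr, p1, p2, p3, p4, p5⟩ := exists_pr (3 : 𝓞 F) (fun x hx => ei_ex hw hx) (fun u hu hd => ei_uniq hw hu hd)
  obtain ⟨κ, c, k, hk2, hk1, hcD, hkD, hfin⟩ : ∃ (κ : 𝓞 F → 𝓞 F) (c k : ℤ), PRC (𝓞 F) 2 b' c k κ ∧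
      (∀ x, IsCoprime x ((c : ℤ) : 𝓞 F) → κ x = 1 ∨ κ x = -1) ∧ ((c : ℤ) : 𝓞 F) ∣ ((D : ℤ) : 𝓞 F) ^ 1 ∧
      ((k : ℤ) : 𝓞 F) ∣ ((D : ℤ) : 𝓞 F) ^ 3 ∧ ∀ γ η : 𝓞 F, Prime γ → ¬ γ ∣ ((D : ℤ) : 𝓞 F) → (η = 1 ∨ η = -1) →
      (¬ γ ∣ 2 → γ ∣ (b' : 𝓞 F) ^ ((Nm γ - 1) / 2) - η) → (γ ∣ 2 → b' % 4 = 1 → η = 1) → κ γ = η := by
    rcases Int.emod_two_eq_zero_or_one b' with hb2 | hb2
    · obtain ⟨κ, hκ', hκ1⟩ := quad_any (F := F) hb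
      obtain ⟨m, rfl⟩ : ∃ m, b' = 2 * m := ⟨b' / 2, by omega⟩
      have c1 : ((2 * (2 * m) : ℤ) : 𝓞 F) ∣ ((D : ℤ) : 𝓞 F) ^ 1 := by
        rw [hDc]
        exact ⟨-27 * (m : 𝓞 F), by push_cast; ring⟩
      refine ⟨κ, _, _, hκ', hκ1, c1, ?_, ?_⟩
      · rw [hDc]
        exact ⟨-78732 * (m : 𝓞 F) ^ 5, by push_cast; ring⟩
      · intro γ η hγ hγD hη h1 h2
        have g2 : ¬ γ ∣ 2 := fun h => hγD (h.trans ⟨-54 * (m : 𝓞 F) ^ 2, by rw [hDc]; push_cast; ring⟩)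
        have gc : ¬ γ ∣ ((2 * (2 * m) : ℤ) : 𝓞 F) := fun h => hγD (by rw [← pow_one ((D : ℤ) : 𝓞 F)]; exact h.trans c1)
        exact f3_eu hκ' hκ1 hγ g2 gc hη (h1 g2)
    · have h41 := h4 hb2
      obtain ⟨κ, hκ', hκ1, hκ2⟩ := quad_odd (F := F) h41
      have c1 : ((b' : ℤ) : 𝓞 F) ∣ ((D : ℤ) : 𝓞 F) ^ 1 := by
        rw [hDc]
        exact ⟨-27 * (b' : 𝓞 F), by ring⟩
      refine ⟨κ, _, _, hκ', hκ1, c1, ?_, ?_⟩
      · rw [hDc]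
        exact ⟨-19683 * (b' : 𝓞 F) ^ 5, by ring⟩
      · intro γ η hγ hγD hη h1 h2
        have gc : ¬ γ ∣ ((b' : ℤ) : 𝓞 F) := fun h => hγD (by rw [← pow_one ((D : ℤ) : 𝓞 F)]; exact h.trans c1)
        by_cases g2 : γ ∣ 2
        · rw [h2 g2 h41]
          obtain ⟨u, hu, h2u⟩ := f3_two hw hγ g2
          have e := hκ'.mul γ u (f3_pc hγ gc) (f3_uc hu)
          rw [← h2u, hκ2, hκ'.unit u hu, mul_one] at e
          exact e.symm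
        · exact f3_eu hκ' hκ1 hγ g2 gc hη (h1 g2)
  have c3 : ((3 * b' : ℤ) : 𝓞 F) ∣ ((D : ℤ) : 𝓞 F) ^ 1 := by
    rw [hDc]
    exact ⟨-9 * (b' : 𝓞 F), by push_cast; ring⟩
  have d3 : (3 : 𝓞 F) ∣ ((D : ℤ) : 𝓞 F) ^ 1 := by
    rw [hDc]
    exact ⟨-9 * (b' : 𝓞 F) ^ 2, by ring⟩
  have k1 : ∀ z : 𝓞 F, z ∈ Ideal.span {((D : ℤ) : 𝓞 F) ^ 3} → (3 : 𝓞 F) ∣ z ∧ ((27 * b' : ℤ) : 𝓞 F) ∣ z ∧ ((k : ℤ) : 𝓞 F) ∣ z := by
    intro z hz
    rw [Ideal.mem_span_singleton] at hz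
    refine ⟨dvd_trans ?_ hz, dvd_trans ?_ hz, hkD.trans hz⟩
    · rw [hDc]
      exact ⟨-6561 * (b' : 𝓞 F) ^ 6, by ring⟩
    · rw [hDc]
      exact ⟨-729 * (b' : 𝓞 F) ^ 5, by push_cast; ring⟩
  refine ⟨fun x => pr x * κ₃ x * κ x, ⟨?_, ?_, ?_, ?_⟩, ?_⟩
  · intro x hx
    refine ((p1 x (cop_of d3 hx)).1.mul (IsUnit.of_mul_eq_one (κ₃ x ^ 2) ?_)).mul (IsUnit.of_mul_eq_one (κ x) ?_)
    · rw [← hκ.root x (cop_of c3 hx)]
      ring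
    · rw [← hk2.root x (cop_of hcD hx)]
      ring
  · intro x y hx hy
    show pr (x * y) * κ₃ (x * y) * κ (x * y) = pr x * κ₃ x * κ x * (pr y * κ₃ y * κ y)
    rw [p2 x y (cop_of d3 hx) (cop_of d3 hy), hκ.mul x y (cop_of c3 hx) (cop_of c3 hy), hk2.mul x y (cop_of hcD hx) (cop_of hcD hy)]
    ring
  · intro u x hu hx
    show pr (u * x) * κ₃ (u * x) * κ (u * x) * u = pr x * κ₃ x * κ x
    have g1 : κ₃ (u * x) = κ₃ x := by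
      rw [hκ.mul u x (f3_uc hu) (cop_of c3 hx), hκ.unit u hu, one_mul]
    have g2 : κ (u * x) = κ x := by
      rw [hk2.mul u x (f3_uc hu) (cop_of hcD hx), hk2.unit u hu, one_mul]
    rw [g1, g2, ← p3 u x hu (cop_of d3 hx)]
    ring
  · intro x y hx hy hxy
    show pr x * κ₃ x * κ x = pr y * κ₃ y * κ y
    obtain ⟨g1, g2, g3⟩ := k1 _ hxy
    rw [p4 x y (cop_of d3 hx) (cop_of d3 hy) g1, hκ.per x y (cop_of c3 hx) (cop_of c3 hy) g2,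
      hk2.per x y (cop_of hcD hx) (cop_of hcD hy) g3]
  · rintro γ η _ hγ hγD h1 hη ⟨i, rfl⟩ h2 h3 h5
    show pr γ * κ₃ γ * κ γ = 1
    have gD : IsCoprime γ (((D : ℤ) : 𝓞 F) ^ 1) := f3_pc hγ (by rwa [pow_one])
    have g3 : ¬ γ ∣ 3 := fun h => hγD (by rw [← pow_one ((D : ℤ) : 𝓞 F)]; exact h.trans d3)
    have gc : ¬ γ ∣ ((3 * b' : ℤ) : 𝓞 F) := fun h => hγD (by rw [← pow_one ((D : ℤ) : 𝓞 F)]; exact h.trans c3)
    have hz : (w ^ i) ^ 3 = 1 := by rw [← pow_mul, mul_comm, pow_mul, hw3, one_pow]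
    have hη2 : η ^ 2 = 1 := by rcases hη with rfl | rfl <;> ring
    have hηu : IsUnit η := IsUnit.of_mul_eq_one η (by rw [← hη2]; ring)
    have hp : pr γ = η * (w ^ i) ^ 2 := by
      refine p5 _ γ (hηu.mul ((hwu i).pow 2)) (gD.of_isCoprime_of_dvd_right d3) ?_
      have e : η * (w ^ i) ^ 2 * γ - 1 = η * (w ^ i) ^ 2 * (γ - η * w ^ i) := by
        linear_combination (w ^ i) ^ 3 * hη2 + hz
      rw [e]
      exact h1.mul_left _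
    have hk3 := hκ.euler γ hγ gc (by rw [Nat.cast_ofNat]; exact g3)
    rw [nm_card] at hk3
    have hd : γ ∣ κ₃ γ - w ^ i := by
      have := dvd_sub h2 hk3
      have e : ((b' : 𝓞 F) ^ ((Nm γ - 1) / 3) - w ^ i) - ((b' : 𝓞 F) ^ ((Nm γ - 1) / 3) - κ₃ γ) = κ₃ γ - w ^ i := by ring
      rwa [e] at this
    have hk1' : κ₃ γ = w ^ i := by
      by_contra hne
      exact g3 (hd.trans (f3_diff (hκ.root γ (gD.of_isCoprime_of_dvd_right c3)) hz hne))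
    rw [hp, hk1', hfin γ η hγ hγD hη h3 h5]
    linear_combination (w ^ i) ^ 3 * hη2 + hz

end H55W
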