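import Mathlib
import Pool.Agent.Lib.H13D.A8
import Pool.Agent.Lib.H13D.P0

/-! # H55W, part L: the Frobenius element at a prime of good reduction -/

open NumberField IsDedekindDomain WeierstrassCurve

namespace H55W

open H55P (IQ embF eF LF Per IsHecke Pt ac Inert Dec Nm)
open H35P (WAB Ker tt GoodW IntW)
open H55K
open H13D (RM)

section

variable {F : Type} [Field F] [NumberField F] {Ω : Type} [Field Ω] [DecidableEq Ω] [Algebra F Ω]

/-- V lies over the prime v of good reduction, s is a Frobenius element at V, Kg is the kernel of reduction. -/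
structure LD {A B : F} (v : HeightOneSpectrum (𝓞 F)) (V : ValuationSubring Ω) (s : Ω ≃ₐ[F] Ω) (Kg : AddSubgroup (Pt (WAB A B) Ω))
    (r : Ω) : Prop where
  rm : RM A B V Kg 1 r
  sr : s r = r
  lt : ∀ a : 𝓞 F, a ∈ v.asIdeal → V.valuation (ak Ω a) < 1
  eq : ∀ a : 𝓞 F, a ∉ v.asIdeal → V.valuation (ak Ω a) = 1
  dec : Dec V s
  frob : ∀ x ∈ V, V.valuation (s x - x ^ Ideal.absNorm v.asIdeal) < 1

end

variable {F : Type} [Field F] [NumberField F] [IQ F] {A B : F} {Om : ℂ} {Ω : Type} [Field Ω] [DecidableEq Ω]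
  [Algebra F Ω] {j : Ω →+* ℂ} {act : 𝓞 F →+* AddMonoid.End (Pt (WAB A B) Ω)} {V : ValuationSubring Ω}
  {Kg : AddSubgroup (Pt (WAB A B) Ω)} {v : HeightOneSpectrum (𝓞 F)} {s : Ω ≃ₐ[F] Ω} {r : Ω}

theorem l0_mul (a b : 𝓞 F) (P : Pt (WAB A B) Ω) : act (a * b) P = act a (act b P) := by
  rw [map_mul]
  rfl

theorem l0_sub (a b : 𝓞 F) (P : Pt (WAB A B) Ω) : act (a - b) P = act a P - act b P := by
  rw [map_sub]
  rfl

theorem l0_one (P : Pt (WAB A B) Ω) : act 1 P = P := by
  rw [map_one]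
  rfl

theorem l0_inj {u : 𝓞 F} (hu : IsUnit u) {P : Pt (WAB A B) Ω} (h : act u P = 0) : P = 0 := by
  obtain ⟨w, hw⟩ := hu.exists_left_inv
  have h1 : act (w * u) P = P := by rw [hw, l0_one]
  rw [l0_mul, h, map_zero] at h1
  exact h1.symm

/-- Chunk L0 (S). h.e1x, h.e1y for the unit u and S = ∅ (TN act u ∅: act u T = 0 implies T = act u⁻¹ (act u T) = 0). P = 0: both sides are 0. -/
theorem act_unit (h : CMA F A B Om j act) {u : 𝓞 F} (hu : IsUnit u) (P : Pt (WAB A B) Ω) :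
    ak Ω u ^ 2 * xc (act u P) = xc P ∧ ak Ω u ^ 3 * yc (act u P) = yc P := by
  by_cases hP : P = 0
  · rw [hP, map_zero, xc_zero, yc_zero, mul_zero, mul_zero]
    exact ⟨rfl, rfl⟩
  · have hTN : TN act u ∅ := by
      intro T
      simp only [Finset.notMem_empty, false_iff, not_and, not_not]
      exact fun h1 => l0_inj hu h1
    have hne : act u P ≠ 0 := fun h1 => hP (l0_inj hu h1)
    have h1 := h.e1x u ∅ hu.ne_zero hTN P hne
    have h2 := h.e1y u ∅ hu.ne_zero hTN P hne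
    rw [Finset.sum_empty, add_zero] at h1 h2
    exact ⟨h1, h2⟩

/-- Chunk L0 (S). act (-1) P = -P. -/
theorem act_neg (a : 𝓞 F) (P : Pt (WAB A B) Ω) : act (-a) P = -act a P := by
  rw [map_neg]
  rfl

/-- Chunk L0 (M). Let a be one of 1, t, 1 - t, 1 + t (not divisible by n0; n0 is not a unit since it does not divide t): act a T ≠ 0 and act n0 (act a T) = 0, so act a T is not in Kg (H13D.tor_unit' with b = n0, V(n0) = 1). xc (ac s T) = xc (act β T): act c T = act β T or - act β T (n0 divides c - β or c + β: hTg; xc_neg). T' = act t T: ac s T' = act t (ac s T) (h.gal) = act c (act t T), the same.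
H13D.frob_gen' with u = 1: γ = β or -β (Prime β: span {β} = v; V(β) < 1; Nm β = absNorm v = p^f: the residue field, H13D or H55K: absNorm of a prime ideal is a prime power, e.g. Ideal.absNorm and FiniteField.card; p in v). Then act γ T - ac s T = act (γ - c) T is in Kg and killed by n0, so it is 0 (tor_unit'), and n0 divides γ - c (hTg). -/
theorem loc_gen (h : CMA F A B Om j act) (hL : LD v V s Kg r) {n0 : 𝓞 F} (hn0 : n0 ∉ v.asIdeal) {T : Pt (WAB A B) Ω}
    (hT : ∀ a, act a T = 0 ↔ n0 ∣ a) {c β t : 𝓞 F} (hβ : Ideal.span {β} = v.asIdeal)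
    (hc : ac (WAB A B) s T = act c T) (hcβ : n0 ∣ c - β ∨ n0 ∣ c + β) (h0 : ¬ n0 ∣ t) (h1 : ¬ n0 ∣ 1 - t) (h2 : ¬ n0 ∣ 1 + t) :
    ∃ γ : 𝓞 F, Ideal.span {γ} = v.asIdeal ∧ n0 ∣ γ - c ∧ ∀ X : Pt (WAB A B) Ω, act γ X - ac (WAB A B) s X ∈ Kg := by
  have hVn : V.valuation (ak Ω n0) = 1 := hL.eq n0 hn0
  have key : ∀ a : 𝓞 F, ¬ n0 ∣ a → act a T ∉ Kg := by
    intro a ha hK
    have h3 : act n0 (act a T) = 0 := by
      rw [← l0_mul]
      exact (hT _).2 (dvd_mul_right _ _)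
    exact ha ((hT a).1 (H13D.tor_unit' h hL.rm hVn h3 hK))
  have hone : ¬ n0 ∣ 1 := fun h3 => h0 (h3.trans (one_dvd t))
  have hβ0 : β ≠ 0 := by
    rintro rfl
    rw [Ideal.span_singleton_eq_bot.2 rfl] at hβ
    exact v.ne_bot hβ.symm
  have hβp : Prime β := (Ideal.span_singleton_prime hβ0).1 (by rw [hβ]; exact v.isPrime)
  have hβv : β ∈ v.asIdeal := by
    rw [← hβ]
    exact Ideal.mem_span_singleton_self β
  obtain ⟨p, f, hp, hpv, -, hN⟩ := H13D.below_v v
  have hNm : Nm β = Ideal.absNorm v.asIdeal := by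
    unfold Nm
    rw [hβ]
  have hpV : V.valuation (p : Ω) < 1 := by
    have h3 := hL.lt _ hpv
    unfold ak at h3
    simpa using h3
  have hx : ∀ a : 𝓞 F, xc (ac (WAB A B) s (act a T)) = xc (act β (act a T)) := by
    intro a
    have h3 : ac (WAB A B) s (act a T) = act a (act c T) := by rw [h.gal, hc]
    rw [h3]
    rcases hcβ with h4 | h4
    · have h5 := (hT _).2 h4
      rw [l0_sub, sub_eq_zero] at h5
      rw [h5, ← l0_mul, ← l0_mul, mul_comm]
    · have h5 : act c T = -act β T := by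
        have h6 := (hT _).2 h4
        have h7 : c + β = c - -β := by ring
        rw [h7, l0_sub, sub_eq_zero] at h6
        rw [h6, act_neg]
      rw [h5, map_neg, xc_neg, ← l0_mul, ← l0_mul, mul_comm]
  have e1 : T - act t T = act (1 - t) T := by rw [l0_sub, l0_one]
  have e2 : T + act t T = act (1 + t) T := by
    have h7 : (1 : 𝓞 F) + t = 1 - -t := by ring
    rw [h7, l0_sub, l0_one, act_neg, sub_neg_eq_add]
  have hT1 : T ∉ Kg := by
    have := key 1 hone
    rwa [l0_one] at this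
  have hx1 : xc (ac (WAB A B) s T) = xc (act β T) := by
    have := hx 1
    rwa [l0_one] at this
  obtain ⟨γ, hγ, hγK⟩ := H13D.frob_gen' h hL.rm hβp (hL.lt β hβv) hp (hNm.trans hN) hpV s hL.dec
    (fun x hx => by rw [hNm]; exact hL.frob x hx) (map_one s) hL.sr hT1 (key t h0)
    (by rw [e1]; exact key _ h1) (by rw [e2]; exact key _ h2) hx1 (hx t)
  refine ⟨γ, ?_, ?_, hγK⟩
  · rcases hγ with h3 | h3
    · rw [h3, hβ]
    · rw [h3, Ideal.span_singleton_neg, hβ]
  · have h3 := hγK T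
    rw [hc, ← l0_sub] at h3
    have h4 : act n0 (act (γ - c) T) = 0 := by
      rw [← l0_mul]
      exact (hT _).2 (dvd_mul_right _ _)
    exact (hT _).1 (H13D.tor_unit' h hL.rm hVn h4 h3)

theorem l0_pow {Γ : Type*} [LinearOrderedCommGroupWithZero Γ] {x : Γ} {m : ℕ} (hm : m ≠ 0) (h : x ^ m = 1) : x = 1 := by
  rcases lt_trichotomy x 1 with h1 | h1 | h1
  · exact absurd h (pow_lt_one₀ zero_le' h1 hm).ne
  · exact h1
  · exact absurd h (one_lt_pow₀ h1 hm).ne'

/-- Chunk L0 (S/M). X^m = c, c an integer of F not in v, s X = ζ X with ζ in F, m divides N - 1: s X is congruent to X^N = X c^((N-1)/m), V(X) = 1 (V(X)^m = V(c) = 1; LinearOrderedCommGroupWithZero), so V(ζ - c^((N-1)/m)) < 1 and c^((N-1)/m) - ζ is in v (hL.eq otherwise). -/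
theorem frob_root (hL : LD v V s Kg r) {m : ℕ} (hm : 0 < m) (hd : m ∣ Ideal.absNorm v.asIdeal - 1) {c ζ : 𝓞 F} (hc : c ∉ v.asIdeal)
    {X : Ω} (hX : X ^ m = ak Ω c) (hs : s X = ak Ω ζ * X) : c ^ ((Ideal.absNorm v.asIdeal - 1) / m) - ζ ∈ v.asIdeal := by
  have hXV : V.valuation X = 1 := by
    refine l0_pow hm.ne' ?_
    rw [← map_pow, hX]
    exact hL.eq c hc
  have hX' : X ∈ V := (V.valuation_le_one_iff X).1 hXV.le
  have hN0 : Ideal.absNorm v.asIdeal ≠ 0 := by
    rw [Ne, Ideal.absNorm_eq_zero_iff]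
    exact v.ne_bot
  obtain ⟨k, hk⟩ := hd
  have hk' : (Ideal.absNorm v.asIdeal - 1) / m = k := by rw [hk, Nat.mul_div_cancel_left _ hm]
  rw [hk']
  have h1 := hL.frob X hX'
  have h2 : X ^ Ideal.absNorm v.asIdeal = X * ak Ω (c ^ k) := by
    have h3 : Ideal.absNorm v.asIdeal = 1 + m * k := by omega
    rw [h3, pow_add, pow_one, pow_mul, hX]
    unfold ak
    rw [← map_pow]
    simp
  have h3 : s X - X ^ Ideal.absNorm v.asIdeal = X * -(ak Ω (c ^ k - ζ)) := by
    rw [hs, h2]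
    unfold ak
    simp
    ring
  rw [h3, map_mul, hXV, one_mul, Valuation.map_neg] at h1
  by_contra h4
  rw [hL.eq _ h4] at h1
  exact lt_irrefl _ h1

end H55W
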