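import Mathlib
import Pool.Agent.Lib.H55W.E3
import Pool.Agent.Lib.H55W.L0

/-! # H55W, part L: the Frobenius element, discriminant -3 -/

open NumberField IsDedekindDomain WeierstrassCurve

namespace H55W

open H55P (IQ embF eF LF Per IsHecke Pt ac Inert Dec Nm)
open H35P (WAB Ker tt GoodW IntW)
open H55K
open H13D (RM)

variable {F : Type} [Field F] [NumberField F] [IQ F] {w : 𝓞 F}

variable {A B : F} {Om : ℂ} {Ω : Type} [Field Ω] [DecidableEq Ω]
  [Algebra F Ω] {j : Ω →+* ℂ} {act : 𝓞 F →+* AddMonoid.End (Pt (WAB A B) Ω)} {V : ValuationSubring Ω}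
  {Kg : AddSubgroup (Pt (WAB A B) Ω)} {v : HeightOneSpectrum (𝓞 F)} {s : Ω ≃ₐ[F] Ω} {r : Ω}

theorem l3_cube (hw : EI w) : w ^ 3 = 1 := by
  have h1 := hw.sq
  linear_combination (w - 1) * h1

theorem l3_unit (hw : EI w) : IsUnit w :=
  IsUnit.of_mul_eq_one (w ^ 2) (by rw [← l3_cube hw]; ring)

theorem l3_ak (a : 𝓞 F) : ∀ n : ℕ, ak Ω (a ^ n) = ak Ω a ^ n := by
  intro n
  unfold ak
  rw [← map_pow]
  simp

theorem l3_om (hw : EI w) : ak Ω w ^ 2 + ak Ω w + 1 = 0 := by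
  have h1 := hw.sq
  have h2 : algebraMap F Ω ((w ^ 2 + w + 1 : 𝓞 F) : F) = 0 := by rw [h1]; simp
  unfold ak
  simpa using h2

theorem l3_omcube (hw : EI w) : ak Ω w ^ 3 = 1 := by
  have h1 := l3_om (Ω := Ω) hw
  linear_combination (ak Ω w - 1) * h1

theorem l3_nat {n : ℕ} (hn : n ≠ 0) (j : Ω →+* ℂ) : (n : Ω) ≠ 0 := by
  intro h
  have h1 := congrArg j h
  rw [map_natCast, map_zero, Nat.cast_eq_zero] at h1
  exact hn h1

theorem l3_om1 (hw : EI w) (j : Ω →+* ℂ) : ak Ω w ≠ 1 := by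
  intro h
  have h1 := l3_om (Ω := Ω) hw
  rw [h] at h1
  have h2 : ((3 : ℕ) : Ω) = 0 := by
    push_cast
    linear_combination h1
  exact l3_nat (by norm_num) j h2

theorem l3_add (a b : 𝓞 F) (P : Pt (WAB A B) Ω) : act (a + b) P = act a P + act b P := by
  rw [map_add]
  rfl

theorem l3_dvd {m n : ℕ} (h : (m : 𝓞 F) ∣ (n : 𝓞 F)) : m ^ 2 ∣ n ^ 2 := by
  obtain ⟨z, hz⟩ := h
  have h1 := congrArg Nm hz
  rw [Nm_mul, Nm_nat, Nm_nat] at h1
  exact ⟨Nm z, h1⟩

/-- the coordinates of act w P -/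
theorem l3_act (hw : EI w) (h : CMA F A B Om j act) (P : Pt (WAB A B) Ω) :
    xc (act w P) = ak Ω w * xc P ∧ yc (act w P) = yc P := by
  obtain ⟨h1, h2⟩ := act_unit h (l3_unit hw) P
  have h3 := l3_omcube (Ω := Ω) hw
  constructor
  · rw [← h1]
    linear_combination (-xc (act w P)) * h3
  · rw [← h2, h3, one_mul]

/-- Chunk L3 (S/M). A point P ≠ 0 with xc P ≠ 0 (h.gen 5: T₀ ≠ 0 killed by 5; if all nonzero multiples a T₀ had x = 0 there would be at most 2 of them (H55K.xc_eq), but there are 24: tor_card; or: two points T, T' with T' ≠ ±T and xc = 0 for both contradicts xc_eq). act_unit for w: (w^(-2) x, w^(-3) y) = (w x, y) is on the curve (eqnA for act w P ≠ 0):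
y^2 = x^3 + A w x + B = x^3 + A x + B, so A (w - 1) x = 0. ak is injective. -/
theorem a_zero (hw : EI w) (h : CMA F A B Om j act) : A = 0 := by
  have h5 : (5 : 𝓞 F) ≠ 0 := by norm_num
  obtain ⟨T, -, -, hT, -⟩ := h.gen 5 h5
  have hT0 : T ≠ 0 := by
    intro h0
    have h1 : act 1 T = 0 := by rw [h0, map_zero]
    have h2 := (hT 1).1 h1
    have h3 : 5 ^ 2 ∣ 1 ^ 2 := l3_dvd (F := F) (by exact_mod_cast h2)
    norm_num at h3
  have hT2 : act 2 T = T + T := by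
    have h1 : (2 : 𝓞 F) = 1 + 1 := by norm_num
    rw [h1, l3_add, l0_one]
  have hT20 : act 2 T ≠ 0 := by
    intro h0
    have h2 := (hT 2).1 h0
    have h3 : 5 ^ 2 ∣ 2 ^ 2 := l3_dvd (F := F) (by exact_mod_cast h2)
    norm_num at h3
  obtain ⟨P, hP, hPx⟩ : ∃ P : Pt (WAB A B) Ω, P ≠ 0 ∧ xc P ≠ 0 := by
    by_contra hcon
    push Not at hcon
    rcases xc_eq hT20 hT0 ((hcon _ hT20).trans (hcon _ hT0).symm) with h1 | h1
    · rw [hT2] at h1
      exact hT0 (by simpa using h1)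
    · have h2 : act 3 T = 0 := by
        have h3 : (3 : 𝓞 F) = 2 + 1 := by norm_num
        rw [h3, l3_add, l0_one, h1, neg_add_cancel]
      have h3 := (hT 3).1 h2
      have h4 : 5 ^ 2 ∣ 3 ^ 2 := l3_dvd (F := F) (by exact_mod_cast h3)
      norm_num at h4
  have hQ : act w P ≠ 0 := fun h0 => hP (l0_inj (l3_unit hw) h0)
  obtain ⟨e1, e2⟩ := l3_act hw h P
  have e3 := eqnA hQ
  have e4 := eqnA hP
  rw [e1, e2] at e3
  have e5 := l3_omcube (Ω := Ω) hw
  have e6 : algebraMap F Ω A * ((ak Ω w - 1) * xc P) = 0 := by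
    linear_combination e4 - e3 - (xc P) ^ 3 * e5
  have e7 : algebraMap F Ω A = 0 := by
    rcases mul_eq_zero.1 e6 with e8 | e8
    · exact e8
    · exfalso
      rcases mul_eq_zero.1 e8 with e9 | e9
      · exact l3_om1 hw j (sub_eq_zero.1 e9)
      · exact hPx e9
  exact (map_eq_zero_iff _ (algebraMap F Ω).injective).1 e7

/-- Chunk L3 (M). T from h.gen 3. x = xc T, y = yc T. act 3 T = T + T + T = 0 and T ≠ 0 (3 does not divide 1), T + T = -T ≠ 0, so y ≠ 0 (if y = 0 then T = -T: pt_ext, yc_neg; T + T = 0) and dbl_coords: x = ((3x^2 + A)/(2y))^2 - 2x with A = 0: 9x^4 = 12 x y^2 = 12 x (x^3 + B) (eqnA): 3 x^4 + 12 B x = 0 up to sign: x = 0 or x^3 = -4B. If x = 0: act w T has the coordinates of T (act_unit: w^2 x' = 0, w^3 y' = y, w^3 = 1), so act w T = T (pt_ext),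
act (w - 1) T = 0, 3 divides w - 1: contradiction (ei_uniq). So x^3 = -4B = -b', and (2y)^2 = 4x^3 + 4B = -3 b'. -/
theorem tor_three (hw : EI w) (h : CMA F A B Om j act) {b' : ℤ} (hB : 4 * B = (b' : F)) :
    ∃ T : Pt (WAB A B) Ω, (∀ a : 𝓞 F, act a T = 0 ↔ (3 : 𝓞 F) ∣ a) ∧ (∀ P : Pt (WAB A B) Ω, act 3 P = 0 → ∃ a : 𝓞 F, P = act a T) ∧
      xc T ^ 3 = -(b' : Ω) ∧ (2 * yc T) ^ 2 = -3 * (b' : Ω) := by
  have h3 : (3 : 𝓞 F) ≠ 0 := by norm_num
  obtain ⟨T, -, hg, hT, -⟩ := h.gen 3 h3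
  have hA0 : algebraMap F Ω A = 0 := by rw [a_zero hw h, map_zero]
  have hBO : 4 * algebraMap F Ω B = (b' : Ω) := by
    have h1 := congrArg (algebraMap F Ω) hB
    rw [map_mul, map_ofNat, map_intCast] at h1
    exact h1
  have hT0 : T ≠ 0 := by
    intro h0
    have h1 : act 1 T = 0 := by rw [h0, map_zero]
    have h2 := (hT 1).1 h1
    have h3 : 3 ^ 2 ∣ 1 ^ 2 := l3_dvd (F := F) (by exact_mod_cast h2)
    norm_num at h3
  have hTT : T + T = -T := by
    have h1 : act 3 T = 0 := (hT 3).2 (dvd_refl _)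
    have h2 : (3 : 𝓞 F) = 1 + 1 + 1 := by norm_num
    rw [h2, l3_add, l3_add, l0_one] at h1
    exact eq_neg_of_add_eq_zero_left h1
  have h20 : (2 : Ω) ≠ 0 := by
    have := l3_nat (Ω := Ω) (n := 2) (by norm_num) j
    exact_mod_cast this
  have hy : 2 * yc T ≠ 0 := by
    intro h0
    have h1 : yc T = 0 := (mul_eq_zero.1 h0).resolve_left h20
    have h2 : -T = T := by
      refine pt_ext (neg_ne hT0) hT0 (xc_neg T) ?_
      rw [yc_neg, h1, neg_zero]
    rw [h2] at hTT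
    exact hT0 (by simpa using hTT)
  obtain ⟨-, e1, -⟩ := dbl_coords hT0 hy
  rw [hTT, xc_neg, base_a4, hA0, add_zero] at e1
  have e2 := eqnA hT0
  rw [hA0, zero_mul, add_zero] at e2
  have e3 : 9 * xc T ^ 4 = 12 * xc T * yc T ^ 2 := by
    have h1 : ((3 * xc T ^ 2) / (2 * yc T)) ^ 2 * (2 * yc T) ^ 2 = (3 * xc T ^ 2) ^ 2 := by
      rw [← mul_pow, div_mul_cancel₀ _ hy]
    have h2 : ((3 * xc T ^ 2) / (2 * yc T)) ^ 2 = 3 * xc T := by linear_combination -e1
    rw [h2] at h1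
    linear_combination -h1
  have h30 : (3 : Ω) ≠ 0 := by
    have := l3_nat (Ω := Ω) (n := 3) (by norm_num) j
    exact_mod_cast this
  have e4 : 3 * (xc T * (xc T ^ 3 + 4 * algebraMap F Ω B)) = 0 := by
    linear_combination (-1 : Ω) * e3 - 12 * xc T * e2
  have e5 : xc T ^ 3 = -(b' : Ω) := by
    rcases mul_eq_zero.1 ((mul_eq_zero.1 e4).resolve_left h30) with e6 | e6
    · exfalso
      obtain ⟨e7, e8⟩ := l3_act hw h T
      have hQ : act w T ≠ 0 := fun h0 => hT0 (l0_inj (l3_unit hw) h0)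
      have e9 : act w T = T := pt_ext hQ hT0 (by rw [e7, e6, mul_zero]) e8
      have e10 : act (w - 1) T = 0 := by rw [l0_sub, l0_one, e9, sub_self]
      have e11 := ei_uniq hw (l3_unit hw) ((hT _).1 e10)
      have e12 := hw.sq
      rw [e11] at e12
      norm_num at e12
    · rw [← hBO]
      linear_combination e6
  refine ⟨T, hT, fun P hP => hg P ?_, e5, ?_⟩
  · exact hP
  · linear_combination 4 * e2 + 4 * e5 + hBO

end H55W
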