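import Mathlib

/-! # H55W, part S: power residue symbols over the integers of a number field (definitions) -/

open NumberField

namespace H55W

variable {F : Type} [Field F] [NumberField F]

open Classical in
/-- The m-th power residue symbol at the prime ideal P (ζ a primitive m-th root of unity): the power of ζ congruent to
x^((N - 1)/m) modulo P, and 0 if there is none. -/
noncomputable def ps (m : ℕ) (ζ : 𝓞 F) (P : Ideal (𝓞 F)) (x : 𝓞 F) : 𝓞 F :=
  if h : ∃ i : ℕ, x ^ ((Ideal.absNorm P - 1) / m) - ζ ^ i ∈ P then ζ ^ h.choose else 0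

/-- The product of the symbols over the prime factors of the ideal J. -/
noncomputable def pj (m : ℕ) (ζ : 𝓞 F) (J : Ideal (𝓞 F)) (x : 𝓞 F) : 𝓞 F :=
  ((UniqueFactorizationMonoid.normalizedFactors J).map fun P => ps m ζ P x).prod

/-- P is a nonzero prime ideal which does not contain m, ζ is a primitive m-th root of unity, 2 ≤ m. -/
structure PP (m : ℕ) (ζ : 𝓞 F) (P : Ideal (𝓞 F)) : Prop where
  pr : P.IsPrime
  ne : P ≠ ⊥
  nm : (m : 𝓞 F) ∉ P
  root : IsPrimitiveRoot ζ m
  two : 2 ≤ m

/-- J is a nonzero ideal prime to m, ζ is a primitive m-th root of unity, 2 ≤ m. -/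
structure PJ (m : ℕ) (ζ : 𝓞 F) (J : Ideal (𝓞 F)) : Prop where
  ne : J ≠ ⊥
  cop : IsCoprime J (Ideal.span {(m : 𝓞 F)})
  root : IsPrimitiveRoot ζ m
  two : 2 ≤ m

end H55W
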