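import Mathlib
import Pool.Agent.Lib.H55W.S0

/-! # H55W, part S: power residue symbols -/

open NumberField

namespace H55W

variable {F : Type} [Field F] [NumberField F] {m : ℕ} {ζ : 𝓞 F} {P : Ideal (𝓞 F)}

/-- Chunk S1 (S). ζ^i is a unit. -/
theorem s1_unit (h : PP m ζ P) (i : ℕ) : ζ ^ i ∉ P := by
  intro hi
  have h1 : (ζ ^ i) ^ m ∈ P := P.pow_mem_of_mem hi m (by have := h.two; omega)
  rw [← pow_mul, mul_comm, pow_mul, h.root.pow_eq_one, one_pow] at h1
  exact h.pr.ne_top ((Ideal.eq_top_iff_one P).2 h1)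

theorem s1_one (h : PP m ζ P) {k : ℕ} (hk : 1 - ζ ^ k ∈ P) : ζ ^ k = 1 := by
  have hm := h.two
  rw [← pow_mod_orderOf, ← h.root.eq_orderOf] at hk ⊢
  set r := k % m with hr
  have hrm : r < m := Nat.mod_lt _ (by omega)
  rcases Nat.eq_zero_or_pos r with h0 | h0
  · rw [h0, pow_zero]
  · exfalso
    obtain ⟨n, rfl⟩ : ∃ n, m = n + 1 := ⟨m - 1, by omega⟩
    have h1 := h.root.prod_one_sub_pow_eq_order
    apply h.nm
    have h2 : ((n + 1 : ℕ) : 𝓞 F) = ∏ k ∈ Finset.range n, (1 - ζ ^ (k + 1)) := by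
      rw [h1]
      push_cast
      rfl
    rw [h2]
    refine Ideal.mem_of_dvd P (Finset.dvd_prod_of_mem (fun k => 1 - ζ ^ (k + 1)) (Finset.mem_range.2 (show r - 1 < n by omega))) ?_
    have h3 : r - 1 + 1 = r := by omega
    simp only [h3]
    exact hk

/-- Chunk S1 (S). Suppose ζ^i ≠ ζ^j. Then ζ^i - ζ^j = ζ^j (ζ^(i-j) - 1) up to sign (take i ≤ j or j ≤ i), with ζ^k ≠ 1, k reduced modulo m, 0 < k < m; the product of 1 - ζ^k over 0 < k < m is m: IsPrimitiveRoot.prod_one_sub_pow_eq_order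
(Mathlib.RingTheory.RootsOfUnity.Lemmas). So m is in P (a factor of the product is in P; ζ^j is a unit: ζ^m = 1): contradiction to h.nm. -/
theorem ps_inj (h : PP m ζ P) {i j : ℕ} (hij : ζ ^ i - ζ ^ j ∈ P) : ζ ^ i = ζ ^ j := by
  have key : ∀ i j : ℕ, i ≤ j → ζ ^ i - ζ ^ j ∈ P → ζ ^ i = ζ ^ j := by
    intro i j hle h1
    obtain ⟨k, rfl⟩ := Nat.exists_eq_add_of_le hle
    have h2 : ζ ^ i - ζ ^ (i + k) = ζ ^ i * (1 - ζ ^ k) := by ring
    rw [h2] at h1
    have h3 := (h.pr.mem_or_mem h1).resolve_left (s1_unit h i)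
    rw [pow_add, s1_one h h3, mul_one]
  rcases le_total i j with h1 | h1
  · exact key i j h1 hij
  · refine (key j i h1 ?_).symm
    have h2 : ζ ^ j - ζ ^ i = -(ζ ^ i - ζ ^ j) := by ring
    rw [h2]
    exact P.neg_mem hij

/-- Chunk S1 (S). ζ^i is a unit. -/
theorem ps_unit (h : PP m ζ P) (i : ℕ) : ζ ^ i ∉ P := s1_unit h i

/-- Fermat in the residue field, and its cardinality. -/
theorem s1_field (h : PP m ζ P) : 1 < Ideal.absNorm P ∧
    ∀ x : 𝓞 F, x ∉ P → (Ideal.Quotient.mk P x) ^ (Ideal.absNorm P - 1) = 1 := by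
  have hmax : P.IsMaximal := h.pr.isMaximal h.ne
  have hfin : Finite (𝓞 F ⧸ P) := Ideal.finiteQuotientOfFreeOfNeBot P h.ne
  let _ : Field (𝓞 F ⧸ P) := Ideal.Quotient.field P
  let _ : Fintype (𝓞 F ⧸ P) := Fintype.ofFinite _
  have hc : Ideal.absNorm P = Fintype.card (𝓞 F ⧸ P) := by
    rw [Ideal.absNorm_apply, Submodule.cardQuot_apply, Nat.card_eq_fintype_card]
  refine ⟨?_, fun x hx => ?_⟩
  · rw [hc]
    exact Fintype.one_lt_card
  · rw [hc]
    apply FiniteField.pow_card_sub_one_eq_one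
    intro h1
    exact hx (Ideal.Quotient.eq_zero_iff_mem.1 h1)

/-- Chunk S1 (S/M). k = 𝓞 F ⧸ P is a finite field (P is maximal: Ideal.IsPrime.isMaximal; Ideal.Quotient.field; finite: Ideal.finiteQuotientOfFreeOfNeBot or Ideal.fintypeQuotientOfFreeOfNeBot), with absNorm P elements (Ideal.absNorm_apply, Submodule.cardQuot_apply); the class of ζ has order exactly m in the unit group (ps_inj), so m divides the order N - 1 of the
unit group (orderOf_dvd_card); N - 1 > 0. -/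
theorem ps_dvd (h : PP m ζ P) : m ∣ Ideal.absNorm P - 1 ∧ 0 < (Ideal.absNorm P - 1) / m ∧ 1 < Ideal.absNorm P := by
  obtain ⟨h1, h2⟩ := s1_field h
  have hz : ζ ∉ P := by
    have h3 := s1_unit h 1
    rwa [pow_one] at h3
  have h3 := h2 ζ hz
  rw [← map_pow, ← map_one (Ideal.Quotient.mk P), Ideal.Quotient.eq] at h3
  have h4 : ζ ^ (Ideal.absNorm P - 1) = ζ ^ 0 := by
    apply ps_inj h
    rw [pow_zero]
    exact h3
  rw [pow_zero] at h4
  have h5 : m ∣ Ideal.absNorm P - 1 := h.root.dvd_of_pow_eq_one _ h4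
  have hm := h.two
  refine ⟨h5, Nat.div_pos (Nat.le_of_dvd (by omega) h5) (by omega), h1⟩

/-- Chunk S1 (S). x^(N-1) is 1 in the field 𝓞 F ⧸ P (FiniteField.pow_card_sub_one_eq_one). -/
theorem ps_fermat (h : PP m ζ P) {x : 𝓞 F} (hx : x ∉ P) : x ^ (Ideal.absNorm P - 1) - 1 ∈ P := by
  have h3 := (s1_field h).2 x hx
  rwa [← map_pow, ← map_one (Ideal.Quotient.mk P), Ideal.Quotient.eq] at h3

/-- Chunk S1 (S/M). w = x^((N-1)/m) satisfies w^m - 1 in P (ps_fermat, ps_dvd). X^m - 1 = product of (X - ζ^i) over i in range m (X_pow_sub_one_eq_prod, IsPrimitiveRoot.card_nthRoots..; or Polynomial.nthRoots; evaluate at w): the product is in P, so one factor is. -/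
theorem ps_ex (h : PP m ζ P) {x : 𝓞 F} (hx : x ∉ P) : ∃ i : ℕ, x ^ ((Ideal.absNorm P - 1) / m) - ζ ^ i ∈ P := by
  have hm := h.two
  set w := x ^ ((Ideal.absNorm P - 1) / m) with hw
  have h1 : w ^ m - 1 ∈ P := by
    have h2 := ps_fermat h hx
    rwa [hw, ← pow_mul, Nat.div_mul_cancel (ps_dvd h).1]
  have h2 := congrArg (Polynomial.eval w) (Polynomial.X_pow_sub_one_eq_prod (show 0 < m by omega) h.root)
  rw [Polynomial.eval_prod] at h2
  simp only [Polynomial.eval_sub, Polynomial.eval_pow, Polynomial.eval_X, Polynomial.eval_one, Polynomial.eval_C] at h2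
  rw [h2] at h1
  obtain ⟨η, hη, h3⟩ := (h.pr.prod_mem_iff).1 h1
  have h4 : η ^ m = 1 := (Polynomial.mem_nthRootsFinset (by omega) 1).1 hη
  have : NeZero m := ⟨by omega⟩
  obtain ⟨i, _, hi⟩ := h.root.eq_pow_of_pow_eq_one h4
  exact ⟨i, by rw [hi]; exact h3⟩

end H55W
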