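import Mathlib
import Pool.Agent.Lib.H55W.L3
import Pool.Agent.Lib.H55W.S1

/-! # H55W, part L: the Frobenius element, discriminant -3 -/

open NumberField IsDedekindDomain WeierstrassCurve

namespace H55W

open H55P (IQ embF eF LF Per IsHecke Pt ac Inert Dec Nm)
open H35P (WAB Ker tt GoodW IntW)
open H55K
open H13D (RM)

variable {F : Type} [Field F] [NumberField F] [IQ F] {w : 𝓞 F} {A B : F} {Om : ℂ} {Ω : Type} [Field Ω] [DecidableEq Ω]
  [Algebra F Ω] {j : Ω →+* ℂ} {act : 𝓞 F →+* AddMonoid.End (Pt (WAB A B) Ω)} {V : ValuationSubring Ω}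
  {Kg : AddSubgroup (Pt (WAB A B) Ω)} {v : HeightOneSpectrum (𝓞 F)} {s : Ω ≃ₐ[F] Ω} {r : Ω}

theorem l3d_ndvd (hw : EI w) {a b : ℤ} (h : (3 : 𝓞 F) ∣ (a : 𝓞 F) + (b : 𝓞 F) * w) : (9 : ℤ) ∣ a ^ 2 - a * b + b ^ 2 := by
  obtain ⟨z, hz⟩ := h
  have h1 := (ei_nm hw a b).2
  have h3 : Nm (3 : 𝓞 F) = 9 := by
    have := Nm_nat (F := F) 3
    rw [Nat.cast_ofNat] at this
    rw [this]
    norm_num
  rw [hz, Nm_mul, h3] at h1
  rw [← h1]
  push_cast
  exact dvd_mul_right _ _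

theorem l3d_not (hw : EI w) {x : 𝓞 F} {a b : ℤ} (hx : x = (a : 𝓞 F) + (b : 𝓞 F) * w) (h : ¬ (9 : ℤ) ∣ a ^ 2 - a * b + b ^ 2) :
    ¬ (3 : 𝓞 F) ∣ x := by
  intro h1
  rw [hx] at h1
  exact h (l3d_ndvd hw h1)

theorem l3d_three (hw : EI w) : (1 - w) * (1 - w ^ 2) = 3 := by
  have h1 := hw.sq
  linear_combination (w - 2) * h1

/-- Chunk L3D (S/M). s permutes the points killed by 3: act 3 (ac s T) = ac s (act 3 T) = 0 (h.gal): ac s T = act c T. 1 - w does not divide c: otherwise act (1 - w^2) kills ac s T: (1 - w)(1 - w^2) = 3, so act (1 - w^2) (act c T) = 0, ac s (act (1 - w^2) T) = 0, act (1 - w^2) T = 0 (ac_ne), 3 divides 1 - w^2 = (1 - w)(1 + w): contradiction. ei_mod3: unit u with 3 | c - u: act c T = act u T. -/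
theorem three_unit (hw : EI w) (h : CMA F A B Om j act) (s : Ω ≃ₐ[F] Ω) {T : Pt (WAB A B) Ω} (hT : ∀ a : 𝓞 F, act a T = 0 ↔ (3 : 𝓞 F) ∣ a)
    (hg : ∀ P : Pt (WAB A B) Ω, act 3 P = 0 → ∃ a : 𝓞 F, P = act a T) : ∃ u : 𝓞 F, IsUnit u ∧ ac (WAB A B) s T = act u T := by
  have h1 : act 3 (ac (WAB A B) s T) = 0 := by
    rw [← h.gal, (hT 3).2 (dvd_refl _), ac_zero]
  obtain ⟨c, hc⟩ := hg _ h1
  have hc1 : ¬ (1 - w) ∣ c := by
    rintro ⟨c', rfl⟩
    have h2 : act (1 - w ^ 2) (ac (WAB A B) s T) = 0 := by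
      rw [hc, ← l0_mul]
      have h3 : (1 - w ^ 2) * ((1 - w) * c') = 3 * c' := by rw [← l3d_three hw]; ring
      rw [h3]
      exact (hT _).2 (dvd_mul_right _ _)
    rw [← h.gal] at h2
    have h3 : act (1 - w ^ 2) T = 0 := by
      by_contra h4
      exact ac_ne _ s h4 h2
    have h4 : (1 : 𝓞 F) - w ^ 2 = ((2 : ℤ) : 𝓞 F) + ((1 : ℤ) : 𝓞 F) * w := by
      push_cast
      linear_combination (-1 : 𝓞 F) * hw.sq
    exact l3d_not hw h4 (by norm_num) ((hT _).1 h3)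
  obtain ⟨u, hu, h3⟩ := ei_mod3 hw hc1
  refine ⟨u, hu, ?_⟩
  have h4 := (hT _).2 h3
  rw [l0_sub, sub_eq_zero] at h4
  rw [hc, h4]

theorem l3d_coords (hw : EI w) (h : CMA F A B Om j act) (s : Ω ≃ₐ[F] Ω) {T : Pt (WAB A B) Ω} {η : 𝓞 F} {i : ℕ}
    (hη : η = 1 ∨ η = -1) (hu : IsUnit (η * w ^ i)) (hc : ac (WAB A B) s T = act (η * w ^ i) T) :
    s (xc T) = ak Ω (w ^ i) * xc T ∧ s (yc T) = ak Ω η * yc T := by
  obtain ⟨h1, h2⟩ := act_unit h hu T
  rw [← hc, xc_ac] at h1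
  rw [← hc, yc_ac] at h2
  have h3 : ak Ω (η * w ^ i) = ak Ω η * ak Ω (w ^ i) := by
    unfold ak
    rw [← map_mul]
    rfl
  have h4 : ak Ω η ^ 2 = 1 := by
    rcases hη with h5 | h5
    · rw [h5]
      unfold ak
      simp
    · rw [h5]
      unfold ak
      simp
  have h5 : ak Ω (w ^ i) ^ 3 = 1 := by
    rw [l3_ak, ← pow_mul, mul_comm, pow_mul, l3_omcube hw, one_pow]
  rw [h3] at h1 h2
  constructor
  · have e1 : ak Ω (w ^ i) ^ 2 * s (xc T) = xc T := by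
      linear_combination h1 - ak Ω (w ^ i) ^ 2 * s (xc T) * h4
    linear_combination ak Ω (w ^ i) * e1 - s (xc T) * h5
  · have e1 : ak Ω η * s (yc T) = yc T := by
      linear_combination h2 - (ak Ω η ^ 3 * s (yc T)) * h5 - (ak Ω η * s (yc T)) * h4
    linear_combination ak Ω η * e1 - s (yc T) * h4

theorem l3d_pp (hw : EI w) (h3 : (3 : 𝓞 F) ∉ v.asIdeal) : PP 3 w v.asIdeal where
  pr := v.isPrime
  ne := v.ne_bot
  nm := by exact_mod_cast h3
  root := ei_root hw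
  two := by norm_num

theorem l3d_pp2 (h2 : (2 : 𝓞 F) ∉ v.asIdeal) : PP 2 (-1 : 𝓞 F) v.asIdeal where
  pr := v.isPrime
  ne := v.ne_bot
  nm := by exact_mod_cast h2
  root := IsPrimitiveRoot.neg_one 0 (by norm_num)
  two := le_rfl

/-- the square root of b' -/
theorem l3d_sqrt (hw : EI w) (j : Ω →+* ℂ) {b' : ℤ} {y : Ω} (hy : (2 * y) ^ 2 = -3 * (b' : Ω)) :
    (2 * y / (ak Ω w - ak Ω w ^ 2)) ^ 2 = (b' : Ω) := by
  have h1 : (ak Ω w - ak Ω w ^ 2) ^ 2 = -3 := by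
    linear_combination (ak Ω w ^ 2 - 3 * ak Ω w + 3) * l3_om (Ω := Ω) hw
  have h30 : (3 : Ω) ≠ 0 := by
    have := l3_nat (Ω := Ω) (n := 3) (by norm_num) j
    exact_mod_cast this
  rw [div_pow, h1, hy, neg_mul, neg_div_neg_eq, mul_div_cancel_left₀ _ h30]

theorem l3d_pow4 {V : ValuationSubring Ω} {z : Ω} (hz : z ∈ V) (h4 : V.valuation (z ^ 4 - z) < 1) (g : ℕ) :
    V.valuation (z ^ 4 ^ g - z) < 1 := by
  induction g with
  | zero =>
    rw [pow_zero, pow_one, sub_self, map_zero]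
    exact zero_lt_one
  | succ g ih =>
    have h1 : z ^ 4 ^ (g + 1) - z = (z ^ 4 ^ g - z) * ((z ^ 4 ^ g) ^ 3 + (z ^ 4 ^ g) ^ 2 * z + z ^ 4 ^ g * z ^ 2 + z ^ 3) +
        (z ^ 4 - z) := by
      rw [pow_succ 4 g, pow_mul]
      ring
    rw [h1]
    have h2 : (z ^ 4 ^ g) ^ 3 + (z ^ 4 ^ g) ^ 2 * z + z ^ 4 ^ g * z ^ 2 + z ^ 3 ∈ V :=
      V.add_mem _ _ (V.add_mem _ _ (V.add_mem _ _ (pow_mem (pow_mem hz _) _) (V.mul_mem _ _ (pow_mem (pow_mem hz _) _) hz))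
        (V.mul_mem _ _ (pow_mem hz _) (pow_mem hz _))) (pow_mem hz _)
    have h3 := (V.valuation_le_one_iff _).2 h2
    refine lt_of_le_of_lt (Valuation.map_add _ _ _) (max_lt ?_ h4)
    rw [map_mul]
    exact mul_lt_one_of_lt_of_le ih h3

/-- at 2 -/
theorem l3d_two (hL : LD v V s Kg r) (h2 : (2 : 𝓞 F) ∈ v.asIdeal) (h20 : (2 : Ω) ≠ 0)
    (h3 : 3 ∣ Ideal.absNorm v.asIdeal - 1) {b' : ℤ} (hb : (b' : 𝓞 F) ∉ v.asIdeal) (hb4 : b' % 4 = 1) {X : Ω}
    (hX : X ^ 2 = (b' : Ω)) (hs : s X = -X) : False := by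
  have hV2 : V.valuation (2 : Ω) < 1 := by
    have h4 := hL.lt _ h2
    have e1 : ak Ω (2 : 𝓞 F) = 2 := by
      unfold ak
      rw [show ((2 : 𝓞 F) : F) = 2 from map_ofNat (algebraMap (𝓞 F) F) 2, map_ofNat]
    rwa [e1] at h4
  have hXV : V.valuation X = 1 := by
    refine l0_pow (m := 2) (by norm_num) ?_
    rw [← map_pow, hX]
    have h4 := hL.eq _ hb
    unfold ak at h4
    simpa using h4
  obtain ⟨k, hk⟩ : ∃ k : ℤ, b' = 1 - 4 * k := ⟨(1 - b') / 4, by omega⟩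
  have hint : ∀ n : ℤ, (n : Ω) ∈ V := fun n => intCast_mem V n
  obtain ⟨z, hz⟩ : ∃ z : Ω, 2 * z = 1 + X := ⟨(1 + X) / 2, by rw [mul_div_cancel₀ _ h20]⟩
  have hz2 : z ^ 2 = z - (k : Ω) := by
    have h4 : (4 : Ω) ≠ 0 := by
      have : (4 : Ω) = 2 * 2 := by norm_num
      rw [this]
      exact mul_ne_zero h20 h20
    have h5 : (b' : Ω) = 1 - 4 * (k : Ω) := by rw [hk]; push_cast; ring
    have h6 : 4 * (z ^ 2 - (z - (k : Ω))) = 0 := by
      have h7 : X = 2 * z - 1 := by linear_combination -hz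
      rw [h7, h5] at hX
      linear_combination hX
    exact sub_eq_zero.1 ((mul_eq_zero.1 h6).resolve_left h4)
  have hzV : z ∈ V := by
    rcases V.mem_or_inv_mem z with h4 | h4
    · exact h4
    · by_cases hz0 : z = 0
      · rw [hz0]
        exact V.zero_mem
      · have h5 : z = 1 - (k : Ω) * z⁻¹ := by
          have h6 : z * z⁻¹ = 1 := mul_inv_cancel₀ hz0
          linear_combination z⁻¹ * hz2 - (z - 1) * h6
        rw [h5]
        exact sub_mem (one_mem _) (mul_mem (hint k) h4)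
  obtain ⟨k', hk'⟩ : ∃ k' : ℤ, k ^ 2 - k = 2 * k' := by
    obtain ⟨m, hm⟩ := Int.even_mul_succ_self (k - 1)
    exact ⟨m, by linear_combination hm⟩
  have h4 : V.valuation (z ^ 4 - z) < 1 := by
    have h5 : z ^ 4 - z = 2 * ((k' : Ω) - (k : Ω) * z) := by
      have h6 : (k : Ω) ^ 2 - (k : Ω) = 2 * (k' : Ω) := by exact_mod_cast congrArg (Int.cast (R := Ω)) hk'
      linear_combination (z ^ 2 + z - (k : Ω) + 1) * hz2 + h6
    rw [h5, map_mul]
    exact mul_lt_one_of_lt_of_le hV2 ((V.valuation_le_one_iff _).2 (sub_mem (hint _) (mul_mem (hint _) hzV)))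
  obtain ⟨p, f, hp, hpv, hf0, hN⟩ := H13D.below_v v
  have hp2 : p = 2 := by
    by_contra hne
    have h5 : Nat.Coprime p 2 := (Nat.coprime_primes hp Nat.prime_two).2 hne
    have h6 := Nat.isCoprime_iff_coprime.2 h5
    obtain ⟨a, b, hab⟩ := h6
    apply v.isPrime.ne_top
    rw [Ideal.eq_top_iff_one]
    have h7 : (1 : 𝓞 F) = (a : 𝓞 F) * (p : 𝓞 F) + (b : 𝓞 F) * 2 := by
      have := congrArg (Int.cast (R := 𝓞 F)) hab
      push_cast at this
      exact this.symm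
    rw [h7]
    exact v.asIdeal.add_mem (v.asIdeal.mul_mem_left _ hpv) (v.asIdeal.mul_mem_left _ h2)
  obtain ⟨g, hg⟩ : ∃ g, f = 2 * g := by
    rcases Nat.even_or_odd f with h5 | h5
    · obtain ⟨g, hg⟩ := h5
      exact ⟨g, by omega⟩
    · exfalso
      obtain ⟨g, hg⟩ := h5
      rw [hN, hp2, hg, pow_succ, pow_mul] at h3
      have h6 : (2 ^ 2) ^ g % 3 = 1 := by
        rw [Nat.pow_mod]
        norm_num
      have h7 : 1 ≤ (2 ^ 2) ^ g := Nat.one_le_pow _ _ (by norm_num)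
      omega
  have hN4 : Ideal.absNorm v.asIdeal = 4 ^ g := by
    rw [hN, hp2, hg, pow_mul]
    norm_num
  have h5 := hL.frob z hzV
  rw [hN4] at h5
  have h6 := l3d_pow4 hzV h4 g
  have h7 : s z = z - X := by
    have h8 : 2 * s z = 1 + s X := by
      have h9 := congrArg s hz
      rw [map_mul, map_add, map_one, map_ofNat] at h9
      exact h9
    rw [hs] at h8
    have h9 : 2 * (s z - (z - X)) = 0 := by linear_combination h8 - hz
    exact sub_eq_zero.1 ((mul_eq_zero.1 h9).resolve_left h20)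
  have h8 : -X = (s z - z ^ 4 ^ g) + (z ^ 4 ^ g - z) := by
    rw [h7]
    ring
  have h9 : V.valuation (-X) < 1 := by
    rw [h8]
    exact lt_of_le_of_lt (Valuation.map_add _ _ _) (max_lt h5 h6)
  rw [Valuation.map_neg, hXV] at h9
  exact lt_irrefl _ h9

theorem l3d_gen (hw : EI w) (h3 : (3 : 𝓞 F) ∉ v.asIdeal) {u : 𝓞 F} (hu : IsUnit u) :
    ∃ β : 𝓞 F, Ideal.span {β} = v.asIdeal ∧ (3 : 𝓞 F) ∣ u - β := by
  obtain ⟨β₀, hβ₀⟩ : ∃ β₀ : 𝓞 F, Ideal.span {β₀} = v.asIdeal :=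
    ⟨Submodule.IsPrincipal.generator v.asIdeal, Ideal.span_singleton_generator v.asIdeal⟩
  have hβv : β₀ ∈ v.asIdeal := by
    rw [← hβ₀]
    exact Ideal.mem_span_singleton_self β₀
  have hβne : β₀ ≠ 0 := by
    rintro rfl
    rw [Ideal.span_singleton_eq_bot.2 rfl] at hβ₀
    exact v.ne_bot hβ₀.symm
  have hnd : ¬ (1 - w) ∣ β₀ := by
    rintro ⟨z, hz⟩
    rw [hz] at hβv
    rcases v.isPrime.mem_or_mem hβv with h4 | h4
    · apply h3
      rw [← l3d_three hw]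
      exact v.asIdeal.mul_mem_right _ h4
    · rw [← hβ₀, Ideal.mem_span_singleton] at h4
      obtain ⟨y, hy⟩ := h4
      have h5 : (1 - w) * y = 1 := by
        have h6 : β₀ * ((1 - w) * y - 1) = 0 := by linear_combination -(1 - w) * hy - hz
        exact sub_eq_zero.1 ((mul_eq_zero.1 h6).resolve_left hβne)
      have h6 := congrArg Nm h5
      rw [Nm_mul] at h6
      have h7 := (ei_nm hw 1 (-1)).2
      have h8 : ((1 : ℤ) : 𝓞 F) + ((-1 : ℤ) : 𝓞 F) * w = 1 - w := by push_cast; ring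
      rw [h8] at h7
      have h9 : Nm (1 - w) = 3 := by
        have : ((Nm (1 - w) : ℕ) : ℤ) = 3 := by rw [h7]; norm_num
        exact_mod_cast this
      have h10 : Nm (1 : 𝓞 F) = 1 := by
        have := Nm_nat (F := F) 1
        rw [Nat.cast_one] at this
        rw [this]
        norm_num
      rw [h9, h10] at h6
      omega
  obtain ⟨u₀, hu₀, h4⟩ := ei_mod3 hw hnd
  obtain ⟨y, hy⟩ := hu₀.exists_left_inv
  have hyu : IsUnit y := IsUnit.of_mul_eq_one _ hy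
  refine ⟨u * y * β₀, ?_, ?_⟩
  · rw [← hβ₀, Ideal.span_singleton_eq_span_singleton]
    exact (associated_unit_mul_left β₀ _ (hu.mul hyu))
  · have h5 : u - u * y * β₀ = -(u * y) * (β₀ - u₀) := by linear_combination (-u) * hy
    rw [h5]
    exact Dvd.dvd.mul_left h4 _

/-- Chunk L3D (M). T from tor_three, u from three_unit, u = η w^i (ei_unit). (xc_ac, yc_ac, act_unit): s (xc T) = u^(-2) xc T, s (yc T) = u^(-3) yc T; u^(-2) = w^i =: ζ up to w^3 = 1 (w^(-2i) = w^i), u^(-3) = η. So u = η ζ. ζ: frob_root with m = 3, X = -xc T, X^3 = b' (3 divides N - 1: ps_dvd for P = v.asIdeal, m = 3, ζ = w: 3 is not in v).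
η: X = 2 yc T / (w - w^2) (w - w^2 is a square root of -3, in F): X^2 = b', s X = η X, frob_root with m = 2 if 2 is not in v (2 | N - 1: ps_dvd with ζ = -1, or N odd). If 2 is in v and b' % 4 = 1: z = (1 + X)/2, z^2 = z - k, k = (1 - b')/4 an integer, z in V (integral: V(z)^2 ≤ max ..), N = |O/v| = 4 because 2 is inert (2 is a prime element: Nm (a + b w) = a^2 - ab + b^2 is never 2):
z^4 - z = -2kz + k^2 - k has value < 1 (k^2 - k even), so V(s z - z) < 1, s z - z = (η - 1) X / 2, V(X) = 1: if η = -1 this is -X of value 1: contradiction.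
γ: a generator β₀ of v is prime to 1 - w (3 not in v), so by ei_mod3 3 | β₀ - u₀, β = u u₀⁻¹ β₀, 3 | u - β; loc_gen with n0 = 3, c = u, t = 1 - w (3 does not divide 1 - w, w, 2 - w: norms 3, 1, 7 are not divisible by 9). -/
theorem loc_three (hw : EI w) (h : CMA F A B Om j act) {b' : ℤ} (hB : 4 * B = (b' : F)) (hL : LD v V s Kg r)
    (h3 : (3 : 𝓞 F) ∉ v.asIdeal) (hb : (b' : 𝓞 F) ∉ v.asIdeal) :
    ∃ γ η ζ : 𝓞 F, Ideal.span {γ} = v.asIdeal ∧ (∀ X : Pt (WAB A B) Ω, act γ X - ac (WAB A B) s X ∈ Kg) ∧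
      (3 : 𝓞 F) ∣ γ - η * ζ ∧ (η = 1 ∨ η = -1) ∧ (∃ i : ℕ, ζ = w ^ i) ∧
      (b' : 𝓞 F) ^ ((Ideal.absNorm v.asIdeal - 1) / 3) - ζ ∈ v.asIdeal ∧
      ((2 : 𝓞 F) ∉ v.asIdeal → (b' : 𝓞 F) ^ ((Ideal.absNorm v.asIdeal - 1) / 2) - η ∈ v.asIdeal) ∧
      ((2 : 𝓞 F) ∈ v.asIdeal → b' % 4 = 1 → η = 1) := by
  obtain ⟨T, hT, hg, hx3, hy2⟩ := tor_three hw h hB
  obtain ⟨u, hu, hc⟩ := three_unit hw h s hT hg
  obtain ⟨η, i, hη, rfl⟩ := ei_unit hw hu
  obtain ⟨hsx, hsy⟩ := l3d_coords hw h s hη hu hc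
  obtain ⟨β, hβ, h3β⟩ := l3d_gen (v := v) hw h3 hu
  have n1 : ¬ (3 : 𝓞 F) ∣ 1 - w := l3d_not hw (a := 1) (b := -1) (by push_cast; ring) (by norm_num)
  have n2 : ¬ (3 : 𝓞 F) ∣ 1 - (1 - w) := l3d_not hw (a := 0) (b := 1) (by push_cast; ring) (by norm_num)
  have n3 : ¬ (3 : 𝓞 F) ∣ 1 + (1 - w) := l3d_not hw (a := 2) (b := -1) (by push_cast; ring) (by norm_num)
  obtain ⟨γ, hγ, hγu, hγK⟩ := loc_gen h hL h3 hT hβ hc (Or.inl h3β) n1 n2 n3
  have hd3 := (ps_dvd (l3d_pp hw h3)).1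
  have hakb : ak Ω (b' : 𝓞 F) = (b' : Ω) := by
    unfold ak
    simp
  have h20 : (2 : Ω) ≠ 0 := by
    have := l3_nat (Ω := Ω) (n := 2) (by norm_num) j
    exact_mod_cast this
  have hXs : s (2 * yc T / (ak Ω w - ak Ω w ^ 2)) = ak Ω η * (2 * yc T / (ak Ω w - ak Ω w ^ 2)) := by
    have e1 : s (ak Ω w) = ak Ω w := s.commutes _
    rw [map_div₀, map_mul, map_sub, map_pow, e1, hsy, map_ofNat]
    ring
  refine ⟨γ, η, w ^ i, hγ, hγK, hγu, hη, ⟨i, rfl⟩, ?_, ?_, ?_⟩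
  · refine frob_root hL (m := 3) (by norm_num) hd3 hb (X := -xc T) ?_ ?_
    · rw [hakb]
      linear_combination (-1 : Ω) * hx3
    · rw [map_neg, hsx]
      ring
  · intro h2
    refine frob_root hL (m := 2) (by norm_num) (ps_dvd (l3d_pp2 h2)).1 hb
      (X := 2 * yc T / (ak Ω w - ak Ω w ^ 2)) ?_ hXs
    rw [hakb]
    exact l3d_sqrt hw j hy2
  · intro h2 hb4
    rcases hη with h5 | h5
    · exact h5
    · exfalso
      refine l3d_two hL h2 h20 hd3 hb hb4 (l3d_sqrt hw j hy2) ?_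
      rw [hXs, h5]
      unfold ak
      simp

end H55W
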