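import Mathlib
import Pool.Agent.Lib.H13D.C4
import Pool.Agent.Lib.H13S.FR
import Pool.Agent.Lib.H55K.RF
import Pool.Agent.Lib.H55W.FD
import Pool.Agent.Lib.H55W.HB
import Pool.Agent.Lib.H55W.L0

/-! # H55W, part Z: Deuring's theorem from the local and the arithmetic parts -/

open NumberField IsDedekindDomain WeierstrassCurve

namespace H55W

open H55P (IQ embF eF LF Per IsHecke Pt ac Inert Dec Nm)
open H35P (WAB Ker tt GoodW IntW)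
open H55K H55K.TQ
open H55K.TQ (BaseH)
open H13D (RM exists_rm card_gamma)

theorem z0_disc {F : Type} [Field F] [NumberField F] (W : WeierstrassCurve ℤ) : (W⁄(𝓞 F)).Δ = ((W.Δ : ℤ) : 𝓞 F) := by
  have := W.map_Δ (algebraMap ℤ (𝓞 F))
  exact this.trans (by simp)

theorem z0_span {F : Type} [Field F] [NumberField F] (D : ℤ) :
    Ideal.span {((D.natAbs : ℕ) : 𝓞 F) ^ 3} = Ideal.span {((D : ℤ) : 𝓞 F) ^ 3} := by
  rcases Int.natAbs_eq D with h1 | h1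
  · conv_rhs => rw [h1, Int.cast_natCast]
  · conv_rhs => rw [h1, Int.cast_neg, Int.cast_natCast, Odd.neg_pow (by decide)]
    rw [Ideal.span_singleton_neg]

theorem base_gen {F : Type} [Field F] [NumberField F] [IQ F] (W : WeierstrassCurve ℤ) (Om : ℂ)
    (hΔ : W.Δ ≠ 0) (hper : Per F (-(eF F (W⁄(𝓞 F)).c₄) / 48) (-(eF F (W⁄(𝓞 F)).c₆) / 864) Om)
    (hbad : ∀ v : HeightOneSpectrum (𝓞 F), (W⁄(𝓞 F)).Δ ∈ v.asIdeal → ¬ GoodAt ((W⁄(𝓞 F))⁄F) v)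
    {f : 𝓞 F → 𝓞 F} (hf : HF (Ideal.span {((W.Δ : ℤ) : 𝓞 F) ^ 3}) f) (hnu : ¬ IsUnit ((W.Δ : ℤ) : 𝓞 F))
    (hloc : ∀ (Ω : Type) [Field Ω] [DecidableEq Ω] [Algebra F Ω] [IsAlgClosed Ω] (A B : F) (j : Ω →+* ℂ)
      (act : 𝓞 F →+* AddMonoid.End (Pt (WAB A B) Ω)), A = -(algebraMap (𝓞 F) F (W⁄(𝓞 F)).c₄) / 48 →
      B = -(algebraMap (𝓞 F) F (W⁄(𝓞 F)).c₆) / 864 → CMA F A B Om j act →
      ∀ (v : HeightOneSpectrum (𝓞 F)) (V : ValuationSubring Ω) (s : Ω ≃ₐ[F] Ω) (Kg : AddSubgroup (Pt (WAB A B) Ω)) (r : Ω),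
        (W⁄(𝓞 F)).Δ ∉ v.asIdeal → LD v V s Kg r →
        ∃ γ : 𝓞 F, Ideal.span {γ} = v.asIdeal ∧ f γ = 1 ∧ ∀ X : Pt (WAB A B) Ω, act γ X - ac (WAB A B) s X ∈ Kg) :
    ∃ ψ : Ideal (𝓞 F) →*₀ 𝓞 F, BaseH F (W⁄(𝓞 F)) Om (Ideal.span {((W.Δ.natAbs : ℕ) : 𝓞 F) ^ 3}) ψ := by
  classical
  have hΔF := z0_disc (F := F) W
  have hD0 : ((W.Δ : ℤ) : 𝓞 F) ≠ 0 := by exact_mod_cast hΔ
  have hΔ0 : (W⁄(𝓞 F)).Δ ≠ 0 := by rw [hΔF]; exact hD0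
  rw [z0_span]
  set M := Ideal.span {((W.Δ : ℤ) : 𝓞 F) ^ 3} with hM
  have hM0 : M ≠ ⊥ := by
    rw [hM, Ne, Ideal.span_singleton_eq_bot]
    exact pow_ne_zero 3 hD0
  have hM1 : M ≠ ⊤ := by
    rw [hM, Ne, Ideal.span_singleton_eq_top]
    exact fun h => hnu (isUnit_of_dvd_unit (dvd_pow_self _ three_ne_zero) h)
  obtain ⟨ψ, hψ, hval⟩ := exists_hecke M hM0 hM1 f hf.un hf.mul hf.inv hf.per
  have hsupp : ∀ v : HeightOneSpectrum (𝓞 F), (W⁄(𝓞 F)).Δ ∈ v.asIdeal ↔ M ≤ v.asIdeal := by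
    intro v
    rw [hΔF, hM, Ideal.span_singleton_le_iff_mem]
    exact ⟨fun h1 => Ideal.pow_mem_of_mem _ h1 3 (by norm_num), fun h1 => v.isPrime.mem_of_pow_mem 3 h1⟩
  -- the analytic data
  obtain ⟨A, hA⟩ : ∃ A : F, A = -(algebraMap (𝓞 F) F (W⁄(𝓞 F)).c₄) / 48 := ⟨_, rfl⟩
  obtain ⟨B, hB⟩ : ∃ B : F, B = -(algebraMap (𝓞 F) F (W⁄(𝓞 F)).c₆) / 864 := ⟨_, rfl⟩
  have hdisc := y3_ne (W⁄(𝓞 F)) hA hB hΔ0
  have hper' : Per F (embF F A) (embF F B) Om := by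
    have e1 : embF F A = -(eF F (W⁄(𝓞 F)).c₄) / 48 := by
      rw [hA, map_div₀, map_neg, map_ofNat]
      rfl
    have e2 : embF F B = -(eF F (W⁄(𝓞 F)).c₆) / 864 := by
      rw [hB, map_div₀, map_neg, map_ofNat]
      rfl
    rw [e1, e2]
    exact hper
  set Ω := AlgebraicClosure F with hΩ
  obtain ⟨j, hj⟩ := exists_j F Ω
  obtain ⟨act, h⟩ := exists_CMA F A B Om j hdisc hper' hj
  refine ⟨ψ, ⟨⟨hΔ0, hper, hψ⟩, ?_, hsupp, hbad⟩⟩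
  intro v hv
  obtain ⟨V, hV⟩ := exists_abw Ω v
  have hVv : ∀ a : 𝓞 F, a ∈ v.asIdeal → V.valuation (ak Ω a) < 1 := by
    intro a ha
    rw [hV.lt]
    exact (v.valuation_lt_one_iff_mem _).2 ha
  obtain ⟨s, hDec, hs⟩ := H13S.exists_frob v V hVv
  obtain ⟨Kg, Θ, -, -, -, hRM, hcard⟩ := exists_rm (W⁄(𝓞 F)) hA hB v hv hVv
  have hL : LD v V s Kg (algebraMap F Ω (algebraMap (𝓞 F) F (W⁄(𝓞 F)).b₂ / 12)) :=
    ⟨hRM, s.commutes _, hVv, fun a ha => rf_one hV ha, hDec, hs⟩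
  obtain ⟨γ, hγ, hfγ, hX⟩ := hloc Ω A B j act hA hB h v V s Kg _ hv hL
  have hcop : IsCoprime (Ideal.span {γ}) M := by
    rw [hγ, Ideal.isCoprime_iff_sup_eq]
    by_contra hne
    have h1 := v.isMaximal.eq_of_le hne le_sup_left
    exact hv ((hsupp v).2 (by rw [h1]; exact le_sup_right))
  have e4 : ψ v.asIdeal = γ := by
    rw [← hγ, hval γ hcop, hfγ, one_mul]
  have hγv : γ ∈ v.asIdeal := by
    rw [← hγ]
    exact Ideal.mem_span_singleton_self γ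
  rw [e4, hcard s hDec hs]
  exact card_gamma h hRM s (hVv γ hγv) hX

end H55W
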