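import Mathlib
import Pool.Agent.Lib.H55W.Z0

/-! # H55W, part Z: preparations for the assembly -/

open NumberField IsDedekindDomain WeierstrassCurve

namespace H55W

open H55P (IQ embF eF LF Per IsHecke Pt ac Inert Dec Nm)
open H35P (WAB Ker tt GoodW IntW)
open H55K H55K.TQ
open H55K.TQ (BaseH)

theorem z1_c4 {F : Type} [Field F] [NumberField F] (W : WeierstrassCurve ℤ) :
    algebraMap (𝓞 F) F (W⁄(𝓞 F)).c₄ = ((W.c₄ : ℤ) : F) := by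
  have := W.map_c₄ (algebraMap ℤ (𝓞 F))
  have e : (W⁄(𝓞 F)).c₄ = ((W.c₄ : ℤ) : 𝓞 F) := this.trans (by simp)
  rw [e, map_intCast]

theorem z1_c6 {F : Type} [Field F] [NumberField F] (W : WeierstrassCurve ℤ) :
    algebraMap (𝓞 F) F (W⁄(𝓞 F)).c₆ = ((W.c₆ : ℤ) : F) := by
  have := W.map_c₆ (algebraMap ℤ (𝓞 F))
  have e : (W⁄(𝓞 F)).c₆ = ((W.c₆ : ℤ) : 𝓞 F) := this.trans (by simp)
  rw [e, map_intCast]

theorem z1_cma {F : Type} [Field F] [NumberField F] [IQ F] (W : WeierstrassCurve ℤ) (Om : ℂ)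
    (hΔ : W.Δ ≠ 0) (hper : Per F (-(eF F (W⁄(𝓞 F)).c₄) / 48) (-(eF F (W⁄(𝓞 F)).c₆) / 864) Om) {A B : F}
    (hA : A = -(algebraMap (𝓞 F) F (W⁄(𝓞 F)).c₄) / 48) (hB : B = -(algebraMap (𝓞 F) F (W⁄(𝓞 F)).c₆) / 864)
    [DecidableEq (AlgebraicClosure F)] : ∃ (j : AlgebraicClosure F →+* ℂ)
      (act : 𝓞 F →+* AddMonoid.End (Pt (WAB A B) (AlgebraicClosure F))), CMA F A B Om j act := by
  have hΔF := z0_disc (F := F) W
  have hD0 : ((W.Δ : ℤ) : 𝓞 F) ≠ 0 := by exact_mod_cast hΔ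
  have hΔ0 : (W⁄(𝓞 F)).Δ ≠ 0 := by rw [hΔF]; exact hD0
  have hdisc := y3_ne (W⁄(𝓞 F)) hA hB hΔ0
  have hper' : Per F (embF F A) (embF F B) Om := by
    have e1 : embF F A = -(eF F (W⁄(𝓞 F)).c₄) / 48 := by
      rw [hA, map_div₀, map_neg, map_ofNat]
      rfl
    have e2 : embF F B = -(eF F (W⁄(𝓞 F)).c₆) / 864 := by
      rw [hB, map_div₀, map_neg, map_ofNat]
      rfl
    rw [e1, e2]
    exact hper
  obtain ⟨j, hj⟩ := exists_j F (AlgebraicClosure F)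
  obtain ⟨act, h⟩ := exists_CMA F A B Om j hdisc hper' hj
  exact ⟨j, act, h⟩

/-- a prime generator -/
theorem z1_prime {F : Type} [Field F] [NumberField F] {v : HeightOneSpectrum (𝓞 F)} {γ : 𝓞 F} (h : Ideal.span {γ} = v.asIdeal) :
    Prime γ ∧ (∀ a : 𝓞 F, γ ∣ a ↔ a ∈ v.asIdeal) ∧ Nm γ = Ideal.absNorm v.asIdeal := by
  have h0 : γ ≠ 0 := by
    rintro rfl
    apply v.ne_bot
    rw [← h]
    exact Ideal.span_singleton_eq_bot.2 rfl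
  refine ⟨(Ideal.span_singleton_prime h0).1 (h ▸ v.isPrime), fun a => ?_, ?_⟩
  · rw [← h, Ideal.mem_span_singleton]
  · unfold Nm
    rw [h]

end H55W
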