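import Mathlib

/-! # H55W, part Z: Weierstrass equations over ℤ with complex multiplication by the fields of discriminant -3, -4, -8 (pure arithmetic) -/

open WeierstrassCurve

namespace H55W

theorem za_twelve {x y : ℤ} (h : x ^ 2 = 24 * y) : ∃ β : ℤ, x = 12 * β := by
  obtain ⟨q, r, hx, hr0, hr1⟩ : ∃ q r : ℤ, x = 12 * q + r ∧ 0 ≤ r ∧ r < 12 :=
    ⟨x / 12, x % 12, by omega, by omega, by omega⟩
  obtain ⟨Q, hQ⟩ : ∃ Q, Q = q ^ 2 := ⟨_, rfl⟩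
  have h1 : 144 * Q + 24 * (q * r) + r ^ 2 = 24 * y := by
    rw [← h, hx, hQ]
    ring
  refine ⟨q, ?_⟩
  interval_cases r <;> omega

/-- Chunk ZA (S/M). c₄ = b₂^2 - 24 b₄ = 0: 12 divides b₂ (24 | b₂^2), b₂ = 12 β, b₄ = 6 β^2, c₆ = -b₂^3 + 36 b₂ b₄ - 216 b₆ = -216 (b₆ - 4β^3), b' = b₆ - 4β^3; 1728 Δ = c₄^3 - c₆^2 (WeierstrassCurve.c_relation): Δ = -27 b'^2. b' odd: b₆ = a₃^2 + 4 a₆ is odd, so 1 mod 4 (b₂, b₆: unfold), b' = 1 mod 4. -/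
theorem arith_three (W : WeierstrassCurve ℤ) (h : W.c₄ = 0) : ∃ b' : ℤ, W.c₆ = -216 * b' ∧ W.Δ = -27 * b' ^ 2 ∧ (b' % 2 = 1 → b' % 4 = 1) := by
  have h4 : W.b₂ ^ 2 - 24 * W.b₄ = 0 := h
  obtain ⟨β, hβ⟩ := za_twelve (x := W.b₂) (y := W.b₄) (by linarith)
  have hb4 : W.b₄ = 6 * β ^ 2 := by
    rw [hβ] at h4
    nlinarith
  have hc6 : W.c₆ = -216 * (W.b₆ - 4 * β ^ 3) := by
    have e : W.c₆ = -W.b₂ ^ 3 + 36 * W.b₂ * W.b₄ - 216 * W.b₆ := rfl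
    rw [e, hβ, hb4]
    ring
  refine ⟨W.b₆ - 4 * β ^ 3, hc6, ?_, ?_⟩
  · have h1 := W.c_relation
    rw [h, hc6] at h1
    have h2 : (0 : ℤ) ^ 3 - (-216 * (W.b₆ - 4 * β ^ 3)) ^ 2 =
        1728 * (-27 * (W.b₆ - 4 * β ^ 3) ^ 2) := by ring
    rw [h2] at h1
    exact mul_left_cancel₀ (by norm_num : (1728 : ℤ) ≠ 0) h1
  · intro hodd
    have e : W.b₆ = W.a₃ ^ 2 + 4 * W.a₆ := rfl
    obtain ⟨q, r, hx, hr0, hr1⟩ : ∃ q r : ℤ, W.a₃ = 2 * q + r ∧ 0 ≤ r ∧ r < 2 :=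
      ⟨W.a₃ / 2, W.a₃ % 2, by omega, by omega, by omega⟩
    have e2 : W.a₃ ^ 2 = 4 * (q ^ 2 + q * r) + r ^ 2 := by
      rw [hx]
      ring
    rw [e, e2] at hodd ⊢
    interval_cases r
    · exfalso
      omega
    · omega

/-- Chunk ZA (S/M). c₄^3 = 1728 Δ = 12^3 Δ (c_relation): 12 divides c₄ (12^3 | c₄^3: 2^6 3^3 | c₄^3 gives 4 | c₄ and 3 | c₄; or Int.pow_dvd_pow_iff), c₄ = 12 δ, δ^3 = Δ. -/
theorem arith_four (W : WeierstrassCurve ℤ) (h : W.c₆ = 0) : ∃ δ : ℤ, W.c₄ = 12 * δ ∧ W.Δ = δ ^ 3 := by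
  have h1 := W.c_relation
  rw [h] at h1
  have h2 : (12 : ℤ) ^ 3 ∣ W.c₄ ^ 3 := ⟨W.Δ, by linarith⟩
  rw [Int.pow_dvd_pow_iff (by norm_num)] at h2
  obtain ⟨δ, hδ⟩ := h2
  refine ⟨δ, hδ, ?_⟩
  rw [hδ] at h1
  have h3 : (12 * δ) ^ 3 - (0 : ℤ) ^ 2 = 1728 * δ ^ 3 := by ring
  rw [h3] at h1
  exact mul_left_cancel₀ (by norm_num : (1728 : ℤ) ≠ 0) h1

/-- Chunk ZA (M). n = -5 c₆/(14 c₄), a rational number (c₄ ≠ 0: otherwise c₆ = 0 and Δ = 0): n^2 = 25 c₆^2/(196 c₄^2) = c₄/10 (h), -28 n^3 = c₆; 1728 Δ = c₄^3 - c₆^2 = 1000 n^6 - 784 n^6 = 216 n^6: n^6 = 8 Δ, an integer, so n is an integer (a rational number with an integral power is an integer: Rat.isInt.. / IsIntegrallyClosed ℤ / num_dvd_of_is_root, Rat.den: n^6 integer implies den = 1). -/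
theorem arith_eight (W : WeierstrassCurve ℤ) (hΔ : W.Δ ≠ 0) (h : 125 * W.c₆ ^ 2 = 98 * W.c₄ ^ 3) :
    ∃ n : ℤ, W.c₄ = 10 * n ^ 2 ∧ W.c₆ = -28 * n ^ 3 ∧ 8 * W.Δ = n ^ 6 := by
  have hrel := W.c_relation
  have h4 : W.c₄ ≠ 0 := by
    intro h0
    rw [h0] at h
    have h6 : W.c₆ ^ 2 = 0 := by linarith
    rw [h0, h6] at hrel
    apply hΔ
    linarith
  have h4' : (W.c₄ : ℚ) ≠ 0 := by exact_mod_cast h4
  have hq : (125 : ℚ) * (W.c₆ : ℚ) ^ 2 = 98 * (W.c₄ : ℚ) ^ 3 := by exact_mod_cast h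
  have hrelq : (1728 : ℚ) * (W.Δ : ℚ) = (W.c₄ : ℚ) ^ 3 - (W.c₆ : ℚ) ^ 2 := by exact_mod_cast hrel
  obtain ⟨q, hqd⟩ : ∃ q : ℚ, q = -5 * (W.c₆ : ℚ) / (14 * (W.c₄ : ℚ)) := ⟨_, rfl⟩
  have hq2 : (W.c₄ : ℚ) = 10 * q ^ 2 := by
    rw [hqd]
    field_simp
    linarith
  have hq3 : (W.c₆ : ℚ) = -28 * q ^ 3 := by
    have e : q * (14 * (W.c₄ : ℚ)) = -5 * (W.c₆ : ℚ) := by
      rw [hqd]
      field_simp
    rw [hq2] at e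
    linarith
  have hq6 : (8 : ℚ) * (W.Δ : ℚ) = q ^ 6 := by
    rw [hq2, hq3] at hrelq
    linarith
  have hint : _root_.IsIntegral ℤ (q ^ 6) := by
    rw [← hq6]
    have e : (8 : ℚ) * (W.Δ : ℚ) = algebraMap ℤ ℚ (8 * W.Δ) := by
      simp
    rw [e]
    exact isIntegral_algebraMap
  obtain ⟨n, hn⟩ := IsIntegrallyClosed.exists_algebraMap_eq_of_isIntegral_pow
    (R := ℤ) (K := ℚ) (n := 6) (by norm_num) hint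
  have hn' : (n : ℚ) = q := hn
  rw [← hn'] at hq2 hq3 hq6
  exact ⟨n, by exact_mod_cast hq2, by exact_mod_cast hq3, by exact_mod_cast hq6⟩

end H55W
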