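import Mathlib
import Pool.Agent.Lib.H55W.F3
import Pool.Agent.Lib.H55W.L3D
import Pool.Agent.Lib.H55W.Z1
import Pool.Agent.Lib.H55W.ZA

/-! # H55W, part Z: Deuring's theorem, discriminant -3 -/

open NumberField IsDedekindDomain WeierstrassCurve

namespace H55W

open H55P (IQ embF eF LF Per IsHecke Pt ac Inert Dec Nm)
open H35P (WAB Ker tt GoodW IntW)
open H55K H55K.TQ
open H55K.TQ (BaseH)

theorem base_3 {F : Type} [Field F] [NumberField F] [IQ F] {w : 𝓞 F} (hw : EI w)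
    (hcub : ∀ n : ℤ, n ≠ 0 → ∃ κ : 𝓞 F → 𝓞 F, PRC (𝓞 F) 3 n (3 * n) (27 * n) κ) (W : WeierstrassCurve ℤ) (Om : ℂ)
    (hΔ : W.Δ ≠ 0) (hper : Per F (-(eF F (W⁄(𝓞 F)).c₄) / 48) (-(eF F (W⁄(𝓞 F)).c₆) / 864) Om)
    (hbad : ∀ v : HeightOneSpectrum (𝓞 F), (W⁄(𝓞 F)).Δ ∈ v.asIdeal → ¬ GoodAt ((W⁄(𝓞 F))⁄F) v) :
    ∃ ψ : Ideal (𝓞 F) →*₀ 𝓞 F, BaseH F (W⁄(𝓞 F)) Om (Ideal.span {((W.Δ.natAbs : ℕ) : 𝓞 F) ^ 3}) ψ := by
  classical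
  have hc4 : W.c₄ = 0 := by
    obtain ⟨j, act, h⟩ := z1_cma W Om hΔ hper rfl rfl
    have h1 := a_zero hw h
    rw [z1_c4, div_eq_zero_iff, neg_eq_zero] at h1
    rcases h1 with h1 | h1
    · exact_mod_cast h1
    · norm_num at h1
  obtain ⟨b', h6, hD, h4⟩ := arith_three W hc4
  have hb : b' ≠ 0 := by
    rintro rfl
    exact hΔ (by rw [hD]; ring)
  obtain ⟨κ₃, hκ⟩ := hcub b' hb
  obtain ⟨f, hf, hlast⟩ := exists_f3 hw hb h4 hκ hD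
  have hΔF := z0_disc (F := F) W
  have hd3 : (3 : 𝓞 F) ∣ ((W.Δ : ℤ) : 𝓞 F) := ⟨((-9 * b' ^ 2 : ℤ) : 𝓞 F), by rw [hD]; push_cast; ring⟩
  have hdb : (b' : 𝓞 F) ∣ ((W.Δ : ℤ) : 𝓞 F) := ⟨((-27 * b' : ℤ) : 𝓞 F), by rw [hD]; push_cast; ring⟩
  refine base_gen W Om hΔ hper hbad hf ?_ ?_
  · intro hu
    have h3 : IsUnit (3 : 𝓞 F) := isUnit_of_dvd_unit hd3 hu
    have h9 : Nm (3 : 𝓞 F) = 1 := nm_unit h3
    have h9' : Nm (3 : 𝓞 F) = 3 ^ 2 := by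
      have := Nm_nat (F := F) 3
      exact_mod_cast this
    rw [h9'] at h9
    norm_num at h9
  · intro Ω _ _ _ _ A B j act hA hB h v V s Kg r hv hL
    have hB' : 4 * B = (b' : F) := by
      rw [hB, z1_c6, h6]
      push_cast
      ring
    rw [hΔF] at hv
    have h3 : (3 : 𝓞 F) ∉ v.asIdeal := fun hh => hv (v.asIdeal.mem_of_dvd hd3 hh)
    have hbv : (b' : 𝓞 F) ∉ v.asIdeal := fun hh => hv (v.asIdeal.mem_of_dvd hdb hh)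
    obtain ⟨γ, η, ζ, hγ, hX, g1, g2, g3, g4, g5, g6⟩ := loc_three hw h hB' hL h3 hbv
    obtain ⟨p1, p2, p3⟩ := z1_prime hγ
    refine ⟨γ, hγ, hlast γ η ζ p1 (by rw [p2]; exact hv) g1 g2 g3 ?_ ?_ ?_, hX⟩
    · rw [p2, p3]; exact g4
    · intro hh
      rw [p2] at hh ⊢
      rw [p3]
      exact g5 hh
    · intro hh
      rw [p2] at hh
      exact g6 hh

end H55W
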