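import Mathlib
import Pool.Agent.Lib.H55K.D1
import Pool.Agent.Lib.H55W.S0

/-! # H55W, part G: the Gaussian integers in a field F (definitions and elementary facts) -/

open NumberField IsDedekindDomain

namespace H55W

open H55P (IQ embF eF Nm)
open H55K (cj)

/-- I is a square root of -1 in the integers of F and every integer of F is a + b I. -/
structure GI {F : Type} [Field F] [NumberField F] (I : 𝓞 F) : Prop where
  sq : I ^ 2 = -1
  rep : ∀ x : 𝓞 F, ∃ a b : ℤ, x = (a : 𝓞 F) + (b : 𝓞 F) * I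

/-- x is primary: congruent to 1 modulo 2 + 2 I. -/
def Pry {F : Type} [Field F] [NumberField F] (I x : 𝓞 F) : Prop := 2 + 2 * I ∣ x - 1

variable {F : Type} [Field F] [NumberField F] [IQ F] {I : 𝓞 F}

theorem g0_neg_ne : (-1 : 𝓞 F) ≠ 1 := by
  intro h
  have h1 : (2 : 𝓞 F) = 0 := by linear_combination (-1 : 𝓞 F) * h
  exact two_ne_zero h1

theorem g0_dvd_nm {x y : 𝓞 F} (h : x ∣ y) : Nm x ∣ Nm y := by
  obtain ⟨z, rfl⟩ := h
  exact ⟨Nm z, H55K.Nm_mul x z⟩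

theorem g0_isUnit {z : 𝓞 F} (h : Nm z = 1) : IsUnit z := by
  have h1 : Ideal.span {z} = ⊤ := Ideal.absNorm_eq_one_iff.1 h
  exact Ideal.span_singleton_eq_top.1 h1

theorem g0_nm_unit {z : 𝓞 F} (h : IsUnit z) : Nm z = 1 := by
  have h1 : Ideal.span {z} = ⊤ := Ideal.span_singleton_eq_top.2 h
  unfold Nm
  rw [h1]
  exact Ideal.absNorm_eq_one_iff.2 rfl

/-- Chunk G0 (S). (cj I)^2 = -1, so (cj I - I)(cj I + I) = 0; if cj I = I then eF I is real (e_cj, Complex.conj_eq_iff_im) with square -1: contradiction. -/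
theorem gi_cj (h : GI I) : cj I = -I := by
  have h1 : (cj I) ^ 2 = I ^ 2 := by rw [← map_pow, h.sq, map_neg, map_one]
  rcases sq_eq_sq_iff_eq_or_eq_neg.1 h1 with h2 | h2
  · exfalso
    have h3 := H55K.e_cj I
    rw [h2] at h3
    have h4 : (eF F I).im = 0 := Complex.conj_eq_iff_im.1 h3.symm
    have h5 : (eF F I) ^ 2 = -1 := by rw [← map_pow, h.sq, map_neg, map_one]
    have h6 := congrArg Complex.re h5
    rw [pow_two, Complex.mul_re, h4, mul_zero, sub_zero, Complex.neg_re, Complex.one_re] at h6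
    nlinarith [mul_self_nonneg (eF F I).re]
  · exact h2

/-- Chunk G0 (S). mul_cj, cj_int, gi_cj: (a + b I)(a - b I) = a^2 + b^2 (Nat.cast injectivity of 𝓞 F, characteristic 0). -/
theorem gi_nm (h : GI I) (a b : ℤ) : ((Nm ((a : 𝓞 F) + (b : 𝓞 F) * I) : ℕ) : ℤ) = a ^ 2 + b ^ 2 := by
  have h1 := H55K.mul_cj ((a : 𝓞 F) + (b : 𝓞 F) * I)
  rw [map_add, map_mul, H55K.cj_int, H55K.cj_int, gi_cj h] at h1
  apply Int.cast_injective (α := 𝓞 F)
  rw [Int.cast_natCast, ← h1]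
  push_cast
  linear_combination (-(b : 𝓞 F) ^ 2) * h.sq

theorem g0_pow4 (h : GI I) : I ^ 4 = 1 := by
  have h1 : I ^ 4 = (I ^ 2) ^ 2 := by ring
  rw [h1, h.sq]
  ring

theorem g0_mod (h : GI I) (i : ℕ) : I ^ i = I ^ (i % 4) := by
  conv_lhs => rw [← Nat.div_add_mod i 4]
  rw [pow_add, pow_mul, g0_pow4 h, one_pow, one_mul]

theorem g0_cube (h : GI I) : I ^ 3 = -I := by
  have h1 : I ^ 3 = I ^ 2 * I := by ring
  rw [h1, h.sq]
  ring

/-- Chunk G0 (S). I^2 = -1 ≠ 1. -/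
theorem gi_root (h : GI I) : IsPrimitiveRoot I 4 := by
  refine ⟨g0_pow4 h, fun l hl => ?_⟩
  rw [g0_mod h] at hl
  have h4 : l % 4 < 4 := Nat.mod_lt _ (by norm_num)
  have h2 := h.sq
  interval_cases h5 : l % 4
  · omega
  · exfalso
    rw [pow_one] at hl
    rw [hl, one_pow] at h2
    exact g0_neg_ne h2.symm
  · exfalso
    rw [hl] at h2
    exact g0_neg_ne h2.symm
  · exfalso
    rw [g0_cube h] at hl
    have h6 : I = -1 := by rw [← hl]; ring
    rw [h6] at h2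
    apply g0_neg_ne (F := F)
    rw [← h2]
    ring

/-- Chunk G0 (S). Nm u = 1 (Ideal.absNorm of the top ideal), a^2 + b^2 = 1. -/
theorem gi_unit (h : GI I) {u : 𝓞 F} (hu : IsUnit u) : ∃ i : ℕ, u = I ^ i := by
  obtain ⟨a, b, rfl⟩ := h.rep u
  have h1 := gi_nm h a b
  rw [g0_nm_unit hu, Nat.cast_one] at h1
  have ha : a ^ 2 ≤ 1 := by nlinarith [sq_nonneg b]
  have hb : b ^ 2 ≤ 1 := by nlinarith [sq_nonneg a]
  have ha1 : -1 ≤ a ∧ a ≤ 1 := ⟨by nlinarith, by nlinarith⟩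
  have hb1 : -1 ≤ b ∧ b ≤ 1 := ⟨by nlinarith, by nlinarith⟩
  obtain ⟨ha1, ha2⟩ := ha1
  obtain ⟨hb1, hb2⟩ := hb1
  interval_cases a <;> interval_cases b <;> first | (exfalso; norm_num at h1; done) | skip
  · exact ⟨2, by rw [h.sq]; push_cast; ring⟩
  · exact ⟨3, by rw [g0_cube h]; push_cast; ring⟩
  · exact ⟨1, by push_cast; ring⟩
  · exact ⟨0, by push_cast; ring⟩

theorem g0_pry (h : GI I) {a b : ℤ} (hab : (a + b) % 4 = 1) (hb : b % 2 = 0) :
    Pry I ((a : 𝓞 F) + (b : 𝓞 F) * I) := by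
  obtain ⟨c, hc⟩ : ∃ c : ℤ, a - 1 + b = 4 * c := ⟨(a - 1 + b) / 4, by omega⟩
  obtain ⟨d, hd⟩ : ∃ d : ℤ, b - a + 1 = 4 * d := ⟨(b - a + 1) / 4, by omega⟩
  have ha : a = 2 * (c - d) + 1 := by omega
  have hb : b = 2 * (c + d) := by omega
  refine ⟨(c : 𝓞 F) + (d : 𝓞 F) * I, ?_⟩
  rw [ha, hb]
  push_cast
  linear_combination (-2 * (d : 𝓞 F)) * h.sq

/-- Chunk G0 (S/M). x = a + b I. 1 + I does not divide x, so a + b is odd ((1 + I) c with c = (a+b)/2 + ((b-a)/2) I). If a is odd, b even: multiply by I^0 or I^2; if a even, b odd: multiply by I or I^3; a + b I with a odd, b even is ≡ 1 modulo 2 + 2I iff a + b ≡ 1 mod 4: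
((a - 1) + b I) = (2 + 2I)(c + d I) with c = (a - 1 + b)/4, d = (b - a + 1)/4. -/
theorem gi_exists (h : GI I) {x : 𝓞 F} (hx : ¬ (1 + I) ∣ x) : ∃ i : ℕ, Pry I (I ^ i * x) := by
  obtain ⟨a, b, rfl⟩ := h.rep x
  have hodd : (a + b) % 2 = 1 := by
    by_contra hcon
    apply hx
    obtain ⟨c, hc⟩ : ∃ c : ℤ, a + b = 2 * c := ⟨(a + b) / 2, by omega⟩
    have hb : b = 2 * c - a := by omega
    refine ⟨(c : 𝓞 F) + ((c - a : ℤ) : 𝓞 F) * I, ?_⟩
    rw [hb]
    push_cast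
    linear_combination (-((c : 𝓞 F) - a)) * h.sq
  have e2 : ∀ y : 𝓞 F, I ^ 2 * y = -y := fun y => by rw [h.sq]; ring
  by_cases hb : b % 2 = 0
  · by_cases h1 : (a + b) % 4 = 1
    · exact ⟨0, by rw [pow_zero, one_mul]; exact g0_pry h h1 hb⟩
    · refine ⟨2, ?_⟩
      have h2 := g0_pry (I := I) h (a := -a) (b := -b) (by omega) (by omega)
      have h3 : I ^ 2 * ((a : 𝓞 F) + (b : 𝓞 F) * I) = ((-a : ℤ) : 𝓞 F) + ((-b : ℤ) : 𝓞 F) * I := by
        rw [e2]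
        push_cast
        ring
      rwa [h3]
  · by_cases h1 : (a - b) % 4 = 1
    · refine ⟨1, ?_⟩
      have h2 := g0_pry (I := I) h (a := -b) (b := a) (by omega) (by omega)
      have h3 : I ^ 1 * ((a : 𝓞 F) + (b : 𝓞 F) * I) = ((-b : ℤ) : 𝓞 F) + (a : 𝓞 F) * I := by
        push_cast
        linear_combination (b : 𝓞 F) * h.sq
      rwa [h3]
    · refine ⟨3, ?_⟩
      have h2 := g0_pry (I := I) h (a := b) (b := -a) (by omega) (by omega)
      have h3 : I ^ 3 * ((a : 𝓞 F) + (b : 𝓞 F) * I) = (b : 𝓞 F) + ((-a : ℤ) : 𝓞 F) * I := by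
        rw [g0_cube h]
        push_cast
        linear_combination (-(b : 𝓞 F)) * h.sq
      rwa [h3]

theorem g0_nm22 (h : GI I) : Nm (2 + 2 * I) = 8 := by
  have h1 := gi_nm h 2 2
  push_cast at h1
  exact_mod_cast h1

theorem g0_nm11 (h : GI I) : Nm (1 + I) = 2 := by
  have h1 := gi_nm h 1 1
  push_cast at h1
  rw [one_mul] at h1
  exact_mod_cast h1

/-- Chunk G0 (S). i modulo 4: 2 + 2I does not divide I - 1, -2, -I - 1 (norms 8 versus 2, 4, 2: gi_nm, Nm_mul). -/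
theorem gi_uniq (h : GI I) {i : ℕ} (hi : Pry I (I ^ i)) : I ^ i = 1 := by
  rw [g0_mod h] at hi ⊢
  have h4 : i % 4 < 4 := Nat.mod_lt _ (by norm_num)
  have h8 := g0_dvd_nm hi
  rw [g0_nm22 h] at h8
  interval_cases h5 : i % 4
  · exact pow_zero I
  · exfalso
    have h1 := gi_nm h (-1) 1
    have h2 : I ^ 1 - 1 = ((-1 : ℤ) : 𝓞 F) + ((1 : ℤ) : 𝓞 F) * I := by push_cast; ring
    rw [h2] at h8
    have h3 : Nm (((-1 : ℤ) : 𝓞 F) + ((1 : ℤ) : 𝓞 F) * I) = 2 := by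
      apply Nat.cast_injective (R := ℤ)
      rw [h1]
      norm_num
    rw [h3] at h8
    norm_num at h8
  · exfalso
    have h1 := gi_nm h (-2) 0
    have h2 : I ^ 2 - 1 = ((-2 : ℤ) : 𝓞 F) + ((0 : ℤ) : 𝓞 F) * I := by
      rw [h.sq]
      push_cast
      ring
    rw [h2] at h8
    have h3 : Nm (((-2 : ℤ) : 𝓞 F) + ((0 : ℤ) : 𝓞 F) * I) = 4 := by
      apply Nat.cast_injective (R := ℤ)
      rw [h1]
      norm_num
    rw [h3] at h8
    norm_num at h8
  · exfalso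
    have h1 := gi_nm h (-1) (-1)
    have h2 : I ^ 3 - 1 = ((-1 : ℤ) : 𝓞 F) + ((-1 : ℤ) : 𝓞 F) * I := by
      rw [g0_cube h]
      push_cast
      ring
    rw [h2] at h8
    have h3 : Nm (((-1 : ℤ) : 𝓞 F) + ((-1 : ℤ) : 𝓞 F) * I) = 2 := by
      apply Nat.cast_injective (R := ℤ)
      rw [h1]
      norm_num
    rw [h3] at h8
    norm_num at h8

/-- Chunk G0 (S). x y - 1 = (x - 1) y + (y - 1). -/
theorem pry_mul {x y : 𝓞 F} (hx : Pry I x) (hy : Pry I y) : Pry I (x * y) := by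
  have h1 : x * y - 1 = (x - 1) * y + (y - 1) := by ring
  unfold Pry
  rw [h1]
  exact dvd_add (hx.mul_right y) hy

/-- Chunk G0 (S). x - 1 = (2 + 2I) z and (1 + I) divides x: then 1 + I divides 1, norm 2. -/
theorem pry_cop (h : GI I) {x : 𝓞 F} (hx : Pry I x) : ¬ (1 + I) ∣ x ∧ IsCoprime x (2 : 𝓞 F) ∧ PJ 4 I (Ideal.span {x}) := by
  obtain ⟨z, hz⟩ := hx
  have h1 : ¬ (1 + I) ∣ x := by
    intro hd
    have h2 : (1 + I) ∣ (1 : 𝓞 F) := by
      have h3 : (1 : 𝓞 F) = x - (1 + I) * (2 * z) := by linear_combination (-1 : 𝓞 F) * hz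
      have h4 : (1 + I) ∣ x - (1 + I) * (2 * z) := dvd_sub hd (Dvd.intro _ rfl)
      rwa [← h3] at h4
    have h4 := g0_dvd_nm h2
    rw [g0_nm11 h, g0_nm_unit isUnit_one] at h4
    norm_num at h4
  have h2 : IsCoprime x (2 : 𝓞 F) := ⟨1, -((1 + I) * z), by linear_combination hz⟩
  refine ⟨h1, h2, ?_, ?_, gi_root h, by norm_num⟩
  · rw [Ne, Ideal.span_singleton_eq_bot]
    rintro rfl
    exact h1 (dvd_zero _)
  · rw [Ideal.isCoprime_span_singleton_iff]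
    have h3 : ((4 : ℕ) : 𝓞 F) = 2 ^ 2 := by norm_num
    rw [h3]
    exact h2.pow_right

/-- Chunk G0 (S). If (x y) and x are primary then y is: x y - y = (x - 1) y, and y ≡ x y ≡ 1. -/
theorem pry_of_mul {x y : 𝓞 F} (hx : Pry I x) (hxy : Pry I (x * y)) : Pry I y := by
  have h1 : y - 1 = (x * y - 1) - (x - 1) * y := by ring
  unfold Pry
  rw [h1]
  exact dvd_sub hxy (hx.mul_right y)

/-- Chunk G0 (S). 2 + 2I divides 4 = (2 + 2I)(1 - I). -/
theorem pry_int (h : GI I) {n : ℤ} (hn : n % 4 = 1) : Pry I (n : 𝓞 F) := by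
  obtain ⟨k, hk⟩ : ∃ k : ℤ, n = 4 * k + 1 := ⟨n / 4, by omega⟩
  refine ⟨(1 - I) * (k : 𝓞 F), ?_⟩
  rw [hk]
  push_cast
  linear_combination (2 * (k : 𝓞 F)) * h.sq

/-- Chunk G0 (S). π is prime and 1 + I does not divide it, so 2 is not in (π) (2 = -I (1 + I)^2; π would divide 1 + I, which is irreducible (norm 2), so it would be associated with it). -/
theorem pp_pi (h : GI I) {π : 𝓞 F} (hπ : Prime π) (hn : ¬ (1 + I) ∣ π) : PP 4 I (Ideal.span {π}) := by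
  refine ⟨(Ideal.span_singleton_prime hπ.ne_zero).2 hπ, ?_, ?_, gi_root h, by norm_num⟩
  · rw [Ne, Ideal.span_singleton_eq_bot]
    exact hπ.ne_zero
  · rw [Ideal.mem_span_singleton]
    intro hd
    have h4 : ((4 : ℕ) : 𝓞 F) = 2 ^ 2 := by norm_num
    rw [h4] at hd
    have h2 := hπ.dvd_of_dvd_pow hd
    have e2 : (2 : 𝓞 F) = (-I * (1 + I)) * (1 + I) := by linear_combination (I + 2) * h.sq
    rw [e2] at h2
    have h1 : π ∣ 1 + I := by
      rcases hπ.dvd_or_dvd h2 with h3 | h3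
      · rcases hπ.dvd_or_dvd h3 with h5 | h5
        · exfalso
          apply hπ.not_isUnit
          have hu : IsUnit (-I) := IsUnit.of_mul_eq_one I (by linear_combination (-1 : 𝓞 F) * h.sq)
          exact isUnit_of_dvd_unit h5 hu
        · exact h5
      · exact h3
    obtain ⟨z, hz⟩ := h1
    have h5 : 2 = Nm π * Nm z := by rw [← H55K.Nm_mul, ← hz, g0_nm11 h]
    have h6 : Nm π ≠ 1 := fun h7 => hπ.not_isUnit (g0_isUnit h7)
    have h7 : Nm z = 1 := by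
      have h8 : Nm π ∣ 2 := ⟨_, h5⟩
      rcases (Nat.dvd_prime Nat.prime_two).1 h8 with h9 | h9
      · exact absurd h9 h6
      · rw [h9] at h5
        omega
    obtain ⟨u, hu⟩ := g0_isUnit h7
    apply hn
    rw [hz, ← hu]
    exact Units.mul_right_dvd.2 dvd_rfl

end H55W
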