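import Mathlib
import Pool.Agent.Lib.H55W.S1

/-! # H55W, part S: power residue symbols -/

open NumberField

namespace H55W

variable {F : Type} [Field F] [NumberField F] {m : ℕ} {ζ : 𝓞 F} {P : Ideal (𝓞 F)}

/-- Chunk S2 (S). ps_ex and the definition (dif_pos, choose_spec). -/
theorem ps_spec (h : PP m ζ P) {x : 𝓞 F} (hx : x ∉ P) : (∃ i : ℕ, ps m ζ P x = ζ ^ i) ∧ x ^ ((Ideal.absNorm P - 1) / m) - ps m ζ P x ∈ P := by
  have h' := ps_ex h hx
  unfold ps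
  rw [dif_pos h']
  exact ⟨⟨_, rfl⟩, h'.choose_spec⟩

/-- Chunk S2 (S). x is not in P (else ζ^i is: ps_unit; the exponent is positive: ps_dvd); ps_spec, ps_inj. -/
theorem ps_uniq (h : PP m ζ P) {x : 𝓞 F} {i : ℕ} (hi : x ^ ((Ideal.absNorm P - 1) / m) - ζ ^ i ∈ P) : ps m ζ P x = ζ ^ i := by
  have h' : ∃ i : ℕ, x ^ ((Ideal.absNorm P - 1) / m) - ζ ^ i ∈ P := ⟨i, hi⟩
  unfold ps
  rw [dif_pos h']
  have h1 := P.sub_mem hi h'.choose_spec
  rw [sub_sub_sub_cancel_left] at h1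
  exact ps_inj h h1

/-- Chunk S2 (S). The condition of the definition fails: ζ^i would be in P. -/
theorem ps_zero (h : PP m ζ P) {x : 𝓞 F} (hx : x ∈ P) : ps m ζ P x = 0 := by
  unfold ps
  rw [dif_neg]
  rintro ⟨i, hi⟩
  have h1 : x ^ ((Ideal.absNorm P - 1) / m) ∈ P := Ideal.pow_mem_of_mem P hx _ (ps_dvd h).2.1
  have h2 := P.sub_mem h1 hi
  rw [sub_sub_cancel] at h2
  exact ps_unit h i h2

/-- Chunk S2 (S). Cases x in P, y in P (ps_zero); otherwise ps_uniq. -/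
theorem ps_mul (h : PP m ζ P) (x y : 𝓞 F) : ps m ζ P (x * y) = ps m ζ P x * ps m ζ P y := by
  by_cases hx : x ∈ P
  · rw [ps_zero h (P.mul_mem_right y hx), ps_zero h hx, zero_mul]
  by_cases hy : y ∈ P
  · rw [ps_zero h (P.mul_mem_left x hy), ps_zero h hy, mul_zero]
  obtain ⟨⟨i, hi⟩, h1⟩ := ps_spec h hx
  obtain ⟨⟨j, hj⟩, h2⟩ := ps_spec h hy
  rw [hi] at h1 ⊢
  rw [hj] at h2 ⊢
  rw [← pow_add]
  apply ps_uniq h
  have h3 : (x * y) ^ ((Ideal.absNorm P - 1) / m) - ζ ^ (i + j) = (x ^ ((Ideal.absNorm P - 1) / m) - ζ ^ i) * y ^ ((Ideal.absNorm P - 1) / m) +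
      ζ ^ i * (y ^ ((Ideal.absNorm P - 1) / m) - ζ ^ j) := by
    rw [mul_pow, pow_add]
    ring
  rw [h3]
  exact P.add_mem (P.mul_mem_right _ h1) (P.mul_mem_left _ h2)

/-- Chunk S2 (S). ps_uniq, sub_dvd_pow_sub_pow; or ps_zero. -/
theorem ps_congr (h : PP m ζ P) {x y : 𝓞 F} (hxy : x - y ∈ P) : ps m ζ P x = ps m ζ P y := by
  by_cases hx : x ∈ P
  · have hy : y ∈ P := by
      have := P.sub_mem hx hxy
      rwa [sub_sub_cancel] at this
    rw [ps_zero h hx, ps_zero h hy]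
  · obtain ⟨⟨i, hi⟩, h1⟩ := ps_spec h hx
    rw [hi] at h1 ⊢
    symm
    apply ps_uniq h
    obtain ⟨c, hc⟩ := sub_dvd_pow_sub_pow x y ((Ideal.absNorm P - 1) / m)
    have h2 : x ^ ((Ideal.absNorm P - 1) / m) - y ^ ((Ideal.absNorm P - 1) / m) ∈ P := by
      rw [hc]
      exact P.mul_mem_right _ hxy
    have h3 := P.sub_mem h1 h2
    have e : x ^ ((Ideal.absNorm P - 1) / m) - ζ ^ i - (x ^ ((Ideal.absNorm P - 1) / m) - y ^ ((Ideal.absNorm P - 1) / m)) =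
        y ^ ((Ideal.absNorm P - 1) / m) - ζ ^ i := by ring
    rwa [e] at h3

/-- Chunk S2 (S). -/
theorem ps_one (h : PP m ζ P) : ps m ζ P 1 = 1 := by
  have h1 : ps m ζ P 1 = ζ ^ 0 := ps_uniq h (by
    rw [one_pow, pow_zero, sub_self]
    exact P.zero_mem)
  rw [h1, pow_zero]

/-- Chunk S2 (S). From ps_mul, ps_one, induction. -/
theorem ps_pow (h : PP m ζ P) (x : 𝓞 F) (n : ℕ) : ps m ζ P (x ^ n) = ps m ζ P x ^ n := by
  induction n with
  | zero => rw [pow_zero, pow_zero, ps_one h]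
  | succ n ih => rw [pow_succ, pow_succ, ps_mul h, ih]

/-- Chunk S2 (S). -/
theorem ps_root (h : PP m ζ P) {x : 𝓞 F} (hx : x ∉ P) : ps m ζ P x ^ m = 1 := by
  obtain ⟨⟨i, hi⟩, -⟩ := ps_spec h hx
  rw [hi, ← pow_mul, mul_comm, pow_mul, h.root.pow_eq_one, one_pow]

/-- Chunk S2 (S). ps_uniq with i = (N - 1)/m. -/
theorem ps_zeta (h : PP m ζ P) : ps m ζ P ζ = ζ ^ ((Ideal.absNorm P - 1) / m) := by
  apply ps_uniq h
  rw [sub_self]
  exact P.zero_mem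

omit [NumberField F] in
theorem s2_mem (P : Ideal (𝓞 F)) (e : 𝓞 F ≃+* 𝓞 F) (x : 𝓞 F) : e x ∈ P.map (e : 𝓞 F →+* 𝓞 F) ↔ x ∈ P := by
  constructor
  · intro h
    have h1 := (Ideal.mem_map_of_equiv e (e x)).1 h
    obtain ⟨y, hy, hxy⟩ := h1
    rwa [← e.injective hxy]
  · intro h
    exact Ideal.mem_map_of_mem _ h

theorem s2_norm (P : Ideal (𝓞 F)) (e : 𝓞 F ≃+* 𝓞 F) : Ideal.absNorm (P.map (e : 𝓞 F →+* 𝓞 F)) = Ideal.absNorm P := by
  rw [Ideal.absNorm_apply, Ideal.absNorm_apply, Submodule.cardQuot_apply, Submodule.cardQuot_apply]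
  exact Nat.card_congr (Ideal.quotientEquiv P (P.map (e : 𝓞 F →+* 𝓞 F)) e rfl).toEquiv.symm

theorem s2_pp (h : PP m ζ P) (e : 𝓞 F ≃+* 𝓞 F) : PP m (e ζ) (P.map (e : 𝓞 F →+* 𝓞 F)) := by
  have hp := h.pr
  refine ⟨?_, ?_, ?_, h.root.map_of_injective e.injective, h.two⟩
  · exact Ideal.map_isPrime_of_equiv e
  · intro h1
    apply h.ne
    rw [eq_bot_iff]
    intro x hx
    have h2 : e x ∈ P.map (e : 𝓞 F →+* 𝓞 F) := (s2_mem P e x).2 hx
    rw [h1, Ideal.mem_bot] at h2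
    rw [Ideal.mem_bot]
    exact (map_eq_zero_iff e e.injective).1 h2
  · intro h1
    apply h.nm
    rw [← s2_mem P e, map_natCast]
    exact h1

/-- Chunk S2 (S/M). e is an automorphism of the ring. absNorm (P.map e) = absNorm P (Ideal.absNorm_map or the quotients are isomorphic: Ideal.quotientEquiv, Nat.card_congr); x in P iff e x in P.map e (Ideal.mem_map_of_equiv or Ideal.map_comap_of_equiv). Both sides are 0 if x is in P; otherwise ps_uniq for P.map e and e ζ (a primitive m-th root, IsPrimitiveRoot.map_of_injective). -/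
theorem ps_map (h : PP m ζ P) (e : 𝓞 F ≃+* 𝓞 F) (x : 𝓞 F) : ps m (e ζ) (P.map (e : 𝓞 F →+* 𝓞 F)) (e x) = e (ps m ζ P x) := by
  have h' := s2_pp h e
  by_cases hx : x ∈ P
  · rw [ps_zero h hx, ps_zero h' ((s2_mem P e x).2 hx), map_zero]
  · obtain ⟨⟨i, hi⟩, h1⟩ := ps_spec h hx
    rw [hi] at h1 ⊢
    rw [map_pow]
    apply ps_uniq h'
    rw [s2_norm, ← map_pow, ← map_pow, ← map_sub, s2_mem]
    exact h1

/-- Chunk S2 (S/M). ζ' = ζ^(m-1) is the inverse of ζ, its powers are the powers of ζ: the symbol does not depend on the choice of ζ among the primitive roots. -/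
theorem ps_inv (h : PP m ζ P) {ζ' : 𝓞 F} (h' : ζ' * ζ = 1) (x : 𝓞 F) : ps m ζ' P x = ps m ζ P x := by
  have hm : ζ ^ (m - 1) * ζ = 1 := by
    rw [← pow_succ, Nat.sub_add_cancel (by have := h.two; omega), h.root.pow_eq_one]
  have hz0 : ζ ≠ 0 := by
    rintro rfl
    rw [mul_zero] at h'
    exact zero_ne_one h'
  have he : ζ' = ζ ^ (m - 1) := mul_right_cancel₀ hz0 (h'.trans hm.symm)
  have hr : IsPrimitiveRoot ζ' m := by
    rw [he]
    refine h.root.pow_of_coprime _ ?_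
    have h2 := h.two
    obtain ⟨k, rfl⟩ : ∃ k, m = k + 1 := ⟨m - 1, by omega⟩
    rw [Nat.add_sub_cancel]
    simp
  have h2 : PP m ζ' P := ⟨h.pr, h.ne, h.nm, hr, h.two⟩
  have he2 : ζ = ζ' ^ (m - 1) := by
    have h3 : ζ' ^ (m - 1) * ζ' = 1 := by
      rw [← pow_succ, Nat.sub_add_cancel (by have := h.two; omega), hr.pow_eq_one]
    have h4 : ζ' ≠ 0 := by
      rintro rfl
      rw [zero_mul] at h'
      exact zero_ne_one h'
    rw [mul_comm] at h'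
    exact mul_right_cancel₀ h4 (h'.trans h3.symm)
  by_cases hx : x ∈ P
  · rw [ps_zero h hx, ps_zero h2 hx]
  · obtain ⟨⟨i, hi⟩, h1⟩ := ps_spec h hx
    rw [hi] at h1 ⊢
    rw [he2, ← pow_mul] at h1 ⊢
    exact ps_uniq h2 h1

end H55W
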