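import Mathlib
import Pool.Agent.Lib.H55W.S2

/-! # H55W, part S: products of residue symbols -/

open NumberField UniqueFactorizationMonoid

namespace H55W

variable {F : Type} [Field F] [NumberField F] {m : ℕ} {ζ : 𝓞 F} {J K P : Ideal (𝓞 F)}

theorem s4_le (hP : P ∈ normalizedFactors J) : J ≤ P := Ideal.le_of_dvd (dvd_of_mem_normalizedFactors hP)

theorem s4_pr (hP : P ∈ normalizedFactors J) : P.IsPrime := Ideal.isPrime_of_prime (prime_of_normalized_factor P hP)

/-- Chunk S4 (S). P divides J (dvd_of_mem_normalizedFactors), prime (prime_of_normalized_factor, Ideal.isPrime_of_prime), not bottom; if m is in P then J and (m) are in P, so P = top: contradiction. -/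
theorem pp_of (h : PJ m ζ J) (hP : P ∈ normalizedFactors J) : PP m ζ P := by
  have hpr := s4_pr hP
  refine ⟨hpr, (prime_of_normalized_factor P hP).ne_zero, fun hm => ?_, h.root, h.two⟩
  apply hpr.ne_top
  have h1 := Ideal.isCoprime_iff_sup_eq.1 h.cop
  rw [eq_top_iff, ← h1]
  refine sup_le (s4_le hP) ?_
  rw [Ideal.span_singleton_le_iff_mem]
  exact hm

/-- Chunk S4 (S). normalizedFactors_mul. -/
theorem pj_mul_left (hJ : J ≠ ⊥) (hK : K ≠ ⊥) (x : 𝓞 F) : pj m ζ (J * K) x = pj m ζ J x * pj m ζ K x := by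
  unfold pj
  rw [normalizedFactors_mul hJ hK, Multiset.map_add, Multiset.prod_add]

/-- Chunk S4 (S). -/
theorem pj_mul (h : PJ m ζ J) (x y : 𝓞 F) : pj m ζ J (x * y) = pj m ζ J x * pj m ζ J y := by
  unfold pj
  rw [← Multiset.prod_map_mul]
  congr 1
  exact Multiset.map_congr rfl fun P hP => ps_mul (pp_of h hP) x y

/-- Chunk S4 (S). J ≤ P for the factors P (Ideal.le_of_dvd): ps_congr. -/
theorem pj_congr (h : PJ m ζ J) {x y : 𝓞 F} (hxy : x - y ∈ J) : pj m ζ J x = pj m ζ J y := by
  unfold pj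
  congr 1
  exact Multiset.map_congr rfl fun P hP => ps_congr (pp_of h hP) (s4_le hP hxy)

/-- Chunk S4 (S). normalizedFactors_irreducible: P is irreducible and normalized (the normalization of ideals is trivial: normalize_eq). -/
theorem pj_prime (h : PP m ζ P) (x : 𝓞 F) : pj m ζ P x = ps m ζ P x := by
  unfold pj
  rw [normalizedFactors_irreducible (Ideal.prime_of_isPrime h.ne h.pr).irreducible, normalize_eq, Multiset.map_singleton, Multiset.prod_singleton]

/-- Chunk S4 (S). normalizedFactors 1 = 0, ⊤ = 1. -/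
theorem pj_top (x : 𝓞 F) : pj m ζ (⊤ : Ideal (𝓞 F)) x = 1 := by
  unfold pj
  rw [← Ideal.one_eq_top, normalizedFactors_one, Multiset.map_zero, Multiset.prod_zero]

/-- Chunk S4 (S). x is in no factor P (J ≤ P and x in P would give P = top): ps_root; the product of the m-th powers. -/
theorem pj_root (h : PJ m ζ J) {x : 𝓞 F} (hx : IsCoprime (Ideal.span {x}) J) : pj m ζ J x ^ m = 1 := by
  unfold pj
  rw [← Multiset.prod_map_pow]
  apply Multiset.prod_eq_one
  intro z hz
  obtain ⟨P, hP, rfl⟩ := Multiset.mem_map.1 hz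
  apply ps_root (pp_of h hP)
  intro hxP
  apply (s4_pr hP).ne_top
  have h1 := Ideal.isCoprime_iff_sup_eq.1 hx
  rw [eq_top_iff, ← h1]
  refine sup_le ?_ (s4_le hP)
  rw [Ideal.span_singleton_le_iff_mem]
  exact hxP

/-- Chunk S4 (S). -/
theorem pj_one (h : PJ m ζ J) : pj m ζ J 1 = 1 := by
  unfold pj
  apply Multiset.prod_eq_one
  intro z hz
  obtain ⟨P, hP, rfl⟩ := Multiset.mem_map.1 hz
  exact ps_one (pp_of h hP)

/-- Chunk S4 (S/M). For each factor ps(ζ) = ζ^((N - 1)/m) (ps_zeta). Multiset induction: (N N' - 1)/m is congruent to (N - 1)/m + (N' - 1)/m modulo m, because N, N' are 1 modulo m and (N - 1)(N' - 1)/m is divisible by m. Use induction over J (UniqueFactorizationMonoid.induction_on_prime or the multiset of factors: J = product of its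
normalized factors), map_mul of Ideal.absNorm; ζ^m = 1. Also m divides absNorm J - 1. -/
theorem pj_zeta (h : PJ m ζ J) : m ∣ Ideal.absNorm J - 1 ∧ pj m ζ J ζ = ζ ^ ((Ideal.absNorm J - 1) / m) := by
  have hm : 0 < m := by have := h.two; omega
  have key : ∀ s : Multiset (Ideal (𝓞 F)), (∀ P ∈ s, PP m ζ P) →
      ∃ a : ℕ, Ideal.absNorm s.prod = 1 + m * a ∧ (s.map fun P => ps m ζ P ζ).prod = ζ ^ a := by
    intro s
    induction s using Multiset.induction_on with
    | empty =>
      intro _
      exact ⟨0, by simp, by simp⟩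
    | cons P s ih =>
      intro hs
      obtain ⟨a, ha1, ha2⟩ := ih fun Q hQ => hs Q (Multiset.mem_cons_of_mem hQ)
      have hP := hs P (Multiset.mem_cons_self P s)
      obtain ⟨⟨b, hb⟩, -, hb2⟩ := ps_dvd hP
      have hb3 : Ideal.absNorm P = 1 + m * b := by omega
      have hb4 : (Ideal.absNorm P - 1) / m = b := by
        rw [hb]
        exact Nat.mul_div_cancel_left b hm
      refine ⟨b + a + m * (b * a), ?_, ?_⟩
      · rw [Multiset.prod_cons, map_mul, ha1, hb3]
        ring
      · rw [Multiset.map_cons, Multiset.prod_cons, ha2, ps_zeta hP, hb4, pow_add, pow_mul, h.root.pow_eq_one, one_pow, mul_one, pow_add]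
  obtain ⟨a, h1, h2⟩ := key (normalizedFactors J) fun P hP => pp_of h hP
  rw [Ideal.prod_normalizedFactors_eq_self h.ne] at h1
  have h3 : Ideal.absNorm J - 1 = m * a := by omega
  refine ⟨⟨a, h3⟩, ?_⟩
  unfold pj
  rw [h2, h3, Nat.mul_div_cancel_left a hm]

end H55W
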