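import Mathlib
import Pool.Agent.Lib.H55W.G0
import Pool.Agent.Lib.H55W.S4

/-! # H55W, part G: factorisation into primary primes -/

open NumberField IsDedekindDomain

namespace H55W

open H55P (IQ embF eF Nm)
open H55K (cj)

variable {F : Type} [Field F] [NumberField F] [IQ F] {I : 𝓞 F}

theorem g1_nm_one {x : 𝓞 F} : Nm x = 1 ↔ IsUnit x := by
  unfold Nm
  rw [Ideal.absNorm_eq_one_iff, Ideal.span_singleton_eq_top]

theorem g1_nm_zero {x : 𝓞 F} : Nm x = 0 ↔ x = 0 := by
  unfold Nm
  rw [Ideal.absNorm_eq_zero_iff, Ideal.span_singleton_eq_bot]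

theorem g1_Iunit (h : GI I) (i : ℕ) : IsUnit (I ^ i) := by
  have h1 : IsUnit I := by
    refine IsUnit.of_mul_eq_one (-I) ?_
    have h2 := h.sq
    linear_combination -h2
  exact h1.pow i

/-- Chunk G1 (M). Strong induction on Nm x (compare H35T.factor in H35T/R3.lean). If x is a unit then x = I^i (gi_unit), so x = 1 (gi_uniq), s = 0, span {1} = ⊤, pj_top. Otherwise a prime π divides x (WfDvdMonoid.exists_irreducible_factor, 𝓞 F is a principal ideal ring: Irreducible.prime); 1 + I does not divide π (pry_cop); replace π by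
I^i π primary (gi_exists; still a prime dividing x); x = π y, y primary (pry_of_mul), Nm y < Nm x (Nm_mul, Nm π ≥ 2). span {x} = span {π} * span {y}, pj_mul_left, pj_prime (pp_pi). -/
theorem pry_factor (h : GI I) (x : 𝓞 F) (hx : Pry I x) : ∃ s : Multiset (𝓞 F), (∀ π ∈ s, Prime π ∧ Pry I π) ∧ x = s.prod ∧
    ∀ y : 𝓞 F, pj 4 I (Ideal.span {x}) y = (s.map fun π => ps 4 I (Ideal.span {π}) y).prod := by
  have key : ∀ n : ℕ, ∀ x : 𝓞 F, Nm x = n → Pry I x → ∃ s : Multiset (𝓞 F), (∀ π ∈ s, Prime π ∧ Pry I π) ∧ x = s.prod ∧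
      ∀ y : 𝓞 F, pj 4 I (Ideal.span {x}) y = (s.map fun π => ps 4 I (Ideal.span {π}) y).prod := by
    intro n
    induction n using Nat.strong_induction_on with
    | _ n ih =>
      intro x hn hx
      have hx1 := (pry_cop h hx).1
      have hx0 : x ≠ 0 := by
        rintro rfl
        exact hx1 (dvd_zero _)
      by_cases hu : IsUnit x
      · obtain ⟨i, hi⟩ := gi_unit h hu
        have h1 : x = 1 := by
          rw [hi]
          exact gi_uniq h (by rw [← hi]; exact hx)
        subst h1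
        refine ⟨0, fun π hπ => absurd hπ (Multiset.notMem_zero π), Multiset.prod_zero.symm, fun y => ?_⟩
        rw [Ideal.span_singleton_one, pj_top, Multiset.map_zero, Multiset.prod_zero]
      · obtain ⟨π, hπ, hπx⟩ := WfDvdMonoid.exists_irreducible_factor hu hx0
        have hπp : Prime π := hπ.prime
        have hπn : ¬ (1 + I) ∣ π := fun h1 => hx1 (h1.trans hπx)
        obtain ⟨i, hi⟩ := gi_exists h hπn
        have hIu := g1_Iunit h i
        have hass : Associated π (I ^ i * π) := by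
          rw [mul_comm]
          exact (associated_mul_unit_right π _ hIu)
        have hπ' : Prime (I ^ i * π) := hass.prime hπp
        have hdx : I ^ i * π ∣ x := hass.symm.dvd.trans hπx
        obtain ⟨y, hy⟩ := hdx
        have hyP : Pry I y := pry_of_mul hi (by rw [← hy]; exact hx)
        have hlt : Nm y < n := by
          rw [← hn, hy, H55K.Nm_mul]
          have h2 : Nm (I ^ i * π) ≠ 0 := fun h => hπ'.ne_zero (g1_nm_zero.1 h)
          have h3 : Nm (I ^ i * π) ≠ 1 := fun h => hπ'.not_isUnit (g1_nm_one.1 h)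
          have h4 : Nm y ≠ 0 := by
            intro h5
            apply hx0
            rw [hy, g1_nm_zero.1 h5, mul_zero]
          have h5 : 2 ≤ Nm (I ^ i * π) := by omega
          have h6 : 0 < Nm y := Nat.pos_of_ne_zero h4
          nlinarith
        obtain ⟨s, hs1, hs2, hs3⟩ := ih (Nm y) hlt y rfl hyP
        refine ⟨(I ^ i * π) ::ₘ s, ?_, ?_, fun z => ?_⟩
        · intro q hq
          rcases Multiset.mem_cons.1 hq with rfl | hq
          · exact ⟨hπ', hi⟩
          · exact hs1 q hq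
        · rw [Multiset.prod_cons, ← hs2]
          exact hy
        · have h1 : Ideal.span {x} = Ideal.span {I ^ i * π} * Ideal.span {y} := by
            rw [Ideal.span_singleton_mul_span_singleton, ← hy]
          have h2 : Ideal.span {I ^ i * π} ≠ ⊥ := by
            rw [Ne, Ideal.span_singleton_eq_bot]
            exact hπ'.ne_zero
          have h3 : Ideal.span {y} ≠ ⊥ := by
            rw [Ne, Ideal.span_singleton_eq_bot]
            rintro rfl
            rw [mul_zero] at hy
            exact hx0 hy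
          rw [h1, pj_mul_left h2 h3, pj_prime (pp_pi h hπ' (pry_cop h hi).1), hs3, Multiset.map_cons, Multiset.prod_cons]
  exact key (Nm x) x rfl hx

/-- Chunk G1 (S). Conjugation: cj π is a prime element (H55K.cj_prime); span {cj π} = (span {π}).map cj; ps_map for e = cj and ps_inv ((-I) I = 1). -/
theorem ps_cj (h : GI I) {π : 𝓞 F} (hπ : Prime π) (hn : ¬ (1 + I) ∣ π) (x : 𝓞 F) :
    ps 4 I (Ideal.span {cj π}) (cj x) = cj (ps 4 I (Ideal.span {π}) x) := by
  have hsq := h.sq
  have hn' : ¬ (1 + I) ∣ cj π := by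
    intro h1
    apply hn
    obtain ⟨z, hz⟩ := h1
    have h2 := congrArg cj hz
    rw [H55K.cj_cj, map_mul, map_add, map_one, gi_cj h] at h2
    refine ⟨-I * cj z, ?_⟩
    rw [h2]
    linear_combination (cj z) * hsq
  have h1 : (Ideal.span {π}).map ((cj : 𝓞 F ≃+* 𝓞 F) : 𝓞 F →+* 𝓞 F) = Ideal.span {cj π} := by
    rw [Ideal.map_span, Set.image_singleton]
    rfl
  have h2 := ps_map (pp_pi h hπ hn) cj x
  rw [h1, gi_cj h] at h2
  rw [← h2]
  refine (ps_inv (pp_pi h (H55K.cj_prime hπ) hn') ?_ _).symm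
  linear_combination -hsq

/-- Chunk G1 (S/M). The types of primes: π divides the rational prime p (the prime number in the ideal (π)); p = π z, Nm p = p^2 = Nm π Nm z. Nm π = p: then π cj π = p (mul_cj). Nm π = p^2: z is a unit. -/
theorem pi_type (h : GI I) {π : 𝓞 F} (hπ : Prime π) : ∃ p : ℕ, p.Prime ∧
    ((Nm π = p ∧ π * cj π = (p : 𝓞 F)) ∨ (Nm π = p ^ 2 ∧ Associated π (p : 𝓞 F))) := by
  have h1 : π ∣ ((Nm π : ℕ) : 𝓞 F) := ⟨cj π, (H55K.mul_cj π).symm⟩
  have hne : Nm π ≠ 0 := fun h => hπ.ne_zero (g1_nm_zero.1 h)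
  have h2 : ∃ p : ℕ, p.Prime ∧ π ∣ (p : 𝓞 F) := by
    rw [← Nat.prod_primeFactorsList hne, Nat.cast_list_prod, hπ.dvd_prod_iff] at h1
    obtain ⟨a, ha, h3⟩ := h1
    obtain ⟨p, hp, rfl⟩ := List.mem_map.1 ha
    exact ⟨p, Nat.prime_of_mem_primeFactorsList hp, h3⟩
  obtain ⟨p, hp, z, hz⟩ := h2
  refine ⟨p, hp, ?_⟩
  have h3 : Nm π * Nm z = p ^ 2 := by
    rw [← H55K.Nm_mul, ← hz, H55K.Nm_nat]
  have h4 : Nm π ∣ p ^ 2 := ⟨_, h3.symm⟩
  obtain ⟨k, hk, h5⟩ := (Nat.dvd_prime_pow hp).1 h4
  have h6 : Nm π ≠ 1 := fun h => hπ.not_isUnit (g1_nm_one.1 h)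
  interval_cases k
  · rw [pow_zero] at h5
    exact absurd h5 h6
  · left
    rw [pow_one] at h5
    refine ⟨h5, ?_⟩
    rw [H55K.mul_cj, h5]
  · right
    refine ⟨h5, ?_⟩
    rw [h5] at h3
    have h7 : Nm z = 1 := by
      have h8 : p ^ 2 * Nm z = p ^ 2 * 1 := by rw [h3, mul_one]
      exact Nat.eq_of_mul_eq_mul_left (pow_pos hp.pos 2) h8
    rw [hz]
    exact associated_mul_unit_right π z (g1_nm_one.1 h7)

end H55W
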