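import Mathlib
import Pool.Agent.Lib.H55W.G1

/-! # H55W, part G: symbols of rational integers over rational integers -/

open NumberField IsDedekindDomain

namespace H55W

open H55P (IQ embF eF Nm)
open H55K (cj)

variable {F : Type} [Field F] [NumberField F] [IQ F] {I : 𝓞 F}

theorem g2_nm_dvd {x y : 𝓞 F} (h : x ∣ y) : Nm x ∣ Nm y := by
  obtain ⟨z, rfl⟩ := h
  exact ⟨Nm z, H55K.Nm_mul _ _⟩

theorem g2_two (h : GI I) : Nm (1 + I) = 2 := by
  have h1 := gi_nm h 1 1
  have e : (((1 : ℤ) : 𝓞 F) + ((1 : ℤ) : 𝓞 F) * I) = 1 + I := by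
    push_cast
    ring
  rw [e] at h1
  norm_num at h1
  exact_mod_cast h1

theorem g2_int (a : ℤ) : Nm (a : 𝓞 F) = a.natAbs ^ 2 := by
  rcases Int.natAbs_eq a with h | h
  · conv_lhs => rw [h]
    rw [Int.cast_natCast, H55K.Nm_nat]
  · conv_lhs => rw [h]
    have e : Nm (((-(a.natAbs : ℤ) : ℤ)) : 𝓞 F) = Nm ((a.natAbs : ℕ) : 𝓞 F) := by
      unfold Nm
      rw [Int.cast_neg, Int.cast_natCast, Ideal.span_singleton_neg]
    rw [e, H55K.Nm_nat]

/-- Chunk G2 (S/M). Splitting of the prime numbers: l = 1 mod 4: l = a^2 + b^2 (Nat.Prime.sq_add_sq), π = a + b I has norm l (gi_nm), so it is prime (Nm π a prime number: absNorm prime implies prime ideal: Ideal.isPrime_of_irreducible_absNorm, or pi_type style), π cj π = l, cj π is not associated to π: (π) and (cj π) are different, because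
otherwise π divides π + cj π = 2a and l = norm, so l divides 4a^2, l divides a, then b: contradiction to a^2 + b^2 = l. -/
theorem split_l (h : GI I) {l : ℕ} (hl : l.Prime) (h1 : l % 4 = 1) : ∃ π : 𝓞 F, Prime π ∧ ¬ (1 + I) ∣ π ∧ Nm π = l ∧
    π * cj π = (l : 𝓞 F) ∧ Ideal.span {π} ≠ Ideal.span {cj π} := by
  have : Fact l.Prime := ⟨hl⟩
  obtain ⟨a, b, hab⟩ := Nat.Prime.sq_add_sq (p := l) (by omega)
  set π : 𝓞 F := ((a : ℤ) : 𝓞 F) + ((b : ℤ) : 𝓞 F) * I with hπ
  have hN : Nm π = l := by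
    have h2 := gi_nm h (a : ℤ) (b : ℤ)
    rw [← hπ] at h2
    have h3 : ((Nm π : ℕ) : ℤ) = (l : ℤ) := by
      rw [h2, ← hab]
      push_cast
      rfl
    exact_mod_cast h3
  have hπ0 : π ≠ 0 := by
    intro h0
    rw [h0] at hN
    rw [g1_nm_zero.2 rfl] at hN
    exact hl.ne_zero hN.symm
  have hp : Prime π := by
    rw [← Ideal.span_singleton_prime hπ0]
    apply Ideal.isPrime_of_irreducible_absNorm
    show Irreducible (Nm π)
    rw [hN]
    exact hl
  have hcj : π * cj π = (l : 𝓞 F) := by rw [H55K.mul_cj, hN]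
  have hlodd : l % 2 = 1 := by omega
  refine ⟨π, hp, ?_, hN, hcj, ?_⟩
  · intro h2
    have h3 := g2_nm_dvd h2
    rw [g2_two h, hN] at h3
    omega
  · intro h2
    have h3 : π ∣ cj π := by
      rw [← Ideal.span_singleton_le_span_singleton, ← h2]
    have h4 : cj π = ((a : ℤ) : 𝓞 F) - ((b : ℤ) : 𝓞 F) * I := by
      rw [hπ, map_add, map_mul, H55K.cj_int, H55K.cj_int, gi_cj h]
      ring
    have h5 : π ∣ (((2 * a : ℤ)) : 𝓞 F) := by
      have h6 : π ∣ π + cj π := dvd_add dvd_rfl h3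
      have h7 : π + cj π = (((2 * a : ℤ)) : 𝓞 F) := by
        rw [h4, hπ]
        push_cast
        ring
      rwa [h7] at h6
    have h6 := g2_nm_dvd h5
    rw [hN, g2_int] at h6
    have h7 : l ∣ 2 * a := by
      have h8 := hl.dvd_of_dvd_pow h6
      have h9 : (2 * (a : ℤ)).natAbs = 2 * a := by
        rw [Int.natAbs_mul, Int.natAbs_natCast]
        rfl
      rwa [h9] at h8
    have h8 : l ∣ a := by
      rcases (Nat.Prime.dvd_mul hl).1 h7 with h9 | h9
      · exfalso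
        have h10 := Nat.le_of_dvd (by norm_num) h9
        have h11 := hl.two_le
        omega
      · exact h9
    have h9 : l ∣ b ^ 2 := by
      have h10 : l ∣ a ^ 2 := dvd_pow h8 two_ne_zero
      have h11 : l ∣ a ^ 2 + b ^ 2 := by rw [hab]
      exact (Nat.dvd_add_right h10).1 h11
    have h10 : l ∣ b := hl.dvd_of_dvd_pow h9
    have h11 : l ^ 2 ∣ l := by
      have h12 : l ^ 2 ∣ a ^ 2 + b ^ 2 := dvd_add (pow_dvd_pow_of_dvd h8 2) (pow_dvd_pow_of_dvd h10 2)
      rwa [hab] at h12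
    have h12 := Nat.le_of_dvd hl.pos h11
    have h13 := hl.two_le
    nlinarith

/-- Chunk G2 (S). l = 3 mod 4 is a prime element of 𝓞 F: an irreducible factor π of l has norm l or l^2 (norm l = a^2 + b^2 is impossible modulo 4: gi_nm, GI.rep; l^2: associated). -/
theorem inert_l (h : GI I) {l : ℕ} (hl : l.Prime) (h3 : l % 4 = 3) : Prime (l : 𝓞 F) := by
  have hu : ¬ IsUnit (l : 𝓞 F) := by
    intro h1
    have h2 := g1_nm_one.2 h1
    rw [H55K.Nm_nat] at h2
    have h4 := hl.two_le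
    nlinarith
  have h0 : (l : 𝓞 F) ≠ 0 := by exact_mod_cast hl.ne_zero
  obtain ⟨π, hπ, z, hz⟩ := WfDvdMonoid.exists_irreducible_factor hu h0
  have hπp : Prime π := hπ.prime
  have h5 : Nm π * Nm z = l ^ 2 := by
    rw [← H55K.Nm_mul, ← hz, H55K.Nm_nat]
  have h4 : Nm π ∣ l ^ 2 := ⟨_, h5.symm⟩
  obtain ⟨k, hk, h6⟩ := (Nat.dvd_prime_pow hl).1 h4
  have h7 : Nm π ≠ 1 := fun h => hπp.not_isUnit (g1_nm_one.1 h)
  interval_cases k
  · rw [pow_zero] at h6
    exact absurd h6 h7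
  · exfalso
    rw [pow_one] at h6
    obtain ⟨a, b, hab⟩ := h.rep π
    have h8 := gi_nm h a b
    rw [← hab, h6] at h8
    have h9 : (a ^ 2 + b ^ 2) % 4 = 3 := by
      rw [← h8]
      omega
    have ha : a % 4 = 0 ∨ a % 4 = 1 ∨ a % 4 = 2 ∨ a % 4 = 3 := by omega
    have hb : b % 4 = 0 ∨ b % 4 = 1 ∨ b % 4 = 2 ∨ b % 4 = 3 := by omega
    rcases ha with ha | ha | ha | ha <;> rcases hb with hb | hb | hb | hb <;>
      simp [Int.add_emod, pow_two, Int.mul_emod, ha, hb] at h9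
  · rw [h6] at h5
    have h8 : Nm z = 1 := by
      have h9 : l ^ 2 * Nm z = l ^ 2 * 1 := by rw [h5, mul_one]
      exact Nat.eq_of_mul_eq_mul_left (pow_pos hl.pos 2) h9
    have h9 : Associated π (l : 𝓞 F) := by
      rw [hz]
      exact associated_mul_unit_right π z (g1_nm_one.1 h8)
    exact h9.prime hπp

theorem g2_odd (h : GI I) {l : ℕ} (hl : l % 2 = 1) : ¬ (1 + I) ∣ (l : 𝓞 F) := by
  intro h1
  have h2 := g2_nm_dvd h1
  rw [g2_two h, H55K.Nm_nat] at h2
  have h3 := Nat.prime_two.dvd_of_dvd_pow h2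
  omega

/-- A prime number. -/
theorem g2_prime (h : GI I) {l : ℕ} (hl : l.Prime) (hodd : l % 2 = 1) {a : ℤ} (ha : IsCoprime a (l : ℤ)) :
    pj 4 I (Ideal.span {(l : 𝓞 F)}) (a : 𝓞 F) = 1 := by
  have h4 : l % 4 = 1 ∨ l % 4 = 3 := by omega
  rcases h4 with h4 | h4
  · obtain ⟨π, hp, hn, hN, hcj, hne⟩ := split_l h hl h4
    have hcp : Prime (cj π) := H55K.cj_prime hp
    have hsq := h.sq
    have hn' : ¬ (1 + I) ∣ cj π := by
      intro h1
      have h2 := g2_nm_dvd h1
      rw [g2_two h, H55K.Nm_cj, hN] at h2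
      omega
    have e1 : Ideal.span {(l : 𝓞 F)} = Ideal.span {π} * Ideal.span {cj π} := by
      rw [Ideal.span_singleton_mul_span_singleton, hcj]
    have b1 : Ideal.span {π} ≠ ⊥ := by
      rw [Ne, Ideal.span_singleton_eq_bot]
      exact hp.ne_zero
    have b2 : Ideal.span {cj π} ≠ ⊥ := by
      rw [Ne, Ideal.span_singleton_eq_bot]
      exact hcp.ne_zero
    rw [e1, pj_mul_left b1 b2, pj_prime (pp_pi h hp hn), pj_prime (pp_pi h hcp hn')]
    have h5 := ps_cj h hp hn (a : 𝓞 F)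
    rw [H55K.cj_int] at h5
    rw [h5]
    have h6 : (a : 𝓞 F) ∉ Ideal.span {π} := by
      intro h7
      have h8 := g2_nm_dvd (Ideal.mem_span_singleton.1 h7)
      rw [hN, g2_int] at h8
      have h9 : l ∣ a.natAbs := hl.dvd_of_dvd_pow h8
      have h10 : (l : ℤ) ∣ a := Int.natCast_dvd.2 h9
      have h11 := ha.isUnit_of_dvd' h10 dvd_rfl
      rw [Int.isUnit_iff] at h11
      have h12 := hl.two_le
      omega
    obtain ⟨i, hi⟩ := (ps_spec (pp_pi h hp hn) h6).1
    rw [hi, map_pow, gi_cj h, ← mul_pow]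
    have h7 : I * -I = 1 := by linear_combination -hsq
    rw [h7, one_pow]
  · have hp := inert_l h hl h4
    have hpp := pp_pi h hp (g2_odd h hodd)
    rw [pj_prime hpp]
    have h5 : ps 4 I (Ideal.span {(l : 𝓞 F)}) (a : 𝓞 F) = I ^ 0 := by
      apply ps_uniq hpp
      have hN : Ideal.absNorm (Ideal.span {(l : 𝓞 F)}) = l ^ 2 := H55K.Nm_nat l
      rw [hN, pow_zero]
      obtain ⟨k, hk⟩ : ∃ k, l = 4 * k + 3 := ⟨l / 4, by omega⟩
      have h6 : (l ^ 2 - 1) / 4 = (l - 1) * (k + 1) := by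
        have h7 : l ^ 2 - 1 = 4 * ((l - 1) * (k + 1)) := by
          rw [hk]
          have h8 : 4 * k + 3 - 1 = 4 * k + 2 := by omega
          rw [h8]
          have h9 : (4 * k + 3) ^ 2 = 4 * ((4 * k + 2) * (k + 1)) + 1 := by ring
          omega
        rw [h7]
        exact Nat.mul_div_cancel_left _ (by norm_num)
      rw [h6, pow_mul]
      have h7 := (Int.ModEq.pow_card_sub_one_eq_one hl ha).pow (k + 1)
      rw [one_pow] at h7
      have h8 : (l : ℤ) ∣ (a ^ (l - 1)) ^ (k + 1) - 1 := h7.symm.dvd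
      obtain ⟨c, hc⟩ := h8
      rw [Ideal.mem_span_singleton]
      refine ⟨(c : 𝓞 F), ?_⟩
      have h9 := congrArg (fun z : ℤ => (z : 𝓞 F)) hc
      push_cast at h9
      exact h9
    rw [h5, pow_zero]

/-- Chunk G2 (M). n = l a prime number, a prime to l. l = 3 mod 4: a^((l^2-1)/4) = (a^(l-1))^((l+1)/4) is 1 modulo l (Fermat: Int.ModEq.pow_card_sub_one_eq_one or ZMod.pow_card_sub_one_eq_one), ps_uniq with i = 0, Nm l = l^2 (Nm_nat), pj_prime. l = 1 mod 4: (l) = (π)(cj π) (split_l), pj_mul_left, pj_prime, z = ps (π) a, ps (cj π) a = cj z (ps_cj, cj_int),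
z = I^i (ps_spec), z cj z = I^i (-I)^i = 1 (gi_cj). General n by induction on the prime factors of |n| (Nat.recOnMul or induction_on_primes; span {-n} = span {n}; pj_mul_left; n = 1: pj_top). -/
theorem rat_rat (h : GI I) {n a : ℤ} (hn : n % 2 = 1) (ha : IsCoprime a n) : pj 4 I (Ideal.span {(n : 𝓞 F)}) (a : 𝓞 F) = 1 := by
  have key : ∀ N : ℕ, N % 2 = 1 → IsCoprime a (N : ℤ) → pj 4 I (Ideal.span {(N : 𝓞 F)}) (a : 𝓞 F) = 1 := by
    intro N
    induction N using induction_on_primes with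
    | zero =>
      intro h1
      norm_num at h1
    | one =>
      intro _ _
      rw [Nat.cast_one, Ideal.span_singleton_one, pj_top]
    | prime_mul p N hp ih =>
      intro h1 h2
      have h3 : p % 2 = 1 ∧ N % 2 = 1 := by
        rw [Nat.mul_mod] at h1
        have h4 : p % 2 = 0 ∨ p % 2 = 1 := by omega
        have h5 : N % 2 = 0 ∨ N % 2 = 1 := by omega
        rcases h4 with h4 | h4 <;> rcases h5 with h5 | h5 <;> rw [h4, h5] at h1 <;> simp at h1
        exact ⟨h4, h5⟩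
      rw [Nat.cast_mul] at h2
      have h4 : IsCoprime a (p : ℤ) := h2.of_mul_right_left
      have h5 : IsCoprime a (N : ℤ) := h2.of_mul_right_right
      have hN0 : N ≠ 0 := by
        rintro rfl
        omega
      have e1 : Ideal.span {((p * N : ℕ) : 𝓞 F)} = Ideal.span {(p : 𝓞 F)} * Ideal.span {(N : 𝓞 F)} := by
        rw [Ideal.span_singleton_mul_span_singleton, Nat.cast_mul]
      have b1 : Ideal.span {(p : 𝓞 F)} ≠ ⊥ := by
        rw [Ne, Ideal.span_singleton_eq_bot]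
        exact_mod_cast hp.ne_zero
      have b2 : Ideal.span {(N : 𝓞 F)} ≠ ⊥ := by
        rw [Ne, Ideal.span_singleton_eq_bot]
        exact_mod_cast hN0
      rw [e1, pj_mul_left b1 b2, g2_prime h hp h3.1 h4, ih h3.2 h5, one_mul]
  have h1 : Ideal.span {(n : 𝓞 F)} = Ideal.span {((n.natAbs : ℕ) : 𝓞 F)} := by
    rcases Int.natAbs_eq n with h2 | h2
    · conv_lhs => rw [h2]
      rw [Int.cast_natCast]
    · conv_lhs => rw [h2]
      rw [Int.cast_neg, Int.cast_natCast, Ideal.span_singleton_neg]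
  rw [h1]
  refine key n.natAbs (by omega) ?_
  rcases Int.natAbs_eq n with h2 | h2
  · rwa [← h2]
  · have h3 : (n.natAbs : ℤ) = -n := by omega
    rw [h3]
    exact ha.neg_right

end H55W
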