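import Mathlib
import Pool.Agent.Lib.H55W.G0
import Pool.Agent.Lib.H55W.S2

/-! # H55W, part G: the Jacobi sum J(χ, χ^2) of a quartic character -/

open NumberField IsDedekindDomain

namespace H55W

open H55P (IQ embF eF Nm)
open H55K (cj)

variable {F : Type} [Field F] [NumberField F] [IQ F] {I : 𝓞 F}

/-- The quartic character of k = 𝓞 F ⧸ P, the norm of P being a prime number p. -/
structure QC (I : 𝓞 F) (P : Ideal (𝓞 F)) (p : ℕ) (k : Type) [Field k] [Fintype k] (φ : 𝓞 F →+* k) (χ : MulChar k (𝓞 F)) : Prop where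
  gi : GI I
  pp : PP 4 I P
  prime : p.Prime
  norm : Ideal.absNorm P = p
  surj : Function.Surjective φ
  ker : RingHom.ker φ = P
  card : Fintype.card k = p
  order : orderOf χ = 4
  chi : ∀ x : 𝓞 F, χ (φ x) = ps 4 I P x

variable {P : Ideal (𝓞 F)} {p : ℕ} {k : Type} [Field k] [Fintype k] {φ : 𝓞 F →+* k} {χ : MulChar k (𝓞 F)}

/-- Chunk G3A (S). p - 1 is divisible by 4 (ps_dvd, h.norm). -/
theorem qc_p (h : QC I P p k φ χ) : p % 4 = 1 := by
  obtain ⟨h1, _, h3⟩ := ps_dvd h.pp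
  rw [h.norm] at h1 h3
  omega

theorem g3a_pos (h : QC I P p k φ χ) : 0 < (p - 1) / 4 ∧ p - 1 = 4 * ((p - 1) / 4) := by
  have h1 := qc_p h
  have h2 := h.prime.two_le
  omega

theorem g3a_phi (h : QC I P p k φ χ) (y : k) : φ (χ y) = y ^ ((p - 1) / 4) := by
  obtain ⟨x, rfl⟩ := h.surj y
  rw [h.chi]
  by_cases hx : x ∈ P
  · rw [ps_zero h.pp hx, map_zero]
    have h1 : φ x = 0 := by
      rw [← RingHom.mem_ker, h.ker]
      exact hx
    rw [h1, zero_pow (g3a_pos h).1.ne']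
  · have h1 := (ps_spec h.pp hx).2
    have h2 : x ^ ((Ideal.absNorm P - 1) / 4) - ps 4 I P x ∈ RingHom.ker φ := by
      rw [h.ker]
      exact h1
    rw [RingHom.mem_ker, map_sub, map_pow, sub_eq_zero, h.norm] at h2
    exact h2.symm

theorem g3a_pow (h : QC I P p k φ χ) {y : k} (hy : y ≠ 0) : ∃ i : ℕ, χ y = I ^ i := by
  obtain ⟨x, rfl⟩ := h.surj y
  rw [h.chi]
  have hx : x ∉ P := by
    intro h1
    apply hy
    rw [← RingHom.mem_ker, h.ker]
    exact h1
  exact (ps_spec h.pp hx).1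

theorem g3a_ne (h : QC I P p k φ χ) {j : ℕ} (h0 : 0 < j) (h4 : j < 4) : χ ^ j ≠ 1 := by
  intro h1
  have h2 := orderOf_dvd_of_pow_eq_one h1
  rw [h.order] at h2
  have h3 := Nat.le_of_dvd h0 h2
  omega

open Polynomial in
theorem g3a_sum (k : Type) [Field k] [Fintype k] {m : ℕ} (hm : Fintype.card k - 1 = 4 * m)
    (hm0 : 0 < m) : ∑ x : k, x ^ m * (1 - x) ^ (2 * m) = 0 := by
  set Q : k[X] := X ^ m * (1 - X) ^ (2 * m) with hQ
  have hdeg : Q.natDegree ≤ 3 * m := by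
    have h1 : (1 - X : k[X]).natDegree ≤ 1 :=
      (natDegree_sub_le _ _).trans (by simp)
    refine (natDegree_mul_le).trans ?_
    have h2 := natDegree_pow_le_of_le (2 * m) h1
    have h3 : (X ^ m : k[X]).natDegree ≤ m := by simp
    omega
  have h1 : ∀ x : k, x ^ m * (1 - x) ^ (2 * m) = ∑ i ∈ Finset.range (3 * m + 1), Q.coeff i * x ^ i := by
    intro x
    rw [← Polynomial.eval_eq_sum_range' (by omega) x, hQ]
    simp
  simp only [h1]
  rw [Finset.sum_comm]
  refine Finset.sum_eq_zero fun i hi => ?_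
  rw [← Finset.mul_sum, FiniteField.sum_pow_lt_card_sub_one k i (by have := Finset.mem_range.mp hi; omega), mul_zero]

/-- Chunk G3A (M). φ (J) = sum over y of φ (χ y) φ (χ^2 (1 - y)) = sum of y^m (1 - y)^(2m), m = (p - 1)/4: for y = φ x, φ (χ y) = φ (ps x) = y^m (ps_spec if x is not in P; both 0 otherwise, m > 0). The polynomial X^m (1 - X)^(2m) has degree 3m < p - 1 = card k - 1: the sum over k of its values is 0
(FiniteField.sum_pow_lt_card_sub_one; compare E2_sum_poly in H55B/E2.lean, a port). jacobiSum (unfold), Fintype sums, MulChar.pow_apply'. -/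
theorem qc_mem (h : QC I P p k φ χ) : jacobiSum χ (χ ^ 2) ∈ P := by
  rw [← h.ker, RingHom.mem_ker]
  unfold jacobiSum
  rw [map_sum]
  obtain ⟨hm0, hm⟩ := g3a_pos h
  rw [← g3a_sum k (by rw [h.card]; exact hm) hm0]
  refine Finset.sum_congr rfl fun y _ => ?_
  rw [map_mul, g3a_phi h, MulChar.pow_apply' χ two_ne_zero, map_pow, g3a_phi h, ← pow_mul, mul_comm 2]

/-- Chunk G3A (M). The sum S over all y in k of (χ^2 y - 1)(χ (1 - y) - 1) is J - sum χ^2 - sum χ(1 - y) + p = J + p (MulChar.sum_eq_zero_of_ne_one: χ, χ^2 ≠ 1 by order; change of variable y to 1 - y: Equiv.subLeft; J = jacobiSum χ (χ^2) = sum χ y χ^2 (1 - y) = sum χ^2 y χ (1 - y), jacobiSum_comm). Each term is divisible by 2 + 2I = 2 (1 + I): y = 0: χ 1 - 1 = 0; y = 1: χ^2 1 - 1 = 0;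
otherwise χ^2 y = 1 or -1, and χ (1 - y) is a power of I (ps_spec; χ z is a power of I for z ≠ 0), I^i - 1 is divisible by I - 1 = I (1 + I). p - 1 is divisible by 4 = (2 + 2I)(1 - I). So 2 + 2I divides J + p and p - 1... J + 1 = (J + p) - (p - 1). -/
theorem qc_cong (h : QC I P p k φ χ) : 2 + 2 * I ∣ jacobiSum χ (χ ^ 2) + 1 := by
  have hsq := h.gi.sq
  have hterm : ∀ y : k, 2 + 2 * I ∣ ((χ ^ 2) y - 1) * (χ (1 - y) - 1) := by
    intro y
    by_cases h0 : y = 0
    · rw [h0, sub_zero, map_one, sub_self, mul_zero]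
      exact dvd_zero _
    by_cases h1 : y = 1
    · rw [h1, map_one, sub_self, zero_mul]
      exact dvd_zero _
    obtain ⟨i, hi⟩ := g3a_pow h h0
    obtain ⟨j, hj⟩ := g3a_pow h (sub_ne_zero.2 (Ne.symm h1))
    have e : (2 : 𝓞 F) + 2 * I = 2 * (1 + I) := by ring
    rw [MulChar.pow_apply' χ two_ne_zero, hi, hj, e]
    refine mul_dvd_mul ?_ ?_
    · rw [← pow_mul, mul_comm, pow_mul, hsq]
      rcases neg_one_pow_eq_or (𝓞 F) i with h2 | h2
      · rw [h2, sub_self]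
        exact dvd_zero _
      · rw [h2]
        exact ⟨-1, by ring⟩
    · have h2 : 1 + I ∣ I - 1 := ⟨I, by linear_combination -hsq⟩
      refine h2.trans ?_
      have h3 := sub_dvd_pow_sub_pow I 1 j
      rwa [one_pow] at h3
  have hsum : ∑ y : k, ((χ ^ 2) y - 1) * (χ (1 - y) - 1) = jacobiSum χ (χ ^ 2) + (p : 𝓞 F) := by
    have e1 : ∀ y : k, ((χ ^ 2) y - 1) * (χ (1 - y) - 1) = (χ ^ 2) y * χ (1 - y) - (χ ^ 2) y - χ (1 - y) + 1 := by
      intro y
      ring
    simp only [e1]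
    rw [Finset.sum_add_distrib, Finset.sum_sub_distrib, Finset.sum_sub_distrib]
    have e2 : ∑ y : k, (χ ^ 2) y * χ (1 - y) = jacobiSum χ (χ ^ 2) := by
      rw [jacobiSum_comm]
      rfl
    have e3 : ∑ y : k, (χ ^ 2) y = 0 := MulChar.sum_eq_zero_of_ne_one (g3a_ne h (by norm_num) (by norm_num))
    have e4 : ∑ y : k, χ (1 - y) = 0 := by
      have h5 : χ ≠ 1 := by
        have h6 := g3a_ne h (j := 1) (by norm_num) (by norm_num)
        rwa [pow_one] at h6
      rw [← MulChar.sum_eq_zero_of_ne_one h5]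
      exact Equiv.sum_comp (Equiv.subLeft (1 : k)) fun y => χ y
    rw [e2, e3, e4, Finset.sum_const, Finset.card_univ, h.card, nsmul_eq_mul, mul_one]
    ring
  have h1 : 2 + 2 * I ∣ jacobiSum χ (χ ^ 2) + (p : 𝓞 F) := by
    rw [← hsum]
    exact Finset.dvd_sum fun y _ => hterm y
  have h2 : 2 + 2 * I ∣ (p : 𝓞 F) - 1 := by
    obtain ⟨_, hm⟩ := g3a_pos h
    have hp := h.prime.two_le
    have h3 : (p : 𝓞 F) = 4 * (((p - 1) / 4 : ℕ) : 𝓞 F) + 1 := by
      have h4 : p = 4 * ((p - 1) / 4) + 1 := by omega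
      have h5 := congrArg (fun n : ℕ => (n : 𝓞 F)) h4
      push_cast at h5
      exact h5
    refine ⟨(1 - I) * (((p - 1) / 4 : ℕ) : 𝓞 F), ?_⟩
    rw [h3]
    linear_combination (2 * (((p - 1) / 4 : ℕ) : 𝓞 F)) * hsq
  have h3 := dvd_sub h1 h2
  have e : jacobiSum χ (χ ^ 2) + (p : 𝓞 F) - ((p : 𝓞 F) - 1) = jacobiSum χ (χ ^ 2) + 1 := by ring
  rwa [e] at h3

end H55W
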