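import Mathlib
import Pool.Agent.Lib.H55W.G3A

/-! # H55W, part G: the Jacobi sum J(χ, χ^2) of a quartic character -/

open NumberField IsDedekindDomain

namespace H55W

open H55P (IQ embF eF Nm)
open H55K (cj)

variable {F : Type} [Field F] [NumberField F] [IQ F] {I : 𝓞 F} {P : Ideal (𝓞 F)} {p : ℕ} {k : Type} [Field k] [Fintype k] {φ : 𝓞 F →+* k} {χ : MulChar k (𝓞 F)}

theorem g3b_cj (h : QC I P p k φ χ) (y : k) : cj (χ y) = (χ⁻¹) y := by
  have h4 : χ ^ 4 = 1 := by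
    rw [← h.order]
    exact pow_orderOf_eq_one χ
  have hinv : χ⁻¹ = χ ^ 3 := by
    rw [inv_eq_iff_mul_eq_one, ← pow_succ', h4]
  rw [hinv, MulChar.pow_apply' χ (by norm_num)]
  by_cases hy : y = 0
  · have h1 : χ y = 0 := by
      rw [hy]
      exact χ.map_zero
    rw [h1, map_zero]
    norm_num
  · obtain ⟨i, hi⟩ := g3a_pow h hy
    have hsq := h.gi.sq
    rw [hi, map_pow, gi_cj h.gi, ← pow_mul, mul_comm i 3, pow_mul]
    congr 1
    linear_combination (-I) * hsq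

/-- Chunk G3B (M). Port of H55B.E2_abs (H55B/E2.lean): jacobiSum_mul_jacobiSum_inv in the field F (characteristic 0) for χ, χ^2 (χ, χ^2, χ^3 ≠ 1), jacobiSum_ringHomComp for algebraMap (𝓞 F) F (injective); J(χ⁻¹, (χ^2)⁻¹) = cj J because cj (χ y) = χ⁻¹ y (the values are powers of I: cj (I^i) = (-I)^i = I^(3i), gi_cj). -/
theorem qc_abs (h : QC I P p k φ χ) : jacobiSum χ (χ ^ 2) * cj (jacobiSum χ (χ ^ 2)) = (p : 𝓞 F) := by
  classical
  have hcjJ : cj (jacobiSum χ (χ ^ 2)) = jacobiSum χ⁻¹ (χ ^ 2)⁻¹ := by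
    unfold jacobiSum
    rw [map_sum]
    refine Finset.sum_congr rfl fun y _ => ?_
    rw [map_mul, g3b_cj h, MulChar.pow_apply' χ two_ne_zero, map_pow, g3b_cj h, ← inv_pow,
      MulChar.pow_apply' χ⁻¹ two_ne_zero]
  rw [hcjJ]
  have hinj : Function.Injective (algebraMap (𝓞 F) F) := FaithfulSMul.algebraMap_injective (𝓞 F) F
  set ψ : MulChar k F := χ.ringHomComp (algebraMap (𝓞 F) F) with hψ
  have hpow : ∀ j : ℕ, ψ ^ j = (χ ^ j).ringHomComp (algebraMap (𝓞 F) F) := by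
    intro j
    rw [hψ, MulChar.ringHomComp_pow]
  have hne : ∀ j : ℕ, 0 < j → j < 4 → ψ ^ j ≠ 1 := by
    intro j h0 h4
    rw [hpow]
    exact (MulChar.ringHomComp_ne_one_iff hinj).mpr (g3a_ne h h0 h4)
  have hψ1 : ψ ≠ 1 := by
    have h1 := hne 1 (by norm_num) (by norm_num)
    rwa [pow_one] at h1
  have hψ2 : ψ ^ 2 ≠ 1 := hne 2 (by norm_num) (by norm_num)
  have hψ3 : ψ * ψ ^ 2 ≠ 1 := by
    rw [← pow_succ']
    exact hne 3 (by norm_num) (by norm_num)
  have hchar : ringChar F ≠ ringChar k := by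
    rw [ringChar.eq F 0]
    exact (CharP.char_ne_zero_of_finite k (ringChar k)).symm
  have h1 := jacobiSum_mul_jacobiSum_inv hchar hψ1 hψ2 hψ3
  have hψinv : ψ⁻¹ = (χ⁻¹).ringHomComp (algebraMap (𝓞 F) F) := by
    rw [hψ, MulChar.ringHomComp_inv]
  have hψ2inv : (ψ ^ 2)⁻¹ = ((χ ^ 2)⁻¹).ringHomComp (algebraMap (𝓞 F) F) := by
    rw [hpow, MulChar.ringHomComp_inv]
  rw [hψ2inv, hψinv, hpow, hψ, jacobiSum_ringHomComp, jacobiSum_ringHomComp, ← map_mul, h.card] at h1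
  apply hinj
  rw [h1, map_natCast]

/-- Chunk G3B (S/M). π divides J (qc_mem): J = π z. Nm J = p (mul_cj, qc_abs) and Nm π = p (absNorm of P), so Nm z = 1, z is a unit (Ideal.absNorm_eq_one_iff), -z = I^i (gi_unit; -1 = I^2). -J is primary (qc_cong), π is, so -z is (pry_of_mul), so -z = 1 (gi_uniq). -/
theorem qc_jac (h : QC I P p k φ χ) {π : 𝓞 F} (hπ : P = Ideal.span {π}) (hp : Pry I π) : jacobiSum χ (χ ^ 2) = -π := by
  have h1 := qc_mem h
  rw [hπ, Ideal.mem_span_singleton] at h1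
  obtain ⟨z, hz⟩ := h1
  have hNJ : Nm (jacobiSum χ (χ ^ 2)) = p := by
    have h2 := H55K.mul_cj (jacobiSum χ (χ ^ 2))
    rw [qc_abs h] at h2
    exact_mod_cast h2.symm
  have hNπ : Nm π = p := by
    show Ideal.absNorm (Ideal.span {π}) = p
    rw [← hπ, h.norm]
  have hNz : Nm z = 1 := by
    rw [hz, H55K.Nm_mul, hNπ] at hNJ
    exact Nat.eq_of_mul_eq_mul_left h.prime.pos (by rw [hNJ, mul_one])
  have hu : IsUnit z := by
    rw [← Ideal.span_singleton_eq_top, ← Ideal.absNorm_eq_one_iff]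
    exact hNz
  obtain ⟨i, hi⟩ := gi_unit h.gi hu.neg
  have h2 : Pry I (π * -z) := by
    obtain ⟨w, hw⟩ := qc_cong h
    refine ⟨-w, ?_⟩
    rw [hz] at hw
    linear_combination -hw
  have h3 : Pry I (-z) := pry_of_mul hp h2
  have h4 : -z = 1 := by
    rw [hi]
    exact gi_uniq h.gi (by rw [← hi]; exact h3)
  have h5 : z = -1 := by
    rw [← h4, neg_neg]
  rw [hz, h5, mul_neg, mul_one]

end H55W
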