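import Mathlib

/-! # H55W, part G: quartic Gauss sums in characteristic l (pure Mathlib) -/

namespace H55W

variable {k0 R' : Type} [Field k0] [Fintype k0] [Field R']

/-- Chunk G4A (M). g1, g2, g3 = gaussSum of χ, χ^2, χ^3 (ψ fixed). jacobiSum_mul_nontrivial for χ * χ^2 = χ^3 ≠ 1: g3 J = g1 g2. gaussSum_mul_gaussSum_eq_card / gaussSum_sq for the quadratic character χ^2 (IsQuadratic? use: χ^2 ≠ 1, (χ^2)⁻¹ = χ^2): g2^2 = χ^2(-1) card = card (χ(-1)^2 = χ(1) = 1). g1 g3 = χ(-1) card: χ^3 = χ⁻¹, gaussSum χ ψ * gaussSum χ⁻¹ ψ⁻¹ = card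
(gaussSum_mul_gaussSum_eq_card) and gaussSum χ⁻¹ ψ⁻¹ = χ(-1) gaussSum χ⁻¹ ψ (gaussSum_mulShift with the unit -1; AddChar.inv_mulShift). g3 ≠ 0 (gaussSum_ne_zero_of_nontrivial). J^2 g3^2 = g1^2 card, multiply by g1^2: J^2 card^2 = g1^4 card, divide by card ≠ 0. -/
theorem gs_four (χ : MulChar k0 R') (h4 : orderOf χ = 4) (ψ : AddChar k0 R') (hψ : ψ.IsPrimitive)
    (hq : (Fintype.card k0 : R') ≠ 0) :
    gaussSum χ ψ ^ 4 = (Fintype.card k0 : R') * jacobiSum χ (χ ^ 2) ^ 2 ∧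
      gaussSum χ ψ * gaussSum (χ ^ 3) ψ = χ (-1) * (Fintype.card k0 : R') ∧ gaussSum χ ψ ≠ 0 := by
  have hc1 : χ ≠ 1 := by
    rintro rfl
    rw [orderOf_one] at h4
    omega
  have hp4 : χ ^ 4 = 1 := by rw [← h4]; exact pow_orderOf_eq_one χ
  have hc2 : χ ^ 2 ≠ 1 := fun h => by
    have := orderOf_dvd_of_pow_eq_one h
    rw [h4] at this
    omega
  have hc3 : χ ^ 3 ≠ 1 := fun h => by
    have := orderOf_dvd_of_pow_eq_one h
    rw [h4] at this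
    omega
  have hneg : χ (-1) ^ 2 = 1 := by
    rw [← map_pow]
    simp
  have hg1 : gaussSum χ ψ ≠ 0 := gaussSum_ne_zero_of_nontrivial hq hc1 hψ
  have h13 : gaussSum χ ψ * gaussSum (χ ^ 3) ψ = χ (-1) * (Fintype.card k0 : R') := by
    have h := gaussSum_mul_gaussSum_pow_orderOf_sub_one hc1 hψ
    rw [h4] at h
    exact h
  have hinv : (χ ^ 2)⁻¹ = χ ^ 2 := by
    rw [inv_eq_iff_mul_eq_one, ← pow_add]
    exact hp4
  have h22 : gaussSum (χ ^ 2) ψ * gaussSum (χ ^ 2) ψ = (Fintype.card k0 : R') := by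
    have h := gaussSum_mul_gaussSum_eq_card hc2 hψ
    have h' := mul_gaussSum_inv_eq_gaussSum (χ ^ 2) ψ
    rw [MulChar.pow_apply' χ two_ne_zero, hneg, one_mul] at h'
    rw [hinv, h'] at h
    exact h
  have hJ : gaussSum (χ ^ 3) ψ * jacobiSum χ (χ ^ 2) = gaussSum χ ψ * gaussSum (χ ^ 2) ψ := by
    have h := jacobiSum_mul_nontrivial (χ := χ) (φ := χ ^ 2) (by rw [← pow_succ']; exact hc3) ψ
    rw [← pow_succ'] at h
    exact h
  refine ⟨?_, h13, hg1⟩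
  set g1 := gaussSum χ ψ
  set g2 := gaussSum (χ ^ 2) ψ
  set g3 := gaussSum (χ ^ 3) ψ
  set J := jacobiSum χ (χ ^ 2)
  set q : R' := (Fintype.card k0 : R')
  have e1 : χ (-1) * q * J = g1 ^ 2 * g2 := by
    rw [← h13, mul_assoc, hJ]
    ring
  have e2 : q * (g1 ^ 4) = q * (q * J ^ 2) := by
    have e3 : (χ (-1) * q * J) ^ 2 = (g1 ^ 2 * g2) ^ 2 := by rw [e1]
    have e4 : (χ (-1) * q * J) ^ 2 = q * (q * J ^ 2) := by
      calc (χ (-1) * q * J) ^ 2 = χ (-1) ^ 2 * (q * (q * J ^ 2)) := by ring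
        _ = q * (q * J ^ 2) := by rw [hneg, one_mul]
    have e5 : (g1 ^ 2 * g2) ^ 2 = q * g1 ^ 4 := by
      calc (g1 ^ 2 * g2) ^ 2 = (g2 * g2) * g1 ^ 4 := by ring
        _ = q * g1 ^ 4 := by rw [h22]
    rw [← e5, ← e3, e4]
  exact mul_left_cancel₀ hq e2

/-- Chunk G4B (M). Compare H35T.r2_abs in H35T/R2.lean. gaussSum_frob l: g^l = gaussSum (χ^l) (ψ^l) = gaussSum χ (mulShift ψ l) (l = 4t + 1, χ^l = χ; AddChar.pow_mulShift); gaussSum_mulShift with the unit l: χ(l) g^l = g; g^l = (g^4)^t g (gs_four). Cancel g. -/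
theorem gs_one (l : ℕ) [Fact l.Prime] [CharP R' l] (hl : (l : k0) ≠ 0) (χ : MulChar k0 R') (h4 : orderOf χ = 4)
    (ψ : AddChar k0 R') (hψ : ψ.IsPrimitive) (hq : (Fintype.card k0 : R') ≠ 0) (t : ℕ) (ht : l = 4 * t + 1) :
    χ (l : k0) * ((Fintype.card k0 : R') * jacobiSum χ (χ ^ 2) ^ 2) ^ t = 1 := by
  obtain ⟨h1, -, hg⟩ := gs_four χ h4 ψ hψ hq
  have hp4 : χ ^ 4 = 1 := by rw [← h4]; exact pow_orderOf_eq_one χ
  have h2 : gaussSum χ ψ ^ l = gaussSum χ (AddChar.mulShift ψ (l : k0)) := by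
    rw [gaussSum_frob l, AddChar.pow_mulShift]
    congr 1
    rw [ht, pow_succ, pow_mul, hp4, one_pow, one_mul]
  have h3 := gaussSum_mulShift χ ψ (Units.mk0 _ hl)
  rw [Units.val_mk0, ← h2] at h3
  have h5 : gaussSum χ ψ ^ l =
      ((Fintype.card k0 : R') * jacobiSum χ (χ ^ 2) ^ 2) ^ t * gaussSum χ ψ := by
    rw [ht, pow_succ, pow_mul, h1]
  rw [h5, ← mul_assoc] at h3
  exact mul_right_cancel₀ hg (by rw [h3, one_mul])

/-- Chunk G4B (M). g^(l+1) = g^l g, g^l = gaussSum (χ^3) (mulShift ψ l) (l + 1 = 4t: l = 4(t-1) + 3, χ^l = χ^3), gaussSum_mulShift: χ^3(l) gaussSum (χ^3) (mulShift ψ l) = gaussSum (χ^3) ψ, so g^l = χ(l) gaussSum (χ^3) ψ (χ(l)^4 = 1), g^(l+1) = χ(l) χ(-1) card (gs_four); and g^(l+1) = (g^4)^t. -/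
theorem gs_three (l : ℕ) [Fact l.Prime] [CharP R' l] (hl : (l : k0) ≠ 0) (χ : MulChar k0 R') (h4 : orderOf χ = 4)
    (ψ : AddChar k0 R') (hψ : ψ.IsPrimitive) (hq : (Fintype.card k0 : R') ≠ 0) (t : ℕ) (ht : l + 1 = 4 * t) :
    ((Fintype.card k0 : R') * jacobiSum χ (χ ^ 2) ^ 2) ^ t = χ (-(l : k0)) * (Fintype.card k0 : R') := by
  obtain ⟨h1, h13, hg⟩ := gs_four χ h4 ψ hψ hq
  have hp4 : χ ^ 4 = 1 := by rw [← h4]; exact pow_orderOf_eq_one χ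
  have hl4 : χ ^ l = χ ^ 3 := by
    obtain ⟨m, rfl⟩ : ∃ m, l = 4 * m + 3 := ⟨t - 1, by omega⟩
    rw [pow_add, pow_mul, hp4, one_pow, one_mul]
  have h2 : gaussSum χ ψ ^ l = gaussSum (χ ^ 3) (AddChar.mulShift ψ (l : k0)) := by
    rw [gaussSum_frob l, AddChar.pow_mulShift, hl4]
  have h3 := gaussSum_mulShift (χ ^ 3) ψ (Units.mk0 _ hl)
  rw [Units.val_mk0, ← h2, MulChar.pow_apply' χ three_ne_zero] at h3
  have hc : χ (l : k0) ^ 4 = 1 := by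
    rw [← MulChar.pow_apply' χ four_ne_zero, hp4]
    exact MulChar.one_apply (Ne.isUnit hl)
  have h5 : gaussSum χ ψ ^ l = χ (l : k0) * gaussSum (χ ^ 3) ψ := by
    rw [← h3]
    calc gaussSum χ ψ ^ l = χ (l : k0) ^ 4 * gaussSum χ ψ ^ l := by rw [hc, one_mul]
      _ = _ := by ring
  rw [← h1, ← pow_mul, ← ht, pow_succ, h5]
  calc χ (l : k0) * gaussSum (χ ^ 3) ψ * gaussSum χ ψ
      = χ (l : k0) * (gaussSum χ ψ * gaussSum (χ ^ 3) ψ) := by ring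
    _ = (χ (-1) * χ (l : k0)) * (Fintype.card k0 : R') := by rw [h13]; ring
    _ = χ (-(l : k0)) * (Fintype.card k0 : R') := by rw [← map_mul, neg_one_mul]

end H55W
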