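import Mathlib
import Pool.Agent.Lib.H55W.S2

/-! # H55W, part S: the residue symbol as a multiplicative character -/

open NumberField

namespace H55W

variable {F : Type} [Field F] [NumberField F] {m : ℕ} {ζ : 𝓞 F} {P : Ideal (𝓞 F)}

/-- Chunk S3 (S). 𝓞 F ⧸ P is isomorphic to k (RingHom.quotientKerEquivOfSurjective). -/
theorem card_k (k : Type) [Field k] [Fintype k] (φ : 𝓞 F →+* k) (hφ : Function.Surjective φ) (hker : RingHom.ker φ = P) :
    Fintype.card k = Ideal.absNorm P := by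
  subst hker
  rw [Ideal.absNorm_apply, Submodule.cardQuot_apply, ← Nat.card_eq_fintype_card]
  exact Nat.card_congr (RingHom.quotientKerEquivOfSurjective hφ).toEquiv.symm

/-- Chunk S3 (M). χ y = ps m ζ P (a lift of y) (Function.surjInv hφ; independent of the lift by ps_congr; MulChar with toFun, map_one', map_mul' (ps_mul, ps_congr), map_nonunit' (the only nonunit is 0: ps_zero)). χ^m = 1 (MulChar.ext: ps_root, MulChar.pow_apply'). orderOf χ = m: if χ^j = 1 with 0 < j < m, take y a generator of the cyclic unit group of k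
(IsCyclic kˣ), x a lift: ps(x)^j = 1, so x^(j (N-1)/m) - 1 is in P (ps_spec, powers), so N - 1 divides j (N-1)/m < N - 1: contradiction (orderOf_dvd_iff_pow_eq_one). -/
theorem exists_char (h : PP m ζ P) (k : Type) [Field k] [Fintype k] (φ : 𝓞 F →+* k) (hφ : Function.Surjective φ)
    (hker : RingHom.ker φ = P) : ∃ χ : MulChar k (𝓞 F), χ ^ m = 1 ∧ orderOf χ = m ∧ ∀ x : 𝓞 F, χ (φ x) = ps m ζ P x := by
  have hmem : ∀ x : 𝓞 F, φ x = 0 ↔ x ∈ P := by
    intro x
    rw [← hker]
    exact RingHom.mem_ker.symm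
  have hs : ∀ y : k, φ (Function.surjInv hφ y) = y := Function.surjInv_eq hφ
  have hcg : ∀ x y : 𝓞 F, φ x = φ y → ps m ζ P x = ps m ζ P y := by
    intro x y hxy
    apply ps_congr h
    rw [← hmem, map_sub, hxy, sub_self]
  let χ : MulChar k (𝓞 F) :=
    { toFun := fun y => ps m ζ P (Function.surjInv hφ y)
      map_one' := by
        rw [hcg _ 1 (by rw [hs, map_one]), ps_one h]
      map_mul' := fun y z => by
        rw [← ps_mul h]
        apply hcg
        rw [hs, map_mul, hs, hs]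
      map_nonunit' := fun y hy => by
        have h0 : y = 0 := by
          by_contra h1
          exact hy (isUnit_iff_ne_zero.2 h1)
        show ps m ζ P (Function.surjInv hφ y) = 0
        apply ps_zero h
        rw [← hmem, hs, h0] }
  have hχ : ∀ x : 𝓞 F, χ (φ x) = ps m ζ P x := by
    intro x
    show ps m ζ P (Function.surjInv hφ (φ x)) = ps m ζ P x
    apply hcg
    rw [hs]
  have hu : ∀ (a : kˣ) (x : 𝓞 F), φ x = (a : k) → x ∉ P := by
    intro a x hx hxP
    rw [← hmem, hx] at hxP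
    exact a.ne_zero hxP
  have h1 : χ ^ m = 1 := by
    ext a
    obtain ⟨x, hx⟩ := hφ (a : k)
    rw [MulChar.pow_apply_coe, MulChar.one_apply_coe, ← hx, hχ, ps_root h (hu a x hx)]
  refine ⟨χ, h1, Nat.dvd_antisymm (orderOf_dvd_of_pow_eq_one h1) ?_, hχ⟩
  obtain ⟨y, hy⟩ := IsCyclic.exists_generator (α := kˣ)
  obtain ⟨x, hx⟩ := hφ (y : k)
  have hxP := hu y x hx
  obtain ⟨-, h2⟩ := ps_spec h hxP
  have h3 : ps m ζ P x ^ orderOf χ = 1 := by
    have h4 : (χ ^ orderOf χ) (y : k) = 1 := by rw [pow_orderOf_eq_one, MulChar.one_apply_coe]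
    rw [MulChar.pow_apply_coe, ← hx, hχ] at h4
    exact h4
  obtain ⟨hd1, hd2, hd3⟩ := ps_dvd h
  have h5 : x ^ ((Ideal.absNorm P - 1) / m * orderOf χ) - 1 ∈ P := by
    rw [← h3, pow_mul]
    obtain ⟨c, hc⟩ := sub_dvd_pow_sub_pow (x ^ ((Ideal.absNorm P - 1) / m)) (ps m ζ P x) (orderOf χ)
    rw [hc]
    exact P.mul_mem_right _ h2
  have h6 : y ^ ((Ideal.absNorm P - 1) / m * orderOf χ) = 1 := by
    apply Units.ext
    rw [Units.val_pow_eq_pow_val, Units.val_one, ← hx, ← map_pow, ← sub_eq_zero, ← map_one φ, ← map_sub, hmem]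
    exact h5
  have h7 : orderOf y = Ideal.absNorm P - 1 := by
    rw [orderOf_eq_card_of_forall_mem_zpowers hy, Nat.card_units, Nat.card_eq_fintype_card, card_k k φ hφ hker]
  have h8 := orderOf_dvd_of_pow_eq_one h6
  rw [h7] at h8
  have h9 : (Ideal.absNorm P - 1) / m * m ∣ (Ideal.absNorm P - 1) / m * orderOf χ := by
    rw [Nat.div_mul_cancel hd1]
    exact h8
  exact (Nat.mul_dvd_mul_iff_left hd2).1 h9

end H55W
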