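import Mathlib
import Pool.Agent.Lib.H55W.G3A
import Pool.Agent.Lib.H55W.S3

/-! # H55W, part G: quartic reciprocity for a prime of degree one and a rational prime -/

open NumberField IsDedekindDomain

namespace H55W

open H55P (IQ embF eF Nm)
open H55K (cj)

variable {F : Type} [Field F] [NumberField F] [IQ F] {I : 𝓞 F} {P : Ideal (𝓞 F)} {p : ℕ} {k : Type} [Field k] [Fintype k] {φ : 𝓞 F →+* k} {χ : MulChar k (𝓞 F)}

/-- Chunk G5T (M). Compare H35T/R2.lean (gauss_law). κ = 𝓞 F ⧸ Λ, a finite field of characteristic l. ψ0 = FiniteField.primitiveChar k κ (ringChar κ = l ≠ p = ringChar k) with values in the cyclotomic field R' = CyclotomicField ψ0.n κ (ψ0.char, ψ0.prim); f = (algebraMap κ R').comp (Ideal.Quotient.mk Λ), kernel Λ (algebraMap of fields is injective).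
jacobiSum_ringHomComp; MulChar.ringHomComp_pow. Order 4: (χ comp f)^2 ≠ 1: otherwise f (χ y)^2 = 1 for all y ≠ 0, where χ y = ps = I^i (ps_spec, h.surj, h.chi), so I^(2i) - 1 is in Λ and I^(2i) = 1 (ps_inj for Λ), so χ^2 = 1: contradiction to the order; (χ comp f)^4 = 1 (χ^4 = 1). orderOf = 4: orderOf_eq_prime_pow or the divisors of 4. -/
theorem exists_R (h : QC I P p k φ χ) {Λ : Ideal (𝓞 F)} (hΛ : PP 4 I Λ) {l : ℕ} (hl : l.Prime) (hlΛ : (l : 𝓞 F) ∈ Λ)
    (hne : l ≠ p) : ∃ (R' : Type) (_ : Field R') (_ : CharP R' l) (f : 𝓞 F →+* R') (ψ : AddChar k R'), RingHom.ker f = Λ ∧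
      ψ.IsPrimitive ∧ orderOf (χ.ringHomComp f) = 4 ∧
      jacobiSum (χ.ringHomComp f) ((χ.ringHomComp f) ^ 2) = f (jacobiSum χ (χ ^ 2)) := by
  classical
  have hmax : Λ.IsMaximal := hΛ.pr.isMaximal hΛ.ne
  let i1 := Ideal.Quotient.field Λ
  have i3 : Finite (𝓞 F ⧸ Λ) := Ideal.finiteQuotientOfFreeOfNeBot Λ hΛ.ne
  let i2 := @Fintype.ofFinite _ i3
  have hcl : CharP (𝓞 F ⧸ Λ) l := by
    have h0 : ((l : ℕ) : 𝓞 F ⧸ Λ) = 0 := by
      have := Ideal.Quotient.eq_zero_iff_mem.2 hlΛ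
      simpa using this
    exact (CharP.charP_iff_prime_eq_zero hl).2 h0
  have hpF : Fact p.Prime := ⟨h.prime⟩
  have hcp : CharP k p := charP_of_card_eq_prime h.card
  have hch : ringChar (𝓞 F ⧸ Λ) ≠ ringChar k := by
    rw [ringChar.eq (𝓞 F ⧸ Λ) l, ringChar.eq k p]
    exact hne
  let ψ := AddChar.FiniteField.primitiveChar k (𝓞 F ⧸ Λ) hch
  let R' := CyclotomicField ψ.n (𝓞 F ⧸ Λ)
  have hcR : CharP R' l := charP_of_injective_algebraMap (algebraMap (𝓞 F ⧸ Λ) R').injective l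
  let ι : 𝓞 F →+* R' := (algebraMap (𝓞 F ⧸ Λ) R').comp (Ideal.Quotient.mk Λ)
  have hι : ∀ x : 𝓞 F, ι x = 0 ↔ x ∈ Λ := by
    intro x
    rw [← Ideal.Quotient.eq_zero_iff_mem]
    exact map_eq_zero (algebraMap (𝓞 F ⧸ Λ) R')
  have h4 : χ ^ 4 = 1 := by rw [← h.order]; exact pow_orderOf_eq_one χ
  have h2 : χ ^ 2 ≠ 1 := fun h3 => by
    have := orderOf_dvd_of_pow_eq_one h3
    rw [h.order] at this
    omega
  refine ⟨R', inferInstance, hcR, ι, ψ.char, ?_, ψ.prim, ?_, ?_⟩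
  · ext x
    rw [RingHom.mem_ker]
    exact hι x
  · have e : (4 : ℕ) = 2 ^ (1 + 1) := by norm_num
    rw [e]
    refine orderOf_eq_prime_pow (p := 2) (n := 1) ?_ ?_
    · intro h1
      rw [pow_one, MulChar.ringHomComp_pow] at h1
      apply h2
      apply MulChar.ext
      intro a
      obtain ⟨x, hx⟩ := h.surj (a : k)
      have hxP : x ∉ P := by
        intro h0
        rw [← h.ker, RingHom.mem_ker, hx] at h0
        exact a.ne_zero h0
      have h5 : ((χ ^ 2).ringHomComp ι) a = 1 := by rw [h1, MulChar.one_apply_coe]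
      rw [MulChar.ringHomComp_apply, MulChar.pow_apply_coe, ← hx, h.chi] at h5
      obtain ⟨i, hi⟩ := (ps_spec h.pp hxP).1
      rw [MulChar.one_apply_coe, MulChar.pow_apply_coe, ← hx, h.chi, hi, ← pow_mul]
      rw [hi, ← pow_mul] at h5
      have h6 : I ^ (i * 2) - I ^ 0 ∈ Λ := by
        rw [← hι, map_sub, h5, pow_zero, map_one, sub_self]
      rw [ps_inj hΛ h6, pow_zero]
    · rw [MulChar.ringHomComp_pow]
      have e2 : χ ^ 2 ^ (1 + 1) = 1 := h4
      rw [e2]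
      apply MulChar.ext
      intro a
      rw [MulChar.ringHomComp_apply, MulChar.one_apply_coe, map_one, MulChar.one_apply_coe]
  · rw [MulChar.ringHomComp_pow]
    exact jacobiSum_ringHomComp χ (χ ^ 2) ι

/-- Chunk G5E (S). k = 𝓞 F ⧸ span {π} with its structure of a finite field, φ the quotient map; exists_char (S3.lean), card_k, pp_pi (π is not divisible by 1 + I: pry_cop). -/
theorem exists_QC (h : GI I) {π : 𝓞 F} (hπ : Prime π) (hp : Pry I π) (hpp : p.Prime) (hN : Nm π = p) :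
    ∃ (k : Type) (_ : Field k) (_ : Fintype k) (φ : 𝓞 F →+* k) (χ : MulChar k (𝓞 F)), QC I (Ideal.span {π}) p k φ χ := by
  classical
  have hP : PP 4 I (Ideal.span {π}) := pp_pi h hπ (pry_cop h hp).1
  have hmax : (Ideal.span {π}).IsMaximal := hP.pr.isMaximal hP.ne
  let i1 := Ideal.Quotient.field (Ideal.span {π})
  have i3 : Finite (𝓞 F ⧸ Ideal.span {π}) := Ideal.finiteQuotientOfFreeOfNeBot _ hP.ne
  let i2 := @Fintype.ofFinite _ i3
  obtain ⟨χ, h4, ho, hχ⟩ := exists_char hP (𝓞 F ⧸ Ideal.span {π}) (Ideal.Quotient.mk (Ideal.span {π}))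
    Ideal.Quotient.mk_surjective Ideal.mk_ker
  exact ⟨𝓞 F ⧸ Ideal.span {π}, i1, i2, Ideal.Quotient.mk (Ideal.span {π}), χ, h, hP, hpp, hN,
    Ideal.Quotient.mk_surjective, Ideal.mk_ker, (card_k _ _ Ideal.Quotient.mk_surjective Ideal.mk_ker).trans hN,
    ho, hχ⟩

end H55W
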