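import Mathlib
import Pool.Agent.Lib.H55W.G2
import Pool.Agent.Lib.H55W.G3B
import Pool.Agent.Lib.H55W.G4
import Pool.Agent.Lib.H55W.G5

/-! # H55W, part G: quartic reciprocity for a prime of degree one and a rational prime -/

open NumberField IsDedekindDomain

namespace H55W

open H55P (IQ embF eF Nm)
open H55K (cj)

variable {F : Type} [Field F] [NumberField F] [IQ F] {I : 𝓞 F}

/-- two coprime numbers are not both divisible by a prime element -/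
theorem g5a_cop {π : 𝓞 F} (hπ : Prime π) {p l : ℕ} (hpp : p.Prime) (hl : l.Prime) (hne : l ≠ p)
    (h1 : π ∣ (p : 𝓞 F)) (h2 : π ∣ (l : 𝓞 F)) : False := by
  have hc : IsCoprime (l : ℤ) (p : ℤ) := by
    rw [Nat.isCoprime_iff_coprime]
    exact (Nat.coprime_primes hl hpp).2 hne
  obtain ⟨a, b, hab⟩ := hc
  apply hπ.not_unit
  rw [isUnit_iff_dvd_one]
  have h3 : ((a * (l : ℤ) + b * (p : ℤ) : ℤ) : 𝓞 F) = 1 := by rw [hab, Int.cast_one]
  rw [← h3]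
  push_cast
  exact dvd_add (h2.mul_left _) (h1.mul_left _)

theorem g5a_mem {x y : 𝓞 F} {R' : Type} [Field R'] {f : 𝓞 F →+* R'} {L : Ideal (𝓞 F)}
    (hk : RingHom.ker f = L) (h : f x = f y) : x - y ∈ L := by
  rw [← hk, RingHom.mem_ker, map_sub, h, sub_self]

theorem g5a_setup (h : GI I) {π : 𝓞 F} (hπ : Prime π) (hp : Pry I π) {p : ℕ} (hpp : p.Prime)
    (hN : Nm π = p) {l : ℕ} (hl : l.Prime) (hne : l ≠ p) {L : Ideal (𝓞 F)} (hL : PP 4 I L)
    (hlL : (l : 𝓞 F) ∈ L) :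
    (∀ t, l = 4 * t + 1 → ps 4 I (Ideal.span {π}) (l : 𝓞 F) * (π ^ 3 * cj π) ^ t - 1 ∈ L) ∧
    (∀ t, l + 1 = 4 * t → (π ^ 3 * cj π) ^ t -
      ps 4 I (Ideal.span {π}) (-(l : 𝓞 F)) * (π * cj π) ∈ L) := by
  obtain ⟨k, i1, i2, φ, χ, hQ⟩ := exists_QC h hπ hp hpp hN
  obtain ⟨R', j1, j2, f, ψ, hker, hψ, ho, hJ⟩ := exists_R hQ hL hl hlL hne
  haveI : Fact l.Prime := ⟨hl⟩
  have hpc : π * cj π = (p : 𝓞 F) := by rw [H55K.mul_cj, hN]
  have hq : (Fintype.card k : R') ≠ 0 := by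
    rw [hQ.card]
    intro h0
    rw [CharP.cast_eq_zero_iff R' l p] at h0
    exact hne ((Nat.prime_dvd_prime_iff_eq hl hpp).1 h0)
  have hlk : (l : k) ≠ 0 := by
    intro h0
    have h1 : (l : 𝓞 F) ∈ RingHom.ker φ := by
      rw [RingHom.mem_ker, map_natCast]
      exact h0
    rw [hQ.ker, Ideal.mem_span_singleton] at h1
    exact g5a_cop hπ hpp hl hne ⟨cj π, hpc.symm⟩ h1
  have hJ2 : (Fintype.card k : R') * jacobiSum (χ.ringHomComp f) ((χ.ringHomComp f) ^ 2) ^ 2 =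
      f (π ^ 3 * cj π) := by
    rw [hJ, qc_jac hQ rfl hp, hQ.card, ← map_natCast f p, ← hpc, ← map_pow, ← map_mul]
    congr 1
    ring
  constructor
  · intro t ht
    have h1 := gs_one l hlk (χ.ringHomComp f) ho ψ hψ hq t ht
    rw [hJ2] at h1
    refine g5a_mem hker ?_
    rw [map_mul, map_pow, map_one, ← h1]
    congr 1
    rw [MulChar.ringHomComp_apply, ← map_natCast φ l, hQ.chi]
  · intro t ht
    have h1 := gs_three l hlk (χ.ringHomComp f) ho ψ hψ hq t ht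
    rw [hJ2] at h1
    refine g5a_mem hker ?_
    rw [map_mul, map_pow, h1, hpc, map_natCast, hQ.card]
    congr 1
    rw [MulChar.ringHomComp_apply, ← map_natCast φ l, ← map_neg, hQ.chi]

/-- Chunk G5A (M). exists_QC, exists_R for Λ = span {lam} (PP: pp_pi; 1 + I does not divide lam, which divides the odd l), gs_one with l = 4t + 1: f (χ (l : k)) (f p f(J)^2)^t = 1, J = -π (qc_jac), p = π cj π (mul_cj), χ (l : k) = χ (φ l) = ps (π) l. So ps (π) l * (π^3 cj π)^t - 1 is in Λ = ker f.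
absNorm Λ = l (pi_type for lam, or: Nm lam = l or l^2; l^2 would make lam associated to l, but l = 1 mod 4 is not prime: split_l), so t = (absNorm - 1)/4 and (π^3 cj π)^t - ps (lam) (π^3 cj π) is in Λ (ps_spec; π, cj π are not in Λ: Nm π = p is prime to l). Both symbols are powers of I: the product is 1 (ps_inj with i, 0). -/
theorem rec_one (h : GI I) {π : 𝓞 F} (hπ : Prime π) (hp : Pry I π) {p : ℕ} (hpp : p.Prime) (hN : Nm π = p) {l : ℕ} (hl : l.Prime)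
    (hl1 : l % 4 = 1) (hne : l ≠ p) {lam : 𝓞 F} (hlam : Prime lam) (hd : lam ∣ (l : 𝓞 F)) :
    ps 4 I (Ideal.span {π}) (l : 𝓞 F) * ps 4 I (Ideal.span {lam}) (π ^ 3 * cj π) = 1 := by
  have hpc : π * cj π = (p : 𝓞 F) := by rw [H55K.mul_cj, hN]
  have hn : ¬ (1 + I) ∣ lam := by
    intro h1
    have h2 : Pry I ((l : ℤ) : 𝓞 F) := pry_int h (by omega)
    apply (pry_cop h h2).1
    rw [Int.cast_natCast]
    exact h1.trans hd
  have hL := pp_pi h hlam hn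
  have hlL : (l : 𝓞 F) ∈ Ideal.span {lam} := Ideal.mem_span_singleton.2 hd
  obtain ⟨t, ht⟩ : ∃ t, l = 4 * t + 1 := ⟨l / 4, by omega⟩
  have h1 := (g5a_setup h hπ hp hpp hN hl hne hL hlL).1 t ht
  have hNl : Nm lam = l := by
    obtain ⟨q, hq, ⟨e1, e2⟩ | ⟨e1, e2⟩⟩ := pi_type h hlam
    · have e3 : l = q := by
        by_contra hlq
        exact g5a_cop hlam hq hl hlq ⟨cj lam, e2.symm⟩ hd
      rw [e1, e3]
    · exfalso
      have e3 : l = q := by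
        by_contra hlq
        exact g5a_cop hlam hq hl hlq e2.dvd hd
      rw [← e3] at e2
      have e4 : Prime (l : 𝓞 F) := e2.prime_iff.1 hlam
      obtain ⟨w, hw, -, hw2, hw3, -⟩ := split_l h hl hl1
      have e5 : ∀ z : 𝓞 F, Nm z = l → ¬ (l : 𝓞 F) ∣ z := by
        rintro z hz ⟨y, rfl⟩
        rw [H55K.Nm_mul, H55K.Nm_nat] at hz
        have h5 : l ^ 2 ∣ l := ⟨_, hz.symm⟩
        have h6 := Nat.le_of_dvd hl.pos h5
        have h7 := hl.two_le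
        nlinarith
      rcases e4.dvd_or_dvd (a := w) (b := cj w) (by rw [hw3]) with e6 | e6
      · exact e5 w hw2 e6
      · exact e5 (cj w) (by rw [H55K.Nm_cj, hw2]) e6
  have hx : π ^ 3 * cj π ∉ Ideal.span {lam} := by
    rw [Ideal.mem_span_singleton]
    intro h2
    have h3 : lam ∣ (p : 𝓞 F) := by
      rw [← hpc]
      rcases hlam.dvd_or_dvd h2 with h3 | h3
      · exact (hlam.dvd_of_dvd_pow h3).mul_right _
      · exact h3.mul_left _
    exact g5a_cop hlam hpp hl hne h3 hd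
  obtain ⟨⟨i, hi⟩, h2⟩ := ps_spec hL hx
  have ht' : (Ideal.absNorm (Ideal.span {lam}) - 1) / 4 = t := by
    have : Ideal.absNorm (Ideal.span {lam}) = l := hNl
    rw [this]
    omega
  rw [ht'] at h2
  have hlp : (l : 𝓞 F) ∉ Ideal.span {π} := by
    rw [Ideal.mem_span_singleton]
    exact fun h3 => g5a_cop hπ hpp hl hne ⟨cj π, hpc.symm⟩ h3
  obtain ⟨⟨j, hj⟩, -⟩ := ps_spec (pp_pi h hπ (pry_cop h hp).1) hlp
  rw [hj] at h1 ⊢
  rw [hi] at h2 ⊢
  have h3 : I ^ (j + i) - I ^ 0 ∈ Ideal.span {lam} := by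
    have h4 := Ideal.sub_mem _ h1 (Ideal.mul_mem_left _ (I ^ j) h2)
    have h5 : I ^ j * (π ^ 3 * cj π) ^ t - 1 - I ^ j * ((π ^ 3 * cj π) ^ t - I ^ i) =
        I ^ (j + i) - I ^ 0 := by
      rw [pow_add, pow_zero]
      ring
    rwa [h5] at h4
  rw [← pow_add, ps_inj hL h3, pow_zero]

/-- Chunk G5B (S). x = a + b I: x^l is congruent to a^l + b^l I^l (add_pow_char in the quotient, or Int.ModEq / exists_add_pow_prime_eq), a^l to a (Fermat), I^l = I^3 = -I (l = 3 mod 4), cj x = a - b I (gi_cj, cj_int). -/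
theorem frob_cj (h : GI I) {l : ℕ} (hl : l.Prime) (hl3 : l % 4 = 3) (x : 𝓞 F) : (l : 𝓞 F) ∣ x ^ l - cj x := by
  obtain ⟨a, b, rfl⟩ := h.rep x
  have hI : I ^ l = -I := by
    obtain ⟨m, rfl⟩ : ∃ m, l = 4 * m + 3 := ⟨l / 4, by omega⟩
    have h4 : I ^ 4 = 1 := by
      rw [show (4 : ℕ) = 2 * 2 by norm_num, pow_mul, h.sq]
      ring
    rw [pow_add, pow_mul, h4, one_pow, one_mul, pow_succ, h.sq]
    ring
  have hfer : ∀ c : ℤ, (l : 𝓞 F) ∣ (c : 𝓞 F) ^ l - (c : 𝓞 F) := by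
    intro c
    haveI : Fact l.Prime := ⟨hl⟩
    have h1 : (l : ℤ) ∣ c ^ l - c := by
      rw [← ZMod.intCast_zmod_eq_zero_iff_dvd]
      push_cast
      rw [ZMod.pow_card, sub_self]
    obtain ⟨d, hd⟩ := h1
    refine ⟨(d : 𝓞 F), ?_⟩
    have := congrArg (fun z : ℤ => (z : 𝓞 F)) hd
    push_cast at this
    exact this
  obtain ⟨r, hr⟩ := exists_add_pow_prime_eq hl (a : 𝓞 F) ((b : 𝓞 F) * I)
  rw [hr, map_add, map_mul, H55K.cj_int, H55K.cj_int, gi_cj h, mul_pow, hI]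
  obtain ⟨u, hu⟩ := hfer a
  obtain ⟨v, hv⟩ := hfer b
  refine ⟨u - v * I + (a : 𝓞 F) * ((b : 𝓞 F) * I) * r, ?_⟩
  linear_combination hu - I * hv

/-- Chunk G5B (M). Λ = span {l} is prime (inert_l), PP (pp_pi). exists_QC, exists_R, gs_three with l + 1 = 4t, J = -π, p = π cj π: (π^3 cj π)^t - ps (π) (-l) * π * cj π is in Λ. cj π - π^l is in Λ (frob_cj): so π^((3 + l) t) - ps (π) (-l) π^(1 + l) is in Λ, and (3 + l) t = (1 + l) + (l^2 - 1)/4; π^(1+l) is not in Λ (Λ prime, π not in Λ because Nm π = p is prime to l)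
so π^((l^2 - 1)/4) - ps (π) (-l) is in Λ; absNorm Λ = l^2 (H55K.Nm_nat); ps (π) (-l) is a power of I (ps_spec): ps_uniq. -/
theorem rec_three (h : GI I) {π : 𝓞 F} (hπ : Prime π) (hp : Pry I π) {p : ℕ} (hpp : p.Prime) (hN : Nm π = p) {l : ℕ} (hl : l.Prime)
    (hl3 : l % 4 = 3) (hne : l ≠ p) : ps 4 I (Ideal.span {π}) (-(l : 𝓞 F)) = ps 4 I (Ideal.span {(l : 𝓞 F)}) π := by
  have hpc : π * cj π = (p : 𝓞 F) := by rw [H55K.mul_cj, hN]
  have hlP := inert_l h hl hl3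
  have hn : ¬ (1 + I) ∣ (l : 𝓞 F) := by
    intro h1
    have h2 : Pry I ((-(l : ℤ) : ℤ) : 𝓞 F) := pry_int h (by omega)
    apply (pry_cop h h2).1
    rw [Int.cast_neg, Int.cast_natCast, dvd_neg]
    exact h1
  have hL := pp_pi h hlP hn
  have hlL : (l : 𝓞 F) ∈ Ideal.span {(l : 𝓞 F)} := Ideal.mem_span_singleton_self _
  obtain ⟨t, ht⟩ : ∃ t, l + 1 = 4 * t := ⟨l / 4 + 1, by omega⟩
  have h1 := (g5a_setup h hπ hp hpp hN hl hne hL hlL).2 t ht
  have hlp : -(l : 𝓞 F) ∉ Ideal.span {π} := by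
    rw [Ideal.mem_span_singleton, dvd_neg]
    exact fun h3 => g5a_cop hπ hpp hl hne ⟨cj π, hpc.symm⟩ h3
  obtain ⟨⟨j, hj⟩, -⟩ := ps_spec (pp_pi h hπ (pry_cop h hp).1) hlp
  rw [hj] at h1 ⊢
  have hπL : π ∉ Ideal.span {(l : 𝓞 F)} := by
    rw [Ideal.mem_span_singleton]
    intro h3
    exact g5a_cop hlP hpp hl hne (by rw [← hpc]; exact h3.mul_right _) dvd_rfl
  have hfr : π ^ l - cj π ∈ Ideal.span {(l : 𝓞 F)} := Ideal.mem_span_singleton.2 (frob_cj h hl hl3 π)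
  have hab : (Ideal.absNorm (Ideal.span {(l : 𝓞 F)}) - 1) / 4 = 4 * t ^ 2 - 2 * t := by
    have h2 : Ideal.absNorm (Ideal.span {(l : 𝓞 F)}) = l ^ 2 := H55K.Nm_nat l
    rw [h2]
    have h3 : l = 4 * t - 1 := by omega
    obtain ⟨u, rfl⟩ : ∃ u, t = u + 1 := ⟨t - 1, by omega⟩
    have h4 : l = 4 * u + 3 := by omega
    rw [h4]
    have h5 : (4 * u + 3) ^ 2 - 1 = 4 * (4 * (u + 1) ^ 2 - 2 * (u + 1)) := by
      zify [show 2 * (u + 1) ≤ 4 * (u + 1) ^ 2 by nlinarith, show 1 ≤ (4 * u + 3) ^ 2 by nlinarith]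
      ring
    rw [h5]
    exact Nat.mul_div_cancel_left _ (by norm_num)
  refine (ps_uniq hL (i := j) ?_).symm
  rw [hab]
  have hpr : (Ideal.span {(l : 𝓞 F)}).IsPrime := hL.pr
  -- modulo `l`
  rw [← Ideal.Quotient.eq_zero_iff_mem] at h1 hfr ⊢
  rw [map_sub, sub_eq_zero] at h1 hfr ⊢
  have hπ0 : Ideal.Quotient.mk (Ideal.span {(l : 𝓞 F)}) π ≠ 0 := fun h3 =>
    hπL (Ideal.Quotient.eq_zero_iff_mem.1 h3)
  rw [map_pow, map_mul, map_pow, map_mul, map_mul, ← hfr, map_pow] at h1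
  rw [map_pow]
  set y := Ideal.Quotient.mk (Ideal.span {(l : 𝓞 F)}) π
  have h6 : y ^ (1 + l) ≠ 0 := pow_ne_zero _ hπ0
  refine mul_left_cancel₀ h6 ?_
  have h7 : (y ^ 3 * y ^ l) ^ t = y ^ (1 + l) * y ^ (4 * t ^ 2 - 2 * t) := by
    rw [← pow_add, ← pow_mul, ← pow_add]
    congr 1
    obtain ⟨u, rfl⟩ : ∃ u, t = u + 1 := ⟨t - 1, by omega⟩
    have h4 : l = 4 * u + 3 := by omega
    rw [h4]
    zify [show 2 * (u + 1) ≤ 4 * (u + 1) ^ 2 by nlinarith]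
    ring
  rw [← h7, h1]
  ring

end H55W
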