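import Mathlib
import Pool.Agent.Lib.H55W.G5A

/-! # H55W, part G: quartic reciprocity for a primary prime and a primary rational prime -/

open NumberField IsDedekindDomain

namespace H55W

open H55P (IQ embF eF Nm)
open H55K (cj)

variable {F : Type} [Field F] [NumberField F] [IQ F] {I : 𝓞 F}

theorem g6_lam (h : GI I) {l : ℕ} (hl : l.Prime) (hl2 : l ≠ 2) {x : 𝓞 F} (hx : x ∣ (l : 𝓞 F)) : ¬ (1 + I) ∣ x := by
  intro hd
  have h1 : (1 + I) ∣ (l : 𝓞 F) := hd.trans hx
  obtain ⟨c, hc⟩ := h1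
  have h2 := H55K.Nm_mul (1 + I) c
  rw [← hc, H55K.Nm_nat] at h2
  have h3 : ((Nm (1 + I) : ℕ) : ℤ) = 2 := by
    have := gi_nm h 1 1
    simp only [Int.cast_one, one_mul] at this
    rw [this]; norm_num
  have h4 : Nm (1 + I) = 2 := by exact_mod_cast h3
  have h5 : 2 ∣ l ^ 2 := ⟨Nm c, by rw [h2, h4]⟩
  exact hl2 ((Nat.prime_dvd_prime_iff_eq Nat.prime_two hl).1 (Nat.prime_two.dvd_of_dvd_pow h5)).symm

theorem g6_unit (h : GI I) {π : 𝓞 F} (hp : Pry I π) {p : ℕ} (hpp : p.Prime) (_hN : Nm π = p ^ 2)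
    (ha : Associated π (p : 𝓞 F)) (h2 : p ≠ 2) : ∃ a : ℤ, a.natAbs = p ∧ a % 4 = 1 ∧ π = (a : 𝓞 F) := by
  have hodd : p % 2 = 1 := by rcases hpp.eq_two_or_odd with h | h; exact absurd h h2; exact h
  obtain ⟨a, hap, ha4⟩ : ∃ a : ℤ, a.natAbs = p ∧ a % 4 = 1 := by
    rcases (by omega : p % 4 = 1 ∨ p % 4 = 3) with h4 | h4
    · exact ⟨p, Int.natAbs_natCast p, by omega⟩
    · exact ⟨-p, by simp, by omega⟩
  refine ⟨a, hap, ha4, ?_⟩
  have h3 : Associated (p : 𝓞 F) (a : 𝓞 F) := by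
    rcases Int.natAbs_eq a with h5 | h5
    · rw [h5, hap, Int.cast_natCast]
    · rw [h5, hap, Int.cast_neg, Int.cast_natCast]
      exact (Associated.refl (p : 𝓞 F)).neg_right
  obtain ⟨u, hu⟩ := ha.trans h3
  obtain ⟨i, hi⟩ := gi_unit h u.isUnit
  have h6 : Pry I (π * I ^ i) := by rw [← hi, hu]; exact pry_int h ha4
  have h7 := gi_uniq h (pry_of_mul hp h6)
  rw [← hu, hi, h7, mul_one]

/-- Chunk G6 (M). pi_type for π. (1) Nm π = p, π | p, so l ≠ p. If l = 1 mod 4 then n = l, (l) = (lam)(cj lam) (split_l; span_singleton_mul), pj (span {l}) π = z w, z = ps (lam) π, w = ps (cj lam) π (pj_mul_left, pj_prime), rec_one: ps (π) l * ps (lam) (π^3 cj π) = 1; ps (lam)(π^3 cj π) = z^3 ps (lam)(cj π) (ps_mul, ps_pow),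
ps (lam) (cj π) = cj w (ps_cj for cj lam: cj (cj lam) = lam) = w^3 (w = I^i, cj w = (-I)^i = I^(3i); gi_cj), z^4 = w^4 = 1: so ps (π) l = z w. If l = 3 mod 4 then n = -l (n % 4 = 1), span {-l} = span {l} (Ideal.span_singleton_neg), pj_prime, rec_three. (2) π associated to p, p^2 = Nm π: π = I^i p (gi_unit); p is odd; p or -p is primary (pry_int), so by gi_uniq and pry_of_mul π = p or -p,
a rational integer a; ps (π) n = pj (span {a}) n = 1 and pj (span {n}) a = 1 (rat_rat; a and n are coprime since π does not divide n). -/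
theorem rec_prime (h : GI I) {π : 𝓞 F} (hπ : Prime π) (hp : Pry I π) {l : ℕ} (hl : l.Prime) (hl2 : l ≠ 2) {n : ℤ} (hnl : n.natAbs = l)
    (hn : n % 4 = 1) (hd : ¬ π ∣ (n : 𝓞 F)) : ps 4 I (Ideal.span {π}) (n : 𝓞 F) = pj 4 I (Ideal.span {(n : 𝓞 F)}) π := by
  obtain ⟨p, hpp, hcase⟩ := pi_type h hπ
  have hπn := (pry_cop h hp).1
  have hπp : π ∣ (p : 𝓞 F) := by
    rcases hcase with ⟨-, h2⟩ | ⟨-, h2⟩
    · exact ⟨cj π, h2.symm⟩
    · exact h2.dvd
  have hlp : l ≠ p := by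
    rintro rfl
    apply hd
    rcases Int.natAbs_eq n with h5 | h5
    · rw [h5, hnl, Int.cast_natCast]; exact hπp
    · rw [h5, hnl, Int.cast_neg, Int.cast_natCast, dvd_neg]; exact hπp
  have hp2 : p ≠ 2 := by
    rintro rfl
    have hPP := pp_pi h hπ hπn
    apply hPP.nm
    rw [Ideal.mem_span_singleton]
    refine hπp.trans ⟨2, ?_⟩
    norm_num
  rcases hcase with ⟨hN, hcj⟩ | ⟨hN, hass⟩
  · rcases (by have := hl.eq_two_or_odd; omega : l % 4 = 1 ∨ l % 4 = 3) with h4 | h4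
    · have hnl' : n = l := by omega
      subst hnl'
      rw [Int.cast_natCast]
      obtain ⟨lam, hlam, hlam1, hNl, hlc, -⟩ := split_l h hl h4
      have hlamd : lam ∣ (l : 𝓞 F) := ⟨cj lam, hlc.symm⟩
      have hcd : cj lam ∣ (l : 𝓞 F) := ⟨lam, by rw [← hlc]; ring⟩
      have hcp : Prime (cj lam) := H55K.cj_prime hlam
      have hcn : ¬ (1 + I) ∣ cj lam := g6_lam h hl hl2 hcd
      have hrec := rec_one h hπ hp hpp hN hl h4 hlp hlam hlamd
      have hnot : ∀ q : 𝓞 F, q ∣ (l : 𝓞 F) → Prime q → ∀ r : 𝓞 F, r ∣ (p : 𝓞 F) → r ∉ Ideal.span {q} := by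
        intro q hq hqp r hr hm
        rw [Ideal.mem_span_singleton] at hm
        have h6 : q ∣ (p : 𝓞 F) := hm.trans hr
        have h7 : IsCoprime (l : ℤ) (p : ℤ) := Nat.isCoprime_iff_coprime.2 ((Nat.coprime_primes hl hpp).2 hlp)
        have h8 := h7.map (Int.castRingHom (𝓞 F))
        simp only [eq_intCast, Int.cast_natCast] at h8
        exact hqp.not_isUnit (h8.isUnit_of_dvd' hq h6)
      have hPl := pp_pi h hlam hlam1
      have hPc := pp_pi h hcp hcn
      have hπl := hnot lam hlamd hlam π hπp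
      have hπc := hnot (cj lam) hcd hcp π hπp
      rw [ps_mul hPl, ps_pow hPl] at hrec
      have hcj2 := ps_cj h hcp hcn π
      rw [H55K.cj_cj] at hcj2
      obtain ⟨⟨i, hi⟩, -⟩ := ps_spec hPc hπc
      have hw4 := ps_root hPc hπc
      have hz4 := ps_root hPl hπl
      have hw3 : cj (ps 4 I (Ideal.span {cj lam}) π) = ps 4 I (Ideal.span {cj lam}) π ^ 3 := by
        rw [hi, map_pow, gi_cj h, ← pow_mul, mul_comm, pow_mul]
        congr 1
        linear_combination (-I) * h.sq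
      rw [hcj2, hw3] at hrec
      have hspan : Ideal.span {(l : 𝓞 F)} = Ideal.span {lam} * Ideal.span {cj lam} := by
        rw [Ideal.span_singleton_mul_span_singleton, hlc]
      rw [hspan, pj_mul_left hPl.ne hPc.ne, pj_prime hPl, pj_prime hPc]
      set z := ps 4 I (Ideal.span {lam}) π
      set w := ps 4 I (Ideal.span {cj lam}) π
      set A := ps 4 I (Ideal.span {π}) (l : 𝓞 F)
      calc A = A * (z ^ 4) * (w ^ 4) := by rw [hz4, hw4]; ring
        _ = (A * (z ^ 3 * w ^ 3)) * (z * w) := by ring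
        _ = z * w := by rw [hrec, one_mul]
    · have hnl' : n = -l := by omega
      subst hnl'
      rw [Int.cast_neg, Int.cast_natCast, Ideal.span_singleton_neg, pj_prime (pp_pi h (inert_l h hl h4) (g6_lam h hl hl2 dvd_rfl))]
      exact rec_three h hπ hp hpp hN hl h4 hlp
  · obtain ⟨a, hap, ha4, rfl⟩ := g6_unit h hp hpp hN hass hp2
    have hcop : IsCoprime n a := by
      rw [Int.isCoprime_iff_gcd_eq_one, Int.gcd_eq_natAbs, hnl, hap]
      exact (Nat.coprime_primes hl hpp).2 hlp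
    rw [← pj_prime (pp_pi h hπ hπn), rat_rat h (by omega) hcop, rat_rat h (by omega) hcop.symm]

/-- Chunk G6 (M). pry_factor: x = product of primary primes π (s), pj (span {x}) n = product of ps (π) n = product of pj (span {n}) π (rec_prime; π does not divide n: π divides x, and n divides x - 1) = pj (span {n}) x (pj_mul, pj_one, multiset induction; PJ of span {n}: n is odd) = pj (span {n}) 1 = 1 (pj_congr). -/
theorem one_of_prime (h : GI I) {l : ℕ} (hl : l.Prime) (hl2 : l ≠ 2) {n : ℤ} (hnl : n.natAbs = l) (hn : n % 4 = 1) {x : 𝓞 F}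
    (hx : Pry I x) (hxn : (n : 𝓞 F) ∣ x - 1) : pj 4 I (Ideal.span {x}) (n : 𝓞 F) = 1 := by
  obtain ⟨s, hs, hxs, hpj⟩ := pry_factor h x hx
  have hPJ : PJ 4 I (Ideal.span {(n : 𝓞 F)}) := (pry_cop h (pry_int h hn)).2.2
  have h1 : ∀ π ∈ s, ps 4 I (Ideal.span {π}) (n : 𝓞 F) = pj 4 I (Ideal.span {(n : 𝓞 F)}) π := by
    intro π hπ
    obtain ⟨hp1, hp2⟩ := hs π hπ
    apply rec_prime h hp1 hp2 hl hl2 hnl hn
    intro hd
    have h2 : π ∣ x := by rw [hxs]; exact Multiset.dvd_prod hπ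
    have h3 : π ∣ x - 1 := hd.trans hxn
    have h4 : π ∣ 1 := by
      have := dvd_sub h2 h3
      rwa [sub_sub_cancel] at this
    exact hp1.not_isUnit (isUnit_of_dvd_one h4)
  rw [hpj, Multiset.map_congr rfl h1]
  have h2 : ∀ t : Multiset (𝓞 F), (t.map fun π => pj 4 I (Ideal.span {(n : 𝓞 F)}) π).prod = pj 4 I (Ideal.span {(n : 𝓞 F)}) t.prod := by
    intro t
    induction t using Multiset.induction_on with
    | empty => simp [pj_one hPJ]
    | cons a t ih => rw [Multiset.map_cons, Multiset.prod_cons, Multiset.prod_cons, pj_mul hPJ, ih]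
  rw [h2, ← hxs, pj_congr hPJ (x := x) (y := 1) (Ideal.mem_span_singleton.2 hxn), pj_one hPJ]

end H55W
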