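import Mathlib
import Pool.Agent.Lib.H55W.G1

/-! # H55W, part G: the supplementary laws -/

open NumberField IsDedekindDomain

namespace H55W

open H55P (IQ embF eF Nm)
open H55K (cj Nm_mul Nm_nat)

variable {F : Type} [Field F] [NumberField F] [IQ F] {I : 𝓞 F}

/-- Chunk G7A (S). x = 1 + 8 z, so Nm x = x cj x = 1 + 8 (z + cj z) + 64 z cj z, z + cj z = 2a for z = a + b I (gi_cj): Nm x = 1 mod 16 (gi_nm). -/
theorem nm_sixteen (h : GI I) {x : 𝓞 F} (hx : (8 : 𝓞 F) ∣ x - 1) : Nm x % 16 = 1 := by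
  obtain ⟨z, hz⟩ := hx
  obtain ⟨a, b, hab⟩ := h.rep z
  have h1 : x = ((1 + 8 * a : ℤ) : 𝓞 F) + ((8 * b : ℤ) : 𝓞 F) * I := by
    push_cast
    rw [hab] at hz
    linear_combination hz
  have h2 := gi_nm h (1 + 8 * a) (8 * b)
  rw [← h1] at h2
  have h3 : ((Nm x : ℕ) : ℤ) = 16 * (a + 4 * a ^ 2 + 4 * b ^ 2) + 1 := by rw [h2]; ring
  omega

omit [IQ F] in
theorem g7a_pry (h : GI I) {x : 𝓞 F} (hx : (8 : 𝓞 F) ∣ x - 1) : Pry I x := by
  refine Dvd.dvd.trans ⟨2 * (1 - I), ?_⟩ hx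
  linear_combination (4 : 𝓞 F) * h.sq

/-- Chunk G7A (S). 8 = (2 + 2I) 2 (1 - I): x is primary, PJ (pry_cop). pj_zeta: pj (span {x}) I = I^((Nm x - 1)/4) = 1 (Nm x = 1 mod 16, I^4 = 1); -1 = I^2: pj_mul. -/
theorem one_neg (h : GI I) {x : 𝓞 F} (hx : (8 : 𝓞 F) ∣ x - 1) : pj 4 I (Ideal.span {x}) I = 1 ∧ pj 4 I (Ideal.span {x}) (-1) = 1 := by
  obtain ⟨-, -, hPJ⟩ := pry_cop h (g7a_pry h hx)
  have h1 : pj 4 I (Ideal.span {x}) I = 1 := by
    have h2 : pj 4 I (Ideal.span {x}) I = I ^ ((Nm x - 1) / 4) := (pj_zeta hPJ).2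
    have h3 := nm_sixteen h hx
    rw [h2]
    obtain ⟨k, hk⟩ : ∃ k, Nm x = 16 * k + 1 := ⟨Nm x / 16, by omega⟩
    have h4 : (Nm x - 1) / 4 = 4 * k := by omega
    rw [h4, pow_mul, (gi_root h).pow_eq_one, one_pow]
  refine ⟨h1, ?_⟩
  have h2 : (-1 : 𝓞 F) = I * I := by rw [← h.sq]; ring
  rw [h2, pj_mul hPJ, h1, one_mul]

theorem g7b_ne (h : GI I) {π : 𝓞 F} (hπ : Prime π) (hn : ¬ (1 + I) ∣ π) {p : ℕ} (hp : π ∣ (p : 𝓞 F)) (hpp : p.Prime) : p ≠ 2 := by
  rintro rfl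
  have hPP := pp_pi h hπ hn
  apply hPP.nm
  rw [Ideal.mem_span_singleton]
  refine hp.trans ⟨2, ?_⟩
  norm_num

/-- Chunk G7B (M). Euler: π a prime, not divisible by 1 + I, y an integer not divisible by π. pi_type: Nm π = p: y^((p-1)/2) is congruent to the Legendre symbol modulo p (ZMod: legendreSym.eq_pow, ZMod.intCast_zmod_eq_zero_iff..), so modulo π; (ps y)^2 is congruent to y^((p-1)/2) (ps_spec); (ps y)^2 = I^(2i) is 1 or -1, jacobiSym y p = 1 or -1; the difference is in (π), so they are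
equal (2 is not in (π)). Nm π = p^2, π associated to p: y^((p^2-1)/4) = (y^(p-1))^((p+1)/4)... here only the square is needed: y^((p^2-1)/2) = (y^(p-1))^((p+1)/2) is 1 modulo p, and jacobiSym y (p^2) = 1. -/
theorem ps_sq (h : GI I) {π : 𝓞 F} (hπ : Prime π) (hn : ¬ (1 + I) ∣ π) {y : ℤ} (hy : ¬ π ∣ (y : 𝓞 F)) :
    ps 4 I (Ideal.span {π}) (y : 𝓞 F) ^ 2 = ((jacobiSym y (Nm π) : ℤ) : 𝓞 F) := by
  have hPP := pp_pi h hπ hn
  have hyP : (y : 𝓞 F) ∉ Ideal.span {π} := by rwa [Ideal.mem_span_singleton]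
  obtain ⟨⟨i, hi⟩, hsp⟩ := ps_spec hPP hyP
  obtain ⟨hd4, -, -⟩ := ps_dvd hPP
  change 4 ∣ Nm π - 1 at hd4
  change (y : 𝓞 F) ^ ((Nm π - 1) / 4) - _ ∈ _ at hsp
  obtain ⟨p, hp, hcase⟩ := pi_type h hπ
  have hπp : π ∣ (p : 𝓞 F) := by
    rcases hcase with ⟨-, h2⟩ | ⟨-, h2⟩
    · exact ⟨cj π, h2.symm⟩
    · exact h2.dvd
  have hp2 : p ≠ 2 := g7b_ne h hπ hn hπp hp
  have : Fact p.Prime := ⟨hp⟩
  have hyp : ¬ (p : ℤ) ∣ y := by
    rintro ⟨c, hc⟩
    apply hy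
    rw [hc]; push_cast
    exact hπp.mul_right _
  -- the square of the symbol is y^((N-1)/2) mod P
  have h2 : (y : 𝓞 F) ^ (2 * ((Nm π - 1) / 4)) - ps 4 I (Ideal.span {π}) (y : 𝓞 F) ^ 2 ∈ Ideal.span {π} := by
    rw [mul_comm, pow_mul]
    exact Ideal.mem_of_dvd _ (sub_dvd_pow_sub_pow _ _ 2) hsp
  -- the Jacobi symbol
  have hJ : ∃ j : ℕ, ((jacobiSym y (Nm π) : ℤ) : 𝓞 F) = I ^ j ∧ (y : 𝓞 F) ^ (2 * ((Nm π - 1) / 4)) - I ^ j ∈ Ideal.span {π} := by
    have hleg : (p : ℤ) ∣ y ^ (p / 2) - legendreSym p y := by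
      rw [← ZMod.intCast_zmod_eq_zero_iff_dvd]
      push_cast
      rw [legendreSym.eq_pow, sub_self]
    have hgcd : y.gcd p = 1 := by
      rw [← Int.isCoprime_iff_gcd_eq_one]
      exact ((Nat.prime_iff_prime_int.1 hp).coprime_iff_not_dvd.2 hyp).symm
    rcases hcase with ⟨h3, -⟩ | ⟨h3, -⟩
    · have h4 : 2 * ((Nm π - 1) / 4) = p / 2 := by rw [h3] at hd4 ⊢; omega
      rw [h4, h3, ← jacobiSym.legendreSym.to_jacobiSym]
      have h5 : (y : 𝓞 F) ^ (p / 2) - ((legendreSym p y : ℤ) : 𝓞 F) ∈ Ideal.span {π} := by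
        rw [Ideal.mem_span_singleton]
        have h6 : ((p : ℤ) : 𝓞 F) ∣ ((y ^ (p / 2) - legendreSym p y : ℤ) : 𝓞 F) := Int.cast_dvd_cast _ _ hleg
        push_cast at h6
        exact hπp.trans h6
      have h7 : legendreSym p y = 1 ∨ legendreSym p y = -1 := by
        rw [jacobiSym.legendreSym.to_jacobiSym]
        exact jacobiSym.eq_one_or_neg_one hgcd
      rcases h7 with h7 | h7
      · refine ⟨0, by rw [h7]; simp, ?_⟩
        rw [h7] at h5
        simpa using h5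
      · refine ⟨2, by rw [h7, h.sq]; simp, ?_⟩
        rw [h7] at h5
        rw [h.sq]
        simpa using h5
    · refine ⟨0, ?_, ?_⟩
      · rw [h3, jacobiSym.pow_right, jacobiSym.sq_one hgcd]; simp
      · rw [pow_zero, Ideal.mem_span_singleton]
        have h4 : 2 * ((Nm π - 1) / 4) = (p / 2) * (p + 1) := by
          rw [h3] at hd4 ⊢
          obtain ⟨k, hk⟩ : ∃ k, p = 2 * k + 1 := ⟨p / 2, by have := hp.eq_two_or_odd; omega⟩
          have h5 : p ^ 2 - 1 = 4 * (k * (k + 1)) := by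
            rw [hk]
            have : (2 * k + 1) ^ 2 = 4 * (k * (k + 1)) + 1 := by ring
            omega
          rw [h5, Nat.mul_div_cancel_left _ (by norm_num), hk]
          have : (2 * k + 1) / 2 = k := by omega
          rw [this]; ring
        obtain ⟨k, hk⟩ : ∃ k, p = 2 * k + 1 := ⟨p / 2, by have := hp.eq_two_or_odd; omega⟩
        have h5 : (p : ℤ) ∣ y ^ (2 * ((Nm π - 1) / 4)) - 1 := by
          rw [h4, pow_mul, ← ZMod.intCast_zmod_eq_zero_iff_dvd]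
          push_cast
          rw [← legendreSym.eq_pow]
          have h7 : legendreSym p y = 1 ∨ legendreSym p y = -1 := by
            rw [jacobiSym.legendreSym.to_jacobiSym]
            exact jacobiSym.eq_one_or_neg_one hgcd
          have h8 : p + 1 = 2 * (k + 1) := by omega
          rcases h7 with h7 | h7 <;> rw [h7, h8, pow_mul] <;> simp
        have h6 : ((p : ℤ) : 𝓞 F) ∣ ((y ^ (2 * ((Nm π - 1) / 4)) - 1 : ℤ) : 𝓞 F) := Int.cast_dvd_cast _ _ h5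
        push_cast at h6
        exact hπp.trans h6
  obtain ⟨j, hj, hj2⟩ := hJ
  rw [hj]
  rw [hi] at h2 ⊢
  rw [← pow_mul] at h2 ⊢
  apply ps_inj hPP
  have h3 := Ideal.sub_mem _ hj2 h2
  have h4 : (y : 𝓞 F) ^ (2 * ((Nm π - 1) / 4)) - I ^ j - ((y : 𝓞 F) ^ (2 * ((Nm π - 1) / 4)) - I ^ (i * 2)) = I ^ (i * 2) - I ^ j := by ring
  rwa [h4] at h3

theorem g7b_ind (h : GI I) {y : ℤ} (s : Multiset (𝓞 F)) : (∀ π ∈ s, Prime π ∧ Pry I π) → (∀ π ∈ s, ¬ π ∣ (y : 𝓞 F)) →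
    (s.map fun π => ps 4 I (Ideal.span {π}) (y : 𝓞 F)).prod ^ 2 = ((jacobiSym y (Nm s.prod) : ℤ) : 𝓞 F) := by
  induction s using Multiset.induction_on with
  | empty =>
    intro _ _
    have : Nm (1 : 𝓞 F) = 1 := by unfold Nm; simp
    simp [this]
  | cons π s ih =>
    intro h1 h2
    rw [Multiset.map_cons, Multiset.prod_cons, Multiset.prod_cons, mul_pow, ih (fun π hπ => h1 π (Multiset.mem_cons_of_mem hπ))
      (fun π hπ => h2 π (Multiset.mem_cons_of_mem hπ)), Nm_mul]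
    obtain ⟨hp, hpry⟩ := h1 π (Multiset.mem_cons_self _ _)
    rw [ps_sq h hp (pry_cop h hpry).1 (h2 π (Multiset.mem_cons_self _ _)), jacobiSym.mul_right', Int.cast_mul]
    · intro h0
      exact hp.ne_zero (H55P.Nm_eq_zero.1 h0)
    · intro h0
      have h3 := H55P.Nm_eq_zero.1 h0
      rw [Multiset.prod_eq_zero_iff] at h3
      exact (h1 0 (Multiset.mem_cons_of_mem h3)).1.ne_zero rfl

/-- Chunk G7B (S/M). pry_factor: product over the primes of s: ps_sq, jacobiSym.mul_right, Nm_mul (multiset induction). -/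
theorem pj_sq (h : GI I) {x : 𝓞 F} (hx : Pry I x) {y : ℤ} (hy : IsCoprime x (y : 𝓞 F)) :
    pj 4 I (Ideal.span {x}) (y : 𝓞 F) ^ 2 = ((jacobiSym y (Nm x) : ℤ) : 𝓞 F) := by
  obtain ⟨s, hs, hxs, hpj⟩ := pry_factor h x hx
  rw [hpj, g7b_ind h s hs, ← hxs]
  intro π hπ hdv
  have h1 : π ∣ x := by rw [hxs]; exact Multiset.dvd_prod hπ
  exact (hs π hπ).1.not_isUnit (hy.isUnit_of_dvd' h1 hdv)

theorem g7c_rec {c : ℤ} (hc : c % 2 = 1) {N : ℕ} (hN : N % 4 = 1) : jacobiSym c N = jacobiSym (N : ℤ) c.natAbs := by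
  have ho : Odd c.natAbs := by
    rw [Int.natAbs_odd, Int.odd_iff]; exact hc
  have hNo : Odd N := Nat.odd_iff.2 (by omega)
  have h1 : jacobiSym (c.natAbs : ℤ) N = jacobiSym (N : ℤ) c.natAbs := jacobiSym.quadratic_reciprocity_one_mod_four' ho hN
  rcases Int.natAbs_eq c with h | h
  · rw [← h1, ← h]
  · rw [← h1]
    conv_lhs => rw [h]
    rw [jacobiSym.neg _ hNo, ZMod.χ₄_nat_one_mod_four hN, one_mul]

/-- Chunk G7C (M). a odd, b divisible by 16, coprime, N = a^2 + b^2 (N = 1 mod 8). jacobiSym a N = 1: if a > 0, quadratic reciprocity with N = 1 mod 4 (jacobiSym.quadratic_reciprocity_one_mod_four and jacobiSym of casts): J(a | N) = J(N | a) = J(b^2 | a) = 1 (jacobiSym.mod_left', jacobiSym.sq_one'; b prime to a); if a < 0: J(-1 | N) = 1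
(jacobiSym.at_neg_one, ZMod.χ₄). J(a + b | N) = J(N | |a+b|) in the same way = J(2 | |a+b|) J(2N | |a+b|), 2N = (a+b)^2 + (a-b)^2, so J(2N | |a+b|) = J((a-b)^2 | |a+b|) = 1 (a - b is prime to a + b: an odd common prime divides 2a and 2b); J(2 | |a+b|): jacobiSym.at_two, ZMod.χ₈ depends on |a + b| modulo 8, and a + b = a mod 8. -/
theorem jac_ab {a b : ℤ} (ha : a % 2 = 1) (hb : b % 16 = 0) (hab : IsCoprime a b) {N : ℕ} (hN : (N : ℤ) = a ^ 2 + b ^ 2) :
    jacobiSym a N = 1 ∧ jacobiSym (a + b) N = if a % 8 = 1 ∨ a % 8 = 7 then 1 else -1 := by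
  obtain ⟨k, hk⟩ : ∃ k, a = 2 * k + 1 := ⟨a / 2, by omega⟩
  obtain ⟨l, hl⟩ : ∃ l, b = 16 * l := ⟨b / 16, by omega⟩
  have hN4 : N % 4 = 1 := by
    have : (N : ℤ) = 4 * (k ^ 2 + k + 64 * l ^ 2) + 1 := by rw [hN, hk, hl]; ring
    omega
  have hgab : Int.gcd a b = 1 := Int.isCoprime_iff_gcd_eq_one.1 hab
  constructor
  · rw [g7c_rec ha hN4, jacobiSym.mod_left' (a₂ := b ^ 2)]
    · apply jacobiSym.sq_one'
      rw [Int.gcd_comm]
      show Nat.gcd ((a.natAbs : ℤ).natAbs) b.natAbs = 1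
      rw [Int.natAbs_natCast]
      exact hgab
    · rw [Int.emod_emod_of_dvd _ dvd_rfl |>.symm]
      apply Int.emod_emod_of_dvd _ dvd_rfl |>.trans
      apply Int.ModEq.eq
      rw [Int.modEq_comm, Int.modEq_iff_dvd, hN]
      have : (a.natAbs : ℤ) ∣ a := Int.natAbs_dvd.2 dvd_rfl
      exact (this.trans (dvd_pow_self a two_ne_zero)).trans ⟨1, by ring⟩
  · have hs : (a + b) % 2 = 1 := by omega
    set m := (a + b).natAbs with hm
    have hmo : Odd m := by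
      rw [hm, Int.natAbs_odd, Int.odd_iff]; exact hs
    have hmd : (m : ℤ) ∣ a + b := Int.natAbs_dvd.2 dvd_rfl
    rw [g7c_rec hs hN4, ← hm]
    have h2m : Int.gcd 2 m = 1 := by
      have := Nat.Coprime.symm (Nat.Coprime.pow_right 1 (Nat.coprime_two_right.2 hmo) : m.Coprime (2 ^ 1))
      simpa [Int.gcd] using this
    have h1 : jacobiSym (2 * (N : ℤ)) m = 1 := by
      rw [jacobiSym.mod_left' (a₂ := (a - b) ^ 2)]
      · apply jacobiSym.sq_one'
        rw [← Int.isCoprime_iff_gcd_eq_one]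
        have h3 : IsCoprime (a - b) (a + b) := by
          obtain ⟨u, v, huv⟩ := hab
          -- 1 is a combination of 2a and 2b up to factor 2; a+b odd
          have h4 : (a - b) * (u - v) + (a + b) * (u + v) = 2 := by linear_combination 2 * huv
          obtain ⟨w, hw⟩ : ∃ w, a + b = 2 * w + 1 := ⟨(a + b) / 2, by omega⟩
          refine ⟨- w * (u - v), 1 - w * (u + v), ?_⟩
          linear_combination (-w) * h4 + hw
        have h5 : IsCoprime (a - b) (m : ℤ) := h3.of_isCoprime_of_dvd_right hmd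
        exact h5
      · apply Int.ModEq.eq
        rw [Int.modEq_comm, Int.modEq_iff_dvd, hN]
        refine (hmd.trans (dvd_pow_self (a + b) two_ne_zero)).trans ⟨1, by ring⟩
    rw [jacobiSym.mul_left] at h1
    have h2 : jacobiSym 2 m = 1 ∨ jacobiSym 2 m = -1 := jacobiSym.eq_one_or_neg_one h2m
    have h6 : jacobiSym (N : ℤ) m = jacobiSym 2 m := by
      rcases h2 with h | h <;> rw [h] at h1 ⊢ <;> linarith
    rw [h6, jacobiSym.at_two hmo, ZMod.χ₈_nat_eq_if_mod_eight]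
    have h7 : m % 2 ≠ 0 := by rw [Nat.odd_iff] at hmo; omega
    rw [if_neg h7]
    have h8 : (m % 8 = 1 ∨ m % 8 = 7) ↔ (a % 8 = 1 ∨ a % 8 = 7) := by
      rw [hm]; omega
    simp only [h8]

end H55W
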