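import Mathlib
import Pool.Agent.Lib.H55W.D
import Pool.Agent.Lib.H55W.HB
import Pool.Agent.Lib.H55W.S4

/-! # H55W, part S: residue characters from reciprocity -/

open NumberField

namespace H55W

variable {F : Type} [Field F] [NumberField F] {m : ℕ} {ζ : 𝓞 F}

theorem s5_unit {a : ℤ} (h : IsUnit (a : 𝓞 F)) : IsUnit a := by
  have h1 := h.map (Algebra.norm ℤ)
  have h2 : Algebra.norm ℤ (a : 𝓞 F) = a ^ Module.finrank ℤ (𝓞 F) := by
    have := Algebra.norm_algebraMap (R := ℤ) (S := 𝓞 F) a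
    simpa using this
  rw [h2] at h1
  have h3 : Module.finrank ℤ (𝓞 F) ≠ 0 := by
    rw [RingOfIntegers.rank]
    exact Module.finrank_pos.ne'
  exact (isUnit_pow_iff h3).1 h1

/-- Chunk S5 (S). -/
theorem s5_pj {x : 𝓞 F} {n : ℤ} (hζ : IsPrimitiveRoot ζ m) (hm : 2 ≤ m) (hn : n ≠ 0) (hx : IsCoprime x (((m * n : ℤ)) : 𝓞 F)) :
    PJ m ζ (Ideal.span {x}) ∧ IsCoprime (Ideal.span {(n : 𝓞 F)}) (Ideal.span {x}) := by
  rw [Int.cast_mul, Int.cast_natCast] at hx
  have h1 : IsCoprime x (m : 𝓞 F) := hx.of_mul_right_left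
  have h2 : IsCoprime x (n : 𝓞 F) := hx.of_mul_right_right
  refine ⟨⟨?_, (Ideal.isCoprime_span_singleton_iff _ _).2 h1, hζ, hm⟩,
    (Ideal.isCoprime_span_singleton_iff _ _).2 h2.symm⟩
  rw [Ne, Ideal.span_singleton_eq_bot]
  rintro rfl
  have h3 : IsUnit ((m : ℤ) : 𝓞 F) := by
    rw [Int.cast_natCast]
    exact isCoprime_zero_left.1 h1
  have h4 := s5_unit h3
  rw [Int.isUnit_iff] at h4
  omega

/-- Chunk S5 (M). root: pj_root; mul: pj_mul_left; unit: span {u} = ⊤, pj_top; euler: pj_prime for P = span {π} (prime, not bottom; m is not in P), ps_spec; Nat.card of the quotient = absNorm. per: per_of_one (HB.lean) for M = span {k}: x is prime to k because it is prime to (m n)^j (hk; IsCoprime.pow_right, IsCoprime.of_isCoprime_of_dvd_right);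
κ (x y) = κ x κ y for x, y prime to k: x is prime to m n because m n divides k (hk'). -/
theorem prc_of (hζ : IsPrimitiveRoot ζ m) (hm : 2 ≤ m) {n k : ℤ} (hn : n ≠ 0) {j : ℕ} (hk : k ∣ (m * n : ℤ) ^ j) (hk' : (m * n : ℤ) ∣ k)
    (h1 : ∀ x : 𝓞 F, (k : 𝓞 F) ∣ x - 1 → pj m ζ (Ideal.span {x}) (n : 𝓞 F) = 1) :
    PRC (𝓞 F) m n (m * n) k (fun x => pj m ζ (Ideal.span {x}) (n : 𝓞 F)) := by
  have hkc : ∀ x : 𝓞 F, IsCoprime (Ideal.span {x}) (Ideal.span {(k : 𝓞 F)}) →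
      IsCoprime x (((m * n : ℤ)) : 𝓞 F) := by
    intro x hx
    rw [Ideal.isCoprime_span_singleton_iff] at hx
    exact hx.of_isCoprime_of_dvd_right (Int.cast_dvd_cast _ _ hk')
  have hck : ∀ x : 𝓞 F, IsCoprime x (((m * n : ℤ)) : 𝓞 F) →
      IsCoprime (Ideal.span {x}) (Ideal.span {(k : 𝓞 F)}) := by
    intro x hx
    rw [Ideal.isCoprime_span_singleton_iff]
    have h2 : (k : 𝓞 F) ∣ (((m * n : ℤ)) : 𝓞 F) ^ j := by
      have := Int.cast_dvd_cast (α := 𝓞 F) _ _ hk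
      rwa [Int.cast_pow] at this
    exact (hx.pow_right (n := j)).of_isCoprime_of_dvd_right h2
  have hmul : ∀ x y : 𝓞 F, IsCoprime x (((m * n : ℤ)) : 𝓞 F) → IsCoprime y (((m * n : ℤ)) : 𝓞 F) →
      pj m ζ (Ideal.span {x * y}) (n : 𝓞 F) =
        pj m ζ (Ideal.span {x}) (n : 𝓞 F) * pj m ζ (Ideal.span {y}) (n : 𝓞 F) := by
    intro x y hx hy
    rw [← Ideal.span_singleton_mul_span_singleton]
    exact pj_mul_left (s5_pj hζ hm hn hx).1.ne (s5_pj hζ hm hn hy).1.ne _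
  constructor
  · intro x hx
    obtain ⟨h2, h3⟩ := s5_pj hζ hm hn hx
    exact pj_root h2 h3
  · exact hmul
  · intro x y hx hy hxy
    refine per_of_one (M := Ideal.span {(k : 𝓞 F)})
      (κ := fun x => pj m ζ (Ideal.span {x}) (n : 𝓞 F)) ?_ ?_ (hck x hx) (hck y hy)
      (Ideal.mem_span_singleton.2 hxy)
    · intro x y hx hy
      exact hmul x y (hkc x hx) (hkc y hy)
    · intro x hx
      exact h1 x (Ideal.mem_span_singleton.1 hx)
  · intro u hu
    show pj m ζ (Ideal.span {u}) (n : 𝓞 F) = 1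
    rw [Ideal.span_singleton_eq_top.2 hu]
    exact pj_top _
  · intro π hπ h2 h3
    rw [Int.cast_mul, Int.cast_natCast] at h2
    have hP : PP m ζ (Ideal.span {π}) := by
      refine ⟨(Ideal.span_singleton_prime hπ.ne_zero).2 hπ, ?_, ?_, hζ, hm⟩
      · rw [Ne, Ideal.span_singleton_eq_bot]
        exact hπ.ne_zero
      · rw [Ideal.mem_span_singleton]
        exact h3
    have h4 : (n : 𝓞 F) ∉ Ideal.span {π} := by
      rw [Ideal.mem_span_singleton]
      exact fun h => h2 (h.mul_left _)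
    have h5 := (ps_spec hP h4).2
    show π ∣ (n : 𝓞 F) ^ ((Nat.card (𝓞 F ⧸ Ideal.span {π}) - 1) / m) -
      pj m ζ (Ideal.span {π}) (n : 𝓞 F)
    rw [pj_prime hP, ← Ideal.mem_span_singleton]
    rw [Ideal.absNorm_apply, Submodule.cardQuot_apply] at h5
    exact h5

end H55W
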