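import Mathlib
import Pool.Agent.Lib.H55W.G6
import Pool.Agent.Lib.H55W.G7
import Pool.Agent.Lib.H55W.S5

/-! # H55W, part G: the quartic residue character of a rational integer -/

open NumberField IsDedekindDomain

namespace H55W

open H55P (IQ embF eF Nm)
open H55K (cj)

variable {F : Type} [Field F] [NumberField F] [IQ F] {I : 𝓞 F}

theorem g8_gcd (A B : ℤ) (hA : A % 4 = 1) (hB : B % 16 = 0) : ∃ g a b : ℤ, A = g * a ∧ B = g * b ∧ IsCoprime a b ∧ g % 4 = 1 ∧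
    a % 4 = 1 ∧ b % 16 = 0 := by
  have hA0 : A ≠ 0 := by rintro rfl; omega
  have hg0 : 0 < Int.gcd A B := Int.gcd_pos_of_ne_zero_left _ hA0
  obtain ⟨a, ha⟩ := Int.gcd_dvd_left A B
  obtain ⟨b, hb⟩ := Int.gcd_dvd_right A B
  have hcop : IsCoprime a b := by
    have h1 := Int.isCoprime_iff_gcd_eq_one.2 (Int.gcd_div_gcd_div_gcd hg0)
    have h2 : A / (Int.gcd A B : ℤ) = a := Int.ediv_eq_of_eq_mul_right (by omega) ha
    have h3 : B / (Int.gcd A B : ℤ) = b := Int.ediv_eq_of_eq_mul_right (by omega) hb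
    rwa [h2, h3] at h1
  set G : ℤ := (Int.gcd A B : ℤ) with hG
  have hGo : G % 2 = 1 := by
    by_contra h
    have h1 : G % 2 = 0 := by omega
    obtain ⟨k, hk⟩ : ∃ k, G = 2 * k := ⟨G / 2, by omega⟩
    rw [hk] at ha
    have : A = 2 * (k * a) := by rw [ha]; ring
    omega
  have key : ∀ g : ℤ, (g = G ∨ g = -G) → g % 4 = 1 → ∀ a' b' : ℤ, A = g * a' → B = g * b' → a' % 4 = 1 ∧ b' % 16 = 0 := by
    intro g hg hg4 a' b' h1 h2
    constructor
    · obtain ⟨k, hk⟩ : ∃ k, g = 4 * k + 1 := ⟨g / 4, by omega⟩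
      have : A = 4 * (k * a') + a' := by rw [h1, hk]; ring
      omega
    · have h3 : (16 : ℤ) ∣ g * b' := by rw [← h2]; exact Int.dvd_of_emod_eq_zero hB
      have h4 : IsCoprime (16 : ℤ) g := by
        have h5 : IsCoprime (2 : ℤ) g := by
          obtain ⟨k, hk⟩ : ∃ k, g = 2 * k + 1 := ⟨g / 2, by omega⟩
          exact ⟨-k, 1, by rw [hk]; ring⟩
        have h6 := IsCoprime.pow_left (m := 4) h5
        norm_num at h6
        exact h6
      exact Int.emod_eq_zero_of_dvd (h4.dvd_of_dvd_mul_left h3)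
  have h4 : G % 4 = 1 ∨ G % 4 = 3 := by omega
  rcases h4 with h4 | h4
  · obtain ⟨h5, h6⟩ := key G (Or.inl rfl) h4 a b ha hb
    exact ⟨G, a, b, ha, hb, hcop, h4, h5, h6⟩
  · have h7 : A = (-G) * (-a) := by rw [ha]; ring
    have h8 : B = (-G) * (-b) := by rw [hb]; ring
    obtain ⟨h5, h6⟩ := key (-G) (Or.inr rfl) (by omega) (-a) (-b) h7 h8
    exact ⟨-G, -a, -b, h7, h8, hcop.neg_neg, by omega, h5, h6⟩

omit [IQ F] in
theorem g8_pry (h : GI I) {x : 𝓞 F} (hx : (4 : 𝓞 F) ∣ x - 1) : Pry I x := by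
  refine Dvd.dvd.trans ⟨(1 - I), ?_⟩ hx
  linear_combination (2 : 𝓞 F) * h.sq

/-- Chunk G8A (M). x = a + b I, a = 1 mod 16, b = 0 mod 16 (GI.rep for (x-1)/16). g = gcd(a, b), odd, with the sign such that g = 1 mod 4: a = g a', b = g b', a', b' coprime, a' = 1 mod 4, b' divisible by 16; y = a' + b' I, x = g y. pj (span {x}) 2 = pj (span {g}) 2 * pj (span {y}) 2 (pj_mul_left), the first is 1 (rat_rat).
y is primary (y - 1 is divisible by 4). Modulo y: b' ≡ a' I, so (a' + b')^2 ≡ a'^2 (1 + I)^2 = 2 I a'^2: pj_congr, pj_mul for J = span {y}: pj(a'+b')^2 = pj 2 * pj I * pj(a')^2. The squares are Jacobi symbols (pj_sq, N = Nm y = a'^2 + b'^2 (gi_nm); a', a' + b' are prime to y: prime to N; IsCoprime of integers maps to 𝓞 F, y divides N) given by jac_ab.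
pj I = I^((N-1)/4) (pj_zeta; absNorm (span {y}) = Nm y): a' = 1, 7 mod 8: N = 1 mod 16, pj I = 1 and jac_ab = 1; a' = 3, 5 mod 8: N = 9 mod 16, pj I = I^2 = -1 (I^4 = 1) and jac_ab = -1. So pj 2 = 1. -/
theorem one_two (h : GI I) {x : 𝓞 F} (hx : (16 : 𝓞 F) ∣ x - 1) : pj 4 I (Ideal.span {x}) 2 = 1 := by
  obtain ⟨z, hz⟩ := hx
  obtain ⟨c, d, hcd⟩ := h.rep z
  obtain ⟨g, a, b, hA, hB, hab, hg, ha, hb⟩ := g8_gcd (1 + 16 * c) (16 * d) (by omega) (by omega)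
  set y : 𝓞 F := (a : 𝓞 F) + (b : 𝓞 F) * I with hy
  have hxy : x = (g : 𝓞 F) * y := by
    have h1 : ((1 + 16 * c : ℤ) : 𝓞 F) = ((g * a : ℤ) : 𝓞 F) := by rw [hA]
    have h2 : ((16 * d : ℤ) : 𝓞 F) = ((g * b : ℤ) : 𝓞 F) := by rw [hB]
    push_cast at h1 h2
    rw [hy]
    rw [hcd] at hz
    linear_combination hz + h1 + I * h2
  obtain ⟨a1, ha1⟩ : ∃ a1, a = 4 * a1 + 1 := ⟨a / 4, by omega⟩
  obtain ⟨b1, hb1⟩ : ∃ b1, b = 16 * b1 := ⟨b / 16, by omega⟩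
  have hypry : Pry I y := by
    apply g8_pry h
    refine ⟨(a1 : 𝓞 F) + 4 * (b1 : 𝓞 F) * I, ?_⟩
    rw [hy, ha1, hb1]; push_cast; ring
  obtain ⟨-, -, hPJ⟩ := pry_cop h hypry
  have hy0 : y ≠ 0 := by
    intro h0
    apply hPJ.ne
    rw [h0]; simp
  have hg0 : (g : 𝓞 F) ≠ 0 := by
    intro h0
    have : g = 0 := by exact_mod_cast h0
    omega
  have h1 : pj 4 I (Ideal.span {x}) 2 = pj 4 I (Ideal.span {y}) 2 := by
    rw [hxy, ← Ideal.span_singleton_mul_span_singleton, pj_mul_left (by rwa [Ne, Ideal.span_singleton_eq_bot]) (by rwa [Ne, Ideal.span_singleton_eq_bot])]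
    have h2 : pj 4 I (Ideal.span {(g : 𝓞 F)}) ((2 : ℤ) : 𝓞 F) = 1 := by
      apply rat_rat h (by omega)
      obtain ⟨k, hk⟩ : ∃ k, g = 2 * k + 1 := ⟨g / 2, by omega⟩
      exact ⟨-k, 1, by rw [hk]; ring⟩
    rw [Int.cast_ofNat] at h2
    rw [h2, one_mul]
  rw [h1]
  have hNm : ((Nm y : ℕ) : ℤ) = a ^ 2 + b ^ 2 := gi_nm h a b
  have hyN : y ∣ ((a ^ 2 + b ^ 2 : ℤ) : 𝓞 F) := by
    refine ⟨(a : 𝓞 F) - (b : 𝓞 F) * I, ?_⟩
    rw [hy]; push_cast
    linear_combination (b : 𝓞 F) ^ 2 * h.sq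
  have hca : IsCoprime y (a : 𝓞 F) := by
    have h2 : IsCoprime (a ^ 2 + b ^ 2) a := by
      have h3 : IsCoprime (b ^ 2) a := (IsCoprime.pow_right (n := 2) hab).symm
      have h4 : a ^ 2 + b ^ 2 = b ^ 2 + a * a := by ring
      rw [h4]
      exact IsCoprime.add_mul_left_left h3 a
    have h3 := h2.map (Int.castRingHom (𝓞 F))
    exact h3.of_isCoprime_of_dvd_left hyN
  have hcb : IsCoprime y ((a + b : ℤ) : 𝓞 F) := by
    have h2 : IsCoprime (a ^ 2 + b ^ 2) (a + b) := by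
      have h3 : IsCoprime (2 : ℤ) (a + b) := ⟨-(2 * a1 + 8 * b1), 1, by rw [ha1, hb1]; ring⟩
      have h5 : IsCoprime a (a + b) := by
        have := IsCoprime.add_mul_left_right hab 1
        rwa [mul_one, add_comm] at this
      have h6 : IsCoprime (2 * a ^ 2) (a + b) := h3.mul_left (IsCoprime.pow_left h5)
      have h4 : a ^ 2 + b ^ 2 = 2 * a ^ 2 + (a + b) * (b - a) := by ring
      rw [h4]
      exact IsCoprime.add_mul_left_left h6 _
    have h3 := h2.map (Int.castRingHom (𝓞 F))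
    exact h3.of_isCoprime_of_dvd_left hyN
  have h2 : pj 4 I (Ideal.span {y}) (((a + b : ℤ) : 𝓞 F) * ((a + b : ℤ) : 𝓞 F)) =
      pj 4 I (Ideal.span {y}) (2 * I * ((a : 𝓞 F) * (a : 𝓞 F))) := by
    apply pj_congr hPJ
    rw [Ideal.mem_span_singleton]
    refine ⟨-I * (((a : 𝓞 F) + (b : 𝓞 F)) + (a : 𝓞 F) * (1 + I)), ?_⟩
    rw [hy]; push_cast
    linear_combination (2 * (a : 𝓞 F) ^ 2 - (a : 𝓞 F) ^ 2 + (a : 𝓞 F) * (a + b + a * (1 + I)) - 0 + (b : 𝓞 F) * (a + b + a * (1 + I)) - (a : 𝓞 F) * (a + b + a * (1 + I))) * h.sq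
  rw [pj_mul hPJ, pj_mul hPJ, pj_mul hPJ, pj_mul hPJ, ← sq, ← sq, pj_sq h hypry hcb, pj_sq h hypry hca] at h2
  obtain ⟨hj1, hj2⟩ := jac_ab (a := a) (b := b) (by omega) hb hab hNm
  rw [hj1, hj2] at h2
  have h3 : pj 4 I (Ideal.span {y}) I = I ^ ((Nm y - 1) / 4) := (pj_zeta hPJ).2
  rcases (by omega : a % 8 = 1 ∨ a % 8 = 5) with h8 | h8
  · obtain ⟨k, hk⟩ : ∃ k, a = 8 * k + 1 := ⟨a / 8, by omega⟩
    have h9 : ((Nm y : ℕ) : ℤ) = 16 * (4 * k ^ 2 + k + 16 * b1 ^ 2) + 1 := by rw [hNm, hk, hb1]; ring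
    obtain ⟨j, hj⟩ : ∃ j, Nm y = 16 * j + 1 := ⟨Nm y / 16, by omega⟩
    have h10 : (Nm y - 1) / 4 = 4 * j := by omega
    rw [h10, pow_mul, (gi_root h).pow_eq_one, one_pow] at h3
    rw [h3, if_pos (Or.inl h8)] at h2
    simpa using h2.symm
  · obtain ⟨k, hk⟩ : ∃ k, a = 8 * k + 5 := ⟨a / 8, by omega⟩
    have h9 : ((Nm y : ℕ) : ℤ) = 16 * (4 * k ^ 2 + 5 * k + 1 + 16 * b1 ^ 2) + 9 := by rw [hNm, hk, hb1]; ring
    obtain ⟨j, hj⟩ : ∃ j, Nm y = 16 * j + 9 := ⟨Nm y / 16, by omega⟩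
    have h10 : (Nm y - 1) / 4 = 4 * j + 2 := by omega
    rw [h10, pow_add, pow_mul, (gi_root h).pow_eq_one, one_pow, one_mul, h.sq] at h3
    rw [h3, if_neg (by omega)] at h2
    simp only [Int.cast_neg, Int.cast_one, mul_one, mul_neg, neg_inj] at h2
    exact h2.symm

theorem g8_ind (h : GI I) (N : ℕ) : ∀ n : ℤ, n.natAbs = N → n ≠ 0 → ∀ x : 𝓞 F, ((16 * n : ℤ) : 𝓞 F) ∣ x - 1 →
    pj 4 I (Ideal.span {x}) (n : 𝓞 F) = 1 := by
  induction N using Nat.strong_induction_on with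
  | _ N ih =>
  intro n hN hn x hx
  have hx16 : (16 : 𝓞 F) ∣ x - 1 := by
    refine Dvd.dvd.trans ⟨(n : 𝓞 F), ?_⟩ hx
    push_cast; ring
  have hpry : Pry I x := g8_pry h (Dvd.dvd.trans ⟨4, by norm_num⟩ hx16)
  obtain ⟨-, -, hPJ⟩ := pry_cop h hpry
  by_cases h1 : n.natAbs = 1
  · rcases Int.natAbs_eq n with h2 | h2 <;> rw [h1] at h2 <;> subst h2
    · rw [Nat.cast_one, Int.cast_one]; exact pj_one hPJ
    · rw [Nat.cast_one, Int.cast_neg, Int.cast_one]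
      exact (one_neg h (Dvd.dvd.trans ⟨2, by norm_num⟩ hx16)).2
  · obtain ⟨q, hq, hqn⟩ := Nat.exists_prime_and_dvd h1
    have key : ∀ q' : ℤ, q'.natAbs = q → pj 4 I (Ideal.span {x}) (q' : 𝓞 F) = 1 →
        pj 4 I (Ideal.span {x}) (n : 𝓞 F) = 1 := by
      intro q' hq' h2
      have h3 : q' ∣ n := by rw [← Int.natAbs_dvd_natAbs, hq']; exact hqn
      obtain ⟨n', hn'⟩ := h3
      have h4 : n' ≠ 0 := by rintro rfl; apply hn; rw [hn']; ring
      have h5 : n'.natAbs < N := by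
        rw [← hN, hn', Int.natAbs_mul, hq']
        have := hq.two_le
        have h6 : 0 < n'.natAbs := Int.natAbs_pos.2 h4
        nlinarith
      have h6 := ih n'.natAbs h5 n' rfl h4 x (by
        refine Dvd.dvd.trans ⟨(q' : 𝓞 F), ?_⟩ hx
        rw [hn']; push_cast; ring)
      rw [hn', Int.cast_mul, pj_mul hPJ, h2, h6, one_mul]
    by_cases hq2 : q = 2
    · subst hq2
      apply key 2 rfl
      rw [Int.cast_ofNat]
      exact one_two h hx16
    · have hodd : q % 2 = 1 := by rcases hq.eq_two_or_odd with h | h; exact absurd h hq2; exact h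
      have hdv : ∀ q' : ℤ, q'.natAbs = q → (q' : 𝓞 F) ∣ x - 1 := by
        intro q' hq'
        have h3 : q' ∣ n := by rw [← Int.natAbs_dvd_natAbs, hq']; exact hqn
        have h4 : q' ∣ 16 * n := h3.mul_left _
        exact (Int.cast_dvd_cast (α := 𝓞 F) _ _ h4).trans hx
      rcases (by omega : q % 4 = 1 ∨ q % 4 = 3) with h4 | h4
      · apply key q (Int.natAbs_natCast q)
        exact one_of_prime h hq hq2 (n := (q : ℤ)) (Int.natAbs_natCast q) (by omega) hpry (hdv _ (Int.natAbs_natCast q))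
      · apply key (-q) (by simp)
        exact one_of_prime h hq hq2 (n := -(q : ℤ)) (by simp) (by omega) hpry (hdv _ (by simp))

/-- Chunk G8B (S/M). Strong induction on n.natAbs. n = 1: pj_one; n = -1: one_neg. Otherwise a prime number q divides n. q = 2: n = 2 n', one_two. q odd: q' = q or -q with q' % 4 = 1, n = q' n', one_of_prime. pj_mul; 16 n' divides 16 n. -/
theorem one_all (h : GI I) {n : ℤ} (hn : n ≠ 0) {x : 𝓞 F} (hx : ((16 * n : ℤ) : 𝓞 F) ∣ x - 1) : pj 4 I (Ideal.span {x}) (n : 𝓞 F) = 1 := by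
  exact g8_ind h _ n rfl hn x hx

/-- Chunk G8B (S). prc_of with m = 4, k = 16 n, j = 2 (16 n divides (4n)^2), one_all. -/
theorem quart (h : GI I) {n : ℤ} (hn : n ≠ 0) : ∃ κ : 𝓞 F → 𝓞 F, PRC (𝓞 F) 4 n (4 * n) (16 * n) κ := by
  have h1 := prc_of (m := 4) (gi_root h) (by norm_num) (n := n) (k := 16 * n) hn (j := 2) ⟨n, by push_cast; ring⟩ ⟨4, by push_cast; ring⟩
      (fun x hx => one_all h hn hx)
  exact ⟨fun x => pj 4 I (Ideal.span {x}) (n : 𝓞 F), by exact_mod_cast h1⟩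

end H55W
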