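import Mathlib
import Pool.Agent.Lib.H55W.FD
import Pool.Agent.Lib.H55W.G8
import Pool.Agent.Lib.H55W.Q2A

/-! # H55W, part F: the function defining the Hecke character, discriminants -4 and -8 -/

open NumberField IsDedekindDomain

namespace H55W

open H55P (IQ embF eF Nm)
open H55K (cj)

variable {F : Type} [Field F] [NumberField F] [IQ F] {I : 𝓞 F}

omit [NumberField F] [IQ F] in
theorem f4_cop {x : 𝓞 F} {D : ℤ} {c : 𝓞 F} {j : ℕ} (hc : c ∣ ((D : ℤ) : 𝓞 F) ^ j)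
    (hx : IsCoprime (Ideal.span {x}) (Ideal.span {((D : ℤ) : 𝓞 F) ^ 3})) : IsCoprime x c := by
  rw [Ideal.isCoprime_span_singleton_iff] at hx
  have h1 : IsCoprime x ((D : ℤ) : 𝓞 F) := (IsCoprime.pow_right_iff (by norm_num)).1 hx
  exact (h1.pow_right (n := j)).of_isCoprime_of_dvd_right hc

omit [IQ F] in
theorem f4_pc {γ a : 𝓞 F} (hγ : Prime γ) (h : ¬ γ ∣ a) : IsCoprime γ a := by
  have hp : (Ideal.span {γ}).IsPrime := (Ideal.span_singleton_prime hγ.ne_zero).2 hγ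
  have hm : (Ideal.span {γ}).IsMaximal := hp.isMaximal (by
    rw [Ne, Ideal.span_singleton_eq_bot]
    exact hγ.ne_zero)
  obtain ⟨y, i, hi, hyi⟩ := hm.exists_inv (x := a) (by rwa [Ideal.mem_span_singleton])
  obtain ⟨z, rfl⟩ := Ideal.mem_span_singleton.1 hi
  exact ⟨z, y, by rw [← hyi]; ring⟩

omit [NumberField F] [IQ F] in
theorem f4_uc {u c : 𝓞 F} (hu : IsUnit u) : IsCoprime u c := by
  obtain ⟨v, hv⟩ := hu.exists_left_inv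
  exact ⟨v, 0, by rw [hv]; ring⟩

omit [NumberField F] [IQ F] in
theorem f4_diff {z z' : 𝓞 F} (hz : z ^ 4 = 1) (hz' : z' ^ 4 = 1) (hne : z ≠ z') : z - z' ∣ 2 := by
  have h1 : (z - z') * ((z + z') * (z ^ 2 + z' ^ 2)) = 0 := by linear_combination hz - hz'
  rcases mul_eq_zero.1 ((mul_eq_zero.1 h1).resolve_left (sub_ne_zero.2 hne)) with h2 | h2
  · refine ⟨z ^ 3, ?_⟩
    linear_combination (-2) * hz + z ^ 3 * h2
  · refine ⟨-((z - z') * z ^ 3 * z' ^ 3), ?_⟩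
    linear_combination (-2) * z' ^ 4 * hz - 2 * hz' + z ^ 3 * z' ^ 3 * h2

/-- Chunk F4 (M). pr from exists_pr (n0 = 2 + 2I: x prime to 2 + 2I is not divisible by 1 + I: gi_exists; gi_unit, gi_uniq), κ from quart for n = -δ (c = 4 (-δ), k = 16 (-δ)). f x = pr x * (κ x)^3. D = δ^3, δ even: x prime to M is prime to δ, to 2, to 2 + 2I (divides 4) and to 4δ (Ideal.isCoprime_span_singleton_iff; 4δ divides D^3); elements of M are divisible by D^3 = δ^9, so by 16 δ and 2 + 2I.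
un: κ^4 = 1. The last statement: γ a prime, N = Nm γ (nm_card): pr γ = ζ (ζ γ ≡ 1 mod 2 + 2I), κ γ = ζ: γ divides (-δ)^((N-1)/4) - κ γ (PRC.euler: γ does not divide 4δ, 4, because 2 divides δ) and (-δ)^((N-1)/4) - ζ; κ γ and ζ are powers of I (κ^4 = 1: (κ^2 - 1)(κ^2 + 1) = 0), differences of different ones divide 2: κ γ = ζ. f γ = ζ ζ^3 = 1. -/
theorem exists_f4 (hI : GI I) {δ : ℤ} (h0 : δ ≠ 0) (h2 : δ % 2 = 0) {D : ℤ} (hD : D = δ ^ 3) :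
    ∃ f : 𝓞 F → 𝓞 F, HF (Ideal.span {((D : ℤ) : 𝓞 F) ^ 3}) f ∧ ∀ γ ζ : 𝓞 F, Prime γ → ¬ γ ∣ ((D : ℤ) : 𝓞 F) → 2 + 2 * I ∣ γ * ζ - 1 →
      (∃ i : ℕ, ζ = I ^ i) → γ ∣ (-(δ : 𝓞 F)) ^ ((Nm γ - 1) / 4) - ζ → f γ = 1 := by
  obtain ⟨m, rfl⟩ : ∃ m, δ = 2 * m := ⟨δ / 2, by omega⟩
  have hDc : ((D : ℤ) : 𝓞 F) = 8 * (m : 𝓞 F) ^ 3 := by rw [hD]; push_cast; ring
  have hI4 : I ^ 4 = 1 := g0_pow4 hI
  have hIu : ∀ i : ℕ, IsUnit (I ^ i) := by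
    intro i
    refine IsUnit.pow i (IsUnit.of_mul_eq_one (I ^ 3) ?_)
    rw [← hI4]
    ring
  have hnu : ¬ IsUnit (1 + I) := by
    intro hu
    have h1 := g0_nm_unit hu
    rw [g0_nm11 hI] at h1
    norm_num at h1
  have hex : ∀ x : 𝓞 F, IsCoprime x (2 + 2 * I) → ∃ u, IsUnit u ∧ 2 + 2 * I ∣ u * x - 1 := by
    intro x hx
    obtain ⟨i, hi⟩ := gi_exists hI (x := x) (by
      intro hd
      exact hnu (hx.isUnit_of_dvd' hd ⟨2, by ring⟩))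
    exact ⟨I ^ i, hIu i, hi⟩
  have huniq : ∀ u : 𝓞 F, IsUnit u → 2 + 2 * I ∣ u - 1 → u = 1 := by
    intro u hu hd
    obtain ⟨i, rfl⟩ := gi_unit hI hu
    exact gi_uniq hI hd
  obtain ⟨pr, p1, p2, p3, p4, p5⟩ := exists_pr (2 + 2 * I) hex huniq
  obtain ⟨κ, hκ⟩ := quart hI (n := -(2 * m)) (neg_ne_zero.2 h0)
  -- coprimality
  have c1 : ((4 * -(2 * m) : ℤ) : 𝓞 F) ∣ ((D : ℤ) : 𝓞 F) ^ 1 := by
    rw [hDc]
    exact ⟨-(m : 𝓞 F) ^ 2, by push_cast; ring⟩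
  have d2 : (2 : 𝓞 F) ∣ ((D : ℤ) : 𝓞 F) ^ 1 := by
    rw [hDc]
    exact ⟨4 * (m : 𝓞 F) ^ 3, by ring⟩
  have d4 : (2 + 2 * I : 𝓞 F) ∣ 4 := ⟨1 - I, by linear_combination 2 * hI.sq⟩
  have c2 : (2 + 2 * I : 𝓞 F) ∣ ((D : ℤ) : 𝓞 F) ^ 1 := d4.trans (by
    rw [hDc]
    exact ⟨2 * (m : 𝓞 F) ^ 3, by ring⟩)
  have k1 : ∀ z : 𝓞 F, z ∈ Ideal.span {((D : ℤ) : 𝓞 F) ^ 3} → (2 + 2 * I : 𝓞 F) ∣ z ∧ ((16 * -(2 * m) : ℤ) : 𝓞 F) ∣ z := by
    intro z hz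
    rw [Ideal.mem_span_singleton] at hz
    constructor
    · refine dvd_trans (d4.trans ?_) hz
      rw [hDc]
      exact ⟨128 * (m : 𝓞 F) ^ 9, by ring⟩
    · refine dvd_trans ?_ hz
      rw [hDc]
      exact ⟨-(16 * (m : 𝓞 F) ^ 8), by push_cast; ring⟩
  have ku : ∀ x : 𝓞 F, IsCoprime x ((4 * -(2 * m) : ℤ) : 𝓞 F) → IsUnit (κ x) := by
    intro x hx
    refine IsUnit.of_mul_eq_one (κ x ^ 3) ?_
    rw [← hκ.root x hx]
    ring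
  refine ⟨fun x => pr x * κ x ^ 3, ⟨?_, ?_, ?_, ?_⟩, ?_⟩
  · intro x hx
    exact (p1 x (f4_cop c2 hx)).1.mul ((ku x (f4_cop c1 hx)).pow 3)
  · intro x y hx hy
    show pr (x * y) * κ (x * y) ^ 3 = pr x * κ x ^ 3 * (pr y * κ y ^ 3)
    rw [p2 x y (f4_cop c2 hx) (f4_cop c2 hy), hκ.mul x y (f4_cop c1 hx) (f4_cop c1 hy)]
    ring
  · intro u x hu hx
    show pr (u * x) * κ (u * x) ^ 3 * u = pr x * κ x ^ 3
    have g1 : κ (u * x) = κ x := by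
      rw [hκ.mul u x (f4_uc hu) (f4_cop c1 hx), hκ.unit u hu, one_mul]
    rw [g1, ← p3 u x hu (f4_cop c2 hx)]
    ring
  · intro x y hx hy hxy
    show pr x * κ x ^ 3 = pr y * κ y ^ 3
    obtain ⟨g1, g2⟩ := k1 _ hxy
    rw [p4 x y (f4_cop c2 hx) (f4_cop c2 hy) g1, hκ.per x y (f4_cop c1 hx) (f4_cop c1 hy) g2]
  · rintro γ _ hγ hγD h1 ⟨i, rfl⟩ h2'
    show pr γ * κ γ ^ 3 = 1
    have gD : IsCoprime γ (((D : ℤ) : 𝓞 F) ^ 1) := f4_pc hγ (by rwa [pow_one])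
    have g2 : ¬ γ ∣ 2 := fun h => hγD (by rw [← pow_one ((D : ℤ) : 𝓞 F)]; exact h.trans d2)
    have g4 : ¬ γ ∣ 4 := by
      intro h
      have e : (4 : 𝓞 F) = 2 * 2 := by norm_num
      rw [e] at h
      rcases hγ.dvd_or_dvd h with h | h <;> exact g2 h
    have gc : ¬ γ ∣ ((4 * -(2 * m) : ℤ) : 𝓞 F) := fun h => hγD (by rw [← pow_one ((D : ℤ) : 𝓞 F)]; exact h.trans c1)
    have hp : pr γ = I ^ i := p5 (I ^ i) γ (hIu i) (gD.of_isCoprime_of_dvd_right c2) (by rw [mul_comm (I ^ i) γ]; exact h1)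
    have hk := hκ.euler γ hγ gc (by rw [Nat.cast_ofNat]; exact g4)
    rw [nm_card] at hk
    have hd : γ ∣ κ γ - I ^ i := by
      have := dvd_sub h2' hk
      have e : ((-((2 * m : ℤ) : 𝓞 F)) ^ ((Nm γ - 1) / 4) - I ^ i) - (((-(2 * m) : ℤ) : 𝓞 F) ^ ((Nm γ - 1) / 4) - κ γ) = κ γ - I ^ i := by
        push_cast
        ring
      rwa [e] at this
    have hz : (I ^ i) ^ 4 = 1 := by rw [← pow_mul, mul_comm, pow_mul, hI4, one_pow]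
    have hk1 : κ γ = I ^ i := by
      by_contra hne
      exact g2 (hd.trans (f4_diff (hκ.root γ (gD.of_isCoprime_of_dvd_right c1)) hz hne))
    rw [hp, hk1, ← hz]
    ring

end H55W
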