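import Mathlib
import Pool.Agent.Lib.H55W.G0
import Pool.Agent.Lib.H55W.L0

/-! # H55W, part L: the Frobenius element, discriminant -4 -/

open NumberField IsDedekindDomain WeierstrassCurve

namespace H55W

open H55P (IQ embF eF LF Per IsHecke Pt ac Inert Dec Nm)
open H35P (WAB Ker tt GoodW IntW)
open H55K
open H13D (RM)

variable {F : Type} [Field F] [NumberField F] [IQ F] {I : 𝓞 F} {A B : F} {Om : ℂ} {Ω : Type} [Field Ω] [DecidableEq Ω]
  [Algebra F Ω] {j : Ω →+* ℂ} {act : 𝓞 F →+* AddMonoid.End (Pt (WAB A B) Ω)} {V : ValuationSubring Ω}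
  {Kg : AddSubgroup (Pt (WAB A B) Ω)} {v : HeightOneSpectrum (𝓞 F)} {s : Ω ≃ₐ[F] Ω} {r : Ω}

theorem l4a_unit (hI : GI I) : IsUnit I :=
  IsUnit.of_mul_eq_one (-I) (by linear_combination (-1 : 𝓞 F) * hI.sq)

theorem l4a_ak (a : 𝓞 F) : ∀ n : ℕ, ak Ω (a ^ n) = ak Ω a ^ n := by
  intro n
  unfold ak
  rw [← map_pow]
  simp

theorem l4a_sq (hI : GI I) : ak Ω I ^ 2 = -1 := by
  rw [← l4a_ak, hI.sq]
  unfold ak
  simp

theorem l4a_nat {n : ℕ} (hn : n ≠ 0) (j : Ω →+* ℂ) : (n : Ω) ≠ 0 := by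
  intro h
  have h1 := congrArg j h
  rw [map_natCast, map_zero, Nat.cast_eq_zero] at h1
  exact hn h1

theorem l4a_add (a b : 𝓞 F) (P : Pt (WAB A B) Ω) : act (a + b) P = act a P + act b P := by
  rw [map_add]
  rfl

/-- the coordinates of act I P -/
theorem l4a_act (hI : GI I) (h : CMA F A B Om j act) (P : Pt (WAB A B) Ω) :
    xc (act I P) = -xc P ∧ yc (act I P) = ak Ω I * yc P := by
  obtain ⟨h1, h2⟩ := act_unit h (l4a_unit hI) P
  have h3 := l4a_sq (Ω := Ω) hI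
  constructor
  · linear_combination (-1 : Ω) * h1 + xc (act I P) * h3
  · linear_combination ak Ω I * h2 - (ak Ω I ^ 2 - 1) * yc (act I P) * h3

/-- Chunk L4A (S/M). A point P ≠ 0 (h.gen 5). act_unit for I: act I P = (I^(-2) x, I^(-3) y) = (-x, I y) is on the curve (eqnA): -y^2 = -x^3 - A x + B, and y^2 = x^3 + A x + B: so 2 B = 0. -/
theorem b_zero (hI : GI I) (h : CMA F A B Om j act) : B = 0 := by
  have h5 : (5 : 𝓞 F) ≠ 0 := by norm_num
  obtain ⟨P, -, -, hT, -⟩ := h.gen 5 h5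
  have hP : P ≠ 0 := by
    intro h0
    have h1 : act 1 P = 0 := by rw [h0, map_zero]
    have h2 := g0_dvd_nm ((hT 1).1 h1)
    have h3 := Nm_nat (F := F) 5
    have h4 := Nm_nat (F := F) 1
    rw [Nat.cast_ofNat] at h3
    rw [Nat.cast_one] at h4
    rw [h3, h4] at h2
    norm_num at h2
  have hQ : act I P ≠ 0 := fun h0 => hP (l0_inj (l4a_unit hI) h0)
  obtain ⟨e1, e2⟩ := l4a_act hI h P
  have e3 := eqnA hQ
  have e4 := eqnA hP
  rw [e1, e2] at e3
  have e5 := l4a_sq (Ω := Ω) hI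
  have e6 : 2 * algebraMap F Ω B = 0 := by
    linear_combination (yc P) ^ 2 * e5 - e3 - e4
  have h20 : (2 : Ω) ≠ 0 := by
    have := l4a_nat (Ω := Ω) (n := 2) (by norm_num) j
    exact_mod_cast this
  exact (map_eq_zero_iff _ (algebraMap F Ω).injective).1 ((mul_eq_zero.1 e6).resolve_left h20)

/-- Chunk L4A (M). T from h.gen (2 + 2I). Z = act (2I) T: not 0 (2 + 2I does not divide 2I: norm 8, 4), act (1 + I) Z = act (I (2 + 2I)) T = 0, so act I Z = -Z; act_unit: - xc (act I Z) = xc Z, xc (-Z) = xc Z: 2 xc Z = 0, xc Z = 0, yc Z^2 = B = 0 (eqnA). T + T = act 2 T = act (-I) Z: not 0, xc = 0 (act_unit for -I). yc T ≠ 0 (otherwise T = -T, T + T = 0).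
dbl_coords: 0 = ((3x^2 + A)/(2y))^2 - 2x: (3x^2 + A)^2 = 8 x y^2 = 8 x (x^3 + A x): (x^2 - A)^2 = 0. So x^2 = A ≠ 0 (h.disc), y^2 = 2 x^3; Y = y/x: Y^2 = 2x, Y^3 = 2y, Y^4 = 4 x^2 = 4A. -/
theorem tor_four (hI : GI I) (h : CMA F A B Om j act) {δ : ℤ} (hA : 4 * A = -(δ : F)) :
    ∃ (T : Pt (WAB A B) Ω) (Y : Ω), (∀ a : 𝓞 F, act a T = 0 ↔ 2 + 2 * I ∣ a) ∧
      (∀ P : Pt (WAB A B) Ω, act (2 + 2 * I) P = 0 → ∃ a : 𝓞 F, P = act a T) ∧
      2 * xc T = Y ^ 2 ∧ 2 * yc T = Y ^ 3 ∧ Y ^ 4 = -(δ : Ω) ∧ Y ≠ 0 := by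
  have hne : (2 + 2 * I : 𝓞 F) ≠ 0 := by
    intro h0
    have h1 := g0_nm22 hI
    rw [h0] at h1
    have h2 := Nm_nat (F := F) 0
    rw [Nat.cast_zero] at h2
    rw [h2] at h1
    norm_num at h1
  obtain ⟨T, -, hg, hT, -⟩ := h.gen (2 + 2 * I) hne
  have hB0 : algebraMap F Ω B = 0 := by rw [b_zero hI h, map_zero]
  have hAO : 4 * algebraMap F Ω A = -(δ : Ω) := by
    have h1 := congrArg (algebraMap F Ω) hA
    rw [map_mul, map_ofNat, map_neg, map_intCast] at h1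
    exact h1
  have hA0 : algebraMap F Ω A ≠ 0 := by
    intro h0
    have h1 := (map_eq_zero_iff _ (algebraMap F Ω).injective).1 h0
    apply h.disc
    rw [h1, b_zero hI h]
    norm_num
  have h20 : (2 : Ω) ≠ 0 := by
    have := l4a_nat (Ω := Ω) (n := 2) (by norm_num) j
    exact_mod_cast this
  have hZ0 : act (2 * I) T ≠ 0 := by
    intro h0
    have h1 := g0_dvd_nm ((hT _).1 h0)
    have h2 := gi_nm hI 0 2
    have h3 : ((0 : ℤ) : 𝓞 F) + ((2 : ℤ) : 𝓞 F) * I = 2 * I := by push_cast; ring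
    rw [h3] at h2
    have h4 : Nm (2 * I) = 4 := by
      have : ((Nm (2 * I) : ℕ) : ℤ) = 4 := by rw [h2]; norm_num
      exact_mod_cast this
    rw [g0_nm22 hI, h4] at h1
    norm_num at h1
  have hIZ : act I (act (2 * I) T) = -act (2 * I) T := by
    have h1 : act (1 + I) (act (2 * I) T) = 0 := by
      rw [← l0_mul]
      refine (hT _).2 ⟨I, ?_⟩
      ring
    rw [l4a_add, l0_one] at h1
    exact eq_neg_of_add_eq_zero_right h1
  have hxZ : xc (act (2 * I) T) = 0 := by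
    have h1 := (l4a_act hI h (act (2 * I) T)).1
    rw [hIZ, xc_neg] at h1
    have h2 : 2 * xc (act (2 * I) T) = 0 := by linear_combination h1
    exact (mul_eq_zero.1 h2).resolve_left h20
  have hTT : T + T = -act I (act (2 * I) T) := by
    have h1 : T + T = act 2 T := by
      have h2 : (2 : 𝓞 F) = 1 + 1 := by norm_num
      rw [h2, l4a_add, l0_one]
    rw [h1, ← l0_mul, ← act_neg]
    congr 1
    congr 1
    linear_combination (2 : 𝓞 F) * hI.sq
  have hTT0 : T + T ≠ 0 := by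
    rw [hTT, hIZ, neg_neg]
    exact hZ0
  have hxTT : xc (T + T) = 0 := by
    rw [hTT, hIZ, neg_neg, hxZ]
  have hT0 : T ≠ 0 := by
    intro h0
    rw [h0, add_zero] at hTT0
    exact hTT0 rfl
  have hy : 2 * yc T ≠ 0 := by
    intro h0
    have h1 : yc T = 0 := (mul_eq_zero.1 h0).resolve_left h20
    have h2 : -T = T := by
      refine pt_ext (neg_ne hT0) hT0 (xc_neg T) ?_
      rw [yc_neg, h1, neg_zero]
    apply hTT0
    nth_rewrite 1 [← h2]
    exact neg_add_cancel T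
  obtain ⟨-, e1, -⟩ := dbl_coords hT0 hy
  rw [hxTT, base_a4] at e1
  have e2 := eqnA hT0
  rw [hB0, add_zero] at e2
  have e3 : (3 * xc T ^ 2 + algebraMap F Ω A) ^ 2 = 8 * xc T * yc T ^ 2 := by
    have h1 : ((3 * xc T ^ 2 + algebraMap F Ω A) / (2 * yc T)) ^ 2 * (2 * yc T) ^ 2 =
        (3 * xc T ^ 2 + algebraMap F Ω A) ^ 2 := by
      rw [← mul_pow, div_mul_cancel₀ _ hy]
    have h2 : ((3 * xc T ^ 2 + algebraMap F Ω A) / (2 * yc T)) ^ 2 = 2 * xc T := by linear_combination -e1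
    rw [h2] at h1
    linear_combination -h1
  have e4 : (xc T ^ 2 - algebraMap F Ω A) ^ 2 = 0 := by
    linear_combination e3 + 8 * xc T * e2
  have e5 : xc T ^ 2 = algebraMap F Ω A := sub_eq_zero.1 (pow_eq_zero_iff (by norm_num) |>.1 e4)
  have hx0 : xc T ≠ 0 := by
    intro h0
    rw [h0, zero_pow (by norm_num)] at e5
    exact hA0 e5.symm
  have e6 : yc T ^ 2 = 2 * xc T ^ 3 := by
    rw [e2, ← e5]
    ring
  have hy0 : yc T ≠ 0 := fun h0 => hy (by rw [h0, mul_zero])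
  have e7 : (yc T / xc T) ^ 2 = 2 * xc T := by
    rw [div_pow, e6]
    field_simp
  refine ⟨T, yc T / xc T, hT, fun P hP => hg P hP, e7.symm, ?_, ?_, div_ne_zero hy0 hx0⟩
  · have h1 : (yc T / xc T) ^ 3 = (yc T / xc T) ^ 2 * (yc T / xc T) := by ring
    rw [h1, e7]
    field_simp
  · have h1 : (yc T / xc T) ^ 4 = ((yc T / xc T) ^ 2) ^ 2 := by ring
    rw [h1, e7]
    linear_combination 4 * e5 + hAO

end H55W
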