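import Mathlib
import Pool.Agent.Lib.H55W.L4A
import Pool.Agent.Lib.H55W.S1

/-! # H55W, part L: the Frobenius element, discriminant -4 -/

open NumberField IsDedekindDomain WeierstrassCurve

namespace H55W

open H55P (IQ embF eF LF Per IsHecke Pt ac Inert Dec Nm)
open H35P (WAB Ker tt GoodW IntW)
open H55K
open H13D (RM)

variable {F : Type} [Field F] [NumberField F] [IQ F] {I : 𝓞 F} {A B : F} {Om : ℂ} {Ω : Type} [Field Ω] [DecidableEq Ω]
  [Algebra F Ω] {j : Ω →+* ℂ} {act : 𝓞 F →+* AddMonoid.End (Pt (WAB A B) Ω)} {V : ValuationSubring Ω}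
  {Kg : AddSubgroup (Pt (WAB A B) Ω)} {v : HeightOneSpectrum (𝓞 F)} {s : Ω ≃ₐ[F] Ω} {r : Ω}

theorem l4b_two (hI : GI I) : (1 + I) * ((1 + I) * -I) = 2 := by
  linear_combination (-I - 2) * hI.sq

theorem l4b_pp (hI : GI I) (h2 : (2 : 𝓞 F) ∉ v.asIdeal) : PP 4 I v.asIdeal where
  pr := v.isPrime
  ne := v.ne_bot
  nm := by
    intro h4
    have h5 : ((4 : ℕ) : 𝓞 F) = 2 * 2 := by push_cast; norm_num
    rw [h5] at h4
    rcases v.isPrime.mem_or_mem h4 with h6 | h6 <;> exact h2 h6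
  root := gi_root hI
  two := by norm_num

theorem l4b_gen (hI : GI I) (h2 : (2 : 𝓞 F) ∉ v.asIdeal) {u : 𝓞 F} (hu : IsUnit u) :
    ∃ β : 𝓞 F, Ideal.span {β} = v.asIdeal ∧ 2 + 2 * I ∣ u - β := by
  obtain ⟨β₀, hβ₀⟩ : ∃ β₀ : 𝓞 F, Ideal.span {β₀} = v.asIdeal :=
    ⟨Submodule.IsPrincipal.generator v.asIdeal, Ideal.span_singleton_generator v.asIdeal⟩
  have hβv : β₀ ∈ v.asIdeal := by
    rw [← hβ₀]
    exact Ideal.mem_span_singleton_self β₀
  have hβne : β₀ ≠ 0 := by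
    rintro rfl
    rw [Ideal.span_singleton_eq_bot.2 rfl] at hβ₀
    exact v.ne_bot hβ₀.symm
  have hnd : ¬ (1 + I) ∣ β₀ := by
    rintro ⟨z, hz⟩
    rw [hz] at hβv
    rcases v.isPrime.mem_or_mem hβv with h4 | h4
    · apply h2
      rw [← l4b_two hI]
      exact v.asIdeal.mul_mem_right _ h4
    · rw [← hβ₀, Ideal.mem_span_singleton] at h4
      obtain ⟨y, hy⟩ := h4
      have h5 : (1 + I) * y = 1 := by
        have h6 : β₀ * ((1 + I) * y - 1) = 0 := by linear_combination -(1 + I) * hy - hz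
        exact sub_eq_zero.1 ((mul_eq_zero.1 h6).resolve_left hβne)
      have h6 := g0_nm_unit (IsUnit.of_mul_eq_one _ h5)
      rw [g0_nm11 hI] at h6
      omega
  obtain ⟨k, hk⟩ := gi_exists hI hnd
  refine ⟨u * (I ^ k * β₀), ?_, ?_⟩
  · rw [← hβ₀, Ideal.span_singleton_eq_span_singleton, ← mul_assoc]
    exact associated_unit_mul_left β₀ _ (hu.mul ((l4a_unit hI).pow k))
  · have h5 : u - u * (I ^ k * β₀) = -u * (I ^ k * β₀ - 1) := by ring
    rw [h5]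
    exact Dvd.dvd.mul_left hk _

theorem l4b_not (hI : GI I) {x : 𝓞 F} {a b : ℤ} (hx : x = (a : 𝓞 F) + (b : 𝓞 F) * I) (h : ¬ (8 : ℤ) ∣ a ^ 2 + b ^ 2) :
    ¬ 2 + 2 * I ∣ x := by
  intro h1
  have h2 := g0_dvd_nm h1
  rw [g0_nm22 hI] at h2
  apply h
  rw [← gi_nm hI, ← hx]
  exact_mod_cast h2

/-- Chunk L4B (M). T, Y from tor_four. act (2 + 2I) (ac s T) = 0 (h.gal), so ac s T = act c T. 1 + I does not divide c: otherwise act 2 kills ac s T ((2 + 2I) | 2 (1 + I)), so act 2 T = 0 (ac_ne): 2 + 2I divides 2: contradiction. gi_exists: 2 + 2I | I^i c - 1; ζ = I^i, ac s T = act u T for u = I^(3i) (u ζ = 1). act_unit: s (xc T) = ζ^2 xc T, s (yc T) = ζ^3 yc T (xc_ac, yc_ac),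
so s Y = ζ Y (Y = Y^3 / Y^2 = yc T / xc T). frob_root with m = 4, c = -δ, X = Y (4 divides N - 1: ps_dvd for v.asIdeal, 4, I: 4 is not in v). δ is not in v.
γ: a generator β₀ of v is not divisible by 1 + I (2 is not in v), gi_exists: I^k β₀ is 1 modulo 2 + 2I, β = u I^k β₀: 2 + 2I | u - β (c ≡ u); loc_gen with n0 = 2 + 2I, c = u, t = 1 + I (t, 1 - t = -I, 1 + t = 2 + I have norms 2, 1, 5, not divisible by 8). γ ζ - 1 = (γ - u) ζ. -/
theorem loc_four (hI : GI I) (h : CMA F A B Om j act) {δ : ℤ} (hA : 4 * A = -(δ : F)) (hL : LD v V s Kg r)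
    (h2 : (2 : 𝓞 F) ∉ v.asIdeal) (hδ : (δ : 𝓞 F) ∉ v.asIdeal) :
    ∃ γ ζ : 𝓞 F, Ideal.span {γ} = v.asIdeal ∧ (∀ X : Pt (WAB A B) Ω, act γ X - ac (WAB A B) s X ∈ Kg) ∧
      2 + 2 * I ∣ γ * ζ - 1 ∧ (∃ i : ℕ, ζ = I ^ i) ∧
      (-(δ : 𝓞 F)) ^ ((Ideal.absNorm v.asIdeal - 1) / 4) - ζ ∈ v.asIdeal := by
  obtain ⟨T, Y, hT, hg, hx, hy, hY4, hY0⟩ := tor_four hI h hA
  have h1 : act (2 + 2 * I) (ac (WAB A B) s T) = 0 := by
    rw [← h.gal, (hT _).2 (dvd_refl _), ac_zero]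
  obtain ⟨c, hc⟩ := hg _ h1
  have hc1 : ¬ (1 + I) ∣ c := by
    rintro ⟨c', rfl⟩
    have h3 : act 2 (ac (WAB A B) s T) = 0 := by
      rw [hc, ← l0_mul]
      refine (hT _).2 ⟨c', ?_⟩
      ring
    rw [← h.gal] at h3
    have h4 : act 2 T = 0 := by
      by_contra h5
      exact ac_ne _ s h5 h3
    exact l4b_not hI (a := 2) (b := 0) (by push_cast; ring) (by norm_num) ((hT _).1 h4)
  obtain ⟨i, hi⟩ := gi_exists hI hc1
  have hI4 : I ^ 4 = 1 := (gi_root hI).pow_eq_one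
  have huz : I ^ (3 * i) * I ^ i = 1 := by
    rw [← pow_add, show 3 * i + i = 4 * i by ring, pow_mul, hI4, one_pow]
  have hu : IsUnit (I ^ (3 * i)) := (l4a_unit hI).pow _
  have hcu : ac (WAB A B) s T = act (I ^ (3 * i)) T := by
    have h3 : act (c - I ^ (3 * i)) T = 0 := by
      refine (hT _).2 ?_
      have h4 : c - I ^ (3 * i) = I ^ (3 * i) * (I ^ i * c - 1) := by linear_combination (-c) * huz
      rw [h4]
      exact Dvd.dvd.mul_left hi _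
    rw [l0_sub, sub_eq_zero] at h3
    rw [hc, h3]
  obtain ⟨e1, e2⟩ := act_unit h hu T
  rw [← hcu, xc_ac] at e1
  rw [← hcu, yc_ac] at e2
  have huzΩ : ak Ω (I ^ (3 * i)) * ak Ω (I ^ i) = 1 := by
    have h3 : ak Ω (I ^ (3 * i) * I ^ i) = ak Ω (I ^ (3 * i)) * ak Ω (I ^ i) := by
      unfold ak
      rw [← map_mul]
      rfl
    rw [← h3, huz]
    unfold ak
    simp
  have e3 : s (xc T) = ak Ω (I ^ i) ^ 2 * xc T := by
    linear_combination ak Ω (I ^ i) ^ 2 * e1 - (ak Ω (I ^ (3 * i)) * ak Ω (I ^ i) + 1) * s (xc T) * huzΩ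
  have e4 : s (yc T) = ak Ω (I ^ i) ^ 3 * yc T := by
    linear_combination ak Ω (I ^ i) ^ 3 * e2 -
      ((ak Ω (I ^ (3 * i)) * ak Ω (I ^ i)) ^ 2 + ak Ω (I ^ (3 * i)) * ak Ω (I ^ i) + 1) * s (yc T) * huzΩ
  have hsY : s Y = ak Ω (I ^ i) * Y := by
    have h3 : s Y ^ 2 = ak Ω (I ^ i) ^ 2 * Y ^ 2 := by
      rw [← map_pow, ← hx, map_mul, map_ofNat, e3]
      ring
    have h4 : s Y ^ 3 = ak Ω (I ^ i) ^ 3 * Y ^ 3 := by
      rw [← map_pow, ← hy, map_mul, map_ofNat, e4]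
      ring
    have h5 : s Y ^ 2 * (s Y - ak Ω (I ^ i) * Y) = 0 := by
      linear_combination h4 - ak Ω (I ^ i) * Y * h3
    have h6 : s Y ≠ 0 := by
      intro h7
      exact hY0 ((map_eq_zero_iff _ s.injective).1 h7)
    exact sub_eq_zero.1 ((mul_eq_zero.1 h5).resolve_left (pow_ne_zero _ h6))
  obtain ⟨β, hβ, h3β⟩ := l4b_gen (v := v) hI h2 hu
  have hn0 : 2 + 2 * I ∉ v.asIdeal := by
    intro h3
    have h4 : 2 + 2 * I = 2 * (1 + I) := by ring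
    rw [h4] at h3
    rcases v.isPrime.mem_or_mem h3 with h5 | h5
    · exact h2 h5
    · apply h2
      rw [← l4b_two hI]
      exact v.asIdeal.mul_mem_right _ h5
  obtain ⟨γ, hγ, hγu, hγK⟩ := loc_gen h hL hn0 hT hβ hcu (Or.inl h3β) (t := 1 + I)
    (l4b_not hI (a := 1) (b := 1) (by push_cast; ring) (by norm_num))
    (l4b_not hI (a := 0) (b := -1) (by push_cast; ring) (by norm_num))
    (l4b_not hI (a := 2) (b := 1) (by push_cast; ring) (by norm_num))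
  refine ⟨γ, I ^ i, hγ, hγK, ?_, ⟨i, rfl⟩, ?_⟩
  · have h3 : γ * I ^ i - 1 = (γ - I ^ (3 * i)) * I ^ i := by linear_combination huz
    rw [h3]
    exact Dvd.dvd.mul_right hγu _
  · refine frob_root hL (m := 4) (by norm_num) (ps_dvd (l4b_pp hI h2)).1 (c := -(δ : 𝓞 F)) ?_ (X := Y) ?_ hsY
    · intro h3
      exact hδ (by simpa using v.asIdeal.neg_mem h3)
    · rw [hY4]
      unfold ak
      simp

end H55W
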