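import Mathlib
import Pool.Agent.Lib.H13D.M0
import Pool.Agent.Lib.H55W.F4
import Pool.Agent.Lib.H55W.L4B
import Pool.Agent.Lib.H55W.Z1
import Pool.Agent.Lib.H55W.ZA

/-! # H55W, part Z: Deuring's theorem, discriminant -4 -/

open NumberField IsDedekindDomain WeierstrassCurve

namespace H55W

open H55P (IQ embF eF LF Per IsHecke Pt ac Inert Dec Nm)
open H35P (WAB Ker tt GoodW IntW)
open H55K H55K.TQ
open H55K.TQ (BaseH)

theorem b4_irr {F : Type} [Field F] [NumberField F] [IQ F] {π : 𝓞 F} {p : ℕ} (hp : p.Prime) (h : Nm π = p) : Prime π := by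
  have h1 : Irreducible π := by
    constructor
    · intro hu
      rw [nm_unit hu] at h
      exact hp.one_lt.ne h
    · intro a b hab
      have h2 : Nm a * Nm b = p := by rw [← Nm_mul, ← hab, h]
      have hu : ∀ x : 𝓞 F, Nm x = 1 → IsUnit x := by
        intro x hx
        unfold Nm at hx
        rw [Ideal.absNorm_eq_one_iff, Ideal.span_singleton_eq_top] at hx
        exact hx
      rcases (Nat.prime_mul_iff.1 (h2 ▸ hp)) with h3 | h3
      · exact Or.inr (hu b h3.2)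
      · exact Or.inl (hu a h3.2)
  exact h1.prime

theorem base_4 {F : Type} [Field F] [NumberField F] [IQ F] {I : 𝓞 F} (hI : GI I) (W : WeierstrassCurve ℤ) (Om : ℂ)
    (hΔ : W.Δ ≠ 0) (hper : Per F (-(eF F (W⁄(𝓞 F)).c₄) / 48) (-(eF F (W⁄(𝓞 F)).c₆) / 864) Om)
    (hbad : ∀ v : HeightOneSpectrum (𝓞 F), (W⁄(𝓞 F)).Δ ∈ v.asIdeal → ¬ GoodAt ((W⁄(𝓞 F))⁄F) v) :
    ∃ ψ : Ideal (𝓞 F) →*₀ 𝓞 F, BaseH F (W⁄(𝓞 F)) Om (Ideal.span {((W.Δ.natAbs : ℕ) : 𝓞 F) ^ 3}) ψ := by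
  classical
  have hc6 : W.c₆ = 0 := by
    obtain ⟨j, act, h⟩ := z1_cma W Om hΔ hper rfl rfl
    have h1 := b_zero hI h
    rw [z1_c6, div_eq_zero_iff, neg_eq_zero] at h1
    rcases h1 with h1 | h1
    · exact_mod_cast h1
    · norm_num at h1
  obtain ⟨δ, h4, hD⟩ := arith_four W hc6
  have hδ : δ ≠ 0 := by
    rintro rfl
    exact hΔ (by rw [hD]; ring)
  have hΔF := z0_disc (F := F) W
  have hdδ : (δ : 𝓞 F) ∣ ((W.Δ : ℤ) : 𝓞 F) := ⟨((δ ^ 2 : ℤ) : 𝓞 F), by rw [hD]; push_cast; ring⟩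
  -- the ramified prime
  have hN2 : Nm (1 + I) = 2 := by
    have := gi_nm hI 1 1
    push_cast at this
    rw [one_mul] at this
    norm_num at this
    exact_mod_cast this
  have hpr : Prime (1 + I) := b4_irr Nat.prime_two hN2
  obtain ⟨v₂, hv₂⟩ : ∃ v : HeightOneSpectrum (𝓞 F), v.asIdeal = Ideal.span {1 + I} :=
    ⟨⟨Ideal.span {1 + I}, (Ideal.span_singleton_prime hpr.ne_zero).2 hpr, by
      rw [Ne, Ideal.span_singleton_eq_bot]
      exact hpr.ne_zero⟩, rfl⟩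
  have h2I : (1 + I) ∣ (2 : 𝓞 F) := ⟨1 - I, by linear_combination hI.sq⟩
  have hram : (W⁄(𝓞 F)).Δ ∈ v₂.asIdeal := by
    refine H13D.disc_ram hΔ hper v₂ (fun a => ?_)
    rw [hv₂, Ideal.mem_span_singleton]
    obtain ⟨x, y, rfl⟩ := hI.rep a
    rw [map_add, map_mul, cj_int, cj_int, gi_cj hI]
    have e : (x : 𝓞 F) + y * I - (x + y * -I) = 2 * (y * I) := by ring
    rw [e]
    exact h2I.mul_right _
  have h2δ : δ % 2 = 0 := by
    rw [hΔF, hv₂, Ideal.mem_span_singleton, hD] at hram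
    push_cast at hram
    have h1 := hpr.dvd_of_dvd_pow hram
    have h2 : Nm (1 + I) ∣ Nm (δ : 𝓞 F) := by
      obtain ⟨c, hc⟩ := h1
      rw [hc, Nm_mul]
      exact dvd_mul_right _ _
    have h3 : Nm (δ : 𝓞 F) = δ.natAbs ^ 2 := by
      rcases Int.natAbs_eq δ with h | h
      · conv_lhs => rw [h, Int.cast_natCast, Nm_nat]
      · conv_lhs => rw [h, Int.cast_neg, Int.cast_natCast]
        unfold Nm
        rw [Ideal.span_singleton_neg]
        exact Nm_nat _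
    rw [hN2, h3] at h2
    have h4 := Nat.prime_two.dvd_of_dvd_pow h2
    have h5 : (2 : ℤ) ∣ δ := by
      have := Int.natCast_dvd.2 h4
      exact_mod_cast this
    exact Int.emod_eq_zero_of_dvd h5
  have hd2 : (2 : 𝓞 F) ∣ ((W.Δ : ℤ) : 𝓞 F) := by
    obtain ⟨c, hc⟩ := Int.dvd_of_emod_eq_zero h2δ
    refine Dvd.dvd.trans ⟨((c : ℤ) : 𝓞 F), ?_⟩ hdδ
    rw [hc]
    push_cast
    ring
  obtain ⟨f, hf, hlast⟩ := exists_f4 hI hδ h2δ hD
  refine base_gen W Om hΔ hper hbad hf ?_ ?_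
  · intro hu
    have h3 : IsUnit (2 : 𝓞 F) := isUnit_of_dvd_unit hd2 hu
    have h9 : Nm (2 : 𝓞 F) = 1 := nm_unit h3
    have h9' : Nm (2 : 𝓞 F) = 2 ^ 2 := by
      have := Nm_nat (F := F) 2
      exact_mod_cast this
    rw [h9'] at h9
    norm_num at h9
  · intro Ω _ _ _ _ A B j act hA hB h v V s Kg r hv hL
    have hA' : 4 * A = -(δ : F) := by
      rw [hA, z1_c4, h4]
      push_cast
      ring
    rw [hΔF] at hv
    have h2 : (2 : 𝓞 F) ∉ v.asIdeal := fun hh => hv (v.asIdeal.mem_of_dvd hd2 hh)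
    have hδv : (δ : 𝓞 F) ∉ v.asIdeal := fun hh => hv (v.asIdeal.mem_of_dvd hdδ hh)
    obtain ⟨γ, ζ, hγ, hX, g1, g3, g4⟩ := loc_four hI h hA' hL h2 hδv
    obtain ⟨p1, p2, p3⟩ := z1_prime hγ
    refine ⟨γ, hγ, hlast γ ζ p1 (by rw [p2]; exact hv) g1 g3 ?_, hX⟩
    rw [p2, p3]
    exact g4

end H55W
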