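import Mathlib
import Pool.Agent.Lib.H55K.D1

/-! # H55W, part L: the integers a + b sqrt(-2) -/

open NumberField IsDedekindDomain

namespace H55W

open H55P (IQ embF eF Nm)
open H55K (cj)

/-- φ is a square root of -2 in the integers of F and every integer is a + b φ. -/
structure TI {F : Type} [Field F] [NumberField F] (φ : 𝓞 F) : Prop where
  sq : φ ^ 2 = -2
  rep : ∀ x : 𝓞 F, ∃ a b : ℤ, x = (a : 𝓞 F) + (b : 𝓞 F) * φ

/-- The residue modulo 2φ attached to a norm. -/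
noncomputable def kap {F : Type} [Field F] [NumberField F] (φ : 𝓞 F) (N : ℕ) : 𝓞 F :=
  if N % 16 = 1 then 1 else if N % 16 = 9 then -1 else if N % 16 = 3 then -(1 + φ) else 1 + φ

/-- The residues modulo 16 of the norms. -/
def NR (N : ℕ) : Prop := N % 16 = 1 ∨ N % 16 = 3 ∨ N % 16 = 9 ∨ N % 16 = 11

variable {F : Type} [Field F] [NumberField F] [IQ F] {φ : 𝓞 F}

/-- Chunk L8A (S). cj φ = -φ (like gi_cj in G0.lean: (cj φ)^2 = -2; not real), mul_cj: Nm (a + b φ) = a^2 + 2 b^2. -/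
theorem ti_nm (h : TI φ) (a b : ℤ) : cj φ = -φ ∧ ((Nm ((a : 𝓞 F) + (b : 𝓞 F) * φ) : ℕ) : ℤ) = a ^ 2 + 2 * b ^ 2 := by
  have hc : cj φ = -φ := by
    have h1 : (cj φ) ^ 2 = φ ^ 2 := by
      rw [← map_pow, h.sq, map_neg]
      have h2 := H55K.cj_int (F := F) 2
      push_cast at h2
      rw [h2]
    rcases sq_eq_sq_iff_eq_or_eq_neg.1 h1 with h2 | h2
    · exfalso
      have h3 := H55K.e_cj φ
      rw [h2] at h3
      have h4 : (eF F φ).im = 0 := Complex.conj_eq_iff_im.1 h3.symm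
      have h5 : (eF F φ) ^ 2 = -2 := by
        rw [← map_pow, h.sq, map_neg, map_ofNat]
      have h6 := congrArg Complex.re h5
      rw [pow_two, Complex.mul_re, h4, mul_zero, sub_zero, Complex.neg_re] at h6
      have h7 : (2 : ℂ).re = 2 := by simp
      rw [h7] at h6
      nlinarith [mul_self_nonneg (eF F φ).re]
    · exact h2
  refine ⟨hc, ?_⟩
  have h1 := H55K.mul_cj ((a : 𝓞 F) + (b : 𝓞 F) * φ)
  rw [map_add, map_mul, H55K.cj_int, H55K.cj_int, hc] at h1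
  apply Int.cast_injective (α := 𝓞 F)
  rw [Int.cast_natCast, ← h1]
  push_cast
  linear_combination (-(b : 𝓞 F) ^ 2) * h.sq

theorem l8a_nmu {u : 𝓞 F} (hu : IsUnit u) : Nm u = 1 := by
  unfold Nm
  rw [Ideal.span_singleton_eq_top.2 hu, Ideal.absNorm_top]

theorem l8a_co (h : TI φ) {a b c d : ℤ} (he : (a : 𝓞 F) + (b : 𝓞 F) * φ = (c : 𝓞 F) + (d : 𝓞 F) * φ) :
    a = c ∧ b = d := by
  have h1 : ((a - c : ℤ) : 𝓞 F) + ((b - d : ℤ) : 𝓞 F) * φ = 0 := by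
    push_cast
    linear_combination he
  have h2 := (ti_nm h (a - c) (b - d)).2
  rw [h1, H55P.Nm_eq_zero.2 rfl] at h2
  push_cast at h2
  have h3 : (a - c) ^ 2 = 0 := by nlinarith [sq_nonneg (a - c), sq_nonneg (b - d)]
  have h4 : (b - d) ^ 2 = 0 := by nlinarith [sq_nonneg (a - c), sq_nonneg (b - d)]
  constructor
  · have h5 := pow_eq_zero_iff (two_ne_zero) |>.1 h3
    omega
  · have h5 := pow_eq_zero_iff (two_ne_zero) |>.1 h4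
    omega

/-- Chunk L8A (S). Nm u = 1: a^2 + 2b^2 = 1. -/
theorem ti_unit (h : TI φ) {u : 𝓞 F} (hu : IsUnit u) : u = 1 ∨ u = -1 := by
  obtain ⟨a, b, hab⟩ := h.rep u
  have h1 := (ti_nm h a b).2
  rw [← hab, l8a_nmu hu] at h1
  push_cast at h1
  have hb : b = 0 := by
    by_contra hb
    have h2 : 1 ≤ b ^ 2 := by
      have h3 : 0 < b ^ 2 := by positivity
      omega
    nlinarith [sq_nonneg a]
  have ha : a = 1 ∨ a = -1 := by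
    rw [hb] at h1
    have h2 : (a - 1) * (a + 1) = 0 := by linear_combination -h1
    rcases mul_eq_zero.1 h2 with h3 | h3
    · exact Or.inl (by omega)
    · exact Or.inr (by omega)
  rcases ha with ha | ha
  · left
    rw [hab, ha, hb]
    push_cast
    ring
  · right
    rw [hab, ha, hb]
    push_cast
    ring

/-- Chunk L8A (S). (2φ)(c + d φ) = -4d + 2c φ; coordinates are unique (characteristic 0, φ is not rational: eF φ is not real, or compare norms). -/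
theorem ti_dvd (h : TI φ) (a b : ℤ) : (2 * φ ∣ (a : 𝓞 F) + (b : 𝓞 F) * φ ↔ 4 ∣ a ∧ 2 ∣ b) ∧ (φ ∣ (a : 𝓞 F) + (b : 𝓞 F) * φ ↔ 2 ∣ a) := by
  refine ⟨⟨?_, ?_⟩, ⟨?_, ?_⟩⟩
  · rintro ⟨z, hz⟩
    obtain ⟨c, d, hcd⟩ := h.rep z
    have h1 : (a : 𝓞 F) + (b : 𝓞 F) * φ = ((-4 * d : ℤ) : 𝓞 F) + ((2 * c : ℤ) : 𝓞 F) * φ := by
      rw [hz, hcd]
      push_cast
      linear_combination (2 * (d : 𝓞 F)) * h.sq
    obtain ⟨h2, h3⟩ := l8a_co h h1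
    exact ⟨⟨-d, by omega⟩, ⟨c, h3⟩⟩
  · rintro ⟨⟨m, rfl⟩, ⟨n, rfl⟩⟩
    refine ⟨(n : 𝓞 F) - (m : 𝓞 F) * φ, ?_⟩
    push_cast
    linear_combination (2 * (m : 𝓞 F)) * h.sq
  · rintro ⟨z, hz⟩
    obtain ⟨c, d, hcd⟩ := h.rep z
    have h1 : (a : 𝓞 F) + (b : 𝓞 F) * φ = ((-2 * d : ℤ) : 𝓞 F) + ((c : ℤ) : 𝓞 F) * φ := by
      rw [hz, hcd]
      push_cast
      linear_combination ((d : 𝓞 F)) * h.sq
    obtain ⟨h2, h3⟩ := l8a_co h h1
    exact ⟨-d, by omega⟩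
  · rintro ⟨m, rfl⟩
    refine ⟨(b : 𝓞 F) - (m : 𝓞 F) * φ, ?_⟩
    push_cast
    linear_combination ((m : 𝓞 F)) * h.sq

theorem l8a_kap (φ : 𝓞 F) (N : ℕ) : (N % 16 = 1 → kap φ N = 1) ∧ (N % 16 = 9 → kap φ N = -1) ∧
    (N % 16 = 3 → kap φ N = -(1 + φ)) ∧ (N % 16 = 11 → kap φ N = 1 + φ) := by
  unfold kap
  refine ⟨?_, ?_, ?_, ?_⟩ <;> intro h1 <;> simp [h1]

theorem l8a_four (φ : 𝓞 F) (N : ℕ) : kap φ N = 1 ∨ kap φ N = -1 ∨ kap φ N = -(1 + φ) ∨ kap φ N = 1 + φ := by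
  unfold kap
  split_ifs <;> simp

/-- Chunk L8A (S/M). x = a + b φ, a odd (ti_dvd). N = a^2 + 2b^2. b even: N = a^2 or a^2 + 8 mod 16 is 1 or 9, kap = 1 or -1, and x ≡ a ≡ 1 or -1 modulo 2φ. b odd: 2b^2 = 2 mod 16, N = a^2 + 2 is 3 or 11 mod 16, x ≡ ±1 + φ, and -1 + φ ≡ -(1 + φ). -/
theorem ti_kap (h : TI φ) {x : 𝓞 F} (hx : ¬ φ ∣ x) : NR (Nm x) ∧ (2 * φ ∣ x - kap φ (Nm x) ∨ 2 * φ ∣ x + kap φ (Nm x)) := by
  obtain ⟨a, b, hab⟩ := h.rep x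
  have ha : ¬ (2 : ℤ) ∣ a := by
    intro h1
    apply hx
    rw [hab]
    exact (ti_dvd h a b).2.2 h1
  have hN := (ti_nm h a b).2
  rw [← hab] at hN
  obtain ⟨k1, k9, k3, k11⟩ := l8a_kap φ (Nm x)
  obtain ⟨p, ε, hε, hp⟩ : ∃ p ε : ℤ, (ε = 1 ∨ ε = -1) ∧ a = 4 * p + ε := by
    have h1 : a % 4 = 1 ∨ a % 4 = 3 := by omega
    rcases h1 with h1 | h1
    · exact ⟨a / 4, 1, Or.inl rfl, by omega⟩
    · exact ⟨a / 4 + 1, -1, Or.inr rfl, by omega⟩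
  have hε2 : ε ^ 2 = 1 := by rcases hε with rfl | rfl <;> norm_num
  rcases Int.even_or_odd' b with ⟨q, hq | hq⟩
  · obtain ⟨T, hT⟩ : ∃ T, T = 2 * p ^ 2 + p * ε + q ^ 2 := ⟨_, rfl⟩
    have h1 : ((Nm x : ℕ) : ℤ) = 8 * T + 1 := by
      rw [hN, hp, hq, hT]
      linear_combination hε2
    have h2 : Nm x % 16 = 1 ∨ Nm x % 16 = 9 := by omega
    have h3 : 2 * φ ∣ x - 1 ∨ 2 * φ ∣ x + 1 := by
      rcases hε with h4 | h4
      · left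
        have h5 : x - 1 = ((a - 1 : ℤ) : 𝓞 F) + (b : 𝓞 F) * φ := by
          rw [hab]
          push_cast
          ring
        rw [h5]
        exact (ti_dvd h _ _).1.2 ⟨⟨p, by omega⟩, ⟨q, hq⟩⟩
      · right
        have h5 : x + 1 = ((a + 1 : ℤ) : 𝓞 F) + (b : 𝓞 F) * φ := by
          rw [hab]
          push_cast
          ring
        rw [h5]
        exact (ti_dvd h _ _).1.2 ⟨⟨p, by omega⟩, ⟨q, hq⟩⟩
    rcases h2 with h2 | h2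
    · exact ⟨Or.inl h2, by rw [k1 h2]; exact h3⟩
    · refine ⟨Or.inr (Or.inr (Or.inl h2)), ?_⟩
      rw [k9 h2, sub_neg_eq_add, ← sub_eq_add_neg]
      exact h3.symm
  · obtain ⟨T, hT⟩ : ∃ T, T = 2 * p ^ 2 + p * ε + q * (q + 1) := ⟨_, rfl⟩
    have h1 : ((Nm x : ℕ) : ℤ) = 8 * T + 3 := by
      rw [hN, hp, hq, hT]
      linear_combination hε2
    have h2 : Nm x % 16 = 3 ∨ Nm x % 16 = 11 := by omega
    have h3 : 2 * φ ∣ x - (1 + φ) ∨ 2 * φ ∣ x + (1 + φ) := by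
      rcases hε with h4 | h4
      · left
        have h5 : x - (1 + φ) = ((a - 1 : ℤ) : 𝓞 F) + ((b - 1 : ℤ) : 𝓞 F) * φ := by
          rw [hab]
          push_cast
          ring
        rw [h5]
        exact (ti_dvd h _ _).1.2 ⟨⟨p, by omega⟩, ⟨q, by omega⟩⟩
      · right
        have h5 : x + (1 + φ) = ((a + 1 : ℤ) : 𝓞 F) + ((b + 1 : ℤ) : 𝓞 F) * φ := by
          rw [hab]
          push_cast
          ring
        rw [h5]
        exact (ti_dvd h _ _).1.2 ⟨⟨p, by omega⟩, ⟨q + 1, by omega⟩⟩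
    rcases h2 with h2 | h2
    · refine ⟨Or.inr (Or.inl h2), ?_⟩
      rw [k3 h2, sub_neg_eq_add, ← sub_eq_add_neg]
      exact h3.symm
    · exact ⟨Or.inr (Or.inr (Or.inr h2)), by rw [k11 h2]; exact h3⟩

/-- Chunk L8A (S). Cases modulo 16; (1 + φ)^2 = -1 + 2φ. -/
theorem kap_mul (h : TI φ) {N M : ℕ} (hN : NR N) (hM : NR M) : NR (N * M) ∧ 2 * φ ∣ kap φ N * kap φ M - kap φ (N * M) := by
  obtain ⟨a1, a9, a3, a11⟩ := l8a_kap φ N
  obtain ⟨b1, b9, b3, b11⟩ := l8a_kap φ M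
  obtain ⟨c1, c9, c3, c11⟩ := l8a_kap φ (N * M)
  rcases hN with hN | hN | hN | hN <;> rcases hM with hM | hM | hM | hM
  · have e : N * M % 16 = 1 := by rw [Nat.mul_mod, hN, hM]
    exact ⟨Or.inl e, ⟨0, by rw [a1 hN, b1 hM, c1 e]; ring⟩⟩
  · have e : N * M % 16 = 3 := by rw [Nat.mul_mod, hN, hM]
    exact ⟨Or.inr (Or.inl e), ⟨0, by rw [a1 hN, b3 hM, c3 e]; ring⟩⟩
  · have e : N * M % 16 = 9 := by rw [Nat.mul_mod, hN, hM]
    exact ⟨Or.inr (Or.inr (Or.inl e)), ⟨0, by rw [a1 hN, b9 hM, c9 e]; ring⟩⟩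
  · have e : N * M % 16 = 11 := by rw [Nat.mul_mod, hN, hM]
    exact ⟨Or.inr (Or.inr (Or.inr e)), ⟨0, by rw [a1 hN, b11 hM, c11 e]; ring⟩⟩
  · have e : N * M % 16 = 3 := by rw [Nat.mul_mod, hN, hM]
    exact ⟨Or.inr (Or.inl e), ⟨0, by rw [a3 hN, b1 hM, c3 e]; ring⟩⟩
  · have e : N * M % 16 = 9 := by rw [Nat.mul_mod, hN, hM]
    exact ⟨Or.inr (Or.inr (Or.inl e)), ⟨1, by rw [a3 hN, b3 hM, c9 e]; linear_combination h.sq⟩⟩
  · have e : N * M % 16 = 11 := by rw [Nat.mul_mod, hN, hM]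
    exact ⟨Or.inr (Or.inr (Or.inr e)), ⟨0, by rw [a3 hN, b9 hM, c11 e]; ring⟩⟩
  · have e : N * M % 16 = 1 := by rw [Nat.mul_mod, hN, hM]
    exact ⟨Or.inl e, ⟨-1, by rw [a3 hN, b11 hM, c1 e]; linear_combination -h.sq⟩⟩
  · have e : N * M % 16 = 9 := by rw [Nat.mul_mod, hN, hM]
    exact ⟨Or.inr (Or.inr (Or.inl e)), ⟨0, by rw [a9 hN, b1 hM, c9 e]; ring⟩⟩
  · have e : N * M % 16 = 11 := by rw [Nat.mul_mod, hN, hM]
    exact ⟨Or.inr (Or.inr (Or.inr e)), ⟨0, by rw [a9 hN, b3 hM, c11 e]; ring⟩⟩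
  · have e : N * M % 16 = 1 := by rw [Nat.mul_mod, hN, hM]
    exact ⟨Or.inl e, ⟨0, by rw [a9 hN, b9 hM, c1 e]; ring⟩⟩
  · have e : N * M % 16 = 3 := by rw [Nat.mul_mod, hN, hM]
    exact ⟨Or.inr (Or.inl e), ⟨0, by rw [a9 hN, b11 hM, c3 e]; ring⟩⟩
  · have e : N * M % 16 = 11 := by rw [Nat.mul_mod, hN, hM]
    exact ⟨Or.inr (Or.inr (Or.inr e)), ⟨0, by rw [a11 hN, b1 hM, c11 e]; ring⟩⟩
  · have e : N * M % 16 = 1 := by rw [Nat.mul_mod, hN, hM]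
    exact ⟨Or.inl e, ⟨-1, by rw [a11 hN, b3 hM, c1 e]; linear_combination -h.sq⟩⟩
  · have e : N * M % 16 = 3 := by rw [Nat.mul_mod, hN, hM]
    exact ⟨Or.inr (Or.inl e), ⟨0, by rw [a11 hN, b9 hM, c3 e]; ring⟩⟩
  · have e : N * M % 16 = 9 := by rw [Nat.mul_mod, hN, hM]
    exact ⟨Or.inr (Or.inr (Or.inl e)), ⟨1, by rw [a11 hN, b11 hM, c9 e]; linear_combination h.sq⟩⟩

/-- Chunk L8A (S). Otherwise 2φ divides 2 kap: kap is 1, -1, 1 + φ, -(1 + φ), and 2φ does not divide 2, 2 + 2φ (ti_dvd). -/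
theorem kap_ne (h : TI φ) {N : ℕ} {x : 𝓞 F} (h1 : 2 * φ ∣ x - kap φ N) (h2 : 2 * φ ∣ x + kap φ N) : False := by
  have h3 : 2 * φ ∣ 2 * kap φ N := by
    have h4 := dvd_sub h2 h1
    have h5 : x + kap φ N - (x - kap φ N) = 2 * kap φ N := by ring
    rwa [h5] at h4
  have h6 : ¬ 2 * φ ∣ (2 : 𝓞 F) := by
    intro h7
    have h8 : (2 : 𝓞 F) = ((2 : ℤ) : 𝓞 F) + ((0 : ℤ) : 𝓞 F) * φ := by
      push_cast
      ring
    rw [h8] at h7
    have h9 := ((ti_dvd h 2 0).1.1 (by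
      have h10 : (2 * φ : 𝓞 F) = (((2 : ℤ) : 𝓞 F) + ((0 : ℤ) : 𝓞 F) * φ) * φ := by
        push_cast
        ring
      rw [h10]
      exact h7)).1
    omega
  have h11 : ¬ 2 * φ ∣ 2 * (1 + φ) := by
    intro h7
    have h8 : 2 * (1 + φ) = ((2 : ℤ) : 𝓞 F) + ((2 : ℤ) : 𝓞 F) * φ := by
      push_cast
      ring
    rw [h8] at h7
    have h9 := ((ti_dvd h 2 2).1.1 h7).1
    omega
  rcases l8a_four φ N with h4 | h4 | h4 | h4
  · rw [h4, mul_one] at h3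
    exact h6 h3
  · rw [h4, mul_neg, mul_one, dvd_neg] at h3
    exact h6 h3
  · rw [h4, mul_neg, dvd_neg] at h3
    exact h11 h3
  · rw [h4] at h3
    exact h11 h3

/-- Chunk L8A (S). x = y + 8 z: x cj x - y cj y = 8 (z cj y + y cj z) + 64 z cj z, z cj y + cj (z cj y) = 2 a: divisible by 16. -/
theorem ti_per (h : TI φ) {x y : 𝓞 F} (hxy : (8 : 𝓞 F) ∣ x - y) : Nm x % 16 = Nm y % 16 := by
  obtain ⟨z, hz⟩ := hxy
  obtain ⟨c, d, hy⟩ := h.rep y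
  obtain ⟨e, f, he⟩ := h.rep z
  have hx : x = ((c + 8 * e : ℤ) : 𝓞 F) + ((d + 8 * f : ℤ) : 𝓞 F) * φ := by
    push_cast
    linear_combination hz + hy + 8 * he
  have h1 := (ti_nm h (c + 8 * e) (d + 8 * f)).2
  have h2 := (ti_nm h c d).2
  rw [← hx] at h1
  rw [← hy] at h2
  obtain ⟨T, hT⟩ : ∃ T, T = c * e + 4 * e ^ 2 + 2 * d * f + 8 * f ^ 2 := ⟨_, rfl⟩
  have h3 : ((Nm x : ℕ) : ℤ) = ((Nm y : ℕ) : ℤ) + 16 * T := by
    rw [h1, h2, hT]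
    ring
  omega

end H55W
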