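import Mathlib
import Pool.Agent.Lib.H55W.L8A

/-! # H55W, part L: the integers a + b sqrt(-2) -/

open NumberField IsDedekindDomain

namespace H55W

open H55P (IQ embF eF Nm)
open H55K (cj)

variable {F : Type} [Field F] [NumberField F] [IQ F] {φ : 𝓞 F}

/-- Chunk L8C (M). The sign character. ε x = 1 if 2φ | x - kap (Nm x), -1 otherwise (classical). mul: kap_mul, ti_kap, kap_ne, Nm_mul. per: ti_per, x - y divisible by 8 (so by 2φ: 8 = 2φ (-2φ)). neg: Nm (-x) = Nm x. -/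
theorem exists_eps (h : TI φ) : ∃ ε : 𝓞 F → 𝓞 F, (∀ x, ¬ φ ∣ x → (ε x = 1 ∨ ε x = -1) ∧ 2 * φ ∣ ε x * x - kap φ (Nm x)) ∧
    (∀ x y, ¬ φ ∣ x → ¬ φ ∣ y → ε (x * y) = ε x * ε y) ∧ (∀ x, ¬ φ ∣ x → ε (-x) = -ε x) ∧
    (∀ x y, ¬ φ ∣ x → ¬ φ ∣ y → (8 : 𝓞 F) ∣ x - y → ε x = ε y) ∧
    ∀ x η, ¬ φ ∣ x → (η = 1 ∨ η = -1) → 2 * φ ∣ x - η * kap φ (Nm x) → ε x = η := by
  classical
  obtain ⟨ε, hε⟩ : ∃ ε : 𝓞 F → 𝓞 F, ε = fun x => if 2 * φ ∣ x - kap φ (Nm x) then 1 else -1 := ⟨_, rfl⟩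
  have e1 : ∀ x, 2 * φ ∣ x - kap φ (Nm x) → ε x = 1 := by
    intro x hx
    rw [hε]
    exact if_pos hx
  have e2 : ∀ x, ¬ 2 * φ ∣ x - kap φ (Nm x) → ε x = -1 := by
    intro x hx
    rw [hε]
    exact if_neg hx
  have e3 : ∀ x, ε x = 1 ∨ ε x = -1 := by
    intro x
    by_cases hx : 2 * φ ∣ x - kap φ (Nm x)
    · exact Or.inl (e1 x hx)
    · exact Or.inr (e2 x hx)
  have e4 : ∀ x η, (η = 1 ∨ η = -1) → 2 * φ ∣ x - η * kap φ (Nm x) → ε x = η := by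
    rintro x η (rfl | rfl) hx
    · rw [one_mul] at hx
      exact e1 x hx
    · refine e2 x fun h1 => ?_
      have h2 : x - -1 * kap φ (Nm x) = x + kap φ (Nm x) := by ring
      rw [h2] at hx
      exact kap_ne h h1 hx
  have e5 : ∀ x, ¬ φ ∣ x → 2 * φ ∣ x - ε x * kap φ (Nm x) := by
    intro x hx
    rcases (ti_kap h hx).2 with h1 | h1
    · rw [e1 x h1, one_mul]
      exact h1
    · have h2 : ¬ 2 * φ ∣ x - kap φ (Nm x) := fun h3 => kap_ne h h3 h1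
      rw [e2 x h2]
      have h3 : x - -1 * kap φ (Nm x) = x + kap φ (Nm x) := by ring
      rw [h3]
      exact h1
  have e6 : ∀ x, ε x * ε x = 1 := by
    intro x
    rcases e3 x with h1 | h1 <;> rw [h1] <;> ring
  refine ⟨ε, fun x hx => ⟨e3 x, ?_⟩, ?_, ?_, ?_, fun x η _ hη h1 => e4 x η hη h1⟩
  · have h1 : ε x * x - kap φ (Nm x) = ε x * (x - ε x * kap φ (Nm x)) := by
      linear_combination (kap φ (Nm x)) * e6 x
    rw [h1]
    exact (e5 x hx).mul_left _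
  · intro x y hx hy
    refine e4 _ _ ?_ ?_
    · rcases e3 x with h1 | h1 <;> rcases e3 y with h2 | h2 <;> rw [h1, h2] <;> simp
    · rw [H55K.Nm_mul]
      obtain ⟨z, hz⟩ := e5 x hx
      obtain ⟨z', hz'⟩ := e5 y hy
      obtain ⟨z'', hz''⟩ := (kap_mul h (ti_kap h hx).1 (ti_kap h hy).1).2
      refine ⟨z * y + ε x * kap φ (Nm x) * z' + ε x * ε y * z'', ?_⟩
      linear_combination y * hz + ε x * kap φ (Nm x) * hz' + ε x * ε y * hz''
  · intro x hx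
    have hN : Nm (-x) = Nm x := by
      unfold Nm
      rw [Ideal.span_singleton_neg]
    refine e4 _ _ ?_ ?_
    · rcases e3 x with h1 | h1 <;> rw [h1] <;> simp
    · rw [hN]
      have h1 : -x - -ε x * kap φ (Nm x) = -(x - ε x * kap φ (Nm x)) := by ring
      rw [h1]
      exact (e5 x hx).neg_right
  · intro x y hx hy hxy
    refine e4 _ _ (e3 y) ?_
    have h1 : kap φ (Nm x) = kap φ (Nm y) := by
      unfold kap
      rw [ti_per h hxy]
    rw [h1]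
    obtain ⟨z, hz⟩ := hxy
    obtain ⟨z', hz'⟩ := e5 y hy
    refine ⟨-2 * φ * z + z', ?_⟩
    linear_combination hz + hz' + 4 * z * h.sq

end H55W
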