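import Mathlib
import Pool.Agent.Lib.H55W.FD
import Pool.Agent.Lib.H55W.L8C
import Pool.Agent.Lib.H55W.Q2A

/-! # H55W, part F: the function defining the Hecke character, discriminant -8 -/

open NumberField IsDedekindDomain

namespace H55W

open H55P (IQ embF eF Nm)
open H55K (cj)

variable {F : Type} [Field F] [NumberField F] [IQ F] {φ : 𝓞 F}

omit [NumberField F] [IQ F] in
theorem f8_cop {x : 𝓞 F} {D : ℤ} {c : 𝓞 F} {j : ℕ} (hc : c ∣ ((D : ℤ) : 𝓞 F) ^ j)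
    (hx : IsCoprime (Ideal.span {x}) (Ideal.span {((D : ℤ) : 𝓞 F) ^ 3})) : IsCoprime x c := by
  rw [Ideal.isCoprime_span_singleton_iff] at hx
  have h1 : IsCoprime x ((D : ℤ) : 𝓞 F) := (IsCoprime.pow_right_iff (by norm_num)).1 hx
  exact (h1.pow_right (n := j)).of_isCoprime_of_dvd_right hc

omit [IQ F] in
theorem f8_pc {γ a : 𝓞 F} (hγ : Prime γ) (h : ¬ γ ∣ a) : IsCoprime γ a := by
  have hp : (Ideal.span {γ}).IsPrime := (Ideal.span_singleton_prime hγ.ne_zero).2 hγ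
  have hm : (Ideal.span {γ}).IsMaximal := hp.isMaximal (by
    rw [Ne, Ideal.span_singleton_eq_bot]
    exact hγ.ne_zero)
  obtain ⟨y, i, hi, hyi⟩ := hm.exists_inv (x := a) (by rwa [Ideal.mem_span_singleton])
  obtain ⟨z, rfl⟩ := Ideal.mem_span_singleton.1 hi
  exact ⟨z, y, by rw [← hyi]; ring⟩

omit [NumberField F] [IQ F] in
theorem f8_uc {u c : 𝓞 F} (hu : IsUnit u) : IsCoprime u c := by
  obtain ⟨v, hv⟩ := hu.exists_left_inv
  exact ⟨v, 0, by rw [hv]; ring⟩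

omit [IQ F] in
theorem f8_two (hφ : TI φ) : φ ∣ 2 := ⟨-φ, by linear_combination hφ.sq⟩

theorem f8_nu (hφ : TI φ) : ¬ IsUnit φ := by
  intro hu
  have h1 := nm_unit hu
  have h2 := (ti_nm hφ 0 1).2
  have h3 : ((0 : ℤ) : 𝓞 F) + ((1 : ℤ) : 𝓞 F) * φ = φ := by push_cast; ring
  rw [h3, h1] at h2
  norm_num at h2

/-- Chunk F8 (M). ε from exists_eps, κ from quad_any for n (c = 2n, k = 8n); f x = ε x * κ x. 8D = n^6, D even (h2): n = 2n', D = 8n'^6. x prime to M is prime to D, so to 2, to φ (φ does not divide x: φ divides 2; φ is not a unit, ti_nm), to 2n (2n divides 4 n'.. divides D^j). Elements of M are divisible by 8 and by 8n = 16 n' (D^3 = 512 n'^18). inv: units are 1, -1 (ti_unit): ε (-x) (-1) = ε x; κ (u x) = κ x (PRC.unit).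
The last statement: γ a prime, N = Nm γ (nm_card): ε γ = η (exists_eps), κ γ = η: γ divides n^((N-1)/2) - κ γ (PRC.euler: γ does not divide 2n and 2) and n^((N-1)/2) - η, both are 1 or -1, γ does not divide 2. f γ = η η = 1. -/
theorem exists_f8 (hφ : TI φ) {n : ℤ} (h0 : n ≠ 0) {D : ℤ} (hD : 8 * D = n ^ 6) (h2 : D % 2 = 0) :
    ∃ f : 𝓞 F → 𝓞 F, HF (Ideal.span {((D : ℤ) : 𝓞 F) ^ 3}) f ∧ ∀ γ η : 𝓞 F, Prime γ → ¬ γ ∣ ((D : ℤ) : 𝓞 F) → (η = 1 ∨ η = -1) →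
      2 * φ ∣ γ - η * kap φ (Nm γ) → γ ∣ (n : 𝓞 F) ^ ((Nm γ - 1) / 2) - η → f γ = 1 := by
  obtain ⟨m, rfl⟩ : ∃ m, n = 2 * m := by
    have h1 : Even (n ^ 6) := by
      rw [← hD]
      exact ⟨4 * D, by ring⟩
    rw [Int.even_pow' (by norm_num)] at h1
    obtain ⟨m, hm⟩ := h1
    exact ⟨m, by rw [hm]; ring⟩
  have hD' : D = 8 * m ^ 6 := by
    have : 8 * D = 8 * (8 * m ^ 6) := by rw [hD]; ring
    linarith
  have hDc : ((D : ℤ) : 𝓞 F) = 8 * (m : 𝓞 F) ^ 6 := by rw [hD']; push_cast; ring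
  obtain ⟨ε, e1, e2, e3, e4, e5⟩ := exists_eps hφ
  obtain ⟨κ, hκ, hκ1⟩ := quad_any (F := F) h0
  -- coprimality
  have c1 : ((2 * (2 * m) : ℤ) : 𝓞 F) ∣ ((D : ℤ) : 𝓞 F) ^ 1 := by
    rw [hDc]
    exact ⟨2 * (m : 𝓞 F) ^ 5, by push_cast; ring⟩
  have d2 : (2 : 𝓞 F) ∣ ((D : ℤ) : 𝓞 F) ^ 1 := by
    rw [hDc]
    exact ⟨4 * (m : 𝓞 F) ^ 6, by ring⟩
  have c2 : φ ∣ ((D : ℤ) : 𝓞 F) ^ 1 := (f8_two hφ).trans d2
  have c3 : ∀ x : 𝓞 F, IsCoprime x φ → ¬ φ ∣ x := by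
    intro x hx hd
    exact f8_nu hφ (hx.isUnit_of_dvd' hd dvd_rfl)
  have k1 : ∀ z : 𝓞 F, z ∈ Ideal.span {((D : ℤ) : 𝓞 F) ^ 3} → (8 : 𝓞 F) ∣ z ∧ ((8 * (2 * m) : ℤ) : 𝓞 F) ∣ z := by
    intro z hz
    rw [Ideal.mem_span_singleton] at hz
    constructor
    · refine dvd_trans ?_ hz
      rw [hDc]
      exact ⟨64 * (m : 𝓞 F) ^ 18, by ring⟩
    · refine dvd_trans ?_ hz
      rw [hDc]
      exact ⟨32 * (m : 𝓞 F) ^ 17, by push_cast; ring⟩
  refine ⟨fun x => ε x * κ x, ⟨?_, ?_, ?_, ?_⟩, ?_⟩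
  · intro x hx
    have g1 := (e1 x (c3 x (f8_cop c2 hx))).1
    have g2 := hκ1 x (f8_cop c1 hx)
    refine IsUnit.mul ?_ ?_
    · rcases g1 with g | g <;> rw [g]
      · exact isUnit_one
      · exact isUnit_one.neg
    · rcases g2 with g | g <;> rw [g]
      · exact isUnit_one
      · exact isUnit_one.neg
  · intro x y hx hy
    show ε (x * y) * κ (x * y) = ε x * κ x * (ε y * κ y)
    rw [e2 x y (c3 x (f8_cop c2 hx)) (c3 y (f8_cop c2 hy)), hκ.mul x y (f8_cop c1 hx) (f8_cop c1 hy)]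
    ring
  · intro u x hu hx
    show ε (u * x) * κ (u * x) * u = ε x * κ x
    have g1 : κ (u * x) = κ x := by
      rw [hκ.mul u x (f8_uc hu) (f8_cop c1 hx), hκ.unit u hu, one_mul]
    rw [g1]
    rcases ti_unit hφ hu with rfl | rfl
    · rw [one_mul, mul_one]
    · rw [neg_one_mul, e3 x (c3 x (f8_cop c2 hx))]
      ring
  · intro x y hx hy hxy
    show ε x * κ x = ε y * κ y
    obtain ⟨g1, g2⟩ := k1 _ hxy
    rw [e4 x y (c3 x (f8_cop c2 hx)) (c3 y (f8_cop c2 hy)) g1, hκ.per x y (f8_cop c1 hx) (f8_cop c1 hy) g2]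
  · intro γ η hγ hγD hη h1 h2'
    show ε γ * κ γ = 1
    have gD : IsCoprime γ (((D : ℤ) : 𝓞 F) ^ 1) := f8_pc hγ (by rwa [pow_one])
    have g2 : ¬ γ ∣ 2 := fun h => hγD (by rw [← pow_one ((D : ℤ) : 𝓞 F)]; exact h.trans d2)
    have gc : ¬ γ ∣ ((2 * (2 * m) : ℤ) : 𝓞 F) := fun h => hγD (by rw [← pow_one ((D : ℤ) : 𝓞 F)]; exact h.trans c1)
    have gφ : ¬ φ ∣ γ := c3 γ (gD.of_isCoprime_of_dvd_right c2)
    have he : ε γ = η := e5 γ η gφ hη h1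
    have hk := hκ.euler γ hγ gc (by rw [Nat.cast_ofNat]; exact g2)
    rw [nm_card] at hk
    have hd : γ ∣ κ γ - η := by
      have := dvd_sub h2' hk
      have e : (((2 * m : ℤ) : 𝓞 F) ^ ((Nm γ - 1) / 2) - η) - (((2 * m : ℤ) : 𝓞 F) ^ ((Nm γ - 1) / 2) - κ γ) = κ γ - η := by ring
      rwa [e] at this
    have hkη : κ γ = η := by
      rcases hκ1 γ (gD.of_isCoprime_of_dvd_right c1) with g | g <;> rcases hη with rfl | rfl
      · exact g
      · rw [g] at hd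
        have e : (1 : 𝓞 F) - -1 = 2 := by ring
        rw [e] at hd
        exact absurd hd g2
      · rw [g] at hd
        have e : (-1 : 𝓞 F) - 1 = -2 := by ring
        rw [e, dvd_neg] at hd
        exact absurd hd g2
      · exact g
    rw [he, hkη]
    rcases hη with rfl | rfl <;> ring

end H55W
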