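import Mathlib
import Pool.Agent.Lib.H13D.D
import Pool.Agent.Lib.H13D.P0
import Pool.Agent.Lib.H55K.E0
import Pool.Agent.Lib.H55W.L8A

/-! # H55W, part L: the points killed by 2 sqrt(-2), discriminant -8 -/

open NumberField IsDedekindDomain WeierstrassCurve

namespace H55W

open H55P (IQ embF eF LF Per IsHecke Pt ac Inert Dec Nm)
open H35P (WAB Ker tt GoodW IntW)
open H55K
open H13D (RM)

variable {F : Type} [Field F] [NumberField F] [IQ F] {φ : 𝓞 F} {A B : F} {Om : ℂ} {Ω : Type} [Field Ω] [DecidableEq Ω]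
  [Algebra F Ω] {j : Ω →+* ℂ} {act : 𝓞 F →+* AddMonoid.End (Pt (WAB A B) Ω)}

theorem l8d_dvd (hφ : TI φ) (a b : ℤ) {x : 𝓞 F} (hx : x = (a : 𝓞 F) + (b : 𝓞 F) * φ) : 2 * φ ∣ x ↔ 4 ∣ a ∧ 2 ∣ b := by
  rw [hx]
  exact (ti_dvd hφ a b).1

theorem l8d_mul (a b : 𝓞 F) (T : Pt (WAB A B) Ω) : act (a * b) T = act a (act b T) := by
  rw [map_mul]
  rfl

theorem l8d_add (a b : 𝓞 F) (T : Pt (WAB A B) Ω) : act (a + b) T = act a T + act b T := by
  rw [map_add]
  rfl

theorem l8d_sub (a b : 𝓞 F) (T : Pt (WAB A B) Ω) : act (a - b) T = act a T - act b T := by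
  rw [map_sub]
  rfl

theorem l8d_one (T : Pt (WAB A B) Ω) : act 1 T = T := by
  rw [map_one]
  rfl

/-- T is a generator of the points killed by 2 φ. -/
structure TG (act : 𝓞 F →+* AddMonoid.End (Pt (WAB A B) Ω)) (φ : 𝓞 F) (T : Pt (WAB A B) Ω) : Prop where
  zero : ∀ a : 𝓞 F, act a T = 0 ↔ 2 * φ ∣ a
  gen : ∀ P : Pt (WAB A B) Ω, act (2 * φ) P = 0 → ∃ a : 𝓞 F, P = act a T

/-- Chunk L8D (S). h.gen (2 φ). -/
theorem exists_TG (h : CMA F A B Om j act) (hφ : TI φ) : ∃ T : Pt (WAB A B) Ω, TG act φ T := by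
  have h0 : 2 * φ ≠ 0 := by
    refine mul_ne_zero two_ne_zero ?_
    intro h0
    have := hφ.sq
    rw [h0] at this
    have h2 : ((0 : ℤ) : 𝓞 F) = ((-2 : ℤ) : 𝓞 F) := by
      push_cast
      linear_combination this
    have h3 : (0 : ℤ) = -2 := by exact_mod_cast h2
    omega
  obtain ⟨T, hT, h1, h2, -⟩ := h.gen (2 * φ) h0
  exact ⟨T, h2, fun P hP => h1 P hP⟩

/-- Chunk L8D (S). T' = act (1 + φ) T: (1 + φ)(1 - φ) = 3 and 3 ≡ -1 modulo 2φ (4 = -(2φ) φ), so a (1 + φ) divisible by 2φ implies 3a, hence a divisible (3a = 4a - a); P = act a T = act (-a (1 - φ)) (act (1 + φ) T). -/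
theorem tg_one (hφ : TI φ) {T : Pt (WAB A B) Ω} (hT : TG act φ T) : TG act φ (act (1 + φ) T) := by
  have hsq := hφ.sq
  have h4 : 2 * φ ∣ (4 : 𝓞 F) := ⟨-φ, by linear_combination 2 * hsq⟩
  refine ⟨fun a => ?_, fun P hP => ?_⟩
  · rw [← l8d_mul, hT.zero]
    constructor
    · intro h1
      have h2 : 2 * φ ∣ a * (1 + φ) * (1 - φ) := h1.mul_right _
      have h3 : a = 4 * a - a * (1 + φ) * (1 - φ) := by linear_combination (-a) * hsq
      rw [h3]
      exact dvd_sub (h4.mul_right _) h2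
    · intro h1
      exact h1.mul_right _
  · obtain ⟨a, rfl⟩ := hT.gen P hP
    refine ⟨-a * (1 - φ), ?_⟩
    rw [← l8d_mul]
    have h3 : -a * (1 - φ) * (1 + φ) = a - 4 * a := by linear_combination a * hsq
    rw [h3, l8d_sub, (hT.zero (4 * a)).2 (h4.mul_right _), sub_zero]

/-- Chunk L8D (M). T₀ = act 2 T, e = xc T₀: T₀ ≠ 0, act φ T₀ = 0, T₀ + T₀ = act 4 T = 0 (4 = -(2φ)φ), so yc T₀ = 0 (T₀ = -T₀, yc_neg) and e^3 + A e + B = 0. The only nonzero point killed by φ is T₀ (tor_card: Nm φ = 2): TN act φ {T₀}. h.e1x for φ and P = T (act φ T ≠ 0): -2 xc (act φ T) = xc T + (xc (T + T₀) - xc T₀), and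
T + T₀ = act 3 T = act (4 - 1) T = -T, so xc (T + T₀) = xc T (xc_neg): xc (act φ T) = e/2 - xc T. add_coords for T and T₀ (xc T ≠ e, otherwise T = ± T₀, 2φ would divide 1 - 2 or 1 + 2): xc T = (yc T/(xc T - e))^2 - xc T - e; with eqnA and B = -e^3 - A e: yc T^2 = (x - e)(x^2 + e x + e^2 + A): (x - e)(2x + e) = x^2 + e x + e^2 + A, i.e. (x - e)^2 = 3 e^2 + A.
act φ T =: P₁ is killed by 2 (2 φ T = 0), P₁ ≠ 0, P₁ ≠ T₀ (2φ does not divide φ - 2): yc P₁ = 0, xc P₁ =: x₁ ≠ e (else P₁ = ± T₀ = T₀), so x₁^2 + e x₁ + e^2 + A = 0 (divide x₁^3 + A x₁ + B = 0 by x₁ - e). With x₁ = e/2 - x and (x - e)^2 = 3e^2 + A this gives 8 A = -15 e^2, and B = -e^3 - A e: 8 B = 7 e^3. e ≠ 0 by h.disc. -/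
theorem tg_coord (h : CMA F A B Om j act) (hφ : TI φ) {T : Pt (WAB A B) Ω} (hT : TG act φ T) :
    ∃ e : Ω, e ≠ 0 ∧ 8 * algebraMap F Ω A = -15 * e ^ 2 ∧ 8 * algebraMap F Ω B = 7 * e ^ 3 ∧
      8 * (xc T - e) ^ 2 = 9 * e ^ 2 ∧ xc (act φ T) = e / 2 - xc T ∧ yc (act φ T) = 0 := by
  have hsq := hφ.sq
  have hinj : Function.Injective (algebraMap F Ω) := (algebraMap F Ω).injective
  have hak : ak Ω φ ^ 2 = -2 := by
    have h1 := congrArg (fun z : 𝓞 F => algebraMap F Ω (algebraMap (𝓞 F) F z)) hsq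
    simp only [map_pow, map_neg, map_ofNat] at h1
    exact h1
  -- the point T₀
  set T₀ : Pt (WAB A B) Ω := act 2 T with hT₀
  have hT0 : T ≠ 0 := by
    intro h0
    have h1 := (l8d_dvd hφ 1 0 (x := 1) (by push_cast; ring)).1 ((hT.zero 1).1 (by rw [h0, map_zero]))
    omega
  have hT₀0 : T₀ ≠ 0 := by
    intro h0
    have h1 := (l8d_dvd hφ 2 0 (x := 2) (by push_cast; ring)).1 ((hT.zero 2).1 h0)
    omega
  have hφT₀ : act φ T₀ = 0 := by
    rw [hT₀, ← l8d_mul, hT.zero]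
    exact ⟨1, by ring⟩
  have h4T : act 4 T = 0 := (hT.zero 4).2 ⟨-φ, by linear_combination 2 * hsq⟩
  have h2T₀ : T₀ + T₀ = 0 := by
    rw [hT₀, ← l8d_add]
    have : (2 : 𝓞 F) + 2 = 4 := by norm_num
    rw [this, h4T]
  have hneg : -T₀ = T₀ := neg_eq_of_add_eq_zero_left h2T₀
  have hy₀ : yc T₀ = 0 := by
    have h1 : yc (-T₀) = -yc T₀ := yc_neg (W := (WAB A B)⁄Ω) T₀
    rw [hneg] at h1
    have h2 : (2 : Ω) * yc T₀ = 0 := by linear_combination h1
    have hchar : (2 : Ω) ≠ 0 := by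
      intro h3
      have h4 : algebraMap F Ω 2 = algebraMap F Ω 0 := by rw [map_ofNat, map_zero]; exact h3
      exact two_ne_zero (hinj h4)
    exact (mul_eq_zero.1 h2).resolve_left hchar
  have h20 : (2 : Ω) ≠ 0 := by
    intro h3
    have h4 : algebraMap F Ω 2 = algebraMap F Ω 0 := by rw [map_ofNat, map_zero]; exact h3
    exact two_ne_zero (hinj h4)
  set e : Ω := xc T₀ with he
  set x : Ω := xc T with hx
  have heq₀ := eqnA hT₀0
  rw [hy₀] at heq₀
  have heqT := eqnA hT0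
  -- the points killed by φ
  have hTN : TN act φ {T₀} := by
    intro R
    rw [Finset.mem_singleton]
    constructor
    · rintro rfl
      exact ⟨hφT₀, hT₀0⟩
    · rintro ⟨hR, hR0⟩
      obtain ⟨a, ha⟩ := hT.gen R (by rw [l8d_mul, hR, map_zero])
      rw [ha, ← l8d_mul, hT.zero] at hR
      obtain ⟨c, hc⟩ := hR
      have hφ0 : φ ≠ 0 := by
        rintro rfl
        have h1 := (ti_dvd hφ 2 0).2.1
        have h3 : ((0 : ℤ) : 𝓞 F) = ((-2 : ℤ) : 𝓞 F) := by
          push_cast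
          linear_combination hsq
        have h4 : (0 : ℤ) = -2 := by exact_mod_cast h3
        omega
      have hac : a = 2 * c := by
        apply mul_left_cancel₀ hφ0
        linear_combination hc
      obtain ⟨c₁, c₂, hcc⟩ := hφ.rep c
      have hR2 : R = act (c₁ : 𝓞 F) T₀ := by
        rw [ha, hac, mul_comm 2 c, l8d_mul, ← hT₀, hcc, l8d_add, l8d_mul, hφT₀, map_zero, add_zero]
      rcases Int.even_or_odd c₁ with hc1 | hc1
      · exfalso
        obtain ⟨k, hk⟩ := hc1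
        apply hR0
        rw [hR2, hk]
        push_cast
        rw [l8d_add, ← map_add, h2T₀, map_zero]
      · obtain ⟨k, hk⟩ := hc1
        rw [hR2, hk]
        push_cast
        rw [l8d_add, l8d_one, two_mul, l8d_add, ← map_add, h2T₀, map_zero, zero_add]
  have hφT : act φ T ≠ 0 := by
    intro h0
    have h1 := (l8d_dvd hφ 0 1 (x := φ) (by push_cast; ring)).1 ((hT.zero φ).1 h0)
    omega
  have hTT : T + T₀ = -T := by
    have h1 : act 3 T = act 4 T - T := by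
      have e3 : (3 : 𝓞 F) = 4 - 1 := by norm_num
      rw [e3, l8d_sub, l8d_one]
    have h2 : act 3 T = T₀ + T := by
      have e3 : (3 : 𝓞 F) = 2 + 1 := by norm_num
      rw [e3, l8d_add, l8d_one]
    rw [add_comm, ← h2, h1, h4T, zero_sub]
  have hφne : φ ≠ 0 := by
    intro h0
    apply hφT
    rw [h0, map_zero]
    rfl
  have hx₁ : xc (act φ T) = e / 2 - x := by
    have h1 := h.e1x φ {T₀} hφne hTN T hφT
    rw [Finset.sum_singleton, hTT, xc_neg (W := (WAB A B)⁄Ω) T, hak] at h1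
    field_simp
    linear_combination -h1
  -- T and T₀
  have hxe : x ≠ e := by
    intro h0
    rcases xc_eq (W := (WAB A B)⁄Ω) hT0 hT₀0 h0 with h1 | h1
    · have h2 : act (1 - 2) T = 0 := by rw [l8d_sub, l8d_one, ← hT₀, ← h1, sub_self]
      have h3 := (l8d_dvd hφ (-1) 0 (x := 1 - 2) (by push_cast; ring)).1 ((hT.zero _).1 h2)
      omega
    · rw [hneg] at h1
      have h2 : act (1 - 2) T = 0 := by rw [l8d_sub, l8d_one, ← hT₀, ← h1, sub_self]
      have h3 := (l8d_dvd hφ (-1) 0 (x := 1 - 2) (by push_cast; ring)).1 ((hT.zero _).1 h2)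
      omega
  have hxe' : x - e ≠ 0 := sub_ne_zero.2 hxe
  obtain ⟨-, hadd, -⟩ := add_coords (W := (WAB A B)⁄Ω) hT0 hT₀0 hxe
  rw [hTT, xc_neg (W := (WAB A B)⁄Ω) T, hy₀, sub_zero] at hadd
  have k1 : (2 * x + e) * (x - e) ^ 2 = yc T ^ 2 := by
    have h1 : (yc T / (xc T - xc T₀)) ^ 2 * (x - e) ^ 2 = yc T ^ 2 := by
      rw [← hx, ← he]
      field_simp
    rw [← h1]
    linear_combination (x - e) ^ 2 * hadd
  have k2 : (x - e) ^ 2 = 3 * e ^ 2 + algebraMap F Ω A := by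
    apply mul_left_cancel₀ hxe'
    linear_combination k1 + heqT - heq₀
  -- P₁
  have hP₁2 : act φ T + act φ T = 0 := by
    rw [← l8d_add, hT.zero]
    exact ⟨1, by ring⟩
  have hnegP : -(act φ T) = act φ T := neg_eq_of_add_eq_zero_left hP₁2
  have hyP : yc (act φ T) = 0 := by
    have h1 : yc (-(act φ T)) = -yc (act φ T) := yc_neg (W := (WAB A B)⁄Ω) (act φ T)
    rw [hnegP] at h1
    have h2 : (2 : Ω) * yc (act φ T) = 0 := by linear_combination h1
    exact (mul_eq_zero.1 h2).resolve_left h20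
  have heqP := eqnA hφT
  rw [hyP] at heqP
  have hxPe : xc (act φ T) ≠ e := by
    intro h0
    have h3 : act φ T = T₀ := by
      rcases xc_eq (W := (WAB A B)⁄Ω) hφT hT₀0 h0 with h1 | h1
      · exact h1
      · rw [h1, hneg]
    have h2 : act (φ - 2) T = 0 := by rw [l8d_sub, ← hT₀, ← h3, sub_self]
    have h4 := (l8d_dvd hφ (-2) 1 (x := φ - 2) (by push_cast; ring)).1 ((hT.zero _).1 h2)
    omega
  have k3 : xc (act φ T) ^ 2 + e * xc (act φ T) + e ^ 2 + algebraMap F Ω A = 0 := by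
    apply mul_left_cancel₀ (sub_ne_zero.2 hxPe)
    linear_combination heq₀ - heqP
  rw [hx₁] at k3
  have k4 : 8 * algebraMap F Ω A = -15 * e ^ 2 := by
    field_simp at k3
    linear_combination k3 - 4 * k2
  have k5 : 8 * algebraMap F Ω B = 7 * e ^ 3 := by
    linear_combination (-8) * heq₀ - e * k4
  have he0 : e ≠ 0 := by
    intro h0
    rw [h0] at k4 k5
    apply h.disc
    have h8 : (8 : Ω) ≠ 0 := by
      have : (8 : Ω) = 2 ^ 3 := by norm_num
      rw [this]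
      exact pow_ne_zero 3 h20
    have hA0 : algebraMap F Ω A = 0 := (mul_eq_zero.1 (by rw [k4]; ring : (8 : Ω) * algebraMap F Ω A = 0)).resolve_left h8
    have hB0 : algebraMap F Ω B = 0 := (mul_eq_zero.1 (by rw [k5]; ring : (8 : Ω) * algebraMap F Ω B = 0)).resolve_left h8
    rw [(map_eq_zero _).1 hA0, (map_eq_zero _).1 hB0]
    ring
  refine ⟨e, he0, k4, k5, ?_, hx₁, hyP⟩
  linear_combination 8 * k2 + k4

end H55W
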