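import Mathlib
import Pool.Agent.Lib.H55W.L8D

/-! # H55W, part L: the points killed by 2 sqrt(-2), discriminant -8 -/

open NumberField IsDedekindDomain WeierstrassCurve

namespace H55W

open H55P (IQ embF eF LF Per IsHecke Pt ac Inert Dec Nm)
open H35P (WAB Ker tt GoodW IntW)
open H55K
open H13D (RM)

variable {F : Type} [Field F] [NumberField F] [IQ F] {φ : 𝓞 F} {A B : F} {Om : ℂ} {Ω : Type} [Field Ω] [DecidableEq Ω]
  [Algebra F Ω] {j : Ω →+* ℂ} {act : 𝓞 F →+* AddMonoid.End (Pt (WAB A B) Ω)}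

/-- Chunk L8F (M). e = -(15 B)/(7 A) is given by tg_coord (A ≠ 0), so n = 3 e is unique: hA, hB give 3 e = n (8A = -15 e^2, 24 A = -5 n^2, 8B = 7e^3, 216 B = 7 n^3: (e/(n/3))^2 = 1 and cube = 1). σ = 4 X/n, X = xc T - n/3: σ^2 = 2 (8 X^2 = n^2). y = yc T: y^2 = n^3 (2 + σ)/16 (eqnA). P₁ = act φ T: xc P₁ - n/3 = -n (2 + σ)/4, yc = 0. add_coords for T and P₁ (X ≠ X₁: 1 + σ ≠ 0):
slope m = 2 y/(n (1 + σ)), and (1 + σ)(σ - 1) = 1: xc (T + P₁) - n/3 = m^2 - n - X - X₁ = -X, yc (T + P₁) = -(m (-2X) + y) = -(σ - 1) y. act (1 + φ) T = T + P₁. -/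
theorem tg_add (h : CMA F A B Om j act) (hφ : TI φ) {n : ℤ} (hA : 24 * A = -5 * (n : F) ^ 2) (hB : 216 * B = 7 * (n : F) ^ 3)
    {T : Pt (WAB A B) Ω} (hT : TG act φ T) : (n : Ω) ≠ 0 ∧ ∃ σ : Ω, σ ^ 2 = 2 ∧ xc T = (n : Ω) / 3 + n * σ / 4 ∧
      16 * yc T ^ 2 = n ^ 3 * (2 + σ) ∧ xc (act (1 + φ) T) = (n : Ω) / 3 - n * σ / 4 ∧ yc (act (1 + φ) T) = -(σ - 1) * yc T := by
  obtain ⟨e, he0, hA8, hB8, hX8, hx₁, hy₁⟩ := tg_coord h hφ hT
  have hsq := hφ.sq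
  have hinj : Function.Injective (algebraMap F Ω) := (algebraMap F Ω).injective
  have hch : CharZero Ω := charZero_of_injective_algebraMap hinj
  have hAΩ : 24 * algebraMap F Ω A = -5 * (n : Ω) ^ 2 := by
    have h1 := congrArg (algebraMap F Ω) hA
    simp only [map_mul, map_neg, map_pow, map_ofNat, map_intCast] at h1
    exact h1
  have hBΩ : 216 * algebraMap F Ω B = 7 * (n : Ω) ^ 3 := by
    have h1 := congrArg (algebraMap F Ω) hB
    simp only [map_mul, map_pow, map_ofNat, map_intCast] at h1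
    exact h1
  have hn2 : (n : Ω) ^ 2 = 9 * e ^ 2 := by
    linear_combination (1 / 5) * hAΩ - (3 / 5) * hA8
  have hn3 : (n : Ω) ^ 3 = 27 * e ^ 3 := by
    linear_combination (-1 / 7) * hBΩ + (27 / 7) * hB8
  have hne : (n : Ω) = 3 * e := by
    apply mul_left_cancel₀ (mul_ne_zero (show (9 : Ω) ≠ 0 by norm_num) (pow_ne_zero 2 he0))
    linear_combination hn3 - (n : Ω) * hn2
  have hT0 : T ≠ 0 := by
    intro h0
    have h1 := (l8d_dvd hφ 1 0 (x := 1) (by push_cast; ring)).1 ((hT.zero 1).1 (by rw [h0, map_zero]))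
    omega
  have hφT : act φ T ≠ 0 := by
    intro h0
    have h1 := (l8d_dvd hφ 0 1 (x := φ) (by push_cast; ring)).1 ((hT.zero φ).1 h0)
    omega
  have heqT := eqnA hT0
  have hact : act (1 + φ) T = T + act φ T := by rw [l8d_add, l8d_one]
  obtain ⟨σ, hσ⟩ : ∃ σ : Ω, 4 * (xc T - e) = 3 * e * σ := ⟨4 * (xc T - e) / (3 * e), by field_simp⟩
  have hxσ : xc T = e + 3 / 4 * e * σ := by linear_combination (1 / 4) * hσ
  have hσ2 : σ ^ 2 = 2 := by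
    apply mul_left_cancel₀ (mul_ne_zero (show (9 : Ω) ≠ 0 by norm_num) (pow_ne_zero 2 he0))
    linear_combination 2 * hX8 - (4 * (xc T - e) + 3 * e * σ) * hσ
  have hσ1 : 1 + σ ≠ 0 := by
    intro h0
    have h1 : (1 : Ω) = 0 := by linear_combination -hσ2 + (σ - 1) * h0
    exact one_ne_zero h1
  have hy2 : 16 * yc T ^ 2 = 27 * e ^ 3 * (2 + σ) := by
    rw [hxσ] at heqT
    linear_combination 16 * heqT + 2 * (e + 3 / 4 * e * σ) * hA8 + 2 * hB8 + e ^ 3 * (27 + 27 / 4 * σ) * hσ2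
  have hdiff : xc T - xc (act φ T) = 3 / 2 * e * (1 + σ) := by
    rw [hx₁]
    linear_combination 2 * hxσ
  have hdiff0 : xc T - xc (act φ T) ≠ 0 := by
    rw [hdiff]
    exact mul_ne_zero (mul_ne_zero (by norm_num) he0) hσ1
  obtain ⟨-, hX, hY⟩ := add_coords (W := (WAB A B)⁄Ω) hT0 hφT (sub_ne_zero.1 hdiff0)
  rw [hy₁, sub_zero] at hX hY
  obtain ⟨m, hm⟩ : ∃ m : Ω, m = yc T / (xc T - xc (act φ T)) := ⟨_, rfl⟩
  rw [← hm] at hX hY
  have hm1 : m * (3 / 2 * e * (1 + σ)) = yc T := by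
    rw [hm, ← hdiff, div_mul_cancel₀ _ hdiff0]
  have hm2 : m * (3 / 2 * e) = yc T * (σ - 1) := by
    linear_combination (σ - 1) * hm1 - m * (3 / 2 * e) * hσ2
  have hmsq : m ^ 2 = 3 / 4 * e * (2 - σ) := by
    apply mul_left_cancel₀ (mul_ne_zero (show (9 / 4 : Ω) ≠ 0 by norm_num) (pow_ne_zero 2 he0))
    linear_combination (m * (3 / 2 * e) + yc T * (σ - 1)) * hm2 + (σ - 1) ^ 2 / 16 * hy2 +
      27 / 16 * e ^ 3 * (σ ^ 2 * 0 + σ) * hσ2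
  have hX' : xc (T + act φ T) = e - 3 / 4 * e * σ := by
    rw [hX, hx₁]
    linear_combination hmsq
  refine ⟨by rw [hne]; exact mul_ne_zero (by norm_num) he0, σ, hσ2, ?_, ?_, ?_, ?_⟩
  · rw [hne]
    linear_combination hxσ
  · rw [hne]
    linear_combination hy2
  · rw [hact, hX', hne]
    ring
  · rw [hact, hY, hX', hxσ]
    linear_combination σ * hm2 + yc T * hσ2

/-- Chunk L8F (S/M). Ω algebraically closed of characteristic 0: ζ₀ a primitive 16th root of unity (HasEnoughRootsOfUnity or IsAlgClosed.exists_... ; IsPrimitiveRoot), ζ₀^8 = -1, (ζ₀^2 + ζ₀^6)^2 = -2 = (ak φ)^2: ak φ = ± (ζ₀^2 + ζ₀^6); in the case of the minus sign take ζ = ζ₀^(-1) = -ζ₀^7 (ζ^2 + ζ^6 = -(ζ₀^6 + ζ₀^2)). -/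
theorem exists_zeta [IsAlgClosed Ω] (hφ : TI φ) : ∃ ζ : Ω, ζ ^ 8 = -1 ∧ ak Ω φ = ζ ^ 2 + ζ ^ 6 := by
  have hinj : Function.Injective (algebraMap F Ω) := (algebraMap F Ω).injective
  have hak : ak Ω φ ^ 2 = -2 := by
    have h1 := congrArg (fun z : 𝓞 F => algebraMap F Ω (algebraMap (𝓞 F) F z)) hφ.sq
    simp only [map_pow, map_neg, map_ofNat] at h1
    exact h1
  obtain ⟨ζ, hζ⟩ := IsAlgClosed.exists_pow_nat_eq (-1 : Ω) (n := 8) (by norm_num)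
  have h1 : (ak Ω φ - (ζ ^ 2 + ζ ^ 6)) * (ak Ω φ + (ζ ^ 2 + ζ ^ 6)) = 0 := by
    linear_combination hak - (2 + ζ ^ 4) * hζ
  rcases mul_eq_zero.1 h1 with h2 | h2
  · exact ⟨ζ, hζ, sub_eq_zero.1 h2⟩
  · refine ⟨-ζ ^ 7, ?_, ?_⟩
    · have e : (-ζ ^ 7) ^ 8 = (ζ ^ 8) ^ 7 := by ring
      rw [e, hζ]
      ring
    · have e2 : (-ζ ^ 7) ^ 2 = ζ ^ 8 * ζ ^ 6 := by ring
      have e6 : (-ζ ^ 7) ^ 6 = (ζ ^ 8) ^ 5 * ζ ^ 2 := by ring
      rw [e2, e6, hζ]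
      linear_combination h2

end H55W
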