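import Mathlib
import Pool.Agent.Lib.H55W.L0
import Pool.Agent.Lib.H55W.L8D

/-! # H55W, part L: the Frobenius element, discriminant -8 -/

open NumberField IsDedekindDomain WeierstrassCurve

namespace H55W

open H55P (IQ embF eF LF Per IsHecke Pt ac Inert Dec Nm)
open H35P (WAB Ker tt GoodW IntW)
open H55K
open H13D (RM)

variable {F : Type} [Field F] [NumberField F] [IQ F] {φ : 𝓞 F} {A B : F} {Om : ℂ} {Ω : Type} [Field Ω] [DecidableEq Ω]
  [Algebra F Ω] {j : Ω →+* ℂ} {act : 𝓞 F →+* AddMonoid.End (Pt (WAB A B) Ω)} {V : ValuationSubring Ω}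
  {Kg : AddSubgroup (Pt (WAB A B) Ω)} {v : HeightOneSpectrum (𝓞 F)} {s : Ω ≃ₐ[F] Ω} {r : Ω}

theorem l8g_sq (h2 : V.valuation (2 : Ω) = 1) {w : Ω} (hw : V.valuation (w - 1) < 1) : V.valuation (w ^ 2 - 1) < 1 ∧ (w ^ 2 = 1 → w = 1) := by
  have h3 : V.valuation (w + 1) ≤ 1 := by
    have e : w + 1 = (w - 1) + 2 := by ring
    rw [e]
    exact (Valuation.map_add _ _ _).trans (max_le hw.le h2.le)
  refine ⟨?_, fun h => ?_⟩
  · have e : w ^ 2 - 1 = (w - 1) * (w + 1) := by ring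
    rw [e, map_mul]
    exact mul_lt_one_of_lt_of_le hw h3
  · have h4 : (w - 1) * (w + 1) = 0 := by
      linear_combination h
    rcases mul_eq_zero.1 h4 with h5 | h5
    · exact sub_eq_zero.1 h5
    · exfalso
      have e : w - 1 = -2 := by linear_combination h5
      rw [e, Valuation.map_neg, h2] at hw
      exact lt_irrefl _ hw

/-- Chunk L8G (S). s ζ = ζ^N: s ζ and ζ^N are roots of X^8 + 1 or X^16 - 1, congruent at V, V(2) = 1: two 16th roots of unity z, z' with V(z - z') < 1 are equal: w = z/z', w^16 = 1, V(w - 1) < 1; if w ≠ 1 then some power w^(2^k) = -1 (16 = 2^4), and V(-1 - 1) < 1: contradiction. -/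
theorem frob_zeta (hL : LD v V s Kg r) (h2 : (2 : 𝓞 F) ∉ v.asIdeal) {ζ : Ω} (hζ : ζ ^ 8 = -1) : s ζ = ζ ^ Ideal.absNorm v.asIdeal := by
  have hV2 : V.valuation (2 : Ω) = 1 := by
    have h3 := hL.eq 2 h2
    have e : ak Ω (2 : 𝓞 F) = (2 : Ω) := by
      show algebraMap F Ω (algebraMap (𝓞 F) F 2) = 2
      rw [map_ofNat, map_ofNat]
    rwa [e] at h3
  have hζ16 : ζ ^ 16 = 1 := by
    have : ζ ^ 16 = (ζ ^ 8) ^ 2 := by ring
    rw [this, hζ]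
    norm_num
  have hVζ : V.valuation ζ = 1 := by
    have h3 := congrArg V.valuation hζ16
    rw [map_pow, map_one] at h3
    exact (pow_eq_one_iff_of_nonneg zero_le (by norm_num)).1 h3
  have hζV : ζ ∈ V := (V.valuation_le_one_iff ζ).1 hVζ.le
  have hf := hL.frob ζ hζV
  set N := Ideal.absNorm v.asIdeal with hN
  have hζ0 : ζ ≠ 0 := by
    intro h
    rw [h, map_zero] at hVζ
    exact zero_ne_one hVζ
  have hζN : ζ ^ N ≠ 0 := pow_ne_zero _ hζ0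
  have hw : V.valuation (s ζ / ζ ^ N - 1) < 1 := by
    have e : s ζ / ζ ^ N - 1 = (s ζ - ζ ^ N) / ζ ^ N := by field_simp
    rw [e, map_div₀, map_pow, hVζ, one_pow, div_one]
    exact hf
  have hw16 : (s ζ / ζ ^ N) ^ 16 = 1 := by
    rw [div_pow, ← map_pow, hζ16, map_one, ← pow_mul, mul_comm, pow_mul, hζ16, one_pow, div_one]
  set w := s ζ / ζ ^ N with hwdef
  obtain ⟨a1, b1⟩ := l8g_sq hV2 hw
  obtain ⟨a2, b2⟩ := l8g_sq hV2 a1
  obtain ⟨a3, b3⟩ := l8g_sq hV2 a2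
  obtain ⟨a4, b4⟩ := l8g_sq hV2 a3
  have h5 : w = 1 := b1 (b2 (b3 (b4 (by
    have e : (((w ^ 2) ^ 2) ^ 2) ^ 2 = w ^ 16 := by ring
    rw [e, hw16]))))
  rw [hwdef, div_eq_one_iff_eq hζN] at h5
  exact h5

theorem l8g_pm {T P : Pt (WAB A B) Ω} {κ η : 𝓞 F} (hκ : act κ T = P) (hP : P ≠ 0) (hT : T ≠ 0) (hη : η = 1 ∨ η = -1)
    (s : Ω ≃ₐ[F] Ω) (hx : s (xc T) = xc P) (hy : s (yc T) = ak Ω η * yc P) : ac (WAB A B) s T = act (η * κ) T := by
  have h1 : act (η * κ) T = act η P := by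
    rw [map_mul, ← hκ]
    rfl
  have hac : ac (WAB A B) s T ≠ 0 := ac_ne (WAB A B) s hT
  rw [h1]
  rcases hη with rfl | rfl
  · have h2 : act 1 P = P := by
      rw [map_one]
      rfl
    have h3 : ak Ω (1 : 𝓞 F) = 1 := by
      show algebraMap F Ω (algebraMap (𝓞 F) F 1) = 1
      rw [map_one, map_one]
    rw [h3, one_mul] at hy
    rw [h2]
    refine pt_ext hac hP ?_ ?_
    · rw [xc_ac, hx]
    · rw [yc_ac, hy]
  · have h2 : act (-1) P = -P := by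
      rw [map_neg, map_one]
      rfl
    have h3 : ak Ω (-1 : 𝓞 F) = -1 := by
      show algebraMap F Ω (algebraMap (𝓞 F) F (-1)) = -1
      rw [map_neg, map_one, map_neg, map_one]
    rw [h3] at hy
    rw [h2]
    refine pt_ext hac (neg_ne_zero.2 hP) ?_ ?_
    · rw [xc_ac, hx, xc_neg]
    · rw [yc_ac, hy, yc_neg]
      ring

/-- Chunk L8G (M). Computation with the coordinates: σ = ζ^2 - ζ^6, δ = 4 yc T/(n (ζ + ζ^(-1))), ζ^(-1) = -ζ^7, (ζ - ζ^7)^2 = 2 + σ ≠ 0 (σ^2 = 2), so δ^2 = n and yc T = n δ (ζ - ζ^7)/4. s δ = η δ, η = 1 or -1 (δ^2 = n). s ζ = ζ^N, N mod 16 in {1, 3, 9, 11}; ζ^8 = -1. The point ac s T has the coordinates n/3 + n s(σ)/4, n η δ (s ζ - (s ζ)^7)/4 (xc_ac, yc_ac).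
N = 1: (ζ, σ ↦ σ): ac s T = act η T. N = 9: ζ ↦ -ζ: ac s T = act (-η) T. N = 3: σ ↦ -σ, ζ - ζ^7 ↦ ζ^3 - ζ^21 = ζ^3 - ζ^5·ζ^16.. = ζ^3 - ζ^5, and (σ - 1)(ζ - ζ^7) = ζ^3 - ζ^5: ac s T = act (-η (1 + φ)) T (tg_add). N = 11: ζ^11 - ζ^77 = -(ζ^3 - ζ^5): ac s T = act (η (1 + φ)) T. Compare the coordinates: H55K.pt_ext, yc_neg, xc_neg; act (-1) = neg.
So ac s T = act (η kap N) T with η = 1 or -1 in 𝓞 F. -/
theorem zeta_act (h : CMA F A B Om j act) (hφ : TI φ) {n : ℤ} {T : Pt (WAB A B) Ω} (hT : TG act φ T) {ζ : Ω} (hζ : ζ ^ 8 = -1)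
    (hn : (n : Ω) ≠ 0) (hx : xc T = (n : Ω) / 3 + n * (ζ ^ 2 - ζ ^ 6) / 4) (hy : 16 * yc T ^ 2 = n ^ 3 * (2 + (ζ ^ 2 - ζ ^ 6)))
    (hx' : xc (act (1 + φ) T) = (n : Ω) / 3 - n * (ζ ^ 2 - ζ ^ 6) / 4) (hy' : yc (act (1 + φ) T) = -((ζ ^ 2 - ζ ^ 6) - 1) * yc T)
    (s : Ω ≃ₐ[F] Ω) {N : ℕ} (hN : NR N) (hs : s ζ = ζ ^ N) :
    ∃ (δ : Ω) (η : 𝓞 F), δ ^ 2 = (n : Ω) ∧ (η = 1 ∨ η = -1) ∧ s δ = ak Ω η * δ ∧ ac (WAB A B) s T = act (η * kap φ N) T := by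
  have h2 : (2 : Ω) ≠ 0 := by
    have := (map_ne_zero (algebraMap F Ω)).2 (two_ne_zero (α := F))
    rwa [map_ofNat] at this
  have h4 : (4 : Ω) ≠ 0 := by
    have e : (4 : Ω) = 2 * 2 := by norm_num
    rw [e]
    exact mul_ne_zero h2 h2
  have h16 : (16 : Ω) ≠ 0 := by
    have e : (16 : Ω) = 4 * 4 := by norm_num
    rw [e]
    exact mul_ne_zero h4 h4
  set σ : Ω := ζ ^ 2 - ζ ^ 6 with hσ
  set u : Ω := ζ - ζ ^ 7 with hu
  have hσ2 : σ ^ 2 = 2 := by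
    rw [hσ]
    linear_combination (ζ ^ 4 - 2) * hζ
  have hu2 : u ^ 2 = 2 + σ := by
    rw [hu, hσ]
    linear_combination (ζ ^ 6 - 2) * hζ
  have hσ' : 2 + σ ≠ 0 := by
    intro h0
    apply h2
    linear_combination (2 - σ) * h0 + hσ2
  have hσ1 : σ - 1 ≠ 0 := by
    intro h0
    have h1 : (1 : Ω) = 0 := by linear_combination (σ + 1) * h0 - hσ2
    exact one_ne_zero h1
  have hu0 : u ≠ 0 := by
    intro h0
    rw [h0] at hu2
    exact hσ' (by rw [← hu2]; ring)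
  have hy0 : yc T ≠ 0 := by
    intro h0
    rw [h0] at hy
    have h1 : (n : Ω) ^ 3 * (2 + σ) ≠ 0 := mul_ne_zero (pow_ne_zero 3 hn) hσ'
    exact h1 (by rw [← hy]; ring)
  have hyz : yc (0 : Pt (WAB A B) Ω) = 0 := rfl
  have hT0 : T ≠ 0 := by
    intro h0
    rw [h0] at hy0
    exact hy0 hyz
  have hT1 : act (1 + φ) T ≠ 0 := by
    intro h0
    rw [h0, hyz] at hy'
    exact mul_ne_zero (neg_ne_zero.2 hσ1) hy0 hy'.symm
  set δ : Ω := 4 * yc T / (n * u) with hδ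
  have hδ2 : δ ^ 2 = (n : Ω) := by
    rw [hδ, div_pow, mul_pow, mul_pow, hu2, div_eq_iff (mul_ne_zero (pow_ne_zero 2 hn) hσ')]
    linear_combination hy
  have hyδ : yc T = n * δ * u / 4 := by
    rw [hδ]
    field_simp
  have hsn : s (n : Ω) = n := map_intCast s n
  have hsδ : s δ = δ ∨ s δ = -δ := by
    apply sq_eq_sq_iff_eq_or_eq_neg.1
    rw [← map_pow, hδ2, hsn]
  have hs3 : s (3 : Ω) = 3 := map_ofNat s 3
  have hs4 : s (4 : Ω) = 4 := map_ofNat s 4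
  obtain ⟨η, hη, hη'⟩ : ∃ η : 𝓞 F, (η = 1 ∨ η = -1) ∧ s δ = ak Ω η * δ := by
    rcases hsδ with h0 | h0
    · refine ⟨1, Or.inl rfl, ?_⟩
      have h3 : ak Ω (1 : 𝓞 F) = 1 := by
        show algebraMap F Ω (algebraMap (𝓞 F) F 1) = 1
        rw [map_one, map_one]
      rw [h3, one_mul, h0]
    · refine ⟨-1, Or.inr rfl, ?_⟩
      have h3 : ak Ω (-1 : 𝓞 F) = -1 := by
        show algebraMap F Ω (algebraMap (𝓞 F) F (-1)) = -1
        rw [map_neg, map_one, map_neg, map_one]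
      rw [h3, neg_one_mul, h0]
  refine ⟨δ, η, hδ2, hη, hη', ?_⟩
  have hsx : s (xc T) = n / 3 + n * s σ / 4 := by
    rw [hx, map_add, map_div₀, map_div₀, map_mul, hsn, hs3, hs4]
  have hsy : s (yc T) = ak Ω η * (n * δ * s u / 4) := by
    rw [hyδ, map_div₀, map_mul, map_mul, hsn, hs4, hη']
    ring
  have hsσ : s σ = (s ζ) ^ 2 - (s ζ) ^ 6 := by
    rw [hσ, map_sub, map_pow, map_pow]
  have hsu : s u = s ζ - (s ζ) ^ 7 := by
    rw [hu, map_sub, map_pow]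
  have hζ16 : ζ ^ 16 = 1 := by
    have e : ζ ^ 16 = (ζ ^ 8) ^ 2 := by ring
    rw [e, hζ]
    norm_num
  have hmod : ζ ^ N = ζ ^ (N % 16) := by
    conv_lhs => rw [← Nat.div_add_mod N 16]
    rw [pow_add, pow_mul, hζ16, one_pow, one_mul]
  have hneg : act (-1) T = -T := by
    rw [map_neg, map_one]
    rfl
  have hone : act 1 T = T := by
    rw [map_one]
    rfl
  have hneg' : act (-(1 + φ)) T = -act (1 + φ) T := by
    rw [map_neg]
    rfl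
  rcases hN with h0 | h0 | h0 | h0
  · -- 1
    have hk : kap φ N = 1 := by
      unfold kap
      rw [if_pos h0]
    have hz : s ζ = ζ := by rw [hs, hmod, h0, pow_one]
    rw [hk]
    refine l8g_pm hone hT0 hT0 hη s ?_ ?_
    · rw [hsx, hsσ, hz, hx]
    · rw [hsy, hsu, hz, hyδ]
  · -- 3
    have hk : kap φ N = -(1 + φ) := by
      unfold kap
      rw [if_neg (by omega), if_neg (by omega), if_pos h0]
    have hz : s ζ = ζ ^ 3 := by rw [hs, hmod, h0]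
    rw [hk]
    refine l8g_pm hneg' (neg_ne_zero.2 hT1) hT0 hη s ?_ ?_
    · rw [hsx, hsσ, hz, xc_neg, hx', hσ]
      have e : ((ζ ^ 3) ^ 2 - (ζ ^ 3) ^ 6 : Ω) = -(ζ ^ 2 - ζ ^ 6) := by
        linear_combination (-ζ ^ 10 + ζ ^ 2) * hζ
      rw [e]
      ring
    · rw [hsy, hsu, hz, yc_neg, hy', hyδ]
      have e : (ζ ^ 3 - (ζ ^ 3) ^ 7 : Ω) = (σ - 1) * u := by
        rw [hσ, hu]
        linear_combination (-ζ ^ 13 + ζ) * hζ
      rw [e]
      ring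
  · -- 9
    have hk : kap φ N = -1 := by
      unfold kap
      rw [if_neg (by omega), if_pos h0]
    have hz : s ζ = -ζ := by
      rw [hs, hmod, h0]
      linear_combination ζ * hζ
    rw [hk]
    refine l8g_pm hneg (neg_ne_zero.2 hT0) hT0 hη s ?_ ?_
    · rw [hsx, hsσ, hz, xc_neg, hx, hσ]
      ring
    · rw [hsy, hsu, hz, yc_neg, hyδ, hu]
      ring
  · -- 11
    have hk : kap φ N = 1 + φ := by
      unfold kap
      rw [if_neg (by omega), if_neg (by omega), if_neg (by omega)]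
    have hz : s ζ = -ζ ^ 3 := by
      rw [hs, hmod, h0]
      linear_combination ζ ^ 3 * hζ
    rw [hk]
    refine l8g_pm rfl hT1 hT0 hη s ?_ ?_
    · rw [hsx, hsσ, hz, hx', hσ]
      have e : ((-ζ ^ 3) ^ 2 - (-ζ ^ 3) ^ 6 : Ω) = -(ζ ^ 2 - ζ ^ 6) := by
        linear_combination (-ζ ^ 10 + ζ ^ 2) * hζ
      rw [e]
      ring
    · rw [hsy, hsu, hz, hy', hyδ]
      have e : (-ζ ^ 3 - (-ζ ^ 3) ^ 7 : Ω) = -((σ - 1) * u) := by
        rw [hσ, hu]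
        linear_combination (ζ ^ 13 - ζ) * hζ
      rw [e]
      ring

end H55W
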