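import Mathlib
import Pool.Agent.Lib.H55W.L8F
import Pool.Agent.Lib.H55W.L8G

/-! # H55W, part L: the Frobenius element, discriminant -8 -/

open NumberField IsDedekindDomain WeierstrassCurve

namespace H55W

open H55P (IQ embF eF LF Per IsHecke Pt ac Inert Dec Nm)
open H35P (WAB Ker tt GoodW IntW)
open H55K
open H13D (RM)

variable {F : Type} [Field F] [NumberField F] [IQ F] {φ : 𝓞 F} {A B : F} {Om : ℂ} {Ω : Type} [Field Ω] [DecidableEq Ω]
  [Algebra F Ω] {j : Ω →+* ℂ} {act : 𝓞 F →+* AddMonoid.End (Pt (WAB A B) Ω)} {V : ValuationSubring Ω}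
  {Kg : AddSubgroup (Pt (WAB A B) Ω)} {v : HeightOneSpectrum (𝓞 F)} {s : Ω ≃ₐ[F] Ω} {r : Ω}

theorem l8h_gen [IsAlgClosed Ω] (hφ : TI φ) (h : CMA F A B Om j act) {n : ℤ} (hA : 24 * A = -5 * (n : F) ^ 2) (hB : 216 * B = 7 * (n : F) ^ 3)
    {τ : Ω} (hτ : τ ^ 2 = 2) : ∃ T : Pt (WAB A B) Ω, TG act φ T ∧ (n : Ω) ≠ 0 ∧ xc T = (n : Ω) / 3 + n * τ / 4 ∧
      16 * yc T ^ 2 = n ^ 3 * (2 + τ) ∧ xc (act (1 + φ) T) = (n : Ω) / 3 - n * τ / 4 ∧ yc (act (1 + φ) T) = -(τ - 1) * yc T := by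
  have : CharZero Ω := charZero_of_injective_algebraMap (algebraMap F Ω).injective
  obtain ⟨T0, hT0⟩ := exists_TG h hφ
  obtain ⟨hn0, σ0, hσ0, hx0, hy0, hx0', hy0'⟩ := tg_add h hφ hA hB hT0
  have h1 : (σ0 - τ) * (σ0 + τ) = 0 := by linear_combination hσ0 - hτ
  rcases mul_eq_zero.1 h1 with h2 | h2
  · have h3 : σ0 = τ := sub_eq_zero.1 h2
    subst h3
    exact ⟨T0, hT0, hn0, hx0, hy0, hx0', hy0'⟩
  · have h3 : σ0 = -τ := by linear_combination h2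
    have hT := tg_one hφ hT0
    obtain ⟨-, σ, hσ, hx, hy, hx', hy'⟩ := tg_add h hφ hA hB hT
    have h4 : (n : Ω) * (σ - τ) = 0 := by
      have h5 := hx.symm.trans hx0'
      rw [h3] at h5
      linear_combination 4 * h5
    have h6 : σ = τ := by
      rcases mul_eq_zero.1 h4 with h7 | h7
      · exact absurd h7 hn0
      · exact sub_eq_zero.1 h7
    subst h6
    exact ⟨_, hT, hn0, hx, hy, hx', hy'⟩

theorem l8h_phi (hφ : TI φ) (h2 : (2 : 𝓞 F) ∉ v.asIdeal) : φ ∉ v.asIdeal := by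
  intro h
  apply h2
  have h1 : (2 : 𝓞 F) = -φ * φ := by linear_combination hφ.sq
  rw [h1]
  exact v.asIdeal.mul_mem_left _ h

theorem l8h_ndvd (hφ : TI φ) (h2 : (2 : 𝓞 F) ∉ v.asIdeal) {β : 𝓞 F} (hβ : Ideal.span {β} = v.asIdeal) : ¬ φ ∣ β := by
  rintro ⟨c, hc⟩
  have hβm : β ∈ v.asIdeal := by rw [← hβ]; exact Ideal.mem_span_singleton_self β
  have h3 : φ * c ∈ v.asIdeal := hc ▸ hβm
  rcases v.isPrime.mem_or_mem h3 with h4 | h4
  · exact l8h_phi hφ h2 h4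
  · rw [← hβ, Ideal.mem_span_singleton] at h4
    obtain ⟨d, hd⟩ := h4
    have hβ0 : β ≠ 0 := by
      intro h0
      apply v.ne_bot
      rw [← hβ, h0]
      exact Ideal.span_singleton_eq_bot.2 rfl
    have h5 : φ * d = 1 := by
      apply mul_left_cancel₀ hβ0
      calc β * (φ * d) = φ * (β * d) := by ring
        _ = φ * c := by rw [← hd]
        _ = β * 1 := by rw [← hc, mul_one]
    have h6 : (φ ^ 2 - 1 : 𝓞 F) = 0 := by
      rcases ti_unit hφ (IsUnit.of_mul_eq_one _ h5) with h7 | h7 <;> rw [h7] <;> ring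
    have h8 : (3 : 𝓞 F) = 0 := by linear_combination -h6 + hφ.sq
    norm_num at h8

/-- Chunk L8H (M). T from exists_TG, σ from tg_add, ζ from exists_zeta: σ^2 = 2 = (ζ^2 - ζ^6)^2, so σ = ± (ζ^2 - ζ^6); in the case of the minus sign replace T by act (1 + φ) T (tg_one; its σ is the other one: tg_add for both: xc = n/3 - n σ/4). β a generator of v, Nm β = N = absNorm v, φ does not divide β (2 is not in v): ti_kap: NR N, 2φ | β ∓ kap N. frob_zeta, zeta_act: c = η kap N; frob_root with m = 2 (N is odd), X = δ, c = n.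
loc_gen with n0 = 2φ, c = η kap N (2φ divides c - β or c + β), t = φ: 2φ does not divide φ, 1 - φ, 1 + φ (ti_dvd). -/
theorem loc_eight [IsAlgClosed Ω] (hφ : TI φ) (h : CMA F A B Om j act) {n : ℤ} (hA : 24 * A = -5 * (n : F) ^ 2) (hB : 216 * B = 7 * (n : F) ^ 3)
    (hL : LD v V s Kg r) (h2 : (2 : 𝓞 F) ∉ v.asIdeal) (hn : (n : 𝓞 F) ∉ v.asIdeal) :
    ∃ γ η : 𝓞 F, Ideal.span {γ} = v.asIdeal ∧ (∀ X : Pt (WAB A B) Ω, act γ X - ac (WAB A B) s X ∈ Kg) ∧ (η = 1 ∨ η = -1) ∧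
      2 * φ ∣ γ - η * kap φ (Ideal.absNorm v.asIdeal) ∧
      (n : 𝓞 F) ^ ((Ideal.absNorm v.asIdeal - 1) / 2) - η ∈ v.asIdeal := by
  obtain ⟨ζ, hζ, hak⟩ := exists_zeta (Ω := Ω) hφ
  have hτ : (ζ ^ 2 - ζ ^ 6) ^ 2 = (2 : Ω) := by linear_combination (ζ ^ 4 - 2) * hζ
  obtain ⟨T, hT, hn0, hx, hy, hx', hy'⟩ := l8h_gen hφ h hA hB hτ
  obtain ⟨β, hβ'⟩ := (IsPrincipalIdealRing.principal v.asIdeal).principal
  have hβ : Ideal.span {β} = v.asIdeal := hβ'.symm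
  have hN : Nm β = Ideal.absNorm v.asIdeal := by
    unfold H55P.Nm
    rw [hβ]
  obtain ⟨hNR, hkap⟩ := ti_kap hφ (l8h_ndvd hφ h2 hβ)
  rw [hN] at hNR hkap
  obtain ⟨δ, η, hδ, hη, hsδ, hact⟩ := zeta_act h hφ hT hζ hn0 hx hy hx' hy' s hNR (frob_zeta hL h2 hζ)
  have hodd : 2 ∣ Ideal.absNorm v.asIdeal - 1 := by
    have := hNR
    unfold NR at this
    omega
  have h3 : (n : 𝓞 F) ^ ((Ideal.absNorm v.asIdeal - 1) / 2) - η ∈ v.asIdeal := by
    refine frob_root hL (by norm_num) hodd hn (X := δ) ?_ hsδ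
    rw [hδ]
    unfold H55K.ak
    simp
  have h4 : (2 * φ : 𝓞 F) ∉ v.asIdeal := by
    intro h5
    rcases v.isPrime.mem_or_mem h5 with h6 | h6
    · exact h2 h6
    · exact l8h_phi hφ h2 h6
  have h5 : 2 * φ ∣ η * kap φ (Ideal.absNorm v.asIdeal) - β ∨ 2 * φ ∣ η * kap φ (Ideal.absNorm v.asIdeal) + β := by
    rcases hη with rfl | rfl
    · rcases hkap with h6 | h6
      · left
        rw [one_mul, dvd_sub_comm]
        exact h6
      · right
        rw [one_mul, add_comm]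
        exact h6
    · rcases hkap with h6 | h6
      · right
        have h7 : -1 * kap φ (Ideal.absNorm v.asIdeal) + β = β - kap φ (Ideal.absNorm v.asIdeal) := by ring
        rw [h7]
        exact h6
      · left
        have h7 : -1 * kap φ (Ideal.absNorm v.asIdeal) - β = -(β + kap φ (Ideal.absNorm v.asIdeal)) := by ring
        rw [h7, dvd_neg]
        exact h6
  have e0 : ¬ 2 * φ ∣ φ := by
    intro h6
    have h7 := (ti_dvd hφ 0 1).1.1 (by simpa using h6)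
    omega
  have e1 : ¬ 2 * φ ∣ 1 - φ := by
    intro h6
    have h7 := (ti_dvd hφ 1 (-1)).1.1 (by
      have h8 : ((1 : ℤ) : 𝓞 F) + ((-1 : ℤ) : 𝓞 F) * φ = 1 - φ := by push_cast; ring
      rw [h8]
      exact h6)
    omega
  have e2 : ¬ 2 * φ ∣ 1 + φ := by
    intro h6
    have h7 := (ti_dvd hφ 1 1).1.1 (by simpa using h6)
    omega
  obtain ⟨γ, hγ, hγc, hX⟩ := loc_gen h hL h4 hT.zero hβ hact h5 e0 e1 e2
  exact ⟨γ, η, hγ, hX, hη, hγc, h3⟩

end H55W
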