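import Mathlib
import Pool.Agent.Lib.H55W.B4
import Pool.Agent.Lib.H55W.F8
import Pool.Agent.Lib.H55W.L8H

/-! # H55W, part Z: Deuring's theorem, discriminant -8 -/

open NumberField IsDedekindDomain WeierstrassCurve

namespace H55W

open H55P (IQ embF eF LF Per IsHecke Pt ac Inert Dec Nm)
open H35P (WAB Ker tt GoodW IntW)
open H55K H55K.TQ
open H55K.TQ (BaseH)

theorem b8_nat {F : Type} [Field F] [NumberField F] [IQ F] (δ : ℤ) : Nm (δ : 𝓞 F) = δ.natAbs ^ 2 := by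
  rcases Int.natAbs_eq δ with h | h
  · conv_lhs => rw [h, Int.cast_natCast, Nm_nat]
  · conv_lhs => rw [h, Int.cast_neg, Int.cast_natCast]
    unfold Nm
    rw [Ideal.span_singleton_neg]
    exact Nm_nat _

theorem base_8 {F : Type} [Field F] [NumberField F] [IQ F] {φ : 𝓞 F} (hφ : TI φ) (W : WeierstrassCurve ℤ) (Om : ℂ)
    (hΔ : W.Δ ≠ 0) (hper : Per F (-(eF F (W⁄(𝓞 F)).c₄) / 48) (-(eF F (W⁄(𝓞 F)).c₆) / 864) Om)
    (hbad : ∀ v : HeightOneSpectrum (𝓞 F), (W⁄(𝓞 F)).Δ ∈ v.asIdeal → ¬ GoodAt ((W⁄(𝓞 F))⁄F) v) :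
    ∃ ψ : Ideal (𝓞 F) →*₀ 𝓞 F, BaseH F (W⁄(𝓞 F)) Om (Ideal.span {((W.Δ.natAbs : ℕ) : 𝓞 F) ^ 3}) ψ := by
  classical
  have hrel : 125 * W.c₆ ^ 2 = 98 * W.c₄ ^ 3 := by
    obtain ⟨j, act, h⟩ := z1_cma W Om hΔ hper rfl rfl
    obtain ⟨T, hT⟩ := exists_TG h hφ
    obtain ⟨e, -, h1, h2, -⟩ := tg_coord h hφ hT
    rw [z1_c4] at h1
    rw [z1_c6] at h2
    have hc : CharZero (AlgebraicClosure F) := charZero_of_injective_algebraMap (algebraMap F (AlgebraicClosure F)).injective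
    rw [map_div₀, map_neg, map_intCast, map_ofNat] at h1 h2
    have e1 : ((W.c₄ : ℤ) : AlgebraicClosure F) = 90 * e ^ 2 := by linear_combination (-6) * h1
    have e2 : ((W.c₆ : ℤ) : AlgebraicClosure F) = -756 * e ^ 3 := by linear_combination (-108) * h2
    have e3 : ((125 * W.c₆ ^ 2 : ℤ) : AlgebraicClosure F) = ((98 * W.c₄ ^ 3 : ℤ) : AlgebraicClosure F) := by
      push_cast
      rw [e1, e2]
      ring
    exact_mod_cast e3
  obtain ⟨n, h4, h6, hD⟩ := arith_eight W hΔ hrel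
  have hn : n ≠ 0 := by
    rintro rfl
    have : 8 * W.Δ = 0 := by rw [hD]; ring
    exact hΔ (by omega)
  have hΔF := z0_disc (F := F) W
  have hN2 : Nm φ = 2 := by
    have := (ti_nm hφ 0 1).2
    push_cast at this
    rw [one_mul, zero_add] at this
    norm_num at this
    exact_mod_cast this
  have hpr : Prime φ := b4_irr Nat.prime_two hN2
  obtain ⟨v₂, hv₂⟩ : ∃ v : HeightOneSpectrum (𝓞 F), v.asIdeal = Ideal.span {φ} :=
    ⟨⟨Ideal.span {φ}, (Ideal.span_singleton_prime hpr.ne_zero).2 hpr, by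
      rw [Ne, Ideal.span_singleton_eq_bot]
      exact hpr.ne_zero⟩, rfl⟩
  have hram : (W⁄(𝓞 F)).Δ ∈ v₂.asIdeal := by
    refine H13D.disc_ram hΔ hper v₂ (fun a => ?_)
    rw [hv₂, Ideal.mem_span_singleton]
    obtain ⟨x, y, rfl⟩ := hφ.rep a
    rw [map_add, map_mul, cj_int, cj_int, (ti_nm hφ 0 0).1]
    exact ⟨2 * y, by ring⟩
  have h2D : W.Δ % 2 = 0 := by
    rw [hΔF, hv₂, Ideal.mem_span_singleton] at hram
    have h2 : Nm φ ∣ Nm ((W.Δ : ℤ) : 𝓞 F) := by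
      obtain ⟨c, hc⟩ := hram
      rw [hc, Nm_mul]
      exact dvd_mul_right _ _
    rw [hN2, b8_nat] at h2
    have h4 := Nat.prime_two.dvd_of_dvd_pow h2
    have h5 : (2 : ℤ) ∣ W.Δ := by
      have := Int.natCast_dvd.2 h4
      exact_mod_cast this
    exact Int.emod_eq_zero_of_dvd h5
  have hd2 : (2 : 𝓞 F) ∣ ((W.Δ : ℤ) : 𝓞 F) := by
    obtain ⟨c, hc⟩ := Int.dvd_of_emod_eq_zero h2D
    refine ⟨((c : ℤ) : 𝓞 F), ?_⟩
    rw [hc]
    push_cast
    ring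
  obtain ⟨f, hf, hlast⟩ := exists_f8 hφ hn hD h2D
  refine base_gen W Om hΔ hper hbad hf ?_ ?_
  · intro hu
    have h3 : IsUnit (2 : 𝓞 F) := isUnit_of_dvd_unit hd2 hu
    have h9 : Nm (2 : 𝓞 F) = 1 := nm_unit h3
    have h9' : Nm (2 : 𝓞 F) = 2 ^ 2 := by
      have := Nm_nat (F := F) 2
      exact_mod_cast this
    rw [h9'] at h9
    norm_num at h9
  · intro Ω _ _ _ _ A B j act hA hB h v V s Kg r hv hL
    have hA' : 24 * A = -5 * (n : F) ^ 2 := by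
      rw [hA, z1_c4, h4]
      push_cast
      ring
    have hB' : 216 * B = 7 * (n : F) ^ 3 := by
      rw [hB, z1_c6, h6]
      push_cast
      ring
    rw [hΔF] at hv
    have h2 : (2 : 𝓞 F) ∉ v.asIdeal := fun hh => hv (v.asIdeal.mem_of_dvd hd2 hh)
    have hnv : (n : 𝓞 F) ∉ v.asIdeal := by
      intro hh
      have h1 : ((8 * W.Δ : ℤ) : 𝓞 F) ∈ v.asIdeal := by
        rw [hD]
        push_cast
        exact Ideal.pow_mem_of_mem _ hh 6 (by norm_num)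
      push_cast at h1
      rcases v.isPrime.mem_or_mem h1 with h3 | h3
      · have h8 : (8 : 𝓞 F) = 2 ^ 3 := by norm_num
        rw [h8] at h3
        exact h2 (v.isPrime.mem_of_pow_mem 3 h3)
      · exact hv h3
    obtain ⟨γ, η, hγ, hX, g1, g3, g4⟩ := loc_eight hφ h hA' hB' hL h2 hnv
    obtain ⟨p1, p2, p3⟩ := z1_prime hγ
    refine ⟨γ, hγ, hlast γ η p1 (by rw [p2]; exact hv) g1 ?_ ?_, hX⟩
    · rw [p3]
      exact g3
    · rw [p2, p3]
      exact g4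

end H55W
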