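import Mathlib
import Pool.Agent.Lib.H55K.D1

/-! # H55W, part CL: the imaginary quadratic fields of class number one (elementary part of the classification) -/

open NumberField IsDedekindDomain

namespace H55W

open H55P (IQ embF eF Nm)
open H55K (cj)

/-- θ is a square root of -d in the integers of F, d a squarefree natural number, d > 0. -/
structure TH {F : Type} [Field F] [NumberField F] (θ : 𝓞 F) (d : ℕ) : Prop where
  sq : θ ^ 2 = -(d : 𝓞 F)
  sf : Squarefree d
  pos : 0 < d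

variable {F : Type} [Field F] [NumberField F] [IQ F] {θ : 𝓞 F} {d : ℕ}

theorem cl1_int {x : 𝓞 F} {q : ℚ} (h : algebraMap ℚ F q = (x : F)) : ∃ n : ℤ, x = (n : 𝓞 F) := by
  have h2 : IsIntegral ℤ q := by
    rw [← isIntegral_algebraMap_iff (algebraMap ℚ F).injective, h]
    exact x.2
  obtain ⟨m, hm⟩ := IsIntegrallyClosed.isIntegral_iff.1 h2
  refine ⟨m, ?_⟩
  apply RingOfIntegers.ext
  rw [← h, ← hm]
  simp

theorem cl1_emb (x : 𝓞 F) : embF F (x : F) = eF F x := rfl

/-- Chunk CL1 (S/M). x fixed by cj: x is rational (e.g. eF x real; F of degree 2 over ℚ with a non-real element: 1, θ a basis; or the fixed field of the nontrivial automorphism (H55K.d1_sigma, IsGalois) is ℚ) and integral over ℤ: an integer (IsIntegrallyClosed ℤ). -/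
theorem int_of_cj {x : 𝓞 F} (h : cj x = x) : ∃ n : ℤ, x = (n : 𝓞 F) := by
  obtain ⟨σ, hσ⟩ := H55K.d1_sigma F
  have hq : Algebra.IsQuadraticExtension ℚ F := ⟨IQ.deg⟩
  have hG : IsGalois ℚ F := inferInstance
  have hx : embF F (σ (x : F)) = embF F (x : F) := by
    rw [hσ, cl1_emb, ← H55K.e_cj, h]
  have hfix : ∀ g : F ≃ₐ[ℚ] F, g (x : F) = (x : F) := by
    intro g
    by_cases hg : (embF F).comp (g : F →+* F) = embF F
    · apply (embF F).injective
      exact RingHom.congr_fun hg (x : F)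
    · have hs : (embF F).comp (σ : F →+* F) ≠ embF F := by
        intro h1
        apply H55K.d1_conj_ne F
        ext y
        have h2 := RingHom.congr_fun h1 y
        have h3 : (embF F).comp (σ : F →+* F) y = (starRingEnd ℂ) (embF F y) := hσ y
        rw [RingHom.comp_apply, ← h3, h2]
      have h1 := H55K.d1_emb F _ _ hg hs
      apply (embF F).injective
      have h2 := RingHom.congr_fun h1 (x : F)
      have h3 : embF F (g (x : F)) = embF F (σ (x : F)) := h2
      rw [h3, hx]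
  obtain ⟨q, hq'⟩ := (IsGalois.mem_range_algebraMap_iff_fixed (F := ℚ) (x : F)).2 hfix
  exact cl1_int hq'

/-- Chunk CL1 (M). x in 𝓞 F with eF x not real (H55P.F0_im). t = x + cj x and N = x cj x are integers (int_of_cj, cj_cj), y = 2x - t satisfies y^2 = t^2 - 4N =: -D, D > 0 because y is purely imaginary, not 0 (eF (y^2) = - |..|^2). D = k^2 d with d squarefree (Nat.sq_mul_squarefree), θ = y/k in F, θ^2 = -d: integral over ℤ, so in 𝓞 F. -/
theorem exists_TH (F : Type) [Field F] [NumberField F] [IQ F] : ∃ (θ : 𝓞 F) (d : ℕ), TH θ d := by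
  obtain ⟨x, hx⟩ := H55P.F0_im (F := F)
  obtain ⟨T, hT⟩ := int_of_cj (x := x + cj x) (by rw [map_add, H55K.cj_cj, add_comm])
  have hN := H55K.mul_cj x
  have hy : (x - cj x) ^ 2 = ((T ^ 2 - 4 * (Nm x : ℕ) : ℤ) : 𝓞 F) := by
    push_cast
    rw [← hT, ← hN]
    ring
  have hD : 0 < 4 * ((Nm x : ℕ) : ℤ) - T ^ 2 := by
    have h1 := congrArg (eF F) hy
    rw [map_pow, map_sub, H55K.e_cj, map_intCast] at h1
    have h2 := congrArg Complex.re h1
    rw [Complex.intCast_re] at h2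
    have h3 : ((eF F x - (starRingEnd ℂ) (eF F x)) ^ 2).re = -(4 * (eF F x).im ^ 2) := by
      simp [pow_two, Complex.mul_re]
      ring
    rw [h3] at h2
    have h4 : 0 < (eF F x).im ^ 2 := by positivity
    have h5 : ((T ^ 2 - 4 * ((Nm x : ℕ) : ℤ) : ℤ) : ℝ) < 0 := by
      rw [← h2]
      linarith
    have h6 : T ^ 2 - 4 * ((Nm x : ℕ) : ℤ) < 0 := by exact_mod_cast h5
    linarith
  obtain ⟨D, hDD⟩ : ∃ D : ℕ, (D : ℤ) = 4 * ((Nm x : ℕ) : ℤ) - T ^ 2 := ⟨_, Int.toNat_of_nonneg hD.le⟩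
  obtain ⟨d, k, hk, hd⟩ := Nat.sq_mul_squarefree D
  have hD0 : 0 < D := by omega
  have hk0 : k ≠ 0 := by
    rintro rfl
    rw [← hk] at hD0
    simp at hD0
  have hd0 : 0 < d := by
    rcases Nat.eq_zero_or_pos d with h1 | h1
    · rw [h1, mul_zero] at hk
      omega
    · exact h1
  have hkF : (k : F) ≠ 0 := by exact_mod_cast hk0
  have hyF : ((x : F) - (cj x : 𝓞 F)) ^ 2 = -((k : F) ^ 2 * d) := by
    have h1 : (((x - cj x) ^ 2 : 𝓞 F) : F) = (((T ^ 2 - 4 * (Nm x : ℕ) : ℤ) : 𝓞 F) : F) := by rw [hy]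
    have h2 : (T ^ 2 - 4 * (Nm x : ℕ) : ℤ) = -((k ^ 2 * d : ℕ) : ℤ) := by
      rw [hk, hDD]
      ring
    rw [h2] at h1
    push_cast at h1
    exact h1
  have hsq : (((x : F) - (cj x : 𝓞 F)) / k) ^ 2 = -(d : F) := by
    rw [div_pow, hyF]
    field_simp
  have hint : IsIntegral ℤ (((x : F) - (cj x : 𝓞 F)) / k) := by
    refine IsIntegral.of_pow (n := 2) (by norm_num) ?_
    rw [hsq]
    have h1 : (-(d : F)) = algebraMap ℤ F (-(d : ℤ)) := by simp
    rw [h1]
    exact isIntegral_algebraMap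
  refine ⟨⟨((x : F) - (cj x : 𝓞 F)) / k, hint⟩, d, ⟨?_, hd, hd0⟩⟩
  apply RingOfIntegers.ext
  push_cast
  exact hsq

/-- Chunk CL1 (S). (cj θ)^2 = θ^2; cj θ = θ would make θ a rational integer with negative square (int_of_cj). -/
theorem th_cj (h : TH θ d) : cj θ = -θ := by
  have h1 : (cj θ) ^ 2 = θ ^ 2 := by
    rw [← map_pow, h.sq, map_neg, H55K.cj_nat]
  rcases sq_eq_sq_iff_eq_or_eq_neg.1 h1 with h2 | h2
  · exfalso
    obtain ⟨n, hn⟩ := int_of_cj h2
    have h3 := h.sq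
    rw [hn] at h3
    have h4 : n ^ 2 = -(d : ℤ) := by
      apply Int.cast_injective (α := 𝓞 F)
      push_cast
      exact h3
    have h5 := h.pos
    nlinarith [sq_nonneg n]
  · exact h2

end H55W
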