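import Mathlib
import Pool.Agent.Lib.H55W.CL1
import Pool.Agent.Lib.H55W.E3
import Pool.Agent.Lib.H55W.G0
import Pool.Agent.Lib.H55W.L8A

/-! # H55W, part CL: the imaginary quadratic fields of class number one (elementary part of the classification) -/

open NumberField IsDedekindDomain

namespace H55W

open H55P (IQ embF eF Nm)
open H55K (cj)

variable {F : Type} [Field F] [NumberField F] [IQ F] {θ : 𝓞 F} {d : ℕ}

theorem cl2_inj {m n : ℤ} (h : (m : 𝓞 F) = (n : 𝓞 F)) : m = n := by exact_mod_cast h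

theorem th_ne (h : TH θ d) : θ ≠ 0 := by
  intro h0
  have h1 := h.sq
  rw [h0] at h1
  have h2 : ((d : ℤ) : 𝓞 F) = ((0 : ℤ) : 𝓞 F) := by
    push_cast
    linear_combination h1
  have h3 := cl2_inj h2
  have h4 := h.pos
  omega

theorem sf_dvd {d : ℕ} (h : Squarefree d) {c : ℤ} (hc : (d : ℤ) ∣ c ^ 2) : (d : ℤ) ∣ c := by
  have h1 : d ∣ c.natAbs ^ 2 := by
    have h2 := Int.natAbs_dvd_natAbs.2 hc
    rwa [Int.natAbs_natCast, Int.natAbs_pow] at h2
  have h2 : d ∣ c.natAbs := (h.dvd_pow_iff_dvd two_ne_zero).1 h1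
  exact Int.natCast_dvd.2 h2

/-- Chunk CL2 (M). a = x + cj x is an integer (int_of_cj); (x - cj x) θ is fixed by cj: it is an integer b' with x - cj x = - b' θ / d... : (x - cj x)^2 = -b'^2/d·... Precisely: c = (x - cj x) θ in ℤ, c θ = -(x - cj x) d, c^2 = -(x - cj x)^2 d, and (x - cj x)^2 = a^2 - 4 x cj x is an integer m: c^2 = -m d, d squarefree: d divides c^2, so d divides c (Squarefree: each prime factor): c = -d b,
x - cj x = b θ, 2x = a + b θ; 4 x cj x = a^2 + d b^2. -/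
theorem two_mul_eq (h : TH θ d) (x : 𝓞 F) : ∃ a b : ℤ, 2 * x = (a : 𝓞 F) + (b : 𝓞 F) * θ ∧ 4 ∣ a ^ 2 + d * b ^ 2 := by
  obtain ⟨a, ha⟩ := int_of_cj (x := x + cj x) (by rw [map_add, H55K.cj_cj, add_comm])
  have hc := th_cj h
  obtain ⟨c, hcc⟩ := int_of_cj (x := (x - cj x) * θ) (by rw [map_mul, map_sub, H55K.cj_cj, hc]; ring)
  have hN := H55K.mul_cj x
  have hsq := h.sq
  have e1 : ((c ^ 2 : ℤ) : 𝓞 F) = ((d * (4 * Nm x - a ^ 2) : ℤ) : 𝓞 F) := by
    push_cast
    rw [← hcc, ← hN, ← ha]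
    linear_combination (x - cj x) ^ 2 * hsq
  have e2 := cl2_inj e1
  have hdc : (d : ℤ) ∣ c := sf_dvd h.sf ⟨_, e2⟩
  obtain ⟨k, hk⟩ := hdc
  have hd0 : (d : ℤ) ≠ 0 := by exact_mod_cast h.pos.ne'
  have hd0' : (d : 𝓞 F) ≠ 0 := by exact_mod_cast h.pos.ne'
  refine ⟨a, -k, ?_, Nm x, ?_⟩
  · have e3 : x - cj x = ((-k : ℤ) : 𝓞 F) * θ := by
      apply mul_left_cancel₀ hd0'
      have e4 : (c : 𝓞 F) = d * k := by
        rw [hk]
        push_cast
        rfl
      rw [e4] at hcc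
      push_cast
      linear_combination (-(θ)) * hcc + (x - cj x) * hsq
    linear_combination ha + e3
  · rw [hk] at e2
    have e5 : (d : ℤ) * (d * k ^ 2) = d * (4 * Nm x - a ^ 2) := by linear_combination e2
    have e6 := mul_left_cancel₀ hd0 e5
    linear_combination e6

/-- Chunk CL2 (S). two_mul_eq with d = 1: 4 | a^2 + b^2: a, b even. -/
theorem gi_of (h : TH θ 1) : GI θ := by
  refine ⟨by rw [h.sq]; norm_num, fun x => ?_⟩
  obtain ⟨a, b, h1, h2⟩ := two_mul_eq h x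
  rw [Nat.cast_one, one_mul] at h2
  have h3 : a % 2 = 0 ∧ b % 2 = 0 := by
    obtain ⟨c, hc⟩ := h2
    rcases Int.emod_two_eq_zero_or_one a with ha | ha <;> rcases Int.emod_two_eq_zero_or_one b with hb | hb
    · exact ⟨ha, hb⟩
    all_goals
      exfalso
      have ea := Int.emod_add_mul_ediv a 2
      have eb := Int.emod_add_mul_ediv b 2
      rw [ha] at ea
      rw [hb] at eb
      rw [← ea, ← eb] at hc
      ring_nf at hc
      omega
  refine ⟨a / 2, b / 2, ?_⟩
  apply mul_left_cancel₀ (two_ne_zero (α := 𝓞 F))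
  rw [h1]
  have ea : ((2 * (a / 2) : ℤ) : 𝓞 F) = a := by rw [Int.mul_ediv_cancel' (Int.dvd_of_emod_eq_zero h3.1)]
  have eb : ((2 * (b / 2) : ℤ) : 𝓞 F) = b := by rw [Int.mul_ediv_cancel' (Int.dvd_of_emod_eq_zero h3.2)]
  push_cast at ea eb
  linear_combination -ea - θ * eb

/-- Chunk CL2 (S). 4 | a^2 + 2b^2: a, b even. -/
theorem ti_of (h : TH θ 2) : TI θ := by
  refine ⟨by rw [h.sq]; norm_num, fun x => ?_⟩
  obtain ⟨a, b, h1, h2⟩ := two_mul_eq h x
  push_cast at h2
  have h3 : a % 2 = 0 ∧ b % 2 = 0 := by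
    obtain ⟨c, hc⟩ := h2
    rcases Int.emod_two_eq_zero_or_one a with ha | ha <;> rcases Int.emod_two_eq_zero_or_one b with hb | hb
    · exact ⟨ha, hb⟩
    all_goals
      exfalso
      have ea := Int.emod_add_mul_ediv a 2
      have eb := Int.emod_add_mul_ediv b 2
      rw [ha] at ea
      rw [hb] at eb
      rw [← ea, ← eb] at hc
      ring_nf at hc
      omega
  refine ⟨a / 2, b / 2, ?_⟩
  apply mul_left_cancel₀ (two_ne_zero (α := 𝓞 F))
  rw [h1]
  have ea : ((2 * (a / 2) : ℤ) : 𝓞 F) = a := by rw [Int.mul_ediv_cancel' (Int.dvd_of_emod_eq_zero h3.1)]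
  have eb : ((2 * (b / 2) : ℤ) : 𝓞 F) = b := by rw [Int.mul_ediv_cancel' (Int.dvd_of_emod_eq_zero h3.2)]
  push_cast at ea eb
  linear_combination -ea - θ * eb

/-- Chunk CL2 (S/M). w = (-1 + θ)/2 is integral over ℤ (root of X^2 + X + 1); 2x = a + b θ, 4 | a^2 + 3b^2: a ≡ b mod 2; x = (a + b)/2 + b w. -/
theorem ei_of (h : TH θ 3) : ∃ w : 𝓞 F, EI w := by
  have hθF : (θ : F) ^ 2 = -3 := by
    have h1 := congrArg (algebraMap (𝓞 F) F) h.sq
    rw [map_pow, map_neg, map_natCast] at h1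
    exact_mod_cast h1
  have hint : IsIntegral ℤ ((-1 + (θ : F)) / 2) := by
    refine ⟨Polynomial.X ^ 2 + Polynomial.X + 1, by monicity!, ?_⟩
    simp only [Polynomial.eval₂_add, Polynomial.eval₂_pow, Polynomial.eval₂_X, Polynomial.eval₂_one]
    linear_combination (1 / 4 : F) * hθF
  set w : 𝓞 F := ⟨(-1 + (θ : F)) / 2, hint⟩ with hw
  have hw2 : 2 * w = -1 + θ := by
    apply RingOfIntegers.coe_injective
    show algebraMap (𝓞 F) F (2 * w) = algebraMap (𝓞 F) F (-1 + θ)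
    rw [map_mul, map_ofNat, map_add, map_neg, map_one]
    show 2 * ((-1 + (θ : F)) / 2) = -1 + (θ : F)
    ring
  refine ⟨w, ?_, fun x => ?_⟩
  · have h40 : (4 : 𝓞 F) ≠ 0 := by
      have h5 : ((4 : ℤ) : 𝓞 F) ≠ ((0 : ℤ) : 𝓞 F) := fun h6 => by
        have h7 := cl2_inj h6
        omega
      push_cast at h5
      exact h5
    apply mul_left_cancel₀ h40
    have h1 := h.sq
    push_cast at h1
    linear_combination (2 * w + (-1 + θ) + 2) * hw2 + h1
  · obtain ⟨a, b, h1, h2⟩ := two_mul_eq h x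
    push_cast at h2
    have h3 : (a + b) % 2 = 0 := by
      obtain ⟨c, hc⟩ := h2
      rcases Int.emod_two_eq_zero_or_one a with ha | ha <;> rcases Int.emod_two_eq_zero_or_one b with hb | hb
      · omega
      · exfalso
        have ea := Int.emod_add_mul_ediv a 2
        have eb := Int.emod_add_mul_ediv b 2
        rw [ha] at ea
        rw [hb] at eb
        rw [← ea, ← eb] at hc
        ring_nf at hc
        omega
      · exfalso
        have ea := Int.emod_add_mul_ediv a 2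
        have eb := Int.emod_add_mul_ediv b 2
        rw [ha] at ea
        rw [hb] at eb
        rw [← ea, ← eb] at hc
        ring_nf at hc
        omega
      · omega
    refine ⟨(a + b) / 2, b, ?_⟩
    apply mul_left_cancel₀ (two_ne_zero (α := 𝓞 F))
    rw [h1]
    have ea : ((2 * ((a + b) / 2) : ℤ) : 𝓞 F) = ((a + b : ℤ) : 𝓞 F) := by
      rw [Int.mul_ediv_cancel' (Int.dvd_of_emod_eq_zero h3)]
    push_cast at ea
    linear_combination -ea - (b : 𝓞 F) * hw2

end H55W
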