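import Mathlib
import Pool.Agent.Lib.H55W.CL2

/-! # H55W, part CL: the imaginary quadratic fields of class number one (elementary part of the classification) -/

open NumberField IsDedekindDomain

namespace H55W

open H55P (IQ embF eF Nm)
open H55K (cj)

variable {F : Type} [Field F] [NumberField F] [IQ F] {θ : 𝓞 F} {d : ℕ}

theorem cl3_sf4 {d : ℕ} (h : Squarefree d) (h4 : 4 ∣ d) : False := by
  have h1 : IsUnit 2 := h 2 (by simpa using h4)
  rw [Nat.isUnit_iff] at h1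
  omega

/-- α^2 divides q, q divides α^2: q is plus or minus a square. -/
theorem cl3_sq (h : TH θ d) (h1 : ∀ u : 𝓞 F, IsUnit u → u = 1 ∨ u = -1) {q : ℕ} {α : 𝓞 F}
    (hα : α ^ 2 ∣ (q : 𝓞 F)) (hα' : (q : 𝓞 F) ∣ α ^ 2) : α ^ 2 = (q : 𝓞 F) ∨ α ^ 2 = -(q : 𝓞 F) := by
  obtain ⟨u, hu⟩ := associated_of_dvd_dvd hα hα'
  rcases h1 u u.isUnit with h2 | h2
  · left
    rw [← hu, h2, mul_one]
  · right
    rw [← hu, h2]
    ring

theorem cl3_gen (x y : 𝓞 F) : ∃ α a b : 𝓞 F, α ∣ x ∧ α ∣ y ∧ α = a * x + b * y := by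
  have hp : IsPrincipalIdealRing (𝓞 F) := IQ.pid
  obtain ⟨α, hα⟩ := (hp.principal (Ideal.span {x, y})).principal
  have hα' : Ideal.span {x, y} = Ideal.span {α} := hα
  refine ⟨α, ?_⟩
  have h1 : α ∈ Ideal.span {x, y} := by
    rw [hα']
    exact Ideal.mem_span_singleton_self α
  obtain ⟨a, b, hab⟩ := Ideal.mem_span_pair.1 h1
  refine ⟨a, b, ?_, ?_, hab.symm⟩
  · rw [← Ideal.mem_span_singleton, ← hα']
    exact Ideal.subset_span (Set.mem_insert _ _)
  · rw [← Ideal.mem_span_singleton, ← hα']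
    exact Ideal.subset_span (Set.mem_insert_of_mem _ rfl)

/-- Chunk CL3 (S/M). Nm u = 1: u cj u = 1, t = u + cj u an integer, u^2 - t u + 1 = 0. 4 = t^2 + (..): 4 - t^2 = -(u - cj u)^2 = d b^2 ≥ 0 with 2u = a + bθ, a = t (two_mul_eq: a^2 + d b^2 = 4). If b = 0 then a = ±2, u = ±1. If b ≠ 0 then d b^2 ≤ 4: d = 1, 2, 3 or 4 - with a^2 = 4 - d b^2 a square: d = 1 (b = ±2, a = 0; b = ±1 gives a^2 = 3 no), d = 3 (b = ±1, a = ±1), d = 2: 4 - 2 = 2, no; d = 4 not squarefree. So d = 1 or d = 3. -/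
theorem th_unit (h : TH θ d) (h1 : d ≠ 1) (h3 : d ≠ 3) {u : 𝓞 F} (hu : IsUnit u) : u = 1 ∨ u = -1 := by
  obtain ⟨a, b, h2, -⟩ := two_mul_eq h u
  have h4 := congrArg cj h2
  rw [map_mul, map_ofNat, map_add, map_mul, H55K.cj_int, H55K.cj_int, th_cj h] at h4
  have hN := H55K.mul_cj u
  rw [g0_nm_unit hu, Nat.cast_one] at hN
  have h5 : ((a ^ 2 + d * b ^ 2 : ℤ) : 𝓞 F) = ((4 : ℤ) : 𝓞 F) := by
    push_cast
    have h6 := h.sq
    linear_combination 4 * hN - 2 * cj u * h2 - (a + b * θ) * h4 + b ^ 2 * h6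
  have h6 : a ^ 2 + d * b ^ 2 = 4 := cl2_inj h5
  have hb : b = 0 := by
    by_contra hb
    have h7 : 1 ≤ b ^ 2 := by
      have := pow_pos (abs_pos.2 hb) 2
      rw [sq_abs] at this
      omega
    have hd : (d : ℤ) ≤ 4 := by nlinarith [sq_nonneg a]
    have hd' : d ≤ 4 := by exact_mod_cast hd
    have hdc : d = 2 ∨ d = 4 := by
      have := h.pos
      omega
    rcases hdc with hd2 | hd4
    · rw [hd2] at h6
      push_cast at h6
      have hb2 : b ^ 2 ≤ 2 := by nlinarith [sq_nonneg a]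
      have hbb : b ≤ 1 ∧ -1 ≤ b := by constructor <;> nlinarith
      have hb1 : b ^ 2 = 1 := by
        have : b = 1 ∨ b = -1 := by omega
        rcases this with h8 | h8 <;> rw [h8] <;> norm_num
      rw [hb1] at h6
      have ha : a ^ 2 = 2 := by linarith
      have ha2 : a ≤ 1 ∧ -1 ≤ a := by constructor <;> nlinarith
      have : a = -1 ∨ a = 0 ∨ a = 1 := by omega
      rcases this with h8 | h8 | h8 <;> rw [h8] at ha <;> norm_num at ha
    · exact cl3_sf4 h.sf (by rw [hd4])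
  rw [hb] at h6 h2
  have ha : a = 2 ∨ a = -2 := by
    have h7 : (a - 2) * (a + 2) = 0 := by linear_combination h6
    rcases mul_eq_zero.1 h7 with h8 | h8
    · left; linarith
    · right; linarith
  rcases ha with ha | ha
  · left
    apply mul_left_cancel₀ (two_ne_zero (α := 𝓞 F))
    rw [h2, ha]
    push_cast
    ring
  · right
    apply mul_left_cancel₀ (two_ne_zero (α := 𝓞 F))
    rw [h2, ha]
    push_cast
    ring

/-- Chunk CL3 (S/M). α^2 = ± q, q a prime number (or 2): 2α = a + b θ: 4α^2 = a^2 - d b^2 + 2ab θ is an integer, so a b = 0 (θ is not rational). b = 0: a^2 = ± 4q: impossible (q prime: not a square; or negative). a = 0: -d b^2 = ± 4q: d b^2 = 4 q, d squarefree, q prime: b^2 | 4q so b^2 = 1 or 4 (if b^2 = 4 q.. not a square unless..): b = ±2: d = q; b = ±1: d = 4q not squarefree (b^2 = 4q impossible). -/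
theorem sq_prime (h : TH θ d) {q : ℕ} (hq : q.Prime) {α : 𝓞 F} (hα : α ^ 2 = (q : 𝓞 F) ∨ α ^ 2 = -(q : 𝓞 F)) : d = q := by
  obtain ⟨a, b, h2, -⟩ := two_mul_eq h α
  obtain ⟨ε, hε, hαε⟩ : ∃ ε : ℤ, (ε = 1 ∨ ε = -1) ∧ α ^ 2 = ((ε * q : ℤ) : 𝓞 F) := by
    rcases hα with h3 | h3
    · exact ⟨1, Or.inl rfl, by rw [h3]; push_cast; ring⟩
    · exact ⟨-1, Or.inr rfl, by rw [h3]; push_cast; ring⟩
  have hsq := h.sq
  have e1 : ((a ^ 2 - d * b ^ 2 - 4 * (ε * q) : ℤ) : 𝓞 F) + ((2 * a * b : ℤ) : 𝓞 F) * θ = 0 := by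
    push_cast at hαε ⊢
    linear_combination 4 * hαε - (2 * α + (a + b * θ)) * h2 - b ^ 2 * hsq
  have e2 := congrArg cj e1
  rw [map_add, map_mul, H55K.cj_int, H55K.cj_int, th_cj h, map_zero] at e2
  have e3 : ((2 * a * b : ℤ) : 𝓞 F) * θ = 0 := by
    apply mul_left_cancel₀ (two_ne_zero (α := 𝓞 F))
    linear_combination e1 - e2
  have e4 : ((2 * a * b : ℤ) : 𝓞 F) = ((0 : ℤ) : 𝓞 F) := by
    rw [Int.cast_zero]
    exact (mul_eq_zero.1 e3).resolve_right (th_ne h)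
  have e5 : 2 * a * b = 0 := cl2_inj e4
  rw [e5, Int.cast_zero, zero_mul, add_zero] at e1
  have e6 : a ^ 2 - d * b ^ 2 - 4 * (ε * q) = 0 := by
    apply cl2_inj (F := F)
    rw [e1, Int.cast_zero]
  have hq0 : (0 : ℤ) < q := by exact_mod_cast hq.pos
  have hd0 : (0 : ℤ) < d := by exact_mod_cast h.pos
  have hqp : Prime (q : ℤ) := Nat.prime_iff_prime_int.1 hq
  have hab : a = 0 ∨ b = 0 := by
    rcases mul_eq_zero.1 e5 with h7 | h7
    · left
      omega
    · right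
      exact h7
  rcases hab with ha | hb
  · -- a = 0
    rw [ha] at e6
    have hε1 : ε = -1 := by
      rcases hε with h7 | h7
      · exfalso
        rw [h7] at e6
        nlinarith [sq_nonneg b, mul_nonneg hd0.le (sq_nonneg b)]
      · exact h7
    rw [hε1] at e6
    have e7 : (d : ℤ) * b ^ 2 = 4 * q := by linear_combination -e6
    rcases Int.even_or_odd b with hb | hb
    · obtain ⟨c, hc⟩ := hb
      rw [hc] at e7
      have e8 : (d : ℤ) * c ^ 2 = q := by
        apply mul_left_cancel₀ (show (4 : ℤ) ≠ 0 by norm_num)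
        linear_combination e7
      have hcu : IsUnit c := by
        have h9 := hqp.irreducible.squarefree
        apply h9 c
        exact ⟨d, by linear_combination -e8⟩
      have hc2 : c ^ 2 = 1 := by
        rcases Int.isUnit_iff.1 hcu with h9 | h9 <;> rw [h9] <;> norm_num
      rw [hc2, mul_one] at e8
      exact_mod_cast e8
    · exfalso
      have h9 : (4 : ℤ) ∣ d := by
        have h10 : IsCoprime (4 : ℤ) (b ^ 2) := by
          have h11 : IsCoprime (2 : ℤ) b := by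
            obtain ⟨c, hc⟩ := hb
            exact ⟨-c, 1, by rw [hc]; ring⟩
          have := h11.pow (m := 2) (n := 2)
          norm_num at this
          exact this
        exact h10.dvd_of_dvd_mul_right ⟨q, e7⟩
      exact cl3_sf4 h.sf (by exact_mod_cast h9)
  · -- b = 0
    exfalso
    rw [hb] at e6
    have e7 : a ^ 2 = 4 * (ε * q) := by linear_combination e6
    have hε1 : ε = 1 := by
      rcases hε with h7 | h7
      · exact h7
      · exfalso
        rw [h7] at e7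
        nlinarith [sq_nonneg a]
    rw [hε1] at e7
    have h2a : (2 : ℤ) ∣ a := by
      have : (2 : ℤ) ∣ a ^ 2 := ⟨2 * q, by linear_combination e7⟩
      exact Int.prime_two.dvd_of_dvd_pow this
    obtain ⟨c, hc⟩ := h2a
    have e8 : (q : ℤ) = c ^ 2 := by
      apply mul_left_cancel₀ (show (4 : ℤ) ≠ 0 by norm_num)
      rw [hc] at e7
      linear_combination -e7
    have h9 := hqp.irreducible.squarefree
    have hcu : IsUnit c := h9 c ⟨1, by linear_combination e8⟩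
    have hc2 : c ^ 2 = 1 := by
      rcases Int.isUnit_iff.1 hcu with h9 | h9 <;> rw [h9] <;> norm_num
    rw [hc2] at e8
    have : q = 1 := by exact_mod_cast e8
    exact hq.one_lt.ne' this

/-- Chunk CL3 (M). CLASS NUMBER ONE. Suppose d ≠ 1, 3. (1) q a prime factor of d: the ideal (q, θ) = (α) is principal and (q, θ)^2 = (q^2, q θ, d) = (q) (d = q d', q and d' coprime since d is squarefree; Ideal.span_pair_mul..., or elements: α divides q and θ, α = x q + y θ; α^2 divides q^2, qθ, θ^2 = -d, so q = a q^2 + b d.. : gcd(q^2, d) = q is divisible by α^2;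
and α^2 = x^2 q^2 + 2xy q θ - y^2 d is divisible by q). So α^2 = u q, u = ±1 (th_unit): d = q (sq_prime). So d is a prime number. (2) If d % 4 = 1 (d odd prime): the ideal (2, 1 + θ) = (α): α^2 divides 4, 2(1+θ), (1+θ)^2 = 1 - d + 2θ, so also 2(1 + θ) - (1 - d + 2θ) = 1 + d ≡ 2 mod 4, so 2; and α^2 = 4x^2 + 4xy(1+θ) + y^2 (1 - d + 2θ) is divisible by 2: α^2 = ±2, d = 2 (sq_prime), contradiction.
So d = 2 or d % 4 = 3, d prime, d ≠ 3. -/
theorem class_one (h : TH θ d) : d = 1 ∨ d = 2 ∨ d = 3 ∨ (d.Prime ∧ d % 4 = 3 ∧ 3 < d) := by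
  by_cases h1 : d = 1
  · exact Or.inl h1
  by_cases h3 : d = 3
  · exact Or.inr (Or.inr (Or.inl h3))
  have hun : ∀ u : 𝓞 F, IsUnit u → u = 1 ∨ u = -1 := fun u hu => th_unit h h1 h3 hu
  have hsq := h.sq
  -- d is a prime number
  have hdp : d.Prime := by
    obtain ⟨q, hq, hqd⟩ := Nat.exists_prime_and_dvd h1
    obtain ⟨d', hd'⟩ := hqd
    have hcop : Nat.Coprime q d' := by
      refine hq.coprime_iff_not_dvd.2 fun hdiv => ?_
      obtain ⟨z, hz⟩ := hdiv
      have h5 : IsUnit q := h.sf q ⟨z, by rw [hd', hz]; ring⟩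
      exact hq.one_lt.ne' (Nat.isUnit_iff.1 h5)
    obtain ⟨m, n, hmn⟩ := Nat.isCoprime_iff_coprime.2 hcop
    obtain ⟨α, a, b, ha, hb, hab⟩ := cl3_gen (q : 𝓞 F) θ
    have hdF : (d : 𝓞 F) = q * d' := by
      rw [hd']
      push_cast
      rfl
    have hmnF : (m : 𝓞 F) * q + n * d' = 1 := by
      have := congrArg (fun z : ℤ => (z : 𝓞 F)) hmn
      push_cast at this
      exact this
    have k1 : α ^ 2 ∣ (q : 𝓞 F) := by
      have k2 : α ^ 2 ∣ (q : 𝓞 F) ^ 2 := pow_dvd_pow_of_dvd ha 2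
      have k3 : α ^ 2 ∣ θ ^ 2 := pow_dvd_pow_of_dvd hb 2
      have e : (q : 𝓞 F) = m * (q : 𝓞 F) ^ 2 - n * θ ^ 2 := by
        rw [hsq, hdF]
        linear_combination -(q : 𝓞 F) * hmnF
      rw [e]
      exact dvd_sub (k2.mul_left _) (k3.mul_left _)
    have k2 : (q : 𝓞 F) ∣ α ^ 2 := by
      refine ⟨a ^ 2 * q + 2 * a * b * θ - b ^ 2 * d', ?_⟩
      rw [hab]
      rw [hdF] at hsq
      linear_combination b ^ 2 * hsq
    have k3 := cl3_sq h hun k1 k2
    rw [sq_prime h hq k3]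
    exact hq
  by_cases h2 : d = 2
  · exact Or.inr (Or.inl h2)
  refine Or.inr (Or.inr (Or.inr ⟨hdp, ?_, ?_⟩))
  · by_contra h43
    have hodd := hdp.odd_of_ne_two h2
    have h41 : d % 4 = 1 := by
      have := Nat.odd_iff.1 hodd
      omega
    obtain ⟨k, hk⟩ : ∃ k : ℕ, d = 4 * k + 1 := ⟨d / 4, by omega⟩
    have hkF : (d : 𝓞 F) = 4 * k + 1 := by
      rw [hk]
      push_cast
      ring
    obtain ⟨α, a, b, ha, hb, hab⟩ := cl3_gen ((2 : ℕ) : 𝓞 F) (1 + θ)
    have k1 : α ^ 2 ∣ ((2 : ℕ) : 𝓞 F) := by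
      have k2 : α ^ 2 ∣ ((2 : ℕ) : 𝓞 F) ^ 2 := pow_dvd_pow_of_dvd ha 2
      have k3 : α ^ 2 ∣ (1 + θ) ^ 2 := pow_dvd_pow_of_dvd hb 2
      have k4 : α ^ 2 ∣ ((2 : ℕ) : 𝓞 F) * (1 + θ) := by
        rw [pow_two]
        exact mul_dvd_mul ha hb
      have e : ((2 : ℕ) : 𝓞 F) = ((2 : ℕ) : 𝓞 F) * (1 + θ) - (1 + θ) ^ 2 - k * ((2 : ℕ) : 𝓞 F) ^ 2 := by
        rw [hkF] at hsq
        push_cast
        linear_combination hsq
      rw [e]
      exact dvd_sub (dvd_sub k4 k3) (k2.mul_left _)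
    have k2 : ((2 : ℕ) : 𝓞 F) ∣ α ^ 2 := by
      refine ⟨2 * a ^ 2 + 2 * a * b * (1 + θ) + b ^ 2 * (θ - 2 * k), ?_⟩
      rw [hab]
      rw [hkF] at hsq
      push_cast
      linear_combination b ^ 2 * hsq
    exact h2 (sq_prime h Nat.prime_two (cl3_sq h hun k1 k2))
  · have := hdp.two_le
    omega

end H55W
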