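import Mathlib
import Pool.Agent.Lib.H13D.Main
import Pool.Agent.Lib.H55W.B3
import Pool.Agent.Lib.H55W.B8
import Pool.Agent.Lib.H55W.CL3

/-! # H55W: Deuring's theorem for the elliptic curves over the rational numbers with complex multiplication by the ring of
integers of F, all fields F -/

open NumberField IsDedekindDomain WeierstrassCurve

namespace H55W

open H55P (IQ embF eF LF Per IsHecke Pt ac Inert Dec Nm)
open H55K
open H55K.TQ (BaseH)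

theorem base_all0 {F : Type} [Field F] [NumberField F] [IQ F]
    (hcub : ∀ w : 𝓞 F, w ^ 2 + w + 1 = 0 → ∀ n : ℤ, n ≠ 0 → ∃ κ : 𝓞 F → 𝓞 F, PRC (𝓞 F) 3 n (3 * n) (27 * n) κ)
    (W : WeierstrassCurve ℤ) (Om : ℂ)
    (hΔ : W.Δ ≠ 0) (hper : Per F (-(eF F (W⁄(𝓞 F)).c₄) / 48) (-(eF F (W⁄(𝓞 F)).c₆) / 864) Om) (hmin : H13D.MinZ W) :
    ∃ ψ : Ideal (𝓞 F) →*₀ 𝓞 F, BaseH F (W⁄(𝓞 F)) Om (Ideal.span {((W.Δ.natAbs : ℕ) : 𝓞 F) ^ 3}) ψ := by
  have hbad := H13D.bad_F hΔ hper hmin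
  obtain ⟨θ, d, h⟩ := exists_TH F
  rcases class_one h with h1 | h1 | h1 | ⟨hp, h4, h3⟩
  · subst h1
    exact base_4 (gi_of h) W Om hΔ hper hbad
  · subst h1
    exact base_8 (ti_of h) W Om hΔ hper hbad
  · subst h1
    obtain ⟨w, hw⟩ := ei_of h
    exact base_3 hw (hcub w hw.sq) W Om hΔ hper hbad
  · exact H13D.base_exists ⟨hp, h4, h3, h.sq⟩ W Om hΔ hper hmin

end H55W
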