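import Mathlib
import Pool.Agent.Lib.H13D.M0
import Pool.Agent.Lib.H55W.Q1

/-! # H55W: the prime numbers of good reduction are unramified in F -/

open NumberField IsDedekindDomain WeierstrassCurve

namespace H55W

open H55P (IQ embF eF LF Per IsHecke Pt ac Inert Dec Nm)
open H55K
open H55K.TQ (BaseH PrimeH)

/-- A prime element π with Nm π = p whose square divides p: every a - cj a is divisible by π. -/
theorem pr_ram {F : Type} [Field F] [NumberField F] [IQ F] {p : ℕ} (hp : p.Prime) {π : 𝓞 F} (hπ : Prime π) (hN : Nm π = p)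
    (hd : π ^ 2 ∣ (p : 𝓞 F)) (a : 𝓞 F) : π ∣ a - cj a := by
  have hpp : π * cj π = (p : 𝓞 F) := by rw [mul_cj, hN]
  have hc : π ∣ cj π := by
    rw [← hpp, pow_two] at hd
    exact (mul_dvd_mul_iff_left hπ.ne_zero).1 hd
  -- the residue field has p elements
  have hcard : Nat.card (𝓞 F ⧸ Ideal.span {π}) = p := by rw [nm_card, hN]
  have hn : ∃ n : ℤ, π ∣ a - (n : 𝓞 F) := by
    have hpos : 0 < p := hp.pos
    have hf : Finite (𝓞 F ⧸ Ideal.span {π}) := Nat.finite_of_card_ne_zero (by rw [hcard]; exact hp.ne_zero)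
    have hft : Fintype (𝓞 F ⧸ Ideal.span {π}) := Fintype.ofFinite _
    have hinj : Function.Injective (fun i : Fin p => (Ideal.Quotient.mk (Ideal.span {π}) ((i : ℕ) : 𝓞 F))) := by
      intro i k hik
      have h1 : ((i : ℕ) : 𝓞 F) - ((k : ℕ) : 𝓞 F) ∈ Ideal.span {π} := by
        rw [← Ideal.Quotient.eq]
        exact hik
      rw [Ideal.mem_span_singleton] at h1
      have h2 : ((p : ℕ) : ℤ) ∣ ((i : ℕ) : ℤ) - ((k : ℕ) : ℤ) := by
        have h3 : cj π ∣ ((i : ℕ) : 𝓞 F) - ((k : ℕ) : 𝓞 F) := by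
          obtain ⟨c, hc'⟩ := h1
          refine ⟨cj c, ?_⟩
          have := congrArg cj hc'
          rw [map_sub, cj_nat, cj_nat, map_mul] at this
          exact this
        have h4 : Nm π ∣ Nm ((((i : ℕ) : ℤ) - ((k : ℕ) : ℤ) : ℤ) : 𝓞 F) := by
          have e : ((((i : ℕ) : ℤ) - ((k : ℕ) : ℤ) : ℤ) : 𝓞 F) = ((i : ℕ) : 𝓞 F) - ((k : ℕ) : 𝓞 F) := by push_cast; ring
          rw [e]
          obtain ⟨c, hc'⟩ := h1
          rw [hc', Nm_mul]
          exact dvd_mul_right _ _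
        have h5 : Nm ((((i : ℕ) : ℤ) - ((k : ℕ) : ℤ) : ℤ) : 𝓞 F) = (((i : ℕ) : ℤ) - ((k : ℕ) : ℤ)).natAbs ^ 2 := by
          set m : ℤ := ((i : ℕ) : ℤ) - ((k : ℕ) : ℤ)
          rcases Int.natAbs_eq m with h | h
          · conv_lhs => rw [h, Int.cast_natCast, Nm_nat]
          · conv_lhs => rw [h, Int.cast_neg, Int.cast_natCast]
            unfold Nm
            rw [Ideal.span_singleton_neg]
            exact Nm_nat _
        rw [hN, h5] at h4
        exact Int.natCast_dvd.2 (hp.dvd_of_dvd_pow h4)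
      have h6 : |((i : ℕ) : ℤ) - ((k : ℕ) : ℤ)| < p := by
        have := i.2
        have := k.2
        rw [abs_lt]
        omega
      have h7 := Int.eq_zero_of_abs_lt_dvd h2 h6
      exact Fin.ext (by omega)
    have hbij := (Fintype.bijective_iff_injective_and_card (fun i : Fin p => (Ideal.Quotient.mk (Ideal.span {π}) ((i : ℕ) : 𝓞 F)))).2
      ⟨hinj, by rw [Fintype.card_fin, ← Nat.card_eq_fintype_card, hcard]⟩
    obtain ⟨i, hi⟩ := hbij.2 (Ideal.Quotient.mk (Ideal.span {π}) a)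
    refine ⟨((i : ℕ) : ℤ), ?_⟩
    rw [← Ideal.mem_span_singleton, ← Ideal.Quotient.eq]
    rw [← hi]
    simp
  obtain ⟨n, c, hc'⟩ := hn
  have h1 : cj a - (n : 𝓞 F) = cj π * cj c := by
    have := congrArg cj hc'
    rw [map_sub, cj_int, map_mul] at this
    exact this
  have h2 : π ∣ cj a - (n : 𝓞 F) := by
    rw [h1]
    exact hc.mul_right _
  have h3 : a - cj a = (a - (n : 𝓞 F)) - (cj a - (n : 𝓞 F)) := by ring
  rw [h3]
  exact dvd_sub ⟨c, hc'⟩ h2

theorem prime_simple {F : Type} [Field F] [NumberField F] [IQ F] {W : WeierstrassCurve ℤ} {Om : ℂ} (hΔ : W.Δ ≠ 0)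
    (hper : Per F (-(eF F (W⁄(𝓞 F)).c₄) / 48) (-(eF F (W⁄(𝓞 F)).c₆) / 864) Om) {p : ℕ} (hp : p.Prime) (h5 : 5 ≤ p)
    (hd : ¬ (p : ℤ) ∣ W.Δ) : PrimeH F (W⁄(𝓞 F)) p := by
  have hΔF : (W⁄(𝓞 F)).Δ = ((W.Δ : ℤ) : 𝓞 F) := by
    have := W.map_Δ (algebraMap ℤ (𝓞 F))
    exact this.trans (by simp)
  have hcop : IsCoprime W.Δ (p : ℤ) :=
    ((Nat.prime_iff_prime_int.1 hp).coprime_iff_not_dvd.2 hd).symm
  have hcop' : IsCoprime ((W.Δ : ℤ) : 𝓞 F) ((p : ℕ) : 𝓞 F) := by
    have := hcop.map (Int.castRingHom (𝓞 F))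
    simpa using this
  refine ⟨hp, h5, ?_, ?_⟩
  · -- unramified
    have hp0 : ((p : ℕ) : 𝓞 F) ≠ 0 := by exact_mod_cast hp.ne_zero
    show Squarefree (Ideal.span {((p : ℕ) : 𝓞 F)})
    intro J hJ
    by_contra hJu
    have hJ0 : J ≠ ⊥ := by
      rintro rfl
      have h1 := Ideal.dvd_iff_le.1 hJ
      rw [Ideal.bot_mul, le_bot_iff, Ideal.span_singleton_eq_bot] at h1
      exact hp0 h1
    set x := Submodule.IsPrincipal.generator J with hx
    have hxJ : Ideal.span {x} = J := Ideal.span_singleton_generator J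
    have hx0 : x ≠ 0 := by
      intro h0
      rw [h0] at hxJ
      exact hJ0 (by rw [← hxJ]; exact Ideal.span_singleton_eq_bot.2 rfl)
    have hxu : ¬ IsUnit x := by
      intro hu
      apply hJu
      rw [← hxJ, Ideal.span_singleton_eq_top.2 hu, ← Ideal.one_eq_top]
      exact isUnit_one
    obtain ⟨π, hπi, hπx⟩ := WfDvdMonoid.exists_irreducible_factor hxu hx0
    have hπ : Prime π := hπi.prime
    have hdp : π ^ 2 ∣ ((p : ℕ) : 𝓞 F) := by
      have h1 : x * x ∣ ((p : ℕ) : 𝓞 F) := by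
        rw [← hxJ, Ideal.span_singleton_mul_span_singleton, Ideal.dvd_iff_le, Ideal.span_singleton_le_iff_mem,
          Ideal.mem_span_singleton] at hJ
        exact hJ
      rw [pow_two]
      exact (mul_dvd_mul hπx hπx).trans h1
    have hN1 : Nm π ≠ 1 := fun h => hπ.not_unit (q1_unit h)
    have hNN : Nm π = p := by
      obtain ⟨c, hc⟩ := hdp
      have h1 : p ^ 2 = (Nm π) ^ 2 * Nm c := by
        rw [← Nm_nat (F := F) p, hc, Nm_mul, pow_two, Nm_mul]
        ring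
      have h2 : Nm π ^ 2 ∣ p ^ 2 := ⟨Nm c, h1⟩
      have h3 : Nm π ∣ p := (Nat.pow_dvd_pow_iff two_ne_zero).1 h2
      exact ((Nat.dvd_prime hp).1 h3).resolve_left hN1
    obtain ⟨v, hv⟩ : ∃ v : HeightOneSpectrum (𝓞 F), v.asIdeal = Ideal.span {π} :=
      ⟨⟨Ideal.span {π}, (Ideal.span_singleton_prime hπ.ne_zero).2 hπ, by
        rw [Ne, Ideal.span_singleton_eq_bot]
        exact hπ.ne_zero⟩, rfl⟩
    have h1 : (W⁄(𝓞 F)).Δ ∈ v.asIdeal := by
      refine H13D.disc_ram hΔ hper v (fun a => ?_)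
      rw [hv, Ideal.mem_span_singleton]
      exact pr_ram hp hπ hNN hdp a
    rw [hΔF, hv, Ideal.mem_span_singleton] at h1
    have h2 : π ∣ ((p : ℕ) : 𝓞 F) := (dvd_pow_self π two_ne_zero).trans hdp
    obtain ⟨a, b, hab⟩ := hcop'
    apply hπ.not_unit
    rw [isUnit_iff_dvd_one, ← hab]
    exact dvd_add (h1.mul_left _) (h2.mul_left _)
  · rw [hΔF, Ideal.isCoprime_span_singleton_iff]
    exact hcop'

end H55W
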