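import Mathlib
import Pool.Agent.Lib.H55K.F3
import Pool.Agent.Lib.H55K.FC3
import Pool.Agent.Lib.H55K.EX2
import Pool.Agent.Lib.H28T.XMain
import Pool.Agent.Lib.H55W.Main
import Pool.Agent.Lib.H55W.PR

/-! # H55W: the final theorem for the curves with complex multiplication by the maximal orders -/

open NumberField IsDedekindDomain WeierstrassCurve H55P H55K.TQ

namespace H55W.Fin

/-- The elliptic curve W (a global minimal equation) has complex multiplication by the ring of integers of F: the period lattice is a multiple of the lattice of the integers of F. -/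
def CMax (F : Type) [Field F] [NumberField F] [IQ F] (W : WeierstrassCurve ℤ) : Prop :=
  W.Δ ≠ 0 ∧ H13D.MinZ W ∧ ∃ Om : ℂ, Per F (-(eF F (W⁄(𝓞 F)).c₄) / 48) (-(eF F (W⁄(𝓞 F)).c₆) / 864) Om

/-- The conclusions over K. -/
structure OverK (F : Type) [Field F] [NumberField F] (p : ℕ) (W : WeierstrassCurve ℤ) (K : Type) [Field K] [NumberField K] :
    Prop where
  int : AnIntG p W K
  crit : AnUnitG p W K ↔ AnUnitG p W ℚ ∧ InPF (W⁄(𝓞 F)) p K
  bsd : AnUnitG p W K → BSDPG p W K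
  non : ¬ InPF (W⁄(𝓞 F)) p K → AnNonG p W K ∧ H13Z.SelNonT (W⁄K) p

structure AtP (F : Type) [Field F] [NumberField F] [IQ F] (p : ℕ) (W : WeierstrassCurve ℤ) : Prop where
  res : ∀ (K : Type) [Field K] [NumberField K], SubUF F p K → OverK F p W K
  rich : H28T.Rich (W⁄(𝓞 F)) p
  real : ∀ (H : Type) [Group H] [Finite H] (k : ℕ), Nat.card H = p ^ k → H28T.RealG (W⁄(𝓞 F)) p H

theorem fin0 (hcub : ∀ (F : Type) [Field F] [NumberField F] [IQ F], ∀ w : 𝓞 F, w ^ 2 + w + 1 = 0 → ∀ n : ℤ, n ≠ 0 → ∃ κ : 𝓞 F → 𝓞 F, PRC (𝓞 F) 3 n (3 * n) (27 * n) κ) :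
    (∀ (F : Type) [Field F] [NumberField F] [IQ F] (W : WeierstrassCurve ℤ), CMax F W →
      (∀ p : ℕ, p.Prime → 5 ≤ p → ¬ (p : ℤ) ∣ W.Δ → AtP F p W) ∧
      (LNz W ℚ → {p : ℕ | p.Prime ∧ ¬ AnUnitG p W ℚ}.Finite)) ∧
    ∀ p : ℕ, p.Prime → 5 ≤ p → AnUnitG p EZ ℚ := by
  refine ⟨fun F _ _ _ W hC => ?_, fun p hp h5 => H55K.TQ.ex_an hp h5⟩
  obtain ⟨hΔ, hmin, Om, hper⟩ := hC
  obtain ⟨ψ, hH⟩ := base_all0 (hcub F) W Om hΔ hper hmin
  refine ⟨fun p hp h5 hd => ?_, fun hL => ?_⟩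
  · have hP := prime_simple hΔ hper hp h5 hd
    refine ⟨fun K _ _ hK => ?_, H28T.rich_of hH hP, fun H _ _ k hk => H28T.real_Q hH hP H k hk⟩
    obtain ⟨h1, h2, h3⟩ := main_Q hH hP K hK
    exact ⟨int_Q hH hP K hK, h1, h2, h3⟩
  · refine ((prime_almost (W⁄(𝓞 F)) hH.data.ell).union (an_almost hH hL)).subset fun p hp => ?_
    obtain ⟨h1, h2⟩ := hp
    by_cases h3 : PrimeH F (W⁄(𝓞 F)) p
    · exact Or.inr ⟨h1, fun h4 => h2 h4⟩
    · exact Or.inl ⟨h1, h3⟩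

end H55W.Fin
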