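import Mathlib
import Pool.Agent.Lib.H35T.R1
import Pool.Agent.Lib.H55W.S5

/-! # H55W, part K: the cubic residue character of a rational integer -/

open NumberField IsDedekindDomain

namespace H55W

open H55B (O om Prim gen cj Nm)
open H35T (sym3 jac3)

theorem k1_root : IsPrimitiveRoot (om : O) 3 := by
  have h3 : (om : O) ^ 3 = 1 := H35T.r1_om3
  have h1 : (om : O) ≠ 1 := by
    intro h
    have h2 := H55B.om_rel
    rw [h] at h2
    have h4 : ((3 : ℤ) : O) = ((0 : ℤ) : O) := by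
      push_cast
      linear_combination h2
    have h5 : (3 : ℤ) = 0 := by exact_mod_cast h4
    omega
  exact (IsPrimitiveRoot.iff_orderOf.2 (orderOf_eq_prime h3 h1))

theorem k1_pp {v : HeightOneSpectrum O} (h3 : (3 : O) ∉ v.asIdeal) : PP 3 om v.asIdeal :=
  ⟨v.isPrime, v.ne_bot, by exact_mod_cast h3, k1_root, by norm_num⟩

theorem k1_ps {v : HeightOneSpectrum O} (h3 : (3 : O) ∉ v.asIdeal) (x : O) : ps 3 om v.asIdeal x = sym3 v x := by
  by_cases hx : x ∈ v.asIdeal
  · rw [ps_zero (k1_pp h3) hx, H35T.sym3_zero hx]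
  · obtain ⟨h1, h2⟩ := H35T.sym3_spec h3 hx
    obtain ⟨i, hi⟩ : ∃ i : ℕ, sym3 v x = om ^ i := by
      rcases h2 with h | h | h
      · exact ⟨0, by rw [h, pow_zero]⟩
      · exact ⟨1, by rw [h, pow_one]⟩
      · exact ⟨2, h⟩
    rw [hi] at h1 ⊢
    exact ps_uniq (k1_pp h3) h1

/-- The cubic symbol. -/
noncomputable def J3 (x y : O) : O := pj 3 om (Ideal.span {x}) y

theorem k1_pj : ∀ l : Multiset (HeightOneSpectrum O), (∀ v ∈ l, (3 : O) ∉ v.asIdeal) → ∀ y : O,
    J3 (l.map gen).prod y = jac3 l y := by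
  intro l
  induction l using Multiset.induction_on with
  | empty =>
    intro _ y
    unfold J3 jac3
    rw [Multiset.map_zero, Multiset.prod_zero, Multiset.map_zero, Multiset.prod_zero, Ideal.span_singleton_one, pj_top]
  | cons v l ih =>
    intro hl y
    have hv := hl v (Multiset.mem_cons_self v l)
    have hl' : ∀ u ∈ l, (3 : O) ∉ u.asIdeal := fun u hu => hl u (Multiset.mem_cons_of_mem hu)
    have h1 := ih hl' y
    have hne : (l.map gen).prod ≠ 0 := by
      rw [Ne, Multiset.prod_eq_zero_iff]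
      intro h0
      obtain ⟨u, hu, h2⟩ := Multiset.mem_map.1 h0
      exact (H55B.gen_prime u (hl' u hu)).ne_zero h2
    have hgne : gen v ≠ 0 := (H55B.gen_prime v hv).ne_zero
    unfold J3 jac3 at h1 ⊢
    rw [Multiset.map_cons, Multiset.prod_cons, Multiset.map_cons, Multiset.prod_cons, ← Ideal.span_singleton_mul_span_singleton,
      pj_mul_left (by rwa [Ne, Ideal.span_singleton_eq_bot]) (by rwa [Ne, Ideal.span_singleton_eq_bot]), h1,
      ← (H55B.gen_spec v hv).1, pj_prime (k1_pp hv), k1_ps hv]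

theorem k1_PJ {x : O} (hx : IsCoprime x 3) : PJ 3 om (Ideal.span {x}) := by
  refine ⟨?_, ?_, k1_root, by norm_num⟩
  · rw [Ne, Ideal.span_singleton_eq_bot]
    rintro rfl
    rw [isCoprime_zero_left] at hx
    have h1 : IsUnit (((3 : ℤ)) : O) := by exact_mod_cast hx
    have h2 := s5_unit (F := H55B.F) h1
    rw [Int.isUnit_iff] at h2
    omega
  · rw [Ideal.isCoprime_span_singleton_iff]
    exact_mod_cast hx

theorem k1_mul {x : O} (hx : IsCoprime x 3) (y z : O) : J3 x (y * z) = J3 x y * J3 x z := pj_mul (k1_PJ hx) y z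

theorem k1_congr {x : O} (hx : IsCoprime x 3) {y z : O} (h : x ∣ y - z) : J3 x y = J3 x z :=
  pj_congr (k1_PJ hx) (Ideal.mem_span_singleton.2 h)

theorem k1_one {x : O} (hx : IsCoprime x 3) : J3 x 1 = 1 := pj_one (k1_PJ hx)

theorem k1_cube {x y : O} (hx : IsCoprime x 3) (h : IsCoprime x y) : J3 x y ^ 3 = 1 :=
  pj_root (k1_PJ hx) ((Ideal.isCoprime_span_singleton_iff _ _).2 h.symm)

theorem k1_neg {x : O} (hx : IsCoprime x 3) : J3 x (-1) = 1 := by
  have h1 : J3 x (-1) ^ 3 = 1 := k1_cube hx isCoprime_one_right.neg_right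
  have h2 : J3 x (-1) ^ 2 = 1 := by
    rw [pow_two, ← k1_mul hx, neg_one_mul, neg_neg, k1_one hx]
  rw [pow_succ, h2, one_mul] at h1
  exact h1

theorem k1_om {x : O} (hx : IsCoprime x 3) : 3 ∣ Nm x - 1 ∧ J3 x om = om ^ ((Nm x - 1) / 3) := pj_zeta (k1_PJ hx)

theorem k1_left {x x' : O} (hx : x ≠ 0) (hx' : x' ≠ 0) (y : O) : J3 (x * x') y = J3 x y * J3 x' y := by
  unfold J3
  rw [← Ideal.span_singleton_mul_span_singleton,
      pj_mul_left (by rwa [Ne, Ideal.span_singleton_eq_bot]) (by rwa [Ne, Ideal.span_singleton_eq_bot])]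

end H55W
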