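import Mathlib
import Pool.Agent.Lib.H35T.R4
import Pool.Agent.Lib.H55W.K1

/-! # H55W, part K: cubic reciprocity -/

open NumberField IsDedekindDomain

namespace H55W

open H55B (O om Prim gen cj Nm)
open H35T (sym3 jac3)

theorem k2_not {x y : O} (h : IsCoprime x y) (v : HeightOneSpectrum O) (hx : x ∈ v.asIdeal) : y ∉ v.asIdeal := by
  intro hy
  obtain ⟨a, b, hab⟩ := h
  apply v.isPrime.ne_top
  rw [Ideal.eq_top_iff_one, ← hab]
  exact v.asIdeal.add_mem (v.asIdeal.mul_mem_left _ hx) (v.asIdeal.mul_mem_left _ hy)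

/-- The prime factors. -/
theorem k2_mem {l : Multiset (HeightOneSpectrum O)} (hl : ∀ v ∈ l, (3 : O) ∉ v.asIdeal) {v : HeightOneSpectrum O} (hv : v ∈ l) :
    (l.map gen).prod ∈ v.asIdeal :=
  (H55B.gen_dvd_iff v (hl v hv) _).1 (Multiset.dvd_prod (Multiset.mem_map_of_mem _ hv))

/-- Cubic reciprocity for primary elements. -/
theorem k2_rec {x y : O} (hx : Prim x) (hy : Prim y) (h : IsCoprime x y) : J3 x y = J3 y x := by
  obtain ⟨l, hl, rfl⟩ := H35T.factor x hx
  obtain ⟨l', hl', rfl⟩ := H35T.factor y hy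
  rw [k1_pj l hl, k1_pj l' hl']
  unfold jac3
  have e1 : (l.map fun v => sym3 v (l'.map gen).prod) = l.map fun v => (l'.map fun u => sym3 v (gen u)).prod := by
    apply Multiset.map_congr rfl
    intro v hv
    exact H35T.R4_prod (hl v hv) l'
  have e2 : (l'.map fun v => sym3 v (l.map gen).prod) = l'.map fun u => (l.map fun v => sym3 v (gen u)).prod := by
    apply Multiset.map_congr rfl
    intro u hu
    rw [H35T.R4_prod (hl' u hu) l]
    congr 1
    apply Multiset.map_congr rfl
    intro v hv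
    refine H35T.recip_all v u (hl v hv) (hl' u hu) ?_
    rintro rfl
    exact k2_not h v (k2_mem hl hv) (k2_mem hl' hu)
  rw [e1, e2]
  exact Multiset.prod_map_prod_map l l'

/-- The symbol of two rational integers. -/
theorem k2_rat {c d : ℤ} (hc : Prim (c : O)) (h : IsCoprime c d) : J3 (c : O) (d : O) = 1 := by
  have hcd : IsCoprime (c : O) (d : O) := by
    have := h.map (Int.castRingHom O)
    exact this
  have hcj : ∀ n : ℤ, cj (n : O) = n := fun n => map_intCast cj n
  obtain ⟨l, hl, hc'⟩ := H35T.factor (c : O) hc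
  choose! σ hσ using fun (v : HeightOneSpectrum O) (h3 : (3 : O) ∉ v.asIdeal) => H35T.exists_conj v h3
  have h1 : ∀ v ∈ l.map σ, (3 : O) ∉ v.asIdeal := by
    intro v hv
    obtain ⟨u, hu, rfl⟩ := Multiset.mem_map.1 hv
    exact (hσ u (hl u hu)).1
  have h2 : ((l.map σ).map gen).prod = cj (c : O) := by
    rw [hc', map_multiset_prod, Multiset.map_map, Multiset.map_map]
    congr 1
    apply Multiset.map_congr rfl
    intro u hu
    exact (hσ u (hl u hu)).2.1
  have h3 : l.map σ = l := H35T.R4_uniq _ _ h1 hl (by rw [h2, hcj, hc'])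
  have h4 : jac3 (l.map σ) (d : O) = cj (jac3 l (d : O)) := by
    unfold jac3
    rw [map_multiset_prod, Multiset.map_map, Multiset.map_map]
    congr 1
    apply Multiset.map_congr rfl
    intro u hu
    have := (hσ u (hl u hu)).2.2 (d : O)
    rw [hcj] at this
    exact this
  rw [h3] at h4
  rw [hc', k1_pj l hl]
  refine H35T.R4_fixed h4 (H35T.R4_cube fun u hu => H35T.sym3_cube (hl u hu) ?_)
  exact k2_not hcd u (by rw [hc']; exact k2_mem hl hu)

theorem k2_prim {c : ℤ} (h : c % 3 = 1) : Prim (c : O) := by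
  refine ⟨((c / 3 : ℤ) : O), ?_⟩
  have h1 : c = 3 * (c / 3) + 1 := by omega
  have h2 : (c : O) = ((3 * (c / 3) + 1 : ℤ) : O) := by rw [← h1]
  rw [h2]
  push_cast
  ring

theorem k2_cop3 {x : O} (h : Prim x) : IsCoprime x 3 := h.coprime

/-- x = 1 modulo 3 and q: the symbol (q/x) is 1 for a prime number q ≠ 3. -/
theorem k2_prime {q : ℕ} (hq : q.Prime) (h3 : q ≠ 3) {x : O} (hx : Prim x) (hqx : (q : O) ∣ x - 1) : J3 x (q : O) = 1 := by
  have hcop : IsCoprime x (q : O) := by
    obtain ⟨z, hz⟩ := hqx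
    exact ⟨1, -z, by linear_combination hz⟩
  have hq3 : q % 3 = 1 ∨ q % 3 = 2 := by
    have h0 : q % 3 ≠ 0 := fun h => h3 ((Nat.prime_dvd_prime_iff_eq Nat.prime_three hq).1 (Nat.dvd_of_mod_eq_zero h)).symm
    omega
  have hpx := k2_cop3 hx
  rcases hq3 with h1 | h1
  · have hp : Prim (q : O) := by
      have := k2_prim (c := (q : ℤ)) (by omega)
      rwa [Int.cast_natCast] at this
    rw [k2_rec hx hp hcop, k1_congr (k2_cop3 hp) hqx, k1_one (k2_cop3 hp)]
  · have hp : Prim (-(q : O)) := by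
      have := k2_prim (c := -(q : ℤ)) (by omega)
      rwa [Int.cast_neg, Int.cast_natCast] at this
    have h4 : J3 x (q : O) = J3 x (-(q : O)) := by
      rw [← neg_one_mul (q : O), k1_mul hpx, k1_neg hpx, one_mul]
    rw [h4, k2_rec hx hp hcop.neg_right, k1_congr (k2_cop3 hp) (neg_dvd.2 hqx), k1_one (k2_cop3 hp)]

end H55W
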