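import Mathlib
import Pool.Agent.Lib.H55W.K2

/-! # H55W, part K: the cubic residue character of 3 -/

open NumberField IsDedekindDomain

namespace H55W

open H55B (O om Prim gen cj Nm)

theorem k3_gcd (A B : ℤ) (hA : A % 3 = 1) (hB : B % 27 = 0) : ∃ g a b : ℤ, A = g * a ∧ B = g * b ∧ IsCoprime a b ∧ g % 3 = 1 ∧
    a % 3 = 1 ∧ b % 27 = 0 := by
  have hA0 : A ≠ 0 := by rintro rfl; omega
  have hg0 : 0 < Int.gcd A B := Int.gcd_pos_of_ne_zero_left _ hA0
  obtain ⟨a, ha⟩ := Int.gcd_dvd_left A B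
  obtain ⟨b, hb⟩ := Int.gcd_dvd_right A B
  have hcop : IsCoprime a b := by
    have h1 := Int.isCoprime_iff_gcd_eq_one.2 (Int.gcd_div_gcd_div_gcd hg0)
    have h2 : A / (Int.gcd A B : ℤ) = a := Int.ediv_eq_of_eq_mul_right (by omega) ha
    have h3 : B / (Int.gcd A B : ℤ) = b := Int.ediv_eq_of_eq_mul_right (by omega) hb
    rwa [h2, h3] at h1
  set G : ℤ := (Int.gcd A B : ℤ) with hG
  have hGo : G % 3 ≠ 0 := by
    intro h1
    obtain ⟨k, hk⟩ : ∃ k, G = 3 * k := ⟨G / 3, by omega⟩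
    rw [hk] at ha
    have : A = 3 * (k * a) := by rw [ha]; ring
    omega
  have key : ∀ g : ℤ, g % 3 = 1 → ∀ a' b' : ℤ, A = g * a' → B = g * b' → a' % 3 = 1 ∧ b' % 27 = 0 := by
    intro g hg3 a' b' h1 h2
    obtain ⟨k, hk⟩ : ∃ k, g = 3 * k + 1 := ⟨g / 3, by omega⟩
    constructor
    · have : A = 3 * (k * a') + a' := by rw [h1, hk]; ring
      omega
    · have h3 : (27 : ℤ) ∣ g * b' := by rw [← h2]; exact Int.dvd_of_emod_eq_zero hB
      have h5 : IsCoprime (3 : ℤ) g := ⟨-k, 1, by rw [hk]; ring⟩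
      have h6 := IsCoprime.pow_left (m := 3) h5
      norm_num at h6
      exact Int.emod_eq_zero_of_dvd (h6.dvd_of_dvd_mul_left h3)
  have h4 : G % 3 = 1 ∨ G % 3 = 2 := by omega
  rcases h4 with h4 | h4
  · obtain ⟨h5, h6⟩ := key G h4 a b ha hb
    exact ⟨G, a, b, ha, hb, hcop, h4, h5, h6⟩
  · have h7 : A = (-G) * (-a) := by rw [ha]; ring
    have h8 : B = (-G) * (-b) := by rw [hb]; ring
    obtain ⟨h5, h6⟩ := key (-G) (by omega) (-a) (-b) h7 h8
    exact ⟨-G, -a, -b, h7, h8, hcop.neg_neg, by omega, h5, h6⟩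

theorem k3_om3 : (om : O) ^ 3 = 1 := H35T.r1_om3

/-- The exponent of om depends on the norm modulo 9. -/
theorem k3_exp {M N : ℕ} (hM : 3 ∣ M - 1) (hN : 3 ∣ N - 1) (hM1 : 1 ≤ M) (hN1 : 1 ≤ N) {t : ℤ} (h : (M : ℤ) - N = 9 * t) :
    (om : O) ^ ((M - 1) / 3) = om ^ ((N - 1) / 3) := by
  obtain ⟨a, ha⟩ := hM
  obtain ⟨b, hb⟩ := hN
  have h1 : (M - 1) / 3 = a := by omega
  have h2 : (N - 1) / 3 = b := by omega
  rw [h1, h2]
  have h3 : (a : ℤ) - b = 3 * t := by omega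
  have key : ∀ n k : ℕ, (om : O) ^ (n + 3 * k) = om ^ n := fun n k => by
    rw [pow_add, pow_mul, k3_om3, one_pow, mul_one]
  rcases le_total a b with hab | hab
  · obtain ⟨k, hk⟩ : ∃ k : ℕ, b = a + 3 * k := ⟨(-t).toNat, by omega⟩
    rw [hk, key]
  · obtain ⟨k, hk⟩ : ∃ k : ℕ, a = b + 3 * k := ⟨t.toNat, by omega⟩
    rw [hk, key]

theorem k3_pos {x : O} (hx : x ≠ 0) : 1 ≤ Nm x := Nat.pos_of_ne_zero fun h => hx (H55B.Nm_eq_zero.1 h)

theorem k3_three {x : O} (hx : (27 : O) ∣ x - 1) : J3 x 3 = 1 := by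
  obtain ⟨z, hz⟩ := hx
  obtain ⟨c, d, hcd⟩ := H55B.exists_repr z
  obtain ⟨g, a, b, hA, hB, hab, hg, ha, hb⟩ := k3_gcd (1 + 27 * c) (27 * d) (by omega) (by omega)
  set y : O := (a : O) + (b : O) * om with hy
  have hxy : x = (g : O) * y := by
    have h1 : ((1 + 27 * c : ℤ) : O) = ((g * a : ℤ) : O) := by rw [hA]
    have h2 : ((27 * d : ℤ) : O) = ((g * b : ℤ) : O) := by rw [hB]
    push_cast at h1 h2
    rw [hy]
    rw [hcd] at hz
    linear_combination hz + h1 + om * h2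
  obtain ⟨a1, ha1⟩ : ∃ a1, a = 3 * a1 + 1 := ⟨a / 3, by omega⟩
  obtain ⟨b1, hb1⟩ : ∃ b1, b = 27 * b1 := ⟨b / 27, by omega⟩
  have hyP : Prim y := by
    refine ⟨(a1 : O) + 9 * (b1 : O) * om, ?_⟩
    rw [hy, ha1, hb1]; push_cast; ring
  have hgP : Prim (g : O) := k2_prim hg
  have haP : Prim (a : O) := k2_prim ha
  have hcP : Prim ((a + b : ℤ) : O) := k2_prim (by omega)
  have hg3 := k2_cop3 hgP
  have hy3 := k2_cop3 hyP
  have ha3 := k2_cop3 haP
  have hc3 := k2_cop3 hcP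
  rw [hxy, k1_left hgP.ne_zero hyP.ne_zero]
  have hg1 : J3 (g : O) 3 = 1 := by
    have : J3 (g : O) ((3 : ℤ) : O) = 1 := by
      apply k2_rat hgP
      obtain ⟨k, hk⟩ : ∃ k, g = 3 * k + 1 := ⟨g / 3, by omega⟩
      exact ⟨1, -k, by rw [hk]; ring⟩
    rwa [Int.cast_ofNat] at this
  rw [hg1, one_mul]
  -- coprimality
  have hNm : ((Nm y : ℕ) : ℤ) = a ^ 2 - a * b + b ^ 2 := H55B.Nm_repr a b
  have hyN : y ∣ ((a ^ 2 - a * b + b ^ 2 : ℤ) : O) := by
    refine ⟨cj y, ?_⟩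
    rw [H55B.mul_cj, ← hNm, Int.cast_natCast]
  have hya : IsCoprime y (a : O) := by
    have h2 : IsCoprime (a ^ 2 - a * b + b ^ 2) a := by
      have h3 : IsCoprime (b ^ 2) a := (IsCoprime.pow_right (n := 2) hab).symm
      have h4 : a ^ 2 - a * b + b ^ 2 = b ^ 2 + a * (a - b) := by ring
      rw [h4]
      exact IsCoprime.add_mul_left_left h3 _
    have h3 := h2.map (Int.castRingHom O)
    exact h3.of_isCoprime_of_dvd_left hyN
  have hyb : IsCoprime y (b : O) := by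
    have h2 : IsCoprime (a ^ 2 - a * b + b ^ 2) b := by
      have h3 : IsCoprime (a ^ 2) b := (IsCoprime.pow_left (m := 2) hab)
      have h4 : a ^ 2 - a * b + b ^ 2 = a ^ 2 + b * (b - a) := by ring
      rw [h4]
      exact IsCoprime.add_mul_left_left h3 _
    have h3 := h2.map (Int.castRingHom O)
    exact h3.of_isCoprime_of_dvd_left hyN
  have hyc : IsCoprime y ((a + b : ℤ) : O) := by
    have h5 : IsCoprime a (a + b) := by
      have := IsCoprime.add_mul_left_right hab 1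
      rwa [mul_one, add_comm] at this
    have h2 : IsCoprime (a ^ 2 - a * b + b ^ 2) (a + b) := by
      have h3 : IsCoprime (3 : ℤ) (a + b) := ⟨-(a1 + 9 * b1), 1, by rw [ha1, hb1]; ring⟩
      have h6 : IsCoprime (3 * a ^ 2) (a + b) := h3.mul_left (IsCoprime.pow_left h5)
      have h4 : a ^ 2 - a * b + b ^ 2 = 3 * a ^ 2 + (a + b) * (b - 2 * a) := by ring
      rw [h4]
      exact IsCoprime.add_mul_left_left h6 _
    have h3 := h2.map (Int.castRingHom O)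
    exact h3.of_isCoprime_of_dvd_left hyN
  have hca : IsCoprime ((a + b : ℤ) : O) (a : O) := by
    have h5 : IsCoprime (a + b) a := by
      have := IsCoprime.add_mul_left_right hab 1
      rw [mul_one, add_comm] at this
      exact this.symm
    exact h5.map (Int.castRingHom O)
  -- the elements
  have hu : IsUnit (om : O) := IsUnit.of_mul_eq_one (om ^ 2) (by linear_combination (om - 1) * H55B.om_rel)
  have hcu : ∀ x : O, IsCoprime x om := fun x => by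
    obtain ⟨v, hv⟩ := hu.exists_left_inv
    exact ⟨0, v, by rw [zero_mul, zero_add, hv]⟩
  have hlam : ∀ {x : O}, IsCoprime x 3 → IsCoprime x (om - 1) := fun {x} hx =>
    hx.of_isCoprime_of_dvd_right H55B.Z3_lam_dvd_three
  obtain ⟨T, hT⟩ : ∃ T, J3 y om = T := ⟨_, rfl⟩
  obtain ⟨U, hU⟩ : ∃ U, J3 (a : O) om = U := ⟨_, rfl⟩
  obtain ⟨t, ht⟩ : ∃ t, J3 ((a + b : ℤ) : O) om = t := ⟨_, rfl⟩
  obtain ⟨S, hS⟩ : ∃ S, J3 y (om - 1) = S := ⟨_, rfl⟩
  obtain ⟨s, hs⟩ : ∃ s, J3 ((a + b : ℤ) : O) (om - 1) = s := ⟨_, rfl⟩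
  obtain ⟨B, hBB⟩ : ∃ B, J3 y (b : O) = B := ⟨_, rfl⟩
  have hT3 : T ^ 3 = 1 := by rw [← hT]; exact k1_cube hy3 (hcu y)
  have ht3 : t ^ 3 = 1 := by rw [← ht]; exact k1_cube hc3 (hcu _)
  have hS3 : S ^ 3 = 1 := by rw [← hS]; exact k1_cube hy3 (hlam hy3)
  have hs3 : s ^ 3 = 1 := by rw [← hs]; exact k1_cube hc3 (hlam hc3)
  have hB3 : B ^ 3 = 1 := by rw [← hBB]; exact k1_cube hy3 hyb
  -- 3 = -om^2 (om - 1)^2
  have h3y : J3 y 3 = T ^ 2 * S ^ 2 := by
    rw [H55B.three_eq]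
    have e1 : (-om ^ 2 * (om - 1) ^ 2 : O) = (-1) * (om * om * ((om - 1) * (om - 1))) := by ring
    rw [e1, k1_mul hy3, k1_neg hy3, k1_mul hy3, k1_mul hy3, k1_mul hy3, hT, hS]
    ring
  have h3c : t ^ 2 * s ^ 2 = 1 := by
    have h5 : J3 ((a + b : ℤ) : O) 3 = 1 := by
      have : J3 ((a + b : ℤ) : O) ((3 : ℤ) : O) = 1 := by
        apply k2_rat hcP
        exact ⟨1, -(a1 + 9 * b1), by rw [ha1, hb1]; ring⟩
      rwa [Int.cast_ofNat] at this
    rw [← h5, H55B.three_eq]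
    have e1 : (-om ^ 2 * (om - 1) ^ 2 : O) = (-1) * (om * om * ((om - 1) * (om - 1))) := by ring
    rw [e1, k1_mul hc3, k1_neg hc3, k1_mul hc3, k1_mul hc3, k1_mul hc3, ht, hs]
    ring
  -- a = - b om modulo y
  have hBT : B * T = U := by
    have h5 : J3 y (a : O) = B * T := by
      have h6 : J3 y (a : O) = J3 y ((-1) * ((b : O) * om)) := by
        apply k1_congr hy3
        exact ⟨1, by rw [hy]; ring⟩
      rw [h6, k1_mul hy3, k1_neg hy3, k1_mul hy3, hBB, hT, one_mul]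
    have h7 : J3 y (a : O) = U := by
      rw [k2_rec hyP haP hya]
      have h6 : J3 (a : O) y = J3 (a : O) ((b : O) * om) := by
        apply k1_congr ha3
        exact ⟨1, by rw [hy]; ring⟩
      rw [h6, k1_mul ha3, k2_rat haP hab, one_mul, hU]
    rw [← h5, h7]
  -- a + b = - b (om - 1) modulo y
  have hBS : B * S = s := by
    have h5 : J3 y ((a + b : ℤ) : O) = B * S := by
      have h6 : J3 y ((a + b : ℤ) : O) = J3 y ((-1) * ((b : O) * (om - 1))) := by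
        apply k1_congr hy3
        exact ⟨1, by rw [hy]; push_cast; ring⟩
      rw [h6, k1_mul hy3, k1_neg hy3, k1_mul hy3, hBB, hS, one_mul]
    have h7 : J3 y ((a + b : ℤ) : O) = s := by
      rw [k2_rec hyP hcP hyc]
      have h6 : J3 ((a + b : ℤ) : O) y = J3 ((a + b : ℤ) : O) ((-1) * ((a : O) * (om - 1))) := by
        apply k1_congr hc3
        exact ⟨om, by rw [hy]; push_cast; ring⟩
      have h8 : IsCoprime (a + b) a := by
        have := IsCoprime.add_mul_left_right hab 1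
        rw [mul_one, add_comm] at this
        exact this.symm
      rw [h6, k1_mul hc3, k1_neg hc3, k1_mul hc3, k2_rat hcP h8, one_mul, one_mul, hs]
    rw [← h5, h7]
  -- the exponents
  obtain ⟨d1, e1⟩ := k1_om hy3
  obtain ⟨d2, e2⟩ := k1_om ha3
  obtain ⟨d3, e3⟩ := k1_om hc3
  have n2 : ((Nm (a : O) : ℕ) : ℤ) = a ^ 2 := by
    have := H55B.Nm_repr a 0
    rw [Int.cast_zero, zero_mul, add_zero] at this
    rw [this]; ring
  have n3 : ((Nm ((a + b : ℤ) : O) : ℕ) : ℤ) = (a + b) ^ 2 := by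
    have := H55B.Nm_repr (a + b) 0
    rw [Int.cast_zero, zero_mul, add_zero] at this
    rw [this]; ring
  have hTU : T = U := by
    rw [← hT, ← hU, e1, e2]
    refine k3_exp d1 d2 (k3_pos hyP.ne_zero) (k3_pos haP.ne_zero) (t := 3 * (-a * b1 + 27 * b1 ^ 2)) ?_
    rw [hNm, n2, hb1]
    ring
  have htU : t = U := by
    rw [← ht, ← hU, e3, e2]
    refine k3_exp d3 d2 (k3_pos hcP.ne_zero) (k3_pos haP.ne_zero) (t := 3 * (2 * a * b1 + 27 * b1 ^ 2)) ?_
    rw [n3, n2, hb1]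
    ring
  rw [h3y]
  rw [← hTU] at htU hBT
  rw [htU] at h3c
  -- B T = T, so B = 1, S = s, T^2 s^2 = 1
  have hT0 : T ≠ 0 := by
    rintro rfl
    norm_num at hT3
  have hB1 : B = 1 := mul_right_cancel₀ hT0 (by rw [hBT, one_mul])
  rw [hB1, one_mul] at hBS
  rw [hBS, h3c]

end H55W
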