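import Mathlib
import Pool.Agent.Lib.H55W.K3

/-! # H55W, part K: the cubic residue character of a rational integer -/

open NumberField IsDedekindDomain

namespace H55W

open H55B (O om Prim gen cj Nm)

theorem k4_ind (N : ℕ) : ∀ n : ℤ, n.natAbs = N → n ≠ 0 → ∀ x : O, ((27 * n : ℤ) : O) ∣ x - 1 → J3 x (n : O) = 1 := by
  induction N using Nat.strong_induction_on with
  | _ N ih =>
  intro n hN hn x hx
  have hx27 : (27 : O) ∣ x - 1 := by
    refine Dvd.dvd.trans ⟨(n : O), ?_⟩ hx
    push_cast; ring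
  have hpry : Prim x := Dvd.dvd.trans (⟨9, by norm_num⟩ : (3 : O) ∣ 27) hx27
  have h3 := k2_cop3 hpry
  by_cases h1 : n.natAbs = 1
  · rcases Int.natAbs_eq n with h2 | h2 <;> rw [h1] at h2 <;> subst h2
    · rw [Nat.cast_one, Int.cast_one]; exact k1_one h3
    · rw [Nat.cast_one, Int.cast_neg, Int.cast_one]
      exact k1_neg h3
  · obtain ⟨q, hq, hqn⟩ := Nat.exists_prime_and_dvd h1
    have hqz : (q : ℤ) ∣ n := Int.natCast_dvd.2 hqn
    obtain ⟨n', hn'⟩ := hqz
    have h4 : n' ≠ 0 := by rintro rfl; apply hn; rw [hn']; ring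
    have h5 : n'.natAbs < N := by
      rw [← hN, hn', Int.natAbs_mul, Int.natAbs_natCast]
      have := hq.two_le
      have h6 : 0 < n'.natAbs := Int.natAbs_pos.2 h4
      nlinarith
    have h6 := ih n'.natAbs h5 n' rfl h4 x (by
      refine Dvd.dvd.trans ⟨(q : O), ?_⟩ hx
      rw [hn']; push_cast; ring)
    have h2 : J3 x (q : O) = 1 := by
      by_cases hq3 : q = 3
      · subst hq3
        rw [Nat.cast_ofNat]
        exact k3_three hx27
      · apply k2_prime hq hq3 hpry
        have h4 : (q : ℤ) ∣ 27 * n := (Int.natCast_dvd.2 hqn).mul_left _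
        have h7 := (Int.cast_dvd_cast (α := O) _ _ h4).trans hx
        rwa [Int.cast_natCast] at h7
    rw [hn', Int.cast_mul, Int.cast_natCast, k1_mul h3, h2, h6, one_mul]

theorem cub_O {n : ℤ} (hn : n ≠ 0) : ∃ κ : O → O, PRC O 3 n (3 * n) (27 * n) κ := by
  have h1 := prc_of (m := 3) k1_root (by norm_num) (n := n) (k := 27 * n) hn (j := 3) ⟨n ^ 2, by push_cast; ring⟩ ⟨9, by push_cast; ring⟩
      (fun x hx => k4_ind _ n rfl hn x hx)
  exact ⟨fun x => pj 3 om (Ideal.span {x}) (n : O), by exact_mod_cast h1⟩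

theorem prc_equiv {R R' : Type} [CommRing R] [CommRing R'] (e : R' ≃+* R) {m : ℕ} {n c k : ℤ} {κ : R → R} (h : PRC R m n c k κ) :
    PRC R' m n c k (fun x => e.symm (κ (e x))) := by
  have hc : ∀ z : ℤ, e (z : R') = (z : R) := fun z => map_intCast e z
  have hcop : ∀ x : R', IsCoprime x (c : R') → IsCoprime (e x) (c : R) := fun x hx => by
    have := hx.map (e : R' →+* R)
    rw [RingEquiv.coe_toRingHom, hc] at this
    exact this
  refine ⟨fun x hx => ?_, fun x y hx hy => ?_, fun x y hx hy hxy => ?_, fun u hu => ?_, fun π hπ h1 h2 => ?_⟩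
  · rw [← map_pow, h.root _ (hcop x hx), map_one]
  · show e.symm (κ (e (x * y))) = e.symm (κ (e x)) * e.symm (κ (e y))
    rw [map_mul, h.mul _ _ (hcop x hx) (hcop y hy), map_mul]
  · have h1 : (k : R) ∣ e x - e y := by
      have := map_dvd e hxy
      rwa [map_sub, hc] at this
    show e.symm (κ (e x)) = e.symm (κ (e y))
    rw [h.per _ _ (hcop x hx) (hcop y hy) h1]
  · show e.symm (κ (e u)) = 1
    rw [h.unit _ (hu.map e), map_one]
  · have hπ' : Prime (e π) := (MulEquiv.prime_iff e).2 hπ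
    have h1' : ¬ e π ∣ (c : R) := fun h3 => h1 (by
      have := map_dvd e.symm h3
      rw [RingEquiv.symm_apply_apply, map_intCast] at this
      exact this)
    have h2' : ¬ e π ∣ (m : R) := fun h3 => h2 (by
      have := map_dvd e.symm h3
      rw [RingEquiv.symm_apply_apply, map_natCast] at this
      exact this)
    have h3 := h.euler (e π) hπ' h1' h2'
    have h4 : Nat.card (R ⧸ Ideal.span {e π}) = Nat.card (R' ⧸ Ideal.span {π}) := by
      symm
      apply Nat.card_congr
      refine (Ideal.quotientEquiv (Ideal.span {π}) (Ideal.span {e π}) e ?_).toEquiv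
      rw [Ideal.map_span, Set.image_singleton]
      rfl
    rw [h4] at h3
    have h5 := map_dvd e.symm h3
    rw [RingEquiv.symm_apply_apply, map_sub, map_pow, map_intCast] at h5
    exact h5

theorem k4_iso {F : Type} [Field F] [NumberField F] (hdeg : Module.finrank ℚ F = 2) {w : F} (hw : w ^ 2 + w + 1 = 0) :
    Nonempty (F ≃ₐ[ℚ] H55B.F) := by
  have hr : IsPrimitiveRoot w 3 := by
    have h3 : w ^ 3 = 1 := by linear_combination (w - 1) * hw
    have h1 : w ≠ 1 := by
      intro h
      rw [h] at hw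
      norm_num at hw
    exact (IsPrimitiveRoot.iff_orderOf.2 (orderOf_eq_prime h3 h1))
  have hd : Module.finrank ℚ H55B.F = 2 := by
    have h := IsCyclotomicExtension.finrank (n := 3) H55B.F
      (Polynomial.cyclotomic.irreducible_rat (by norm_num))
    rw [h]
    decide
  have hint : IsIntegral ℚ (IsCyclotomicExtension.zeta 3 ℚ H55B.F) := (IsCyclotomicExtension.integral {3} ℚ H55B.F).isIntegral _
  let pb := IsPrimitiveRoot.powerBasis ℚ H55B.zeta_spec
  have hmin : minpoly ℚ pb.gen = Polynomial.cyclotomic 3 ℚ := by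
    rw [IsPrimitiveRoot.powerBasis_gen]
    exact (Polynomial.cyclotomic_eq_minpoly_rat H55B.zeta_spec (by norm_num)).symm
  let f : H55B.F →ₐ[ℚ] F := pb.lift w (by
    rw [hmin, Polynomial.aeval_def, Polynomial.eval₂_eq_eval_map, Polynomial.map_cyclotomic]
    have := hr.isRoot_cyclotomic (by norm_num : 0 < 3)
    exact this)
  have hinj : Function.Injective f.toLinearMap := (f : H55B.F →+* F).injective
  have hsurj : Function.Surjective f.toLinearMap :=
    (LinearMap.injective_iff_surjective_of_finrank_eq_finrank (by rw [hd, hdeg])).1 hinj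
  exact ⟨(AlgEquiv.ofBijective f ⟨hinj, hsurj⟩).symm⟩

/-- The cubic residue character of a rational integer, all fields. -/
theorem cub_F (F : Type) [Field F] [NumberField F] (hdeg : Module.finrank ℚ F = 2) (w : 𝓞 F) (hw : w ^ 2 + w + 1 = 0) (n : ℤ)
    (hn : n ≠ 0) : ∃ κ : 𝓞 F → 𝓞 F, PRC (𝓞 F) 3 n (3 * n) (27 * n) κ := by
  have hwF : (w : F) ^ 2 + (w : F) + 1 = 0 := by
    have := congrArg (algebraMap (𝓞 F) F) hw
    rwa [map_add, map_add, map_pow, map_one, map_zero] at this
  obtain ⟨e⟩ := k4_iso hdeg hwF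
  obtain ⟨κ, h⟩ := cub_O hn
  exact ⟨_, prc_equiv (NumberField.RingOfIntegers.mapRingEquiv e) h⟩

end H55W
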